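import Mathlib

set_option autoImplicit false

/-!
Tilings of the Gaussian integers by rotated copies of a finite set.
-/

namespace Pool.Agent.Lib.MP_dae7ec_co

open Finset

/-- the `k`-th power of the imaginary unit -/
def rot (k : Fin 4) : GaussianInt := (⟨0, 1⟩ : GaussianInt) ^ (k : ℕ)

/-- The finite set `S` tiles the Gaussian integers by rotated copies: `P k b` says that the copy
`rot k * S + b` is used, and every point is covered exactly once. -/
def RotTiles (S : Finset GaussianInt) : Prop :=
  ∃ P : Fin 4 → GaussianInt → Bool,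
    ∀ w : GaussianInt, ∑ k : Fin 4, ∑ s ∈ S, (P k (w - rot k * s)).toNat = 1

theorem rot_zero : rot 0 = 1 := rfl
theorem rot_one : rot 1 = ⟨0, 1⟩ := by simp [rot]
theorem rot_two : rot 2 = -1 := by
  ext <;> simp [rot, pow_succ]
theorem rot_three : rot 3 = ⟨0, -1⟩ := by
  ext <;> simp [rot, pow_succ]

theorem RotTiles.translate {S : Finset GaussianInt} (h : RotTiles S) (a : GaussianInt) :
    RotTiles (S.image fun s => a + s) := by
  obtain ⟨P, hP⟩ := h
  refine ⟨fun k b => P k (b + rot k * a), fun w => ?_⟩
  rw [← hP w]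
  refine Finset.sum_congr rfl fun k _ => ?_
  rw [Finset.sum_image (fun x _ y _ hxy => add_left_cancel hxy)]
  refine Finset.sum_congr rfl fun s _ => ?_
  show (P k (w - rot k * (a + s) + rot k * a)).toNat = (P k (w - rot k * s)).toNat
  rw [show w - rot k * (a + s) + rot k * a = w - rot k * s by ring]

theorem RotTiles.scale {S : Finset GaussianInt} (h : RotTiles S) {d : GaussianInt} (hd : d ≠ 0) :
    RotTiles (S.image fun s => d * s) := by
  obtain ⟨P, hP⟩ := h
  -- representatives modulo `d`
  have hex : ∀ w : GaussianInt, ∃ c : GaussianInt,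
      w = Quotient.out (Ideal.Quotient.mk (Ideal.span {d}) w) + d * c := by
    intro w
    have h1 : Ideal.Quotient.mk (Ideal.span {d}) w
        = Ideal.Quotient.mk (Ideal.span {d}) (Quotient.out (Ideal.Quotient.mk (Ideal.span {d}) w)) :=
      (Quotient.out_eq (Ideal.Quotient.mk (Ideal.span {d}) w)).symm
    rw [Ideal.Quotient.eq, Ideal.mem_span_singleton] at h1
    obtain ⟨c, hc⟩ := h1
    exact ⟨c, by rw [← hc]; ring⟩
  choose c hc using hex
  have hshift : ∀ w s, c (w - d * s) = c w - s := by
    intro w s
    have h1 : Ideal.Quotient.mk (Ideal.span {d}) (w - d * s)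
        = Ideal.Quotient.mk (Ideal.span {d}) w := by
      rw [Ideal.Quotient.eq, Ideal.mem_span_singleton]
      exact ⟨-s, by ring⟩
    have h2 := hc (w - d * s)
    rw [h1] at h2
    have h3 := hc w
    have h4 : d * c (w - d * s) = d * (c w - s) := by
      linear_combination h3 - h2
    exact mul_left_cancel₀ hd h4
  refine ⟨fun k b => P k (c b), fun w => ?_⟩
  rw [← hP (c w)]
  refine Finset.sum_congr rfl fun k _ => ?_
  rw [Finset.sum_image (fun x _ y _ hxy => mul_left_cancel₀ hd hxy)]
  refine Finset.sum_congr rfl fun s _ => ?_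
  show (P k (c (w - rot k * (d * s)))).toNat = (P k (c w - rot k * s)).toNat
  rw [show rot k * (d * s) = d * (rot k * s) by ring, hshift]

end Pool.Agent.Lib.MP_dae7ec_co
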