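import Pool.Agent.Lib.MP_dae7ec_co.Basic

set_option autoImplicit false

/-!
Finite certificates for tilings of the Gaussian integers by rotated copies of five integers.

A certificate describes an exact cover of a finite set of cells `(c, s)`, `c` a residue modulo five
and `s` a string of bits, by pieces; the cells are pulled back to the Gaussian integers with the
residue modulo five of a linear form and binary digits of shifted values of linear forms.
-/

namespace Pool.Agent.Lib.MP_dae7ec_co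

open Finset

/-- a binary digit: the parity of the floor of `u / h` -/
def bitI (h u : ℤ) : Bool := decide (u / h % 2 = 1)

theorem bitI_add {h : ℤ} (hh : h ≠ 0) (u n : ℤ) (f : Bool) :
    bitI h (u + h * ((f.toNat : ℤ) + 2 * n)) = xor (bitI h u) f := by
  unfold bitI
  rw [Int.add_mul_ediv_left _ _ hh]
  rcases Int.emod_two_eq_zero_or_one (u / h) with h1 | h1 <;> cases f
  · have h2 : ¬ ((u / h + (((false : Bool).toNat : ℤ) + 2 * n)) % 2 = 1) := by
      simp only [Bool.toNat_false]; omega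
    rw [decide_eq_false h2, h1]; rfl
  · have h2 : ((u / h + (((true : Bool).toNat : ℤ) + 2 * n)) % 2 = 1) := by
      simp only [Bool.toNat_true]; omega
    rw [decide_eq_true h2, h1]; rfl
  · have h2 : ((u / h + (((false : Bool).toNat : ℤ) + 2 * n)) % 2 = 1) := by
      simp only [Bool.toNat_false]; omega
    rw [decide_eq_true h2, h1]; rfl
  · have h2 : ¬ ((u / h + (((true : Bool).toNat : ℤ) + 2 * n)) % 2 = 1) := by
      simp only [Bool.toNat_true]; omega
    rw [decide_eq_false h2, h1]; rfl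

/-- strings of five bits as numbers -/
def toS (x b0 b1 b2 b3 : Bool) : ℕ :=
  x.toNat + 2 * b0.toNat + 4 * b1.toNat + 8 * b2.toNat + 16 * b3.toNat

theorem toS_xor : ∀ x b0 b1 b2 b3 y d0 d1 d2 d3 : Bool,
    toS x b0 b1 b2 b3 ^^^ toS y d0 d1 d2 d3 =
      toS (xor x y) (xor b0 d0) (xor b1 d1) (xor b2 d2) (xor b3 d3) := by decide +kernel

theorem toS_mod4 : ∀ x b0 b1 b2 b3 : Bool, toS x b0 b1 b2 b3 % 4 = toS x b0 false false false := by
  decide +kernel

theorem toS_mod8 : ∀ x b0 b1 b2 b3 : Bool, toS x b0 b1 b2 b3 % 8 = toS x b0 b1 false false := by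
  decide +kernel

theorem toS_mod16 : ∀ x b0 b1 b2 b3 : Bool, toS x b0 b1 b2 b3 % 16 = toS x b0 b1 b2 false := by
  decide +kernel

theorem toS_lt : ∀ x b0 b1 b2 b3 : Bool, toS x b0 b1 b2 b3 < 32 := by
  decide +kernel

/-- the `k`-th entry of the potential with index `i`, increased by four -/
def dg (T i k : ℕ) : ℕ := (T >>> (12 * i + 3 * k)) % 8

/-- the value of a potential -/
def potV (g : Fin 4 → ℤ) (T i : ℕ) : ℤ := ∑ k : Fin 4, ((dg T i k : ℤ) - 4) * g k

/-- A certificate: `lev k` is the level of the `k`-th generator `t (b k) - t (a k)`, which occurs in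
the points `i` with `testBit (B k) i`; `m` and `q1, q2, q3` give the action of the imaginary unit;
`P` are the bit masks of the pieces, `T` the tables of potentials; the other fields are derived. -/
structure Cert where
  (l0 l1 l2 l3 : ℕ)
  (a0 a1 a2 a3 : Fin 5)
  (b0 b1 b2 b3 : Fin 5)
  (B0 B1 B2 B3 : ℕ)
  m : ZMod 5
  (q1 q2 q3 : Bool)
  (P0 P1 P2 P3 : ℕ)
  (T1 T2 T3 : ℕ)

namespace Cert

/-- level of a generator -/
def lev (C : Cert) : Fin 4 → ℕ := ![C.l0, C.l1, C.l2, C.l3]
/-- smaller end of a generator -/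
def a (C : Cert) : Fin 4 → Fin 5 := ![C.a0, C.a1, C.a2, C.a3]
/-- larger end of a generator -/
def b (C : Cert) : Fin 4 → Fin 5 := ![C.b0, C.b1, C.b2, C.b3]
/-- generators of a point -/
def e (C : Cert) (i : Fin 5) (k : Fin 4) : Bool :=
  Nat.testBit ((![C.B0, C.B1, C.B2, C.B3] : Fin 4 → ℕ) k) i
/-- masks of the pieces -/
def P (C : Cert) : Fin 4 → ℕ := ![C.P0, C.P1, C.P2, C.P3]

/-- the bit of level `l` changes along the point `i` -/
def flip (C : Cert) (l : ℕ) (i : Fin 5) : Bool :=
  xor (xor (decide (C.l0 = l) && C.e i 0) (decide (C.l1 = l) && C.e i 1))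
    (xor (decide (C.l2 = l) && C.e i 2) (decide (C.l3 = l) && C.e i 3))

/-- the level is present -/
def act (C : Cert) (l : ℕ) : Bool :=
  decide (C.l0 = l) || decide (C.l1 = l) || decide (C.l2 = l) || decide (C.l3 = l)

/-- the shallow part of a point, for the level `l` -/
def sh (C : Cert) (l : ℕ) (i : Fin 5) (k : Fin 4) : ℕ :=
  (decide (C.lev k < l) && C.e i k).toNat

/-- sign of the imaginary part in the linear form of the level -/
def kp (C : Cert) (l : ℕ) : Bool :=
  if l = 1 then C.q1 else if l = 2 then C.q2 else if l = 3 then C.q3 else true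
/-- action of the rotations on the binary digits -/
def eps (C : Cert) (l : ℕ) : Fin 4 → ℤ := ![1, if C.kp l then 1 else -1, -1, if C.kp l then -1 else 1]
/-- sign of `eps` -/
def pos (C : Cert) (l : ℕ) : Fin 4 → Bool := ![true, C.kp l, false, !C.kp l]
/-- action of the rotations on the residues -/
def mu (C : Cert) : Fin 4 → ZMod 5 := ![1, C.m, -1, -C.m]
/-- the rotation moves the imaginary part -/
def tw : Fin 4 → Bool := ![false, true, false, true]

end Cert

/-- cells -/
structure Cell where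
  c : ZMod 5
  x : Bool
  b0 : Bool
  b1 : Bool
  b2 : Bool
  b3 : Bool

/-- index of a cell -/
def Cell.idx (q : Cell) : ℕ := q.c.val + 5 * toS q.x q.b0 q.b1 q.b2 q.b3
/-- index of the node of level one -/
def Cell.idx1 (q : Cell) : ℕ := q.c.val + 5 * toS q.x q.b0 false false false
/-- index of the node of level two -/
def Cell.idx2 (q : Cell) : ℕ := q.c.val + 5 * toS q.x q.b0 q.b1 false false
/-- index of the node of level three -/
def Cell.idx3 (q : Cell) : ℕ := q.c.val + 5 * toS q.x q.b0 q.b1 q.b2 false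

/-- the cell moved along the point `i` of the piece with orientation `k`, starting from label `c` -/
def Cert.move (C : Cert) (c : Fin 5 → ZMod 5) (k : Fin 4) (i : Fin 5) (q : Cell) : Cell where
  c := q.c + C.mu k * c i
  x := xor q.x (Cert.tw k && C.flip 0 i)
  b0 := xor q.b0 (C.flip 0 i)
  b1 := xor q.b1 (C.flip 1 i)
  b2 := xor q.b2 (C.flip 2 i)
  b3 := xor q.b3 (C.flip 3 i)

/-- moving back -/
def Cert.back (C : Cert) (c : Fin 5 → ZMod 5) (k : Fin 4) (i : Fin 5) (q : Cell) : Cell where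
  c := q.c - C.mu k * c i
  x := xor q.x (Cert.tw k && C.flip 0 i)
  b0 := xor q.b0 (C.flip 0 i)
  b1 := xor q.b1 (C.flip 1 i)
  b2 := xor q.b2 (C.flip 2 i)
  b3 := xor q.b3 (C.flip 3 i)

theorem Cell.ext' {p q : Cell} (h : p.c = q.c) (hx : p.x = q.x) (h0 : p.b0 = q.b0)
    (h1 : p.b1 = q.b1) (h2 : p.b2 = q.b2) (h3 : p.b3 = q.b3) : p = q := by
  cases p; cases q
  simp only at h hx h0 h1 h2 h3
  subst h hx h0 h1 h2 h3
  rfl

theorem xor_xor_cancel (a b : Bool) : xor (xor a b) b = a := by cases a <;> cases b <;> rfl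

theorem Cert.move_back (C : Cert) (c : Fin 5 → ZMod 5) (k : Fin 4) (i : Fin 5) (q : Cell) :
    C.move c k i (C.back c k i q) = q := by
  apply Cell.ext'
  · show q.c - C.mu k * c i + C.mu k * c i = q.c
    ring
  all_goals exact xor_xor_cancel _ _

theorem Cert.back_move (C : Cert) (c : Fin 5 → ZMod 5) (k : Fin 4) (i : Fin 5) (q : Cell) :
    C.back c k i (C.move c k i q) = q := by
  apply Cell.ext'
  · show q.c + C.mu k * c i - C.mu k * c i = q.c
    ring
  all_goals exact xor_xor_cancel _ _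

/-- the relation of the potentials along a piece -/
def Cert.PotOK (C : Cert) (T l : ℕ) (k : Fin 4) (i : Fin 5) (n n' : ℕ) : Prop :=
  ∀ j : Fin 4, (dg T n' j : ℤ) = dg T n j + C.eps l k * C.sh l i j

theorem Cert.PotOK.eval {C : Cert} {T l : ℕ} {k : Fin 4} {i : Fin 5} {n n' : ℕ}
    (h : C.PotOK T l k i n n') (g : Fin 4 → ℤ) :
    potV g T n' = potV g T n + C.eps l k * ∑ j, (C.sh l i j : ℤ) * g j := by
  unfold potV
  rw [Finset.mul_sum, ← Finset.sum_add_distrib]
  refine Finset.sum_congr rfl fun j _ => ?_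
  rw [h j]; ring

/-- validity of a certificate -/
structure Cert.Valid (C : Cert) (c : Fin 5 → ZMod 5) : Prop where
  pot : ∀ (k : Fin 4) (q : Cell), (C.act 1 = false → q.b1 = false) →
    (C.act 2 = false → q.b2 = false) → (C.act 3 = false → q.b3 = false) →
    Nat.testBit (C.P k) q.idx = true → ∀ i : Fin 5,
      (C.act 1 = true → C.PotOK C.T1 1 k i q.idx1 (C.move c k i q).idx1) ∧
      (C.act 2 = true → C.PotOK C.T2 2 k i q.idx2 (C.move c k i q).idx2) ∧
      (C.act 3 = true → C.PotOK C.T3 3 k i q.idx3 (C.move c k i q).idx3)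
  cover : ∀ q : Cell, (C.act 1 = false → q.b1 = false) →
    (C.act 2 = false → q.b2 = false) → (C.act 3 = false → q.b3 = false) →
    ∑ k : Fin 4, ∑ i : Fin 5, (Nat.testBit (C.P k) (C.back c k i q).idx).toNat = 1
  flip1 : C.act 1 = false → ∀ i, C.flip 1 i = false
  flip2 : C.act 2 = false → ∀ i, C.flip 2 i = false
  flip3 : C.act 3 = false → ∀ i, C.flip 3 i = false

/-- geometric data of a certificate: the integers `t i` (with `t 0 = 0`) and the heights `h l` -/
structure Cert.Real (C : Cert) (c : Fin 5 → ZMod 5) (t : Fin 5 → ℤ) (g : Fin 4 → ℤ) (h : ℕ → ℤ)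
    (u : ZMod 5) : Prop where
  hh : ∀ l, h l ≠ 0
  lab : ∀ i, u * (t i : ZMod 5) = c i
  lvl : ∀ l i, C.act l = true → ∃ n : ℤ, t i = ∑ j, (C.sh l i j : ℤ) * g j
    + h l * (((C.flip l i).toNat : ℤ) + 2 * n)
  lvl0 : ∀ i, ∃ n : ℤ, t i = h 0 * (((C.flip 0 i).toNat : ℤ) + 2 * n)

/-- the cell of a Gaussian integer -/
def Cert.cell (C : Cert) (g : Fin 4 → ℤ) (h : ℕ → ℤ) (u : ZMod 5) (z : GaussianInt) : Cell :=
  let psi : ℕ → ℤ := fun l => z.re + (if C.kp l then 1 else -1) * z.im
  let cc : ZMod 5 := u * ((z.re : ZMod 5) + C.m * (z.im : ZMod 5))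
  let x := bitI (h 0) z.im
  let b0 := bitI (h 0) (psi 0)
  let b1 := C.act 1 && bitI (h 1) (psi 1 - potV g C.T1 (cc.val + 5 * toS x b0 false false false))
  let b2 := C.act 2 && bitI (h 2) (psi 2 - potV g C.T2 (cc.val + 5 * toS x b0 b1 false false))
  let b3 := C.act 3 && bitI (h 3) (psi 3 - potV g C.T3 (cc.val + 5 * toS x b0 b1 b2 false))
  ⟨cc, x, b0, b1, b2, b3⟩

end Pool.Agent.Lib.MP_dae7ec_co
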