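import Pool.Agent.Lib.MP_dae7ec_co.CertA0a
import Pool.Agent.Lib.MP_dae7ec_co.CertA0b
import Pool.Agent.Lib.MP_dae7ec_co.CertA0c
import Pool.Agent.Lib.MP_dae7ec_co.CertA0d
import Pool.Agent.Lib.MP_dae7ec_co.CertA0e

set_option autoImplicit false

/-!
Certificates, found by computer and checked by the kernel.
-/

namespace Pool.Agent.Lib.MP_dae7ec_co

/-- keys -/
def keysA0 : List Key := [[(0, 1, 0), (1, 2, 1), (2, 3, 2), (3, 4, 3)],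
  [(0, 1, 0), (1, 2, 1), (2, 4, 2), (2, 3, 3)],
  [(0, 1, 0), (1, 2, 1), (2, 3, 2), (2, 4, 3)],
  [(0, 1, 0), (1, 3, 1), (1, 2, 2), (3, 4, 2)],
  [(0, 1, 0), (1, 3, 1), (1, 2, 2), (3, 4, 3)],
  [(0, 1, 0), (1, 3, 1), (3, 4, 2), (1, 2, 3)],
  [(0, 1, 0), (1, 2, 1), (1, 3, 2), (2, 4, 2)],
  [(0, 1, 0), (1, 2, 1), (1, 3, 2), (2, 4, 3)],
  [(0, 1, 0), (1, 2, 1), (2, 4, 2), (1, 3, 3)],
  [(0, 1, 0), (1, 2, 1), (2, 3, 2), (1, 4, 2)],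
  [(0, 1, 0), (1, 2, 1), (1, 4, 2), (2, 3, 3)],
  [(0, 1, 0), (1, 2, 1), (2, 3, 2), (1, 4, 3)],
  [(0, 1, 0), (1, 4, 1), (1, 2, 2), (2, 3, 3)],
  [(0, 1, 0), (1, 4, 1), (1, 3, 2), (1, 2, 3)],
  [(0, 1, 0), (1, 4, 1), (1, 2, 2), (1, 3, 3)],
  [(0, 1, 0), (1, 3, 1), (1, 2, 2), (2, 4, 3)],
  [(0, 1, 0), (1, 3, 1), (1, 4, 2), (1, 2, 3)],
  [(0, 1, 0), (1, 3, 1), (1, 2, 2), (1, 4, 3)],
  [(0, 1, 0), (1, 2, 1), (1, 3, 2), (3, 4, 3)],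
  [(0, 1, 0), (1, 2, 1), (1, 4, 2), (1, 3, 3)],
  [(0, 1, 0), (1, 2, 1), (1, 3, 2), (1, 4, 3)],
  [(0, 2, 0), (0, 1, 1), (2, 3, 1), (3, 4, 2)],
  [(0, 2, 0), (0, 1, 1), (2, 3, 2), (3, 4, 3)],
  [(0, 2, 0), (2, 3, 1), (0, 1, 2), (3, 4, 2)],
  [(0, 2, 0), (2, 3, 1), (0, 1, 2), (3, 4, 3)]]

theorem okA0 : ∀ K ∈ keysA0, KeyOK ![0, 0, 1, 2, 4] K := by
  unfold keysA0
  refine List.forall_mem_cons.mpr ⟨kA_0, ?_⟩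
  refine List.forall_mem_cons.mpr ⟨kA_1, ?_⟩
  refine List.forall_mem_cons.mpr ⟨kA_2, ?_⟩
  refine List.forall_mem_cons.mpr ⟨kA_3, ?_⟩
  refine List.forall_mem_cons.mpr ⟨kA_4, ?_⟩
  refine List.forall_mem_cons.mpr ⟨kA_5, ?_⟩
  refine List.forall_mem_cons.mpr ⟨kA_6, ?_⟩
  refine List.forall_mem_cons.mpr ⟨kA_7, ?_⟩
  refine List.forall_mem_cons.mpr ⟨kA_8, ?_⟩
  refine List.forall_mem_cons.mpr ⟨kA_9, ?_⟩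
  refine List.forall_mem_cons.mpr ⟨kA_10, ?_⟩
  refine List.forall_mem_cons.mpr ⟨kA_11, ?_⟩
  refine List.forall_mem_cons.mpr ⟨kA_12, ?_⟩
  refine List.forall_mem_cons.mpr ⟨kA_13, ?_⟩
  refine List.forall_mem_cons.mpr ⟨kA_14, ?_⟩
  refine List.forall_mem_cons.mpr ⟨kA_15, ?_⟩
  refine List.forall_mem_cons.mpr ⟨kA_16, ?_⟩
  refine List.forall_mem_cons.mpr ⟨kA_17, ?_⟩
  refine List.forall_mem_cons.mpr ⟨kA_18, ?_⟩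
  refine List.forall_mem_cons.mpr ⟨kA_19, ?_⟩
  refine List.forall_mem_cons.mpr ⟨kA_20, ?_⟩
  refine List.forall_mem_cons.mpr ⟨kA_21, ?_⟩
  refine List.forall_mem_cons.mpr ⟨kA_22, ?_⟩
  refine List.forall_mem_cons.mpr ⟨kA_23, ?_⟩
  refine List.forall_mem_cons.mpr ⟨kA_24, ?_⟩
  exact List.forall_mem_nil _

end Pool.Agent.Lib.MP_dae7ec_co
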