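import Pool.Agent.Lib.MP_dae7ec_co.CertA1a
import Pool.Agent.Lib.MP_dae7ec_co.CertA1b
import Pool.Agent.Lib.MP_dae7ec_co.CertA1c
import Pool.Agent.Lib.MP_dae7ec_co.CertA1d
import Pool.Agent.Lib.MP_dae7ec_co.CertA1e

set_option autoImplicit false

/-!
Certificates, found by computer and checked by the kernel.
-/

namespace Pool.Agent.Lib.MP_dae7ec_co

/-- keys -/
def keysA1 : List Key := [[(0, 2, 0), (2, 3, 1), (3, 4, 2), (0, 1, 3)],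
  [(0, 2, 0), (0, 1, 1), (2, 4, 1), (2, 3, 2)],
  [(0, 2, 0), (0, 1, 1), (2, 4, 2), (2, 3, 3)],
  [(0, 2, 0), (2, 4, 1), (0, 1, 2), (2, 3, 2)],
  [(0, 2, 0), (2, 4, 1), (0, 1, 2), (2, 3, 3)],
  [(0, 2, 0), (2, 4, 1), (2, 3, 2), (0, 1, 3)],
  [(0, 2, 0), (0, 1, 1), (2, 3, 1), (2, 4, 2)],
  [(0, 2, 0), (0, 1, 1), (2, 3, 2), (2, 4, 3)],
  [(0, 2, 0), (2, 3, 1), (0, 1, 2), (2, 4, 2)],
  [(0, 2, 0), (2, 3, 1), (0, 1, 2), (2, 4, 3)],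
  [(0, 2, 0), (2, 3, 1), (2, 4, 2), (0, 1, 3)],
  [(0, 1, 0), (0, 2, 1), (1, 3, 1), (3, 4, 2)],
  [(0, 1, 0), (0, 2, 1), (1, 3, 2), (3, 4, 3)],
  [(0, 1, 0), (1, 3, 1), (0, 2, 2), (3, 4, 2)],
  [(0, 1, 0), (1, 3, 1), (0, 2, 2), (3, 4, 3)],
  [(0, 1, 0), (1, 3, 1), (3, 4, 2), (0, 2, 3)],
  [(0, 1, 0), (0, 2, 1), (1, 4, 1), (1, 3, 2)],
  [(0, 1, 0), (0, 2, 1), (1, 4, 2), (1, 3, 3)],
  [(0, 1, 0), (1, 4, 1), (0, 2, 2), (1, 3, 2)],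
  [(0, 1, 0), (1, 4, 1), (0, 2, 2), (1, 3, 3)],
  [(0, 1, 0), (1, 4, 1), (1, 3, 2), (0, 2, 3)],
  [(0, 1, 0), (0, 2, 1), (1, 3, 1), (1, 4, 2)],
  [(0, 1, 0), (0, 2, 1), (1, 3, 2), (1, 4, 3)],
  [(0, 1, 0), (1, 3, 1), (0, 2, 2), (1, 4, 2)],
  [(0, 1, 0), (1, 3, 1), (0, 2, 2), (1, 4, 3)]]

theorem okA1 : ∀ K ∈ keysA1, KeyOK ![0, 0, 1, 2, 4] K := by
  unfold keysA1
  refine List.forall_mem_cons.mpr ⟨kA_25, ?_⟩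
  refine List.forall_mem_cons.mpr ⟨kA_26, ?_⟩
  refine List.forall_mem_cons.mpr ⟨kA_27, ?_⟩
  refine List.forall_mem_cons.mpr ⟨kA_28, ?_⟩
  refine List.forall_mem_cons.mpr ⟨kA_29, ?_⟩
  refine List.forall_mem_cons.mpr ⟨kA_30, ?_⟩
  refine List.forall_mem_cons.mpr ⟨kA_31, ?_⟩
  refine List.forall_mem_cons.mpr ⟨kA_32, ?_⟩
  refine List.forall_mem_cons.mpr ⟨kA_33, ?_⟩
  refine List.forall_mem_cons.mpr ⟨kA_34, ?_⟩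
  refine List.forall_mem_cons.mpr ⟨kA_35, ?_⟩
  refine List.forall_mem_cons.mpr ⟨kA_36, ?_⟩
  refine List.forall_mem_cons.mpr ⟨kA_37, ?_⟩
  refine List.forall_mem_cons.mpr ⟨kA_38, ?_⟩
  refine List.forall_mem_cons.mpr ⟨kA_39, ?_⟩
  refine List.forall_mem_cons.mpr ⟨kA_40, ?_⟩
  refine List.forall_mem_cons.mpr ⟨kA_41, ?_⟩
  refine List.forall_mem_cons.mpr ⟨kA_42, ?_⟩
  refine List.forall_mem_cons.mpr ⟨kA_43, ?_⟩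
  refine List.forall_mem_cons.mpr ⟨kA_44, ?_⟩
  refine List.forall_mem_cons.mpr ⟨kA_45, ?_⟩
  refine List.forall_mem_cons.mpr ⟨kA_46, ?_⟩
  refine List.forall_mem_cons.mpr ⟨kA_47, ?_⟩
  refine List.forall_mem_cons.mpr ⟨kA_48, ?_⟩
  refine List.forall_mem_cons.mpr ⟨kA_49, ?_⟩
  exact List.forall_mem_nil _

end Pool.Agent.Lib.MP_dae7ec_co
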