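import Pool.Agent.Lib.MP_dae7ec_co.CertA2a
import Pool.Agent.Lib.MP_dae7ec_co.CertA2b
import Pool.Agent.Lib.MP_dae7ec_co.CertA2c
import Pool.Agent.Lib.MP_dae7ec_co.CertA2d
import Pool.Agent.Lib.MP_dae7ec_co.CertA2e

set_option autoImplicit false

/-!
Certificates, found by computer and checked by the kernel.
-/

namespace Pool.Agent.Lib.MP_dae7ec_co

/-- keys -/
def keysA2 : List Key := [[(0, 1, 0), (1, 3, 1), (1, 4, 2), (0, 2, 3)],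
  [(0, 1, 0), (0, 2, 1), (1, 3, 1), (2, 4, 2)],
  [(0, 1, 0), (1, 3, 1), (0, 2, 2), (2, 4, 3)],
  [(0, 1, 0), (0, 2, 1), (1, 3, 2), (2, 4, 2)],
  [(0, 1, 0), (0, 2, 1), (1, 3, 2), (2, 4, 3)],
  [(0, 1, 0), (0, 2, 1), (2, 4, 2), (1, 3, 3)],
  [(0, 1, 0), (1, 3, 1), (0, 4, 1), (0, 2, 2)],
  [(0, 1, 0), (1, 3, 1), (0, 4, 2), (0, 2, 3)],
  [(0, 1, 0), (0, 4, 1), (0, 2, 2), (1, 3, 2)],
  [(0, 1, 0), (0, 4, 1), (1, 3, 2), (0, 2, 3)],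
  [(0, 1, 0), (0, 4, 1), (0, 2, 2), (1, 3, 3)],
  [(0, 1, 0), (0, 2, 1), (1, 3, 1), (0, 4, 2)],
  [(0, 1, 0), (1, 3, 1), (0, 2, 2), (0, 4, 3)],
  [(0, 1, 0), (0, 2, 1), (1, 3, 2), (0, 4, 2)],
  [(0, 1, 0), (0, 2, 1), (1, 3, 2), (0, 4, 3)],
  [(0, 1, 0), (0, 2, 1), (0, 4, 2), (1, 3, 3)],
  [(0, 1, 0), (0, 2, 1), (1, 4, 1), (2, 3, 2)],
  [(0, 1, 0), (1, 4, 1), (0, 2, 2), (2, 3, 3)],
  [(0, 1, 0), (0, 2, 1), (2, 3, 2), (1, 4, 2)],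
  [(0, 1, 0), (0, 2, 1), (1, 4, 2), (2, 3, 3)],
  [(0, 1, 0), (0, 2, 1), (2, 3, 2), (1, 4, 3)],
  [(0, 1, 0), (0, 3, 1), (1, 4, 1), (0, 2, 2)],
  [(0, 1, 0), (1, 4, 1), (0, 3, 2), (0, 2, 3)],
  [(0, 1, 0), (0, 3, 1), (0, 2, 2), (1, 4, 2)],
  [(0, 1, 0), (0, 3, 1), (1, 4, 2), (0, 2, 3)]]

theorem okA2 : ∀ K ∈ keysA2, KeyOK ![0, 0, 1, 2, 4] K := by
  unfold keysA2
  refine List.forall_mem_cons.mpr ⟨kA_50, ?_⟩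
  refine List.forall_mem_cons.mpr ⟨kA_51, ?_⟩
  refine List.forall_mem_cons.mpr ⟨kA_52, ?_⟩
  refine List.forall_mem_cons.mpr ⟨kA_53, ?_⟩
  refine List.forall_mem_cons.mpr ⟨kA_54, ?_⟩
  refine List.forall_mem_cons.mpr ⟨kA_55, ?_⟩
  refine List.forall_mem_cons.mpr ⟨kA_56, ?_⟩
  refine List.forall_mem_cons.mpr ⟨kA_57, ?_⟩
  refine List.forall_mem_cons.mpr ⟨kA_58, ?_⟩
  refine List.forall_mem_cons.mpr ⟨kA_59, ?_⟩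
  refine List.forall_mem_cons.mpr ⟨kA_60, ?_⟩
  refine List.forall_mem_cons.mpr ⟨kA_61, ?_⟩
  refine List.forall_mem_cons.mpr ⟨kA_62, ?_⟩
  refine List.forall_mem_cons.mpr ⟨kA_63, ?_⟩
  refine List.forall_mem_cons.mpr ⟨kA_64, ?_⟩
  refine List.forall_mem_cons.mpr ⟨kA_65, ?_⟩
  refine List.forall_mem_cons.mpr ⟨kA_66, ?_⟩
  refine List.forall_mem_cons.mpr ⟨kA_67, ?_⟩
  refine List.forall_mem_cons.mpr ⟨kA_68, ?_⟩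
  refine List.forall_mem_cons.mpr ⟨kA_69, ?_⟩
  refine List.forall_mem_cons.mpr ⟨kA_70, ?_⟩
  refine List.forall_mem_cons.mpr ⟨kA_71, ?_⟩
  refine List.forall_mem_cons.mpr ⟨kA_72, ?_⟩
  refine List.forall_mem_cons.mpr ⟨kA_73, ?_⟩
  refine List.forall_mem_cons.mpr ⟨kA_74, ?_⟩
  exact List.forall_mem_nil _

end Pool.Agent.Lib.MP_dae7ec_co
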