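import Pool.Agent.Lib.MP_dae7ec_co.CertA3a
import Pool.Agent.Lib.MP_dae7ec_co.CertA3b
import Pool.Agent.Lib.MP_dae7ec_co.CertA3c
import Pool.Agent.Lib.MP_dae7ec_co.CertA3d
import Pool.Agent.Lib.MP_dae7ec_co.CertA3e

set_option autoImplicit false

/-!
Certificates, found by computer and checked by the kernel.
-/

namespace Pool.Agent.Lib.MP_dae7ec_co

/-- keys -/
def keysA3 : List Key := [[(0, 1, 0), (0, 3, 1), (0, 2, 2), (1, 4, 3)],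
  [(0, 1, 0), (0, 2, 1), (1, 4, 1), (0, 3, 2)],
  [(0, 1, 0), (1, 4, 1), (0, 2, 2), (0, 3, 3)],
  [(0, 1, 0), (0, 2, 1), (0, 3, 2), (1, 4, 2)],
  [(0, 1, 0), (0, 2, 1), (1, 4, 2), (0, 3, 3)],
  [(0, 1, 0), (0, 2, 1), (0, 3, 2), (1, 4, 3)],
  [(0, 3, 0), (0, 1, 1), (3, 4, 1), (1, 2, 2)],
  [(0, 3, 0), (0, 1, 1), (1, 2, 2), (3, 4, 2)],
  [(0, 3, 0), (0, 1, 1), (1, 2, 2), (3, 4, 3)],
  [(0, 3, 0), (0, 1, 1), (3, 4, 2), (1, 2, 3)],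
  [(0, 3, 0), (3, 4, 1), (0, 1, 2), (1, 2, 3)],
  [(0, 3, 0), (0, 2, 1), (3, 4, 1), (0, 1, 2)],
  [(0, 3, 0), (0, 2, 1), (0, 1, 2), (3, 4, 2)],
  [(0, 3, 0), (0, 2, 1), (0, 1, 2), (3, 4, 3)],
  [(0, 3, 0), (0, 2, 1), (3, 4, 2), (0, 1, 3)],
  [(0, 3, 0), (3, 4, 1), (0, 2, 2), (0, 1, 3)],
  [(0, 2, 0), (0, 1, 1), (2, 4, 1), (1, 3, 2)],
  [(0, 2, 0), (0, 1, 1), (1, 3, 2), (2, 4, 2)],
  [(0, 2, 0), (0, 1, 1), (1, 3, 2), (2, 4, 3)],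
  [(0, 2, 0), (0, 1, 1), (2, 4, 2), (1, 3, 3)],
  [(0, 2, 0), (2, 4, 1), (0, 1, 2), (1, 3, 3)],
  [(0, 2, 0), (0, 3, 1), (2, 4, 1), (0, 1, 2)],
  [(0, 2, 0), (0, 3, 1), (0, 1, 2), (2, 4, 2)],
  [(0, 2, 0), (0, 3, 1), (0, 1, 2), (2, 4, 3)],
  [(0, 2, 0), (0, 3, 1), (2, 4, 2), (0, 1, 3)]]

theorem okA3 : ∀ K ∈ keysA3, KeyOK ![0, 0, 1, 2, 4] K := by
  unfold keysA3
  refine List.forall_mem_cons.mpr ⟨kA_75, ?_⟩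
  refine List.forall_mem_cons.mpr ⟨kA_76, ?_⟩
  refine List.forall_mem_cons.mpr ⟨kA_77, ?_⟩
  refine List.forall_mem_cons.mpr ⟨kA_78, ?_⟩
  refine List.forall_mem_cons.mpr ⟨kA_79, ?_⟩
  refine List.forall_mem_cons.mpr ⟨kA_80, ?_⟩
  refine List.forall_mem_cons.mpr ⟨kA_81, ?_⟩
  refine List.forall_mem_cons.mpr ⟨kA_82, ?_⟩
  refine List.forall_mem_cons.mpr ⟨kA_83, ?_⟩
  refine List.forall_mem_cons.mpr ⟨kA_84, ?_⟩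
  refine List.forall_mem_cons.mpr ⟨kA_85, ?_⟩
  refine List.forall_mem_cons.mpr ⟨kA_86, ?_⟩
  refine List.forall_mem_cons.mpr ⟨kA_87, ?_⟩
  refine List.forall_mem_cons.mpr ⟨kA_88, ?_⟩
  refine List.forall_mem_cons.mpr ⟨kA_89, ?_⟩
  refine List.forall_mem_cons.mpr ⟨kA_90, ?_⟩
  refine List.forall_mem_cons.mpr ⟨kA_91, ?_⟩
  refine List.forall_mem_cons.mpr ⟨kA_92, ?_⟩
  refine List.forall_mem_cons.mpr ⟨kA_93, ?_⟩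
  refine List.forall_mem_cons.mpr ⟨kA_94, ?_⟩
  refine List.forall_mem_cons.mpr ⟨kA_95, ?_⟩
  refine List.forall_mem_cons.mpr ⟨kA_96, ?_⟩
  refine List.forall_mem_cons.mpr ⟨kA_97, ?_⟩
  refine List.forall_mem_cons.mpr ⟨kA_98, ?_⟩
  refine List.forall_mem_cons.mpr ⟨kA_99, ?_⟩
  exact List.forall_mem_nil _

end Pool.Agent.Lib.MP_dae7ec_co
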