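import Pool.Agent.Lib.MP_dae7ec_co.CertA4a
import Pool.Agent.Lib.MP_dae7ec_co.CertA4b
import Pool.Agent.Lib.MP_dae7ec_co.CertA4c
import Pool.Agent.Lib.MP_dae7ec_co.CertA4d
import Pool.Agent.Lib.MP_dae7ec_co.CertA4e

set_option autoImplicit false

/-!
Certificates, found by computer and checked by the kernel.
-/

namespace Pool.Agent.Lib.MP_dae7ec_co

/-- keys -/
def keysA4 : List Key := [[(0, 2, 0), (2, 4, 1), (0, 3, 2), (0, 1, 3)],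
  [(0, 2, 0), (0, 1, 1), (2, 3, 1), (1, 4, 2)],
  [(0, 2, 0), (0, 1, 1), (2, 3, 2), (1, 4, 2)],
  [(0, 2, 0), (0, 1, 1), (1, 4, 2), (2, 3, 3)],
  [(0, 2, 0), (0, 1, 1), (2, 3, 2), (1, 4, 3)],
  [(0, 2, 0), (2, 3, 1), (0, 1, 2), (1, 4, 3)],
  [(0, 2, 0), (2, 3, 1), (0, 4, 1), (0, 1, 2)],
  [(0, 2, 0), (0, 4, 1), (0, 1, 2), (2, 3, 2)],
  [(0, 2, 0), (0, 4, 1), (0, 1, 2), (2, 3, 3)],
  [(0, 2, 0), (0, 4, 1), (2, 3, 2), (0, 1, 3)],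
  [(0, 2, 0), (2, 3, 1), (0, 4, 2), (0, 1, 3)],
  [(0, 4, 0), (0, 1, 1), (1, 2, 2), (2, 3, 3)],
  [(0, 4, 0), (0, 1, 1), (1, 3, 2), (1, 2, 3)],
  [(0, 4, 0), (0, 1, 1), (1, 2, 2), (1, 3, 3)],
  [(0, 4, 0), (0, 2, 1), (0, 1, 2), (2, 3, 2)],
  [(0, 4, 0), (0, 2, 1), (0, 1, 2), (2, 3, 3)],
  [(0, 4, 0), (0, 2, 1), (2, 3, 2), (0, 1, 3)],
  [(0, 4, 0), (0, 1, 1), (0, 2, 2), (1, 3, 2)],
  [(0, 4, 0), (0, 1, 1), (0, 2, 2), (1, 3, 3)],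
  [(0, 4, 0), (0, 1, 1), (1, 3, 2), (0, 2, 3)],
  [(0, 4, 0), (0, 3, 1), (0, 1, 2), (1, 2, 3)],
  [(0, 4, 0), (0, 3, 1), (0, 2, 2), (0, 1, 3)],
  [(0, 4, 0), (0, 2, 1), (0, 1, 2), (1, 3, 3)],
  [(0, 4, 0), (0, 2, 1), (0, 3, 2), (0, 1, 3)],
  [(0, 3, 0), (0, 1, 1), (1, 2, 2), (2, 4, 3)]]

theorem okA4 : ∀ K ∈ keysA4, KeyOK ![0, 0, 1, 2, 4] K := by
  unfold keysA4
  refine List.forall_mem_cons.mpr ⟨kA_100, ?_⟩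
  refine List.forall_mem_cons.mpr ⟨kA_101, ?_⟩
  refine List.forall_mem_cons.mpr ⟨kA_102, ?_⟩
  refine List.forall_mem_cons.mpr ⟨kA_103, ?_⟩
  refine List.forall_mem_cons.mpr ⟨kA_104, ?_⟩
  refine List.forall_mem_cons.mpr ⟨kA_105, ?_⟩
  refine List.forall_mem_cons.mpr ⟨kA_106, ?_⟩
  refine List.forall_mem_cons.mpr ⟨kA_107, ?_⟩
  refine List.forall_mem_cons.mpr ⟨kA_108, ?_⟩
  refine List.forall_mem_cons.mpr ⟨kA_109, ?_⟩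
  refine List.forall_mem_cons.mpr ⟨kA_110, ?_⟩
  refine List.forall_mem_cons.mpr ⟨kA_111, ?_⟩
  refine List.forall_mem_cons.mpr ⟨kA_112, ?_⟩
  refine List.forall_mem_cons.mpr ⟨kA_113, ?_⟩
  refine List.forall_mem_cons.mpr ⟨kA_114, ?_⟩
  refine List.forall_mem_cons.mpr ⟨kA_115, ?_⟩
  refine List.forall_mem_cons.mpr ⟨kA_116, ?_⟩
  refine List.forall_mem_cons.mpr ⟨kA_117, ?_⟩
  refine List.forall_mem_cons.mpr ⟨kA_118, ?_⟩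
  refine List.forall_mem_cons.mpr ⟨kA_119, ?_⟩
  refine List.forall_mem_cons.mpr ⟨kA_120, ?_⟩
  refine List.forall_mem_cons.mpr ⟨kA_121, ?_⟩
  refine List.forall_mem_cons.mpr ⟨kA_122, ?_⟩
  refine List.forall_mem_cons.mpr ⟨kA_123, ?_⟩
  refine List.forall_mem_cons.mpr ⟨kA_124, ?_⟩
  exact List.forall_mem_nil _

end Pool.Agent.Lib.MP_dae7ec_co
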