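import Pool.Agent.Lib.MP_dae7ec_co.CertA5a
import Pool.Agent.Lib.MP_dae7ec_co.CertA5b
import Pool.Agent.Lib.MP_dae7ec_co.CertA5c
import Pool.Agent.Lib.MP_dae7ec_co.CertA5d
import Pool.Agent.Lib.MP_dae7ec_co.CertA5e

set_option autoImplicit false

/-!
Certificates, found by computer and checked by the kernel.
-/

namespace Pool.Agent.Lib.MP_dae7ec_co

/-- keys -/
def keysA5 : List Key := [[(0, 3, 0), (0, 1, 1), (1, 4, 2), (1, 2, 3)],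
  [(0, 3, 0), (0, 1, 1), (1, 2, 2), (1, 4, 3)],
  [(0, 3, 0), (0, 2, 1), (0, 1, 2), (2, 4, 2)],
  [(0, 3, 0), (0, 2, 1), (0, 1, 2), (2, 4, 3)],
  [(0, 3, 0), (0, 2, 1), (2, 4, 2), (0, 1, 3)],
  [(0, 3, 0), (0, 1, 1), (0, 2, 2), (1, 4, 2)],
  [(0, 3, 0), (0, 1, 1), (0, 2, 2), (1, 4, 3)],
  [(0, 3, 0), (0, 1, 1), (1, 4, 2), (0, 2, 3)],
  [(0, 3, 0), (0, 4, 1), (0, 1, 2), (1, 2, 3)],
  [(0, 3, 0), (0, 4, 1), (0, 2, 2), (0, 1, 3)],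
  [(0, 3, 0), (0, 2, 1), (0, 1, 2), (1, 4, 3)],
  [(0, 3, 0), (0, 2, 1), (0, 4, 2), (0, 1, 3)],
  [(0, 2, 0), (0, 1, 1), (1, 3, 2), (3, 4, 3)],
  [(0, 2, 0), (0, 1, 1), (1, 4, 2), (1, 3, 3)],
  [(0, 2, 0), (0, 1, 1), (1, 3, 2), (1, 4, 3)],
  [(0, 2, 0), (0, 3, 1), (0, 1, 2), (3, 4, 2)],
  [(0, 2, 0), (0, 3, 1), (0, 1, 2), (3, 4, 3)],
  [(0, 2, 0), (0, 3, 1), (3, 4, 2), (0, 1, 3)],
  [(0, 2, 0), (0, 1, 1), (0, 3, 2), (1, 4, 2)],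
  [(0, 2, 0), (0, 1, 1), (0, 3, 2), (1, 4, 3)],
  [(0, 2, 0), (0, 1, 1), (1, 4, 2), (0, 3, 3)],
  [(0, 2, 0), (0, 4, 1), (0, 1, 2), (1, 3, 3)],
  [(0, 2, 0), (0, 4, 1), (0, 3, 2), (0, 1, 3)],
  [(0, 2, 0), (0, 3, 1), (0, 1, 2), (1, 4, 3)],
  [(0, 2, 0), (0, 3, 1), (0, 4, 2), (0, 1, 3)]]

theorem okA5 : ∀ K ∈ keysA5, KeyOK ![0, 0, 1, 2, 4] K := by
  unfold keysA5
  refine List.forall_mem_cons.mpr ⟨kA_125, ?_⟩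
  refine List.forall_mem_cons.mpr ⟨kA_126, ?_⟩
  refine List.forall_mem_cons.mpr ⟨kA_127, ?_⟩
  refine List.forall_mem_cons.mpr ⟨kA_128, ?_⟩
  refine List.forall_mem_cons.mpr ⟨kA_129, ?_⟩
  refine List.forall_mem_cons.mpr ⟨kA_130, ?_⟩
  refine List.forall_mem_cons.mpr ⟨kA_131, ?_⟩
  refine List.forall_mem_cons.mpr ⟨kA_132, ?_⟩
  refine List.forall_mem_cons.mpr ⟨kA_133, ?_⟩
  refine List.forall_mem_cons.mpr ⟨kA_134, ?_⟩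
  refine List.forall_mem_cons.mpr ⟨kA_135, ?_⟩
  refine List.forall_mem_cons.mpr ⟨kA_136, ?_⟩
  refine List.forall_mem_cons.mpr ⟨kA_137, ?_⟩
  refine List.forall_mem_cons.mpr ⟨kA_138, ?_⟩
  refine List.forall_mem_cons.mpr ⟨kA_139, ?_⟩
  refine List.forall_mem_cons.mpr ⟨kA_140, ?_⟩
  refine List.forall_mem_cons.mpr ⟨kA_141, ?_⟩
  refine List.forall_mem_cons.mpr ⟨kA_142, ?_⟩
  refine List.forall_mem_cons.mpr ⟨kA_143, ?_⟩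
  refine List.forall_mem_cons.mpr ⟨kA_144, ?_⟩
  refine List.forall_mem_cons.mpr ⟨kA_145, ?_⟩
  refine List.forall_mem_cons.mpr ⟨kA_146, ?_⟩
  refine List.forall_mem_cons.mpr ⟨kA_147, ?_⟩
  refine List.forall_mem_cons.mpr ⟨kA_148, ?_⟩
  refine List.forall_mem_cons.mpr ⟨kA_149, ?_⟩
  exact List.forall_mem_nil _

end Pool.Agent.Lib.MP_dae7ec_co
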