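import Pool.Agent.Lib.MP_dae7ec_co.CertKey

set_option autoImplicit false

/-!
Certificates, found by computer and checked by the kernel.
-/

namespace Pool.Agent.Lib.MP_dae7ec_co

theorem kB_20 : KeyOK ![0, 0, 1, 1, 2]
    [(0, 2, 0), (2, 4, 1), (0, 1, 2), (2, 3, 2)] := keyOK_of_check
  ⟨0, 1, 2, 2, 0, 2, 0, 2, 2, 4, 1, 3, 28, 16, 2, 8, 4, true, false, true, 553648656, 311980559436883861708800, 0, 594475717748588544, 1010058147993459501441786313537479588858496974292499893088302272594725156, 1783097332753169868990681884847743008849304183564489427671051717655073970410789806744743664873939984138139066888444244521898081133027891191400740, 0⟩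
  [(553648656, [(0, 0), (0, 8), (4, 2), (4, 10), (3, 6)]), (311980559436883861708800, [(0, 0), (0, 8), (1, 3), (1, 11), (2, 7)]), (0, [(0, 0), (0, 8), (1, 2), (1, 10), (2, 6)]), (594475717748588544, [(0, 0), (0, 8), (4, 3), (4, 11), (3, 7)])]
  [0, 8, 4, 12, 2, 10, 6, 14, 1, 9, 5, 13, 3, 11, 7, 15]
  (by decide +kernel) (by decide)

theorem kB_21 : KeyOK ![0, 0, 1, 1, 2]
    [(0, 2, 0), (2, 4, 1), (0, 1, 2), (2, 3, 3)] := keyOK_of_check
  ⟨0, 1, 2, 3, 0, 2, 0, 2, 2, 4, 1, 3, 28, 16, 2, 8, 4, false, false, true, 81704120587974884796540125250, 47145169146268645485192748962817959509002060800, 44917272433563877177165448217312755712000, 87814804284909887330736827344198041600, 1009195429674387118055994062423870839092243188871721601144543521979640100, 1783092493415227730923336414588532991348588565187525720602517626632434586483829891151072321058602323335749743418616954348945956926408347161274660, 5418891497975040555136611324994534067269372777315158879535089504152871657409256672276654838224576878447637940291969914075921267638458959384771771042513211933587052736341179248099549727183387339891698480762603718532216939147855815688021160517470467092294239842278847548873255387940812638500⟩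
  [(81704120587974884796540125250, [(0, 0), (0, 8), (4, 2), (4, 18), (3, 6)]), (47145169146268645485192748962817959509002060800, [(0, 0), (0, 8), (1, 3), (1, 19), (2, 7)]), (44917272433563877177165448217312755712000, [(0, 0), (0, 8), (1, 2), (1, 18), (2, 6)]), (87814804284909887330736827344198041600, [(0, 0), (0, 8), (4, 3), (4, 19), (3, 7)])]
  [0, 16, 8, 24, 4, 20, 12, 28, 2, 18, 10, 26, 6, 22, 14, 30, 1, 17, 9, 25, 5, 21, 13, 29, 3, 19, 11, 27, 7, 23, 15, 31]
  (by decide +kernel) (by decide)

theorem kB_22 : KeyOK ![0, 0, 1, 1, 2]
    [(0, 2, 0), (2, 4, 1), (2, 3, 2), (0, 1, 3)] := keyOK_of_check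
  ⟨0, 1, 2, 3, 0, 2, 2, 0, 2, 4, 3, 1, 28, 16, 8, 2, 4, false, false, true, 81704120587974957364307558400, 47145169190133169346055078216596309735488128000, 44917272433563877177165448181028871995425, 85756563185228823180126891225907200, 1009195429674387118055994062423870839092243188871721601144543521979640100, 1783092493415227730923336414588532991348588565187525720602517626632434586483829891151072321058602323335749743418616954348945956926408347161274660, 5571135318646338077091578880997792064514311862608839225239033375964504722675177609511454161226490557900474948946563670834320024168362091643090048886178409121425020632081241938300386664852950036588645179088387010281407105957220948732071988713212416924829224778166542387756883918284907768100⟩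
  [(81704120587974957364307558400, [(0, 0), (0, 16), (4, 2), (4, 10), (3, 6)]), (47145169190133169346055078216596309735488128000, [(0, 0), (0, 16), (1, 3), (1, 11), (2, 7)]), (44917272433563877177165448181028871995425, [(0, 0), (0, 16), (1, 2), (1, 10), (2, 6)]), (85756563185228823180126891225907200, [(0, 0), (0, 16), (4, 3), (4, 11), (3, 7)])]
  [0, 16, 8, 24, 4, 20, 12, 28, 2, 18, 10, 26, 6, 22, 14, 30, 1, 17, 9, 25, 5, 21, 13, 29, 3, 19, 11, 27, 7, 23, 15, 31]
  (by decide +kernel) (by decide)

end Pool.Agent.Lib.MP_dae7ec_co
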