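import Pool.Agent.Lib.MP_dae7ec_co.CertB0a
import Pool.Agent.Lib.MP_dae7ec_co.CertB0b
import Pool.Agent.Lib.MP_dae7ec_co.CertB0c
import Pool.Agent.Lib.MP_dae7ec_co.CertB0d
import Pool.Agent.Lib.MP_dae7ec_co.CertB0e

set_option autoImplicit false

/-!
Certificates, found by computer and checked by the kernel.
-/

namespace Pool.Agent.Lib.MP_dae7ec_co

/-- keys -/
def keysB0 : List Key := [[(0, 1, 0), (1, 2, 1), (2, 3, 2), (3, 4, 3)],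
  [(0, 1, 0), (1, 2, 1), (2, 4, 2), (2, 3, 3)],
  [(0, 1, 0), (1, 3, 1), (1, 2, 2), (3, 4, 2)],
  [(0, 1, 0), (1, 3, 1), (1, 2, 2), (3, 4, 3)],
  [(0, 1, 0), (1, 3, 1), (3, 4, 2), (1, 2, 3)],
  [(0, 1, 0), (1, 2, 1), (2, 3, 2), (1, 4, 2)],
  [(0, 1, 0), (1, 2, 1), (1, 4, 2), (2, 3, 3)],
  [(0, 1, 0), (1, 2, 1), (2, 3, 2), (1, 4, 3)],
  [(0, 1, 0), (1, 4, 1), (1, 2, 2), (2, 3, 3)],
  [(0, 1, 0), (1, 4, 1), (1, 3, 2), (1, 2, 3)],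
  [(0, 1, 0), (1, 3, 1), (1, 2, 2), (2, 4, 3)],
  [(0, 1, 0), (1, 3, 1), (1, 4, 2), (1, 2, 3)],
  [(0, 1, 0), (1, 3, 1), (1, 2, 2), (1, 4, 3)],
  [(0, 2, 0), (0, 1, 1), (2, 3, 1), (3, 4, 2)],
  [(0, 2, 0), (0, 1, 1), (2, 3, 2), (3, 4, 3)],
  [(0, 2, 0), (2, 3, 1), (0, 1, 2), (3, 4, 2)],
  [(0, 2, 0), (2, 3, 1), (0, 1, 2), (3, 4, 3)],
  [(0, 2, 0), (2, 3, 1), (3, 4, 2), (0, 1, 3)],
  [(0, 2, 0), (0, 1, 1), (2, 4, 1), (2, 3, 2)],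
  [(0, 2, 0), (0, 1, 1), (2, 4, 2), (2, 3, 3)],
  [(0, 2, 0), (2, 4, 1), (0, 1, 2), (2, 3, 2)],
  [(0, 2, 0), (2, 4, 1), (0, 1, 2), (2, 3, 3)],
  [(0, 2, 0), (2, 4, 1), (2, 3, 2), (0, 1, 3)]]

theorem okB0 : ∀ K ∈ keysB0, KeyOK ![0, 0, 1, 1, 2] K := by
  unfold keysB0
  refine List.forall_mem_cons.mpr ⟨kB_0, ?_⟩
  refine List.forall_mem_cons.mpr ⟨kB_1, ?_⟩
  refine List.forall_mem_cons.mpr ⟨kB_2, ?_⟩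
  refine List.forall_mem_cons.mpr ⟨kB_3, ?_⟩
  refine List.forall_mem_cons.mpr ⟨kB_4, ?_⟩
  refine List.forall_mem_cons.mpr ⟨kB_5, ?_⟩
  refine List.forall_mem_cons.mpr ⟨kB_6, ?_⟩
  refine List.forall_mem_cons.mpr ⟨kB_7, ?_⟩
  refine List.forall_mem_cons.mpr ⟨kB_8, ?_⟩
  refine List.forall_mem_cons.mpr ⟨kB_9, ?_⟩
  refine List.forall_mem_cons.mpr ⟨kB_10, ?_⟩
  refine List.forall_mem_cons.mpr ⟨kB_11, ?_⟩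
  refine List.forall_mem_cons.mpr ⟨kB_12, ?_⟩
  refine List.forall_mem_cons.mpr ⟨kB_13, ?_⟩
  refine List.forall_mem_cons.mpr ⟨kB_14, ?_⟩
  refine List.forall_mem_cons.mpr ⟨kB_15, ?_⟩
  refine List.forall_mem_cons.mpr ⟨kB_16, ?_⟩
  refine List.forall_mem_cons.mpr ⟨kB_17, ?_⟩
  refine List.forall_mem_cons.mpr ⟨kB_18, ?_⟩
  refine List.forall_mem_cons.mpr ⟨kB_19, ?_⟩
  refine List.forall_mem_cons.mpr ⟨kB_20, ?_⟩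
  refine List.forall_mem_cons.mpr ⟨kB_21, ?_⟩
  refine List.forall_mem_cons.mpr ⟨kB_22, ?_⟩
  exact List.forall_mem_nil _

end Pool.Agent.Lib.MP_dae7ec_co
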