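import Pool.Agent.Lib.MP_dae7ec_co.CertKey

set_option autoImplicit false

/-!
Certificates, found by computer and checked by the kernel.
-/

namespace Pool.Agent.Lib.MP_dae7ec_co

theorem kB_43 : KeyOK ![0, 0, 1, 1, 2]
    [(0, 1, 0), (0, 3, 1), (1, 4, 1), (0, 2, 2)] := keyOK_of_check
  ⟨0, 1, 1, 2, 0, 0, 1, 0, 1, 3, 4, 2, 18, 8, 16, 4, 4, true, false, true, 580542139466256, 304371277216484425728, 297237575406723072, 623352375739360103890944, 1010058358643760125898534664038869901233409175724063263758187133129607460, 1777771060444688039728386852678815451607799666416404346620747642128469251777665995566074600384785271932503473189426317345144874017369779336501540, 0⟩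
  [(580542139466256, [(0, 0), (0, 2), (4, 8), (4, 4), (3, 6)]), (304371277216484425728, [(0, 0), (0, 3), (1, 8), (1, 4), (2, 7)]), (297237575406723072, [(0, 0), (0, 2), (1, 8), (1, 4), (2, 6)]), (623352375739360103890944, [(0, 0), (0, 3), (4, 8), (4, 4), (3, 7)])]
  [0, 8, 4, 12, 2, 10, 6, 14, 1, 9, 5, 13, 3, 11, 7, 15]
  (by decide +kernel) (by decide)

theorem kB_44 : KeyOK ![0, 0, 1, 1, 2]
    [(0, 1, 0), (1, 4, 1), (0, 3, 2), (0, 2, 3)] := keyOK_of_check
  ⟨0, 1, 2, 3, 0, 1, 0, 0, 1, 4, 3, 2, 18, 16, 8, 4, 4, true, true, false, 85672979869867248705851403641358336, 47099218776569109638800653116842158865533370368, 41832509702083617532154005684257, 91990661672986542263282525618832341534244864, 1009195429674393393625233908238751259712286706419501259809362811204815140, 1783092494142254994050458273014045500605538274672651136053875061961197673254602855069289448179792967606058099997224227374106716050269799877593380, 5571135327438778234665805705403697093313825754211260122984224816096098994128457742780495783592099448449081181179782758322982186137139201790970515073567493665559455154999457171475752060868383285010512405427931888203110367971129273182591787511395243383469269658888525888673766768758960048420⟩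
  [(85672979869867248705851403641358336, [(0, 0), (0, 2), (4, 16), (4, 8), (3, 6)]), (47099218776569109638800653116842158865533370368, [(0, 0), (0, 3), (1, 16), (1, 8), (2, 7)]), (41832509702083617532154005684257, [(0, 0), (0, 2), (1, 16), (1, 8), (2, 6)]), (91990661672986542263282525618832341534244864, [(0, 0), (0, 3), (4, 16), (4, 8), (3, 7)])]
  [0, 16, 8, 24, 4, 20, 12, 28, 2, 18, 10, 26, 6, 22, 14, 30, 1, 17, 9, 25, 5, 21, 13, 29, 3, 19, 11, 27, 7, 23, 15, 31]
  (by decide +kernel) (by decide)

theorem kB_45 : KeyOK ![0, 0, 1, 1, 2]
    [(0, 1, 0), (0, 3, 1), (0, 2, 2), (1, 4, 2)] := keyOK_of_check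
  ⟨0, 1, 2, 2, 0, 0, 0, 1, 1, 3, 2, 4, 18, 8, 4, 16, 4, true, false, true, 580542139466256, 304371277216484425728, 297237575406723072, 623352375739360103890944, 1010058358643760125898534664038869901233409175724063263758187133129607460, 1777759149010953389202182786974895375120761517391474213546624852219650481055359114431514388656909836735018658649007401946980146958891741263055140, 0⟩
  [(580542139466256, [(0, 0), (0, 2), (4, 8), (4, 4), (3, 10)]), (304371277216484425728, [(0, 0), (0, 3), (1, 8), (1, 4), (2, 11)]), (297237575406723072, [(0, 0), (0, 2), (1, 8), (1, 4), (2, 10)]), (623352375739360103890944, [(0, 0), (0, 3), (4, 8), (4, 4), (3, 11)])]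
  [0, 8, 4, 12, 2, 10, 6, 14, 1, 9, 5, 13, 3, 11, 7, 15]
  (by decide +kernel) (by decide)

end Pool.Agent.Lib.MP_dae7ec_co
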