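import Pool.Agent.Lib.MP_dae7ec_co.CertB1a
import Pool.Agent.Lib.MP_dae7ec_co.CertB1b
import Pool.Agent.Lib.MP_dae7ec_co.CertB1c
import Pool.Agent.Lib.MP_dae7ec_co.CertB1d
import Pool.Agent.Lib.MP_dae7ec_co.CertB1e

set_option autoImplicit false

/-!
Certificates, found by computer and checked by the kernel.
-/

namespace Pool.Agent.Lib.MP_dae7ec_co

/-- keys -/
def keysB1 : List Key := [[(0, 1, 0), (0, 2, 1), (1, 3, 1), (3, 4, 2)],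
  [(0, 1, 0), (0, 2, 1), (1, 3, 2), (3, 4, 3)],
  [(0, 1, 0), (1, 3, 1), (0, 2, 2), (3, 4, 2)],
  [(0, 1, 0), (1, 3, 1), (0, 2, 2), (3, 4, 3)],
  [(0, 1, 0), (1, 3, 1), (3, 4, 2), (0, 2, 3)],
  [(0, 1, 0), (0, 2, 1), (1, 4, 1), (1, 3, 2)],
  [(0, 1, 0), (0, 2, 1), (1, 4, 2), (1, 3, 3)],
  [(0, 1, 0), (1, 4, 1), (0, 2, 2), (1, 3, 2)],
  [(0, 1, 0), (1, 4, 1), (0, 2, 2), (1, 3, 3)],
  [(0, 1, 0), (1, 4, 1), (1, 3, 2), (0, 2, 3)],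
  [(0, 1, 0), (0, 2, 1), (1, 3, 1), (1, 4, 2)],
  [(0, 1, 0), (0, 2, 1), (1, 3, 2), (1, 4, 3)],
  [(0, 1, 0), (1, 3, 1), (0, 2, 2), (1, 4, 2)],
  [(0, 1, 0), (1, 3, 1), (0, 2, 2), (1, 4, 3)],
  [(0, 1, 0), (1, 3, 1), (1, 4, 2), (0, 2, 3)],
  [(0, 1, 0), (0, 2, 1), (1, 4, 1), (2, 3, 2)],
  [(0, 1, 0), (1, 4, 1), (0, 2, 2), (2, 3, 3)],
  [(0, 1, 0), (0, 2, 1), (2, 3, 2), (1, 4, 2)],
  [(0, 1, 0), (0, 2, 1), (1, 4, 2), (2, 3, 3)],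
  [(0, 1, 0), (0, 2, 1), (2, 3, 2), (1, 4, 3)],
  [(0, 1, 0), (0, 3, 1), (1, 4, 1), (0, 2, 2)],
  [(0, 1, 0), (1, 4, 1), (0, 3, 2), (0, 2, 3)],
  [(0, 1, 0), (0, 3, 1), (0, 2, 2), (1, 4, 2)]]

theorem okB1 : ∀ K ∈ keysB1, KeyOK ![0, 0, 1, 1, 2] K := by
  unfold keysB1
  refine List.forall_mem_cons.mpr ⟨kB_23, ?_⟩
  refine List.forall_mem_cons.mpr ⟨kB_24, ?_⟩
  refine List.forall_mem_cons.mpr ⟨kB_25, ?_⟩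
  refine List.forall_mem_cons.mpr ⟨kB_26, ?_⟩
  refine List.forall_mem_cons.mpr ⟨kB_27, ?_⟩
  refine List.forall_mem_cons.mpr ⟨kB_28, ?_⟩
  refine List.forall_mem_cons.mpr ⟨kB_29, ?_⟩
  refine List.forall_mem_cons.mpr ⟨kB_30, ?_⟩
  refine List.forall_mem_cons.mpr ⟨kB_31, ?_⟩
  refine List.forall_mem_cons.mpr ⟨kB_32, ?_⟩
  refine List.forall_mem_cons.mpr ⟨kB_33, ?_⟩
  refine List.forall_mem_cons.mpr ⟨kB_34, ?_⟩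
  refine List.forall_mem_cons.mpr ⟨kB_35, ?_⟩
  refine List.forall_mem_cons.mpr ⟨kB_36, ?_⟩
  refine List.forall_mem_cons.mpr ⟨kB_37, ?_⟩
  refine List.forall_mem_cons.mpr ⟨kB_38, ?_⟩
  refine List.forall_mem_cons.mpr ⟨kB_39, ?_⟩
  refine List.forall_mem_cons.mpr ⟨kB_40, ?_⟩
  refine List.forall_mem_cons.mpr ⟨kB_41, ?_⟩
  refine List.forall_mem_cons.mpr ⟨kB_42, ?_⟩
  refine List.forall_mem_cons.mpr ⟨kB_43, ?_⟩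
  refine List.forall_mem_cons.mpr ⟨kB_44, ?_⟩
  refine List.forall_mem_cons.mpr ⟨kB_45, ?_⟩
  exact List.forall_mem_nil _

end Pool.Agent.Lib.MP_dae7ec_co
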