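import Pool.Agent.Lib.MP_dae7ec_co.CertB2a
import Pool.Agent.Lib.MP_dae7ec_co.CertB2b
import Pool.Agent.Lib.MP_dae7ec_co.CertB2c
import Pool.Agent.Lib.MP_dae7ec_co.CertB2d
import Pool.Agent.Lib.MP_dae7ec_co.CertB2e

set_option autoImplicit false

/-!
Certificates, found by computer and checked by the kernel.
-/

namespace Pool.Agent.Lib.MP_dae7ec_co

/-- keys -/
def keysB2 : List Key := [[(0, 1, 0), (0, 3, 1), (1, 4, 2), (0, 2, 3)],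
  [(0, 1, 0), (0, 3, 1), (0, 2, 2), (1, 4, 3)],
  [(0, 3, 0), (0, 1, 1), (3, 4, 1), (1, 2, 2)],
  [(0, 3, 0), (0, 1, 1), (1, 2, 2), (3, 4, 2)],
  [(0, 3, 0), (0, 1, 1), (1, 2, 2), (3, 4, 3)],
  [(0, 3, 0), (0, 1, 1), (3, 4, 2), (1, 2, 3)],
  [(0, 3, 0), (3, 4, 1), (0, 1, 2), (1, 2, 3)],
  [(0, 3, 0), (0, 2, 1), (3, 4, 1), (0, 1, 2)],
  [(0, 3, 0), (0, 2, 1), (0, 1, 2), (3, 4, 2)],
  [(0, 3, 0), (0, 2, 1), (0, 1, 2), (3, 4, 3)],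
  [(0, 3, 0), (0, 2, 1), (3, 4, 2), (0, 1, 3)],
  [(0, 3, 0), (3, 4, 1), (0, 2, 2), (0, 1, 3)],
  [(0, 2, 0), (0, 1, 1), (2, 3, 1), (1, 4, 2)],
  [(0, 2, 0), (0, 1, 1), (2, 3, 2), (1, 4, 2)],
  [(0, 2, 0), (0, 1, 1), (1, 4, 2), (2, 3, 3)],
  [(0, 2, 0), (0, 1, 1), (2, 3, 2), (1, 4, 3)],
  [(0, 2, 0), (2, 3, 1), (0, 1, 2), (1, 4, 3)],
  [(0, 2, 0), (2, 3, 1), (0, 4, 1), (0, 1, 2)],
  [(0, 2, 0), (0, 4, 1), (0, 1, 2), (2, 3, 2)],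
  [(0, 2, 0), (0, 4, 1), (0, 1, 2), (2, 3, 3)],
  [(0, 2, 0), (0, 4, 1), (2, 3, 2), (0, 1, 3)],
  [(0, 2, 0), (2, 3, 1), (0, 4, 2), (0, 1, 3)],
  [(0, 4, 0), (0, 1, 1), (1, 2, 2), (2, 3, 3)]]

theorem okB2 : ∀ K ∈ keysB2, KeyOK ![0, 0, 1, 1, 2] K := by
  unfold keysB2
  refine List.forall_mem_cons.mpr ⟨kB_46, ?_⟩
  refine List.forall_mem_cons.mpr ⟨kB_47, ?_⟩
  refine List.forall_mem_cons.mpr ⟨kB_48, ?_⟩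
  refine List.forall_mem_cons.mpr ⟨kB_49, ?_⟩
  refine List.forall_mem_cons.mpr ⟨kB_50, ?_⟩
  refine List.forall_mem_cons.mpr ⟨kB_51, ?_⟩
  refine List.forall_mem_cons.mpr ⟨kB_52, ?_⟩
  refine List.forall_mem_cons.mpr ⟨kB_53, ?_⟩
  refine List.forall_mem_cons.mpr ⟨kB_54, ?_⟩
  refine List.forall_mem_cons.mpr ⟨kB_55, ?_⟩
  refine List.forall_mem_cons.mpr ⟨kB_56, ?_⟩
  refine List.forall_mem_cons.mpr ⟨kB_57, ?_⟩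
  refine List.forall_mem_cons.mpr ⟨kB_58, ?_⟩
  refine List.forall_mem_cons.mpr ⟨kB_59, ?_⟩
  refine List.forall_mem_cons.mpr ⟨kB_60, ?_⟩
  refine List.forall_mem_cons.mpr ⟨kB_61, ?_⟩
  refine List.forall_mem_cons.mpr ⟨kB_62, ?_⟩
  refine List.forall_mem_cons.mpr ⟨kB_63, ?_⟩
  refine List.forall_mem_cons.mpr ⟨kB_64, ?_⟩
  refine List.forall_mem_cons.mpr ⟨kB_65, ?_⟩
  refine List.forall_mem_cons.mpr ⟨kB_66, ?_⟩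
  refine List.forall_mem_cons.mpr ⟨kB_67, ?_⟩
  refine List.forall_mem_cons.mpr ⟨kB_68, ?_⟩
  exact List.forall_mem_nil _

end Pool.Agent.Lib.MP_dae7ec_co
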