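import Pool.Agent.Lib.MP_dae7ec_co.CertKey

set_option autoImplicit false

/-!
Certificates, found by computer and checked by the kernel.
-/

namespace Pool.Agent.Lib.MP_dae7ec_co

theorem kB_89 : KeyOK ![0, 0, 1, 1, 2]
    [(0, 3, 0), (0, 2, 1), (0, 4, 2), (0, 1, 3)] := keyOK_of_check
  ⟨0, 1, 2, 3, 0, 0, 0, 0, 3, 2, 4, 1, 8, 4, 16, 2, 4, true, true, true, 81704120511956374957206798336, 47099218776611946087883526485216897088750650368, 41832469807569616695327115444257, 91990661672986542343071553620505995314724864, 1009195429674393393625233908238751259712286706419501259809362811204815140, 1783092494142166246958764421619595925059003769840664858827075048625642117764191497129745455473731160449149553620370285954659445081072980773194020, 5566403584090346295862827638863305056845678612913794497100343571563415890756847933860641963832205505284290923754708568618446090238497334608981886467069757621101668922689805948358554296982533801069528210983912573140779955699946429175321358860491922850634598051894332590080709358276018587940⟩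
  [(81704120511956374957206798336, [(0, 0), (0, 16), (4, 4), (4, 2), (3, 8)]), (47099218776611946087883526485216897088750650368, [(0, 0), (0, 16), (1, 4), (1, 3), (2, 8)]), (41832469807569616695327115444257, [(0, 0), (0, 16), (1, 4), (1, 2), (2, 8)]), (91990661672986542343071553620505995314724864, [(0, 0), (0, 16), (4, 4), (4, 3), (3, 8)])]
  [0, 16, 8, 24, 4, 20, 12, 28, 2, 18, 10, 26, 6, 22, 14, 30, 1, 17, 9, 25, 5, 21, 13, 29, 3, 19, 11, 27, 7, 23, 15, 31]
  (by decide +kernel) (by decide)

end Pool.Agent.Lib.MP_dae7ec_co
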