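import Pool.Agent.Lib.MP_dae7ec_co.CertB3a
import Pool.Agent.Lib.MP_dae7ec_co.CertB3b
import Pool.Agent.Lib.MP_dae7ec_co.CertB3c
import Pool.Agent.Lib.MP_dae7ec_co.CertB3d
import Pool.Agent.Lib.MP_dae7ec_co.CertB3e

set_option autoImplicit false

/-!
Certificates, found by computer and checked by the kernel.
-/

namespace Pool.Agent.Lib.MP_dae7ec_co

/-- keys -/
def keysB3 : List Key := [[(0, 4, 0), (0, 1, 1), (1, 3, 2), (1, 2, 3)],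
  [(0, 4, 0), (0, 2, 1), (0, 1, 2), (2, 3, 2)],
  [(0, 4, 0), (0, 2, 1), (0, 1, 2), (2, 3, 3)],
  [(0, 4, 0), (0, 2, 1), (2, 3, 2), (0, 1, 3)],
  [(0, 4, 0), (0, 1, 1), (0, 2, 2), (1, 3, 2)],
  [(0, 4, 0), (0, 1, 1), (0, 2, 2), (1, 3, 3)],
  [(0, 4, 0), (0, 3, 1), (0, 1, 2), (1, 2, 3)],
  [(0, 4, 0), (0, 3, 1), (0, 2, 2), (0, 1, 3)],
  [(0, 3, 0), (0, 1, 1), (1, 2, 2), (2, 4, 3)],
  [(0, 3, 0), (0, 1, 1), (1, 4, 2), (1, 2, 3)],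
  [(0, 3, 0), (0, 1, 1), (1, 2, 2), (1, 4, 3)],
  [(0, 3, 0), (0, 2, 1), (0, 1, 2), (2, 4, 2)],
  [(0, 3, 0), (0, 2, 1), (0, 1, 2), (2, 4, 3)],
  [(0, 3, 0), (0, 2, 1), (2, 4, 2), (0, 1, 3)],
  [(0, 3, 0), (0, 1, 1), (0, 2, 2), (1, 4, 2)],
  [(0, 3, 0), (0, 1, 1), (0, 2, 2), (1, 4, 3)],
  [(0, 3, 0), (0, 1, 1), (1, 4, 2), (0, 2, 3)],
  [(0, 3, 0), (0, 4, 1), (0, 1, 2), (1, 2, 3)],
  [(0, 3, 0), (0, 4, 1), (0, 2, 2), (0, 1, 3)],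
  [(0, 3, 0), (0, 2, 1), (0, 1, 2), (1, 4, 3)],
  [(0, 3, 0), (0, 2, 1), (0, 4, 2), (0, 1, 3)]]

theorem okB3 : ∀ K ∈ keysB3, KeyOK ![0, 0, 1, 1, 2] K := by
  unfold keysB3
  refine List.forall_mem_cons.mpr ⟨kB_69, ?_⟩
  refine List.forall_mem_cons.mpr ⟨kB_70, ?_⟩
  refine List.forall_mem_cons.mpr ⟨kB_71, ?_⟩
  refine List.forall_mem_cons.mpr ⟨kB_72, ?_⟩
  refine List.forall_mem_cons.mpr ⟨kB_73, ?_⟩
  refine List.forall_mem_cons.mpr ⟨kB_74, ?_⟩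
  refine List.forall_mem_cons.mpr ⟨kB_75, ?_⟩
  refine List.forall_mem_cons.mpr ⟨kB_76, ?_⟩
  refine List.forall_mem_cons.mpr ⟨kB_77, ?_⟩
  refine List.forall_mem_cons.mpr ⟨kB_78, ?_⟩
  refine List.forall_mem_cons.mpr ⟨kB_79, ?_⟩
  refine List.forall_mem_cons.mpr ⟨kB_80, ?_⟩
  refine List.forall_mem_cons.mpr ⟨kB_81, ?_⟩
  refine List.forall_mem_cons.mpr ⟨kB_82, ?_⟩
  refine List.forall_mem_cons.mpr ⟨kB_83, ?_⟩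
  refine List.forall_mem_cons.mpr ⟨kB_84, ?_⟩
  refine List.forall_mem_cons.mpr ⟨kB_85, ?_⟩
  refine List.forall_mem_cons.mpr ⟨kB_86, ?_⟩
  refine List.forall_mem_cons.mpr ⟨kB_87, ?_⟩
  refine List.forall_mem_cons.mpr ⟨kB_88, ?_⟩
  refine List.forall_mem_cons.mpr ⟨kB_89, ?_⟩
  exact List.forall_mem_nil _

end Pool.Agent.Lib.MP_dae7ec_co
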