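import Pool.Agent.Lib.MP_dae7ec_co.CertKey

set_option autoImplicit false

/-!
Certificates, found by computer and checked by the kernel.
-/

namespace Pool.Agent.Lib.MP_dae7ec_co

theorem kC_25 : KeyOK ![0, 0, 1, 1, 3]
    [(0, 1, 0), (1, 3, 1), (0, 2, 2), (3, 4, 2)] := keyOK_of_check
  ⟨0, 1, 2, 2, 0, 1, 0, 3, 1, 3, 2, 4, 26, 24, 4, 16, 2, true, false, true, 77919121276813864667136, 304371567487554158856, 0, 0, 1010058358592325554278401966052378017609122234736062497171727489078282532, 1776996817570626407465634750230183905134006731550343009005664246909155130394415928050232935367963387921487180213031331034925444906544031469816100, 0⟩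
  [(77919121276813864667136, [(0, 0), (0, 2), (4, 8), (4, 6), (2, 14)]), (304371567487554158856, [(0, 0), (0, 3), (3, 8), (3, 7), (4, 15)]), (0, [(0, 0), (0, 2), (1, 8), (1, 6), (3, 14)]), (0, [(0, 0), (0, 3), (2, 8), (2, 7), (1, 15)])]
  [0, 8, 4, 12, 2, 10, 6, 14, 1, 9, 5, 13, 3, 11, 7, 15]
  (by decide +kernel) (by decide)

end Pool.Agent.Lib.MP_dae7ec_co
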