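import Pool.Agent.Lib.MP_dae7ec_co.CertC0a
import Pool.Agent.Lib.MP_dae7ec_co.CertC0b
import Pool.Agent.Lib.MP_dae7ec_co.CertC0c
import Pool.Agent.Lib.MP_dae7ec_co.CertC0d
import Pool.Agent.Lib.MP_dae7ec_co.CertC0e

set_option autoImplicit false

/-!
Certificates, found by computer and checked by the kernel.
-/

namespace Pool.Agent.Lib.MP_dae7ec_co

/-- keys -/
def keysC0 : List Key := [[(0, 1, 0), (1, 2, 1), (2, 3, 2), (3, 4, 3)],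
  [(0, 1, 0), (1, 2, 1), (2, 4, 2), (2, 3, 3)],
  [(0, 1, 0), (1, 3, 1), (1, 2, 2), (3, 4, 2)],
  [(0, 1, 0), (1, 3, 1), (1, 2, 2), (3, 4, 3)],
  [(0, 1, 0), (1, 3, 1), (3, 4, 2), (1, 2, 3)],
  [(0, 1, 0), (1, 2, 1), (2, 3, 2), (1, 4, 2)],
  [(0, 1, 0), (1, 2, 1), (1, 4, 2), (2, 3, 3)],
  [(0, 1, 0), (1, 2, 1), (2, 3, 2), (1, 4, 3)],
  [(0, 1, 0), (1, 4, 1), (1, 2, 2), (2, 3, 3)],
  [(0, 1, 0), (1, 4, 1), (1, 3, 2), (1, 2, 3)],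
  [(0, 1, 0), (1, 3, 1), (1, 2, 2), (2, 4, 3)],
  [(0, 1, 0), (1, 3, 1), (1, 4, 2), (1, 2, 3)],
  [(0, 1, 0), (1, 3, 1), (1, 2, 2), (1, 4, 3)],
  [(0, 2, 0), (0, 1, 1), (2, 3, 1), (3, 4, 2)],
  [(0, 2, 0), (0, 1, 1), (2, 3, 2), (3, 4, 3)],
  [(0, 2, 0), (2, 3, 1), (0, 1, 2), (3, 4, 3)],
  [(0, 2, 0), (0, 1, 1), (2, 4, 2), (2, 3, 3)],
  [(0, 2, 0), (2, 4, 1), (0, 1, 2), (2, 3, 2)],
  [(0, 1, 0), (0, 2, 1), (1, 3, 1), (3, 4, 2)],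
  [(0, 1, 0), (0, 2, 1), (1, 3, 2), (3, 4, 3)],
  [(0, 1, 0), (1, 3, 1), (0, 2, 2), (3, 4, 2)]]

theorem okC0 : ∀ K ∈ keysC0, KeyOK ![0, 0, 1, 1, 3] K := by
  unfold keysC0
  refine List.forall_mem_cons.mpr ⟨kC_0, ?_⟩
  refine List.forall_mem_cons.mpr ⟨kC_1, ?_⟩
  refine List.forall_mem_cons.mpr ⟨kC_2, ?_⟩
  refine List.forall_mem_cons.mpr ⟨kC_3, ?_⟩
  refine List.forall_mem_cons.mpr ⟨kC_4, ?_⟩
  refine List.forall_mem_cons.mpr ⟨kC_5, ?_⟩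
  refine List.forall_mem_cons.mpr ⟨kC_6, ?_⟩
  refine List.forall_mem_cons.mpr ⟨kC_7, ?_⟩
  refine List.forall_mem_cons.mpr ⟨kC_8, ?_⟩
  refine List.forall_mem_cons.mpr ⟨kC_9, ?_⟩
  refine List.forall_mem_cons.mpr ⟨kC_10, ?_⟩
  refine List.forall_mem_cons.mpr ⟨kC_11, ?_⟩
  refine List.forall_mem_cons.mpr ⟨kC_12, ?_⟩
  refine List.forall_mem_cons.mpr ⟨kC_13, ?_⟩
  refine List.forall_mem_cons.mpr ⟨kC_14, ?_⟩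
  refine List.forall_mem_cons.mpr ⟨kC_16, ?_⟩
  refine List.forall_mem_cons.mpr ⟨kC_19, ?_⟩
  refine List.forall_mem_cons.mpr ⟨kC_20, ?_⟩
  refine List.forall_mem_cons.mpr ⟨kC_23, ?_⟩
  refine List.forall_mem_cons.mpr ⟨kC_24, ?_⟩
  refine List.forall_mem_cons.mpr ⟨kC_25, ?_⟩
  exact List.forall_mem_nil _

end Pool.Agent.Lib.MP_dae7ec_co
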