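import Pool.Agent.Lib.MP_dae7ec_co.CertC1a
import Pool.Agent.Lib.MP_dae7ec_co.CertC1b
import Pool.Agent.Lib.MP_dae7ec_co.CertC1c
import Pool.Agent.Lib.MP_dae7ec_co.CertC1d

set_option autoImplicit false

/-!
Certificates, found by computer and checked by the kernel.
-/

namespace Pool.Agent.Lib.MP_dae7ec_co

/-- keys -/
def keysC1 : List Key := [[(0, 1, 0), (1, 3, 1), (0, 2, 2), (3, 4, 3)],
  [(0, 1, 0), (1, 3, 1), (3, 4, 2), (0, 2, 3)],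
  [(0, 1, 0), (0, 2, 1), (1, 4, 1), (1, 3, 2)],
  [(0, 1, 0), (0, 2, 1), (1, 4, 2), (1, 3, 3)],
  [(0, 1, 0), (1, 4, 1), (0, 2, 2), (1, 3, 2)],
  [(0, 1, 0), (1, 4, 1), (0, 2, 2), (1, 3, 3)],
  [(0, 1, 0), (1, 4, 1), (1, 3, 2), (0, 2, 3)],
  [(0, 3, 0), (0, 2, 1), (3, 4, 1), (0, 1, 2)],
  [(0, 3, 0), (3, 4, 1), (0, 2, 2), (0, 1, 3)],
  [(0, 3, 0), (0, 2, 1), (0, 1, 2), (3, 4, 2)],
  [(0, 3, 0), (0, 2, 1), (3, 4, 2), (0, 1, 3)],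
  [(0, 3, 0), (0, 2, 1), (0, 1, 2), (3, 4, 3)],
  [(0, 3, 0), (0, 1, 1), (3, 4, 1), (1, 2, 2)],
  [(0, 3, 0), (3, 4, 1), (0, 1, 2), (1, 2, 3)],
  [(0, 3, 0), (0, 1, 1), (1, 2, 2), (3, 4, 2)],
  [(0, 3, 0), (0, 1, 1), (3, 4, 2), (1, 2, 3)],
  [(0, 3, 0), (0, 1, 1), (1, 2, 2), (3, 4, 3)],
  [(0, 4, 0), (0, 2, 1), (0, 1, 2), (2, 3, 2)],
  [(0, 4, 0), (0, 1, 1), (0, 2, 2), (1, 3, 2)],
  [(0, 4, 0), (0, 1, 1), (0, 2, 2), (1, 3, 3)]]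

theorem okC1 : ∀ K ∈ keysC1, KeyOK ![0, 0, 1, 1, 3] K := by
  unfold keysC1
  refine List.forall_mem_cons.mpr ⟨kC_26, ?_⟩
  refine List.forall_mem_cons.mpr ⟨kC_27, ?_⟩
  refine List.forall_mem_cons.mpr ⟨kC_28, ?_⟩
  refine List.forall_mem_cons.mpr ⟨kC_29, ?_⟩
  refine List.forall_mem_cons.mpr ⟨kC_30, ?_⟩
  refine List.forall_mem_cons.mpr ⟨kC_31, ?_⟩
  refine List.forall_mem_cons.mpr ⟨kC_32, ?_⟩
  refine List.forall_mem_cons.mpr ⟨kC_33, ?_⟩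
  refine List.forall_mem_cons.mpr ⟨kC_34, ?_⟩
  refine List.forall_mem_cons.mpr ⟨kC_35, ?_⟩
  refine List.forall_mem_cons.mpr ⟨kC_36, ?_⟩
  refine List.forall_mem_cons.mpr ⟨kC_37, ?_⟩
  refine List.forall_mem_cons.mpr ⟨kC_38, ?_⟩
  refine List.forall_mem_cons.mpr ⟨kC_39, ?_⟩
  refine List.forall_mem_cons.mpr ⟨kC_40, ?_⟩
  refine List.forall_mem_cons.mpr ⟨kC_41, ?_⟩
  refine List.forall_mem_cons.mpr ⟨kC_42, ?_⟩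
  refine List.forall_mem_cons.mpr ⟨kC_45, ?_⟩
  refine List.forall_mem_cons.mpr ⟨kC_47, ?_⟩
  refine List.forall_mem_cons.mpr ⟨kC_48, ?_⟩
  exact List.forall_mem_nil _

end Pool.Agent.Lib.MP_dae7ec_co
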