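import Pool.Agent.Lib.MP_dae7ec_co.CertTile

set_option autoImplicit false

/-!
Boolean verification of certificates.
-/

namespace Pool.Agent.Lib.MP_dae7ec_co

open Finset

/-- the two Booleans -/
def bools : List Bool := [false, true]

/-- the five residues -/
def fives : List ℕ := [0, 1, 2, 3, 4]

/-- The bits of the cells: `r1, r2, r3` tell which levels are present. -/
def strs (r1 r2 r3 : Bool) : List ℕ :=
  bools.flatMap fun x => bools.flatMap fun b0 => (if r1 then bools else [false]).flatMap fun b1 =>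
    (if r2 then bools else [false]).flatMap fun b2 => (if r3 then bools else [false]).map fun b3 =>
      toS x b0 b1 b2 b3

/-- number of pieces over a cell: `D` lists, for every orientation, the mask and the shifts -/
def covn (D : List (ℕ × List (ℕ × ℕ))) (cc s : ℕ) : ℕ :=
  (D.map fun p => (p.2.map fun q =>
    (Nat.testBit p.1 ((cc + q.1) % 5 + 5 * (s ^^^ q.2))).toNat).sum).sum

/-- shifts of a certificate for the orientation `k` -/
def Cert.shifts (C : Cert) (c : Fin 5 → ZMod 5) (k : Fin 4) : List (ℕ × ℕ) :=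
  (List.finRange 5).map fun i => ((-(C.mu k * c i)).val,
    toS (Cert.tw k && C.flip 0 i) (C.flip 0 i) (C.flip 1 i) (C.flip 2 i) (C.flip 3 i))

/-- all shifts -/
def Cert.data (C : Cert) (c : Fin 5 → ZMod 5) : List (ℕ × List (ℕ × ℕ)) :=
  (List.finRange 4).map fun k => (C.P k, C.shifts c k)

/-- check of one potential -/
def potb (C : Cert) (T l : ℕ) (k : Fin 4) (i : Fin 5) (n n' : ℕ) : Bool :=
  (List.finRange 4).all fun j =>
    if C.pos l k then Nat.beq (dg T n' j) (dg T n j + C.sh l i j)
    else Nat.beq (dg T n' j + C.sh l i j) (dg T n j)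

/-- the check of the potentials -/
def Cert.checkA (C : Cert) (c : Fin 5 → ZMod 5) (S : List ℕ) : Bool :=
  (List.finRange 4).all fun k => fives.all fun cc => S.all fun s =>
    if Nat.testBit (C.P k) (cc + 5 * s) then
      (List.finRange 5).all fun i =>
        let c' := (cc + (C.mu k * c i).val) % 5
        let s' := s ^^^ toS (Cert.tw k && C.flip 0 i) (C.flip 0 i) (C.flip 1 i) (C.flip 2 i) (C.flip 3 i)
        (!C.act 1 || potb C C.T1 1 k i (cc + 5 * (s % 4)) (c' + 5 * (s' % 4))) &&
        (!C.act 2 || potb C C.T2 2 k i (cc + 5 * (s % 8)) (c' + 5 * (s' % 8))) &&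
        (!C.act 3 || potb C C.T3 3 k i (cc + 5 * (s % 16)) (c' + 5 * (s' % 16)))
    else true

/-- the check of the exact cover -/
def checkB (D : List (ℕ × List (ℕ × ℕ))) (S : List ℕ) : Bool :=
  fives.all fun cc => S.all fun s => Nat.beq (covn D cc s) 1

/-- the complete check -/
def Cert.check (C : Cert) (c : Fin 5 → ZMod 5) (D : List (ℕ × List (ℕ × ℕ))) (S : List ℕ) : Bool :=
  decide (D = C.data c) && decide (S = strs (C.act 1) (C.act 2) (C.act 3)) &&
    (C.act 1 || (List.finRange 5).all fun i => !C.flip 1 i) &&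
    (C.act 2 || (List.finRange 5).all fun i => !C.flip 2 i) &&
    (C.act 3 || (List.finRange 5).all fun i => !C.flip 3 i) &&
    C.checkA c S && checkB D S

theorem strs_mem : ∀ r1 r2 r3 x b0 b1 b2 b3 : Bool, (r1 = false → b1 = false) →
    (r2 = false → b2 = false) → (r3 = false → b3 = false) →
    toS x b0 b1 b2 b3 ∈ strs r1 r2 r3 := by decide +kernel

theorem fives_mem : ∀ a : ZMod 5, a.val ∈ fives := by decide +kernel

theorem val_sub' : ∀ a b : ZMod 5, (a - b).val = (a.val + (-b).val) % 5 := by decide +kernel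

theorem val_add' : ∀ a b : ZMod 5, (a + b).val = (a.val + b.val) % 5 := by decide +kernel

theorem covn_eq (C : Cert) (c : Fin 5 → ZMod 5) (q : Cell) :
    covn (C.data c) q.c.val (toS q.x q.b0 q.b1 q.b2 q.b3) =
      ∑ k : Fin 4, ∑ i : Fin 5, (Nat.testBit (C.P k) (C.back c k i q).idx).toNat := by
  unfold covn Cert.data Cert.shifts
  rw [Fin.sum_univ_def, List.map_map]
  congr 1
  refine List.map_congr_left fun k _ => ?_
  rw [Fin.sum_univ_def]
  show ((((List.finRange 5).map fun i => ((-(C.mu k * c i)).val,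
    toS (Cert.tw k && C.flip 0 i) (C.flip 0 i) (C.flip 1 i) (C.flip 2 i) (C.flip 3 i))).map
      fun q' : ℕ × ℕ => (Nat.testBit (C.P k) ((q.c.val + q'.1) % 5 + 5 *
        (toS q.x q.b0 q.b1 q.b2 q.b3 ^^^ q'.2))).toNat).sum : ℕ) = _
  rw [List.map_map]
  congr 1
  refine List.map_congr_left fun i _ => ?_
  show (Nat.testBit (C.P k) ((q.c.val + (-(C.mu k * c i)).val) % 5 + 5 *
    (toS q.x q.b0 q.b1 q.b2 q.b3 ^^^
      toS (Cert.tw k && C.flip 0 i) (C.flip 0 i) (C.flip 1 i) (C.flip 2 i) (C.flip 3 i)))).toNat = _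
  rw [toS_xor, ← val_sub']
  rfl

theorem eps_pos (C : Cert) (l : ℕ) (k : Fin 4) : C.eps l k = if C.pos l k then 1 else -1 := by
  unfold Cert.eps Cert.pos
  cases C.kp l <;> fin_cases k <;> rfl

theorem potb_ok {C : Cert} {T l : ℕ} {k : Fin 4} {i : Fin 5} {n n' : ℕ}
    (h : potb C T l k i n n' = true) : C.PotOK T l k i n n' := by
  intro j
  unfold potb at h
  rw [List.all_eq_true] at h
  have h1 := h j (List.mem_finRange j)
  rw [eps_pos]
  cases hp : C.pos l k
  · simp only [hp, Bool.false_eq_true, if_false] at h1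
    have h2 := Nat.eq_of_beq_eq_true h1
    have h3 : ((dg T n' j + C.sh l i j : ℕ) : ℤ) = (dg T n j : ℕ) := by rw [h2]
    push_cast at h3
    simp only [Bool.false_eq_true, if_false]
    linarith
  · simp only [hp, if_true] at h1
    have h2 := Nat.eq_of_beq_eq_true h1
    have h3 : ((dg T n' j : ℕ) : ℤ) = ((dg T n j + C.sh l i j : ℕ) : ℤ) := by rw [h2]
    push_cast at h3
    simp only [if_true]
    linarith

theorem Cert.valid_of_check {C : Cert} {c : Fin 5 → ZMod 5} {D : List (ℕ × List (ℕ × ℕ))}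
    {S : List ℕ} (h : C.check c D S = true) : C.Valid c := by
  unfold Cert.check at h
  simp only [Bool.and_eq_true, decide_eq_true_eq] at h
  obtain ⟨⟨⟨⟨⟨⟨hD, hS⟩, hf1⟩, hf2⟩, hf3⟩, hA⟩, hB⟩ := h
  have hf : ∀ l : ℕ, (C.act l || (List.finRange 5).all fun i => !C.flip l i) = true →
      C.act l = false → ∀ i, C.flip l i = false := by
    intro l h1 h2 i
    rw [h2, Bool.false_or, List.all_eq_true] at h1
    have := h1 i (List.mem_finRange i)
    simpa using this
  refine ⟨?_, ?_, hf 1 hf1, hf 2 hf2, hf 3 hf3⟩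
  · intro k q h1 h2 h3 hp i
    unfold Cert.checkA at hA
    simp only [List.all_eq_true] at hA
    have h4 := hA k (List.mem_finRange k) q.c.val (fives_mem _) (toS q.x q.b0 q.b1 q.b2 q.b3)
      (by rw [hS]; exact strs_mem _ _ _ _ _ _ _ _ h1 h2 h3)
    have hp' : Nat.testBit (C.P k) (q.c.val + 5 * toS q.x q.b0 q.b1 q.b2 q.b3) = true := hp
    rw [if_pos hp', List.all_eq_true] at h4
    have h5 := h4 i (List.mem_finRange i)
    simp only [Bool.and_eq_true, Bool.or_eq_true, Bool.not_eq_true'] at h5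
    rw [toS_xor, toS_mod4, toS_mod4, toS_mod8, toS_mod8, toS_mod16, toS_mod16, ← val_add'] at h5
    obtain ⟨⟨h6, h7⟩, h8⟩ := h5
    refine ⟨fun ha => ?_, fun ha => ?_, fun ha => ?_⟩
    · rcases h6 with h6 | h6
      · rw [h6] at ha; exact absurd ha (by decide)
      · exact potb_ok h6
    · rcases h7 with h7 | h7
      · rw [h7] at ha; exact absurd ha (by decide)
      · exact potb_ok h7
    · rcases h8 with h8 | h8
      · rw [h8] at ha; exact absurd ha (by decide)
      · exact potb_ok h8
  · intro q h1 h2 h3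
    rw [← covn_eq, ← hD]
    unfold checkB at hB
    simp only [List.all_eq_true] at hB
    exact Nat.eq_of_beq_eq_true (hB q.c.val (fives_mem _) (toS q.x q.b0 q.b1 q.b2 q.b3)
      (by rw [hS]; exact strs_mem _ _ _ _ _ _ _ _ h1 h2 h3))

end Pool.Agent.Lib.MP_dae7ec_co
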