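import Pool.Agent.Lib.MP_dae7ec_co.TwoAdic

set_option autoImplicit false

/-!
The finitely many 2-adic configurations of five integers.
-/

namespace Pool.Agent.Lib.MP_dae7ec_co

/-- the minimum of the numbers `l` between the positions `p` and `q` -/
def mn (l0 l1 l2 l3 p q : ℕ) : ℕ :=
  min (min (if Nat.blt (min p q) 1 && Nat.blt 0 (max p q) then l0 else 4)
        (if Nat.blt (min p q) 2 && Nat.blt 1 (max p q) then l1 else 4))
    (min (if Nat.blt (min p q) 3 && Nat.blt 2 (max p q) then l2 else 4)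
        (if Nat.blt (min p q) 4 && Nat.blt 3 (max p q) then l3 else 4))

/-- The combinatorial description of a certificate: triples `(a, b, l)`; the difference of the points
`a` and `b` has level `l`. -/
abbrev Key := List (ℕ × ℕ × ℕ)

/-- look-up in a list -/
def at5 (L : List ℕ) (x : ℕ) : ℕ := L.getD x 0

/-- the key matches: `pos` are the positions of the points, `tau` a relabelling -/
def matchK (l0 l1 l2 l3 : ℕ) (pos tau : List ℕ) (K : Key) : Bool :=
  K.all fun x => Nat.beq (mn l0 l1 l2 l3 (at5 pos (at5 tau x.1)) (at5 pos (at5 tau x.2.1))) x.2.2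

/-- the groups `A` and `B` of points are separated first -/
def sepK (l0 l1 l2 l3 : ℕ) (pos A B : List ℕ) : Bool :=
  (A.all fun x => A.all fun y => Nat.beq x y || B.all fun z =>
    Nat.blt (mn l0 l1 l2 l3 (at5 pos x) (at5 pos z)) (mn l0 l1 l2 l3 (at5 pos x) (at5 pos y))) &&
  (B.all fun x => B.all fun y => Nat.beq x y || A.all fun z =>
    Nat.blt (mn l0 l1 l2 l3 (at5 pos x) (at5 pos z)) (mn l0 l1 l2 l3 (at5 pos x) (at5 pos y)))

/-- admissible ranks -/
def levOK (l0 l1 l2 l3 : ℕ) : Bool :=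
  ([l0, l1, l2, l3].all fun a => (List.range a).all fun l => [l0, l1, l2, l3].any fun b =>
    Nat.beq b l) &&
  [(0, 1, 2), (0, 1, 3), (0, 1, 4), (0, 2, 3), (0, 2, 4), (0, 3, 4), (1, 2, 3), (1, 2, 4),
    (1, 3, 4), (2, 3, 4)].all fun x : ℕ × ℕ × ℕ =>
      !(Nat.beq (mn l0 l1 l2 l3 x.1 x.2.1) (mn l0 l1 l2 l3 x.2.1 x.2.2))

/-- all permutations -/
def permL : List (List ℕ) :=
  [0, 1, 2, 3, 4].flatMap fun a => [0, 1, 2, 3, 4].flatMap fun b => [0, 1, 2, 3, 4].flatMap fun c =>
    [0, 1, 2, 3, 4].flatMap fun d => ([0, 1, 2, 3, 4].filter fun e =>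
      !(Nat.beq a b || Nat.beq a c || Nat.beq a d || Nat.beq a e || Nat.beq b c || Nat.beq b d ||
        Nat.beq b e || Nat.beq c d || Nat.beq c e || Nat.beq d e)).map fun e => [a, b, c, d, e]

/-- the list of admissible ranks -/
def levL : List (ℕ × ℕ × ℕ × ℕ) :=
  [0, 1, 2, 3].flatMap fun a => [0, 1, 2, 3].flatMap fun b => [0, 1, 2, 3].flatMap fun c =>
    ([0, 1, 2, 3].filter fun d => levOK a b c d).map fun d => (a, b, c, d)

/-- check of one configuration with the witness `w` -/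
def chk1 (keys : List Key) (taus : List (List ℕ)) (ex : List (List ℕ × List ℕ)) (N : ℕ)
    (l : ℕ × ℕ × ℕ × ℕ) (pos : List ℕ) (w : ℕ) : Bool :=
  (ex.any fun A => sepK l.1 l.2.1 l.2.2.1 l.2.2.2 pos A.1 A.2) ||
    match keys[w / N]?, taus[w % N]? with
    | some K, some tau => matchK l.1 l.2.1 l.2.2.1 l.2.2.2 pos tau K
    | _, _ => false

/-- check of all orders for given ranks -/
def chk2 (keys : List Key) (taus : List (List ℕ)) (ex : List (List ℕ × List ℕ)) (N : ℕ)
    (l : ℕ × ℕ × ℕ × ℕ) : List (List ℕ) → List ℕ → Bool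
  | [], _ => true
  | pos :: ps, w :: ws => chk1 keys taus ex N l pos w && chk2 keys taus ex N l ps ws
  | _ :: _, [] => false

/-- the complete check -/
def chk3 (keys : List Key) (taus : List (List ℕ)) (ex : List (List ℕ × List ℕ)) (N : ℕ)
    (perms : List (List ℕ)) : List (ℕ × ℕ × ℕ × ℕ) → List (List ℕ) → Bool
  | [], _ => true
  | l :: ls, w :: ws => chk2 keys taus ex N l perms w && chk3 keys taus ex N perms ls ws
  | _ :: _, [] => false

theorem chk2_spec {keys : List Key} {taus : List (List ℕ)} {ex : List (List ℕ × List ℕ)} {N : ℕ}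
    {l : ℕ × ℕ × ℕ × ℕ} :
    ∀ {ps : List (List ℕ)} {ws : List ℕ}, chk2 keys taus ex N l ps ws = true → ∀ pos ∈ ps,
      ∃ w, chk1 keys taus ex N l pos w = true := by
  intro ps
  induction ps with
  | nil => intro ws _ pos h; exact absurd h (List.not_mem_nil)
  | cons p ps ih =>
    intro ws h pos hpos
    cases ws with
    | nil => exact absurd h (by simp [chk2])
    | cons w ws =>
      simp only [chk2, Bool.and_eq_true] at h
      rcases List.mem_cons.mp hpos with rfl | hpos
      · exact ⟨w, h.1⟩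
      · exact ih h.2 pos hpos

theorem chk3_spec {keys : List Key} {taus : List (List ℕ)} {ex : List (List ℕ × List ℕ)} {N : ℕ}
    {perms : List (List ℕ)} :
    ∀ {ls : List (ℕ × ℕ × ℕ × ℕ)} {ws : List (List ℕ)}, chk3 keys taus ex N perms ls ws = true →
      ∀ l ∈ ls, ∀ pos ∈ perms, ∃ w, chk1 keys taus ex N l pos w = true := by
  intro ls
  induction ls with
  | nil => intro ws _ l h; exact absurd h (List.not_mem_nil)
  | cons a ls ih =>
    intro ws h l hl
    cases ws with
    | nil => exact absurd h (by simp [chk3])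
    | cons w ws =>
      simp only [chk3, Bool.and_eq_true] at h
      rcases List.mem_cons.mp hl with rfl | hl
      · exact chk2_spec h.1
      · exact ih h.2 l hl

theorem mem_permL : ∀ a b c d e : Fin 5, (a ≠ b ∧ a ≠ c ∧ a ≠ d ∧ a ≠ e ∧ b ≠ c ∧ b ≠ d ∧ b ≠ e ∧
    c ≠ d ∧ c ≠ e ∧ d ≠ e) → [a.val, b.val, c.val, d.val, e.val] ∈ permL := by decide +kernel

theorem mem_levL : ∀ a b c d : Fin 4, levOK a b c d = true → ((a : ℕ), (b : ℕ), (c : ℕ), (d : ℕ)) ∈ levL := by
  decide +kernel

theorem mn01 : ∀ a b c d : Fin 4, mn a b c d 0 1 = a := by decide +kernel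
theorem mn12 : ∀ a b c d : Fin 4, mn a b c d 1 2 = b := by decide +kernel
theorem mn23 : ∀ a b c d : Fin 4, mn a b c d 2 3 = c := by decide +kernel
theorem mn34 : ∀ a b c d : Fin 4, mn a b c d 3 4 = d := by decide +kernel
theorem mn02 : ∀ a b c d : Fin 4, mn a b c d 0 2 = min (a : ℕ) b := by decide +kernel
theorem mn13 : ∀ a b c d : Fin 4, mn a b c d 1 3 = min (b : ℕ) c := by decide +kernel
theorem mn24 : ∀ a b c d : Fin 4, mn a b c d 2 4 = min (c : ℕ) d := by decide +kernel
theorem mn03 : ∀ a b c d : Fin 4, mn a b c d 0 3 = min (min (a : ℕ) b) c := by decide +kernel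
theorem mn14 : ∀ a b c d : Fin 4, mn a b c d 1 4 = min (min (b : ℕ) c) d := by decide +kernel
theorem mn04 : ∀ a b c d : Fin 4, mn a b c d 0 4 = min (min (min (a : ℕ) b) c) d := by
  decide +kernel

theorem mn_symm (a b c d p q : ℕ) : mn a b c d p q = mn a b c d q p := by
  unfold mn
  rw [min_comm p q, max_comm p q]

theorem val_symm (x y : ℤ) : val (x - y) = val (y - x) := by
  rw [← val_neg, neg_sub]

/-- the points as a function on the natural numbers -/
def pt (t : Fin 5 → ℤ) (n : ℕ) : ℤ := t (Fin.ofNat 5 n)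

theorem classify {keys : List Key} {taus : List (List ℕ)} {ex : List (List ℕ × List ℕ)} {N : ℕ}
    {W : List (List ℕ)}
    (h : chk3 keys taus ex N permL levL W = true) (htau : ∀ tau ∈ taus, ∀ n < 5, at5 tau n < 5)
    (hkey : ∀ K ∈ keys, ∀ x ∈ K, x.1 < 5 ∧ x.2.1 < 5 ∧ x.1 ≠ x.2.1)
    (htau2 : ∀ tau ∈ taus, ∀ m < 5, ∀ n < 5, at5 tau m = at5 tau n → m = n)
    (hex : ∀ A ∈ ex, (∀ x ∈ A.1, x < 5) ∧ (∀ x ∈ A.2, x < 5) ∧ ∀ x ∈ A.1, ∀ y ∈ A.2, x ≠ y)
    (t : Fin 5 → ℤ) (ht : Function.Injective t) :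
    (∃ A ∈ ex, (∀ x ∈ A.1, ∀ y ∈ A.1, x ≠ y → ∀ z ∈ A.2,
        val (pt t x - pt t z) < val (pt t x - pt t y)) ∧
      ∀ x ∈ A.2, ∀ y ∈ A.2, x ≠ y → ∀ z ∈ A.1, val (pt t x - pt t z) < val (pt t x - pt t y)) ∨
    ∃ K ∈ keys, ∃ tau ∈ taus, ∃ Y : ℕ → ℕ, StrictMono Y ∧
      ∀ x ∈ K, val (pt t (at5 tau x.1) - pt t (at5 tau x.2.1)) = Y x.2.2 := by
  obtain ⟨σ, hσ⟩ := exists_order t ht
  obtain ⟨Y, lev, hY, hlev, hdense⟩ := exists_ranks
    ![val (t (σ 0) - t (σ 1)), val (t (σ 1) - t (σ 2)), val (t (σ 2) - t (σ 3)),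
      val (t (σ 3) - t (σ 4))]
  have h01 : val (t (σ 0) - t (σ 1)) = Y (lev 0) := hlev 0
  have h12 : val (t (σ 1) - t (σ 2)) = Y (lev 1) := hlev 1
  have h23 : val (t (σ 2) - t (σ 3)) = Y (lev 2) := hlev 2
  have h34 : val (t (σ 3) - t (σ 4)) = Y (lev 3) := hlev 3
  have mm : ∀ a b : ℕ, min (Y a) (Y b) = Y (min a b) := fun a b => (hY.monotone.map_min).symm
  have h02 : val (t (σ 0) - t (σ 2)) = Y (min (lev 0 : ℕ) (lev 1)) := by
    rw [(hσ 0 1 2 (by decide) (by decide)).2, h01, h12, mm]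
  have h13 : val (t (σ 1) - t (σ 3)) = Y (min (lev 1 : ℕ) (lev 2)) := by
    rw [(hσ 1 2 3 (by decide) (by decide)).2, h12, h23, mm]
  have h24 : val (t (σ 2) - t (σ 4)) = Y (min (lev 2 : ℕ) (lev 3)) := by
    rw [(hσ 2 3 4 (by decide) (by decide)).2, h23, h34, mm]
  have h03 : val (t (σ 0) - t (σ 3)) = Y (min (min (lev 0 : ℕ) (lev 1)) (lev 2)) := by
    rw [(hσ 0 2 3 (by decide) (by decide)).2, h02, h23, mm]
  have h14 : val (t (σ 1) - t (σ 4)) = Y (min (min (lev 1 : ℕ) (lev 2)) (lev 3)) := by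
    rw [(hσ 1 3 4 (by decide) (by decide)).2, h13, h34, mm]
  have h04 : val (t (σ 0) - t (σ 4)) = Y (min (min (min (lev 0 : ℕ) (lev 1)) (lev 2)) (lev 3)) := by
    rw [(hσ 0 3 4 (by decide) (by decide)).2, h03, h34, mm]
  set L : ℕ → ℕ → ℕ := mn (lev 0) (lev 1) (lev 2) (lev 3) with hL
  have hv : ∀ p q : Fin 5, p < q → val (t (σ p) - t (σ q)) = Y (L p q) := by
    intro p q hpq
    fin_cases p <;> fin_cases q <;> first
      | exact absurd hpq (by decide)
      | (show _ = Y (mn _ _ _ _ 0 1); rw [mn01]; exact h01)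
      | (show _ = Y (mn _ _ _ _ 0 2); rw [mn02]; exact h02)
      | (show _ = Y (mn _ _ _ _ 0 3); rw [mn03]; exact h03)
      | (show _ = Y (mn _ _ _ _ 0 4); rw [mn04]; exact h04)
      | (show _ = Y (mn _ _ _ _ 1 2); rw [mn12]; exact h12)
      | (show _ = Y (mn _ _ _ _ 1 3); rw [mn13]; exact h13)
      | (show _ = Y (mn _ _ _ _ 1 4); rw [mn14]; exact h14)
      | (show _ = Y (mn _ _ _ _ 2 3); rw [mn23]; exact h23)
      | (show _ = Y (mn _ _ _ _ 2 4); rw [mn24]; exact h24)
      | (show _ = Y (mn _ _ _ _ 3 4); rw [mn34]; exact h34)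
  have hv' : ∀ p q : Fin 5, p ≠ q → val (t (σ p) - t (σ q)) = Y (L p q) := by
    intro p q hpq
    rcases lt_or_gt_of_ne hpq with h1 | h1
    · exact hv p q h1
    · rw [val_symm, hv q p h1, hL, mn_symm]
  have hw : ∀ x z : Fin 5, x ≠ z → val (t x - t z) = Y (L (σ.symm x) (σ.symm z)) := by
    intro x z hxz
    have := hv' (σ.symm x) (σ.symm z) (fun h => hxz (σ.symm.injective h))
    rwa [σ.apply_symm_apply, σ.apply_symm_apply] at this
  -- the ranks are admissible
  have hadj : ∀ i j k : Fin 5, i < j → j < k → L i j ≠ L j k := by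
    intro i j k hij hjk heq
    apply (hσ i j k hij hjk).1
    rw [hv i j hij, hv j k hjk, heq]
  have hok : levOK (lev 0) (lev 1) (lev 2) (lev 3) = true := by
    unfold levOK
    rw [Bool.and_eq_true]
    constructor
    · rw [List.all_eq_true]
      intro a ha
      rw [List.all_eq_true]
      intro l hl
      rw [List.any_eq_true]
      have hl' : l < a := List.mem_range.mp hl
      have hmem : ∃ p : Fin 4, a = lev p := by
        simp only [List.mem_cons, List.not_mem_nil, or_false] at ha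
        rcases ha with rfl | rfl | rfl | rfl
        · exact ⟨0, rfl⟩
        · exact ⟨1, rfl⟩
        · exact ⟨2, rfl⟩
        · exact ⟨3, rfl⟩
      obtain ⟨p, rfl⟩ := hmem
      obtain ⟨q, hq⟩ := hdense p ⟨l, hl'.trans (lev p).2⟩ hl'
      refine ⟨lev q, ?_, ?_⟩
      · simp only [List.mem_cons, List.not_mem_nil, or_false]
        fin_cases q
        · exact Or.inl rfl
        · exact Or.inr (Or.inl rfl)
        · exact Or.inr (Or.inr (Or.inl rfl))
        · exact Or.inr (Or.inr (Or.inr rfl))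
      · rw [hq]
        exact Nat.beq_refl l
    · rw [List.all_eq_true]
      intro x hx
      have key : ∀ i j k : Fin 5, i < j → j < k →
          (!(Nat.beq (L i j) (L j k))) = true := by
        intro i j k hij hjk
        cases hb : Nat.beq (L i j) (L j k) with
        | false => rfl
        | true => exact absurd (Nat.eq_of_beq_eq_true hb) (hadj i j k hij hjk)
      simp only [List.mem_cons, List.not_mem_nil, or_false] at hx
      rcases hx with rfl | rfl | rfl | rfl | rfl | rfl | rfl | rfl | rfl | rfl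
      · exact key 0 1 2 (by decide) (by decide)
      · exact key 0 1 3 (by decide) (by decide)
      · exact key 0 1 4 (by decide) (by decide)
      · exact key 0 2 3 (by decide) (by decide)
      · exact key 0 2 4 (by decide) (by decide)
      · exact key 0 3 4 (by decide) (by decide)
      · exact key 1 2 3 (by decide) (by decide)
      · exact key 1 2 4 (by decide) (by decide)
      · exact key 1 3 4 (by decide) (by decide)
      · exact key 2 3 4 (by decide) (by decide)
  have hinj := σ.symm.injective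
  have hpos := mem_permL (σ.symm 0) (σ.symm 1) (σ.symm 2) (σ.symm 3) (σ.symm 4)
    ⟨fun h => absurd (hinj h) (by decide), fun h => absurd (hinj h) (by decide),
    fun h => absurd (hinj h) (by decide), fun h => absurd (hinj h) (by decide),
    fun h => absurd (hinj h) (by decide), fun h => absurd (hinj h) (by decide),
    fun h => absurd (hinj h) (by decide), fun h => absurd (hinj h) (by decide),
    fun h => absurd (hinj h) (by decide), fun h => absurd (hinj h) (by decide)⟩
  obtain ⟨w, hw1⟩ := chk3_spec h _ (mem_levL _ _ _ _ hok) _ hpos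
  have hat : ∀ n : ℕ, n < 5 → at5 [(σ.symm 0).val, (σ.symm 1).val, (σ.symm 2).val, (σ.symm 3).val,
      (σ.symm 4).val] n = (σ.symm (Fin.ofNat 5 n)).val := by
    intro n hn
    interval_cases n <;> rfl
  have hofne : ∀ m n : ℕ, m < 5 → n < 5 → m ≠ n → Fin.ofNat 5 m ≠ Fin.ofNat 5 n := by
    intro m n hm hn hmn
    interval_cases m <;> interval_cases n <;> first | exact absurd rfl hmn | decide
  have hv5 : ∀ m n : ℕ, m < 5 → n < 5 → m ≠ n → val (pt t m - pt t n) =
      Y (L (at5 [(σ.symm 0).val, (σ.symm 1).val, (σ.symm 2).val, (σ.symm 3).val,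
        (σ.symm 4).val] m) (at5 [(σ.symm 0).val, (σ.symm 1).val, (σ.symm 2).val, (σ.symm 3).val,
        (σ.symm 4).val] n)) := by
    intro m n hm hn hmn
    rw [hat m hm, hat n hn]
    exact hw _ _ (hofne m n hm hn hmn)
  unfold chk1 at hw1
  rw [Bool.or_eq_true] at hw1
  rcases hw1 with hw1 | hw1
  · left
    rw [List.any_eq_true] at hw1
    obtain ⟨A, hA, h2⟩ := hw1
    obtain ⟨x1, x2, x3⟩ := hex A hA
    refine ⟨A, hA, ?_⟩
    unfold sepK at h2
    rw [Bool.and_eq_true] at h2
    obtain ⟨h3, h4⟩ := h2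
    have go : ∀ B C : List ℕ, (∀ x ∈ B, x < 5) → (∀ x ∈ C, x < 5) → (∀ x ∈ B, ∀ y ∈ C, x ≠ y) →
        (B.all fun x => B.all fun y => Nat.beq x y || C.all fun z =>
          Nat.blt (L (at5 [(σ.symm 0).val, (σ.symm 1).val, (σ.symm 2).val, (σ.symm 3).val,
        (σ.symm 4).val] x) (at5 [(σ.symm 0).val, (σ.symm 1).val, (σ.symm 2).val, (σ.symm 3).val,
        (σ.symm 4).val] z)) (L (at5 [(σ.symm 0).val, (σ.symm 1).val, (σ.symm 2).val,
        (σ.symm 3).val, (σ.symm 4).val] x) (at5 [(σ.symm 0).val, (σ.symm 1).val, (σ.symm 2).val,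
        (σ.symm 3).val, (σ.symm 4).val] y))) = true →
        ∀ x ∈ B, ∀ y ∈ B, x ≠ y → ∀ z ∈ C, val (pt t x - pt t z) < val (pt t x - pt t y) := by
      intro B C b1 b2 b3 hb x hx y hy hxy z hz
      rw [List.all_eq_true] at hb
      have q1 := hb x hx
      rw [List.all_eq_true] at q1
      have q2 := q1 y hy
      rw [Bool.or_eq_true] at q2
      rcases q2 with q2 | q2
      · exact absurd (Nat.eq_of_beq_eq_true q2) hxy
      · rw [List.all_eq_true] at q2
        have q3 := q2 z hz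
        rw [hv5 x z (b1 x hx) (b2 z hz) (b3 x hx z hz), hv5 x y (b1 x hx) (b1 y hy) hxy]
        exact hY (by simpa [Nat.blt_eq] using q3)
    exact ⟨go A.1 A.2 x1 x2 x3 h3, go A.2 A.1 x2 x1 (fun x hx y hy => (x3 y hy x hx).symm) h4⟩
  · right
    cases hK : keys[w / N]? with
    | none => rw [hK] at hw1; exact absurd hw1 (by simp)
    | some K =>
      cases hT : taus[w % N]? with
      | none => rw [hK, hT] at hw1; exact absurd hw1 (by simp)
      | some tau =>
        rw [hK, hT] at hw1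
        have hKm : K ∈ keys := List.mem_of_getElem? hK
        have hTm : tau ∈ taus := List.mem_of_getElem? hT
        refine ⟨K, hKm, tau, hTm, Y, hY, fun x hx => ?_⟩
        change matchK (lev 0) (lev 1) (lev 2) (lev 3) _ tau K = true at hw1
        unfold matchK at hw1
        rw [List.all_eq_true] at hw1
        have h3 := Nat.eq_of_beq_eq_true (hw1 x hx)
        obtain ⟨b1, b2, b3⟩ := hkey K hKm x hx
        rw [hv5 _ _ (htau tau hTm _ b1) (htau tau hTm _ b2)
          (fun h => b3 (htau2 tau hTm _ b1 _ b2 h))]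
        rw [← h3]

end Pool.Agent.Lib.MP_dae7ec_co
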