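import Pool.Agent.Lib.MP_dae7ec_co.CertCheck
import Pool.Agent.Lib.MP_dae7ec_co.Classify

set_option autoImplicit false

/-!
From keys to tilings.
-/

namespace Pool.Agent.Lib.MP_dae7ec_co

open Finset

/-- the key of a certificate -/
def Cert.key (C : Cert) : Key :=
  [(C.a0.val, C.b0.val, C.l0), (C.a1.val, C.b1.val, C.l1), (C.a2.val, C.b2.val, C.l2),
    (C.a3.val, C.b3.val, C.l3)]

/-- Kronecker symbol -/
def dl (i j : Fin 5) : ℤ := if i = j then 1 else 0

/-- the points are sums of generators -/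
def Cert.ptsOK (C : Cert) : Bool :=
  decide (∀ i j : Fin 5, dl i j - dl 0 j = ∑ k : Fin 4, if C.e i k then dl (C.b k) j - dl (C.a k) j
    else 0)

/-- the key is realised by a valid certificate -/
def KeyOK (c : Fin 5 → ZMod 5) (K : Key) : Prop :=
  ∃ C : Cert, C.Valid c ∧ C.key = K ∧ C.act 0 = true ∧ C.ptsOK = true

theorem keyOK_of_check {c : Fin 5 → ZMod 5} {K : Key} (C : Cert) (D : List (ℕ × List (ℕ × ℕ)))
    (S : List ℕ) (h : (C.check c D S && C.act 0 && C.ptsOK) = true) (hK : C.key = K) :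
    KeyOK c K := by
  simp only [Bool.and_eq_true] at h
  exact ⟨C, Cert.valid_of_check h.1.1, hK, h.1.2, h.2⟩

theorem four_bools : ∀ p q r s : Bool, ∃ m : ℤ, ((p.toNat : ℤ) + q.toNat + (r.toNat + s.toNat)) =
    ((xor (xor p q) (xor r s)).toNat : ℤ) + 2 * m := by
  have h : ∀ p q r s : Bool, ((p.toNat : ℤ) + q.toNat + (r.toNat + s.toNat)) =
    ((xor (xor p q) (xor r s)).toNat : ℤ) +
      2 * (((p.toNat + q.toNat + (r.toNat + s.toNat)) / 2 : ℕ) : ℤ) := by decide
  exact fun p q r s => ⟨_, h p q r s⟩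

theorem ptsOK_sum {C : Cert} (h : C.ptsOK = true) (t : Fin 5 → ℤ) (i : Fin 5) :
    t i - t 0 = ∑ k : Fin 4, if C.e i k then t (C.b k) - t (C.a k) else 0 := by
  have h1 : ∀ i j : Fin 5, dl i j - dl 0 j = ∑ k : Fin 4, if C.e i k then dl (C.b k) j - dl (C.a k) j
    else 0 := of_decide_eq_true h
  have key : ∀ x : Fin 5, ∑ j, dl x j * t j = t x := by
    intro x
    unfold dl
    simp [Finset.sum_ite_eq]
  rw [← key i, ← key 0, ← Finset.sum_sub_distrib]
  have h2 : ∀ k : Fin 4, (if C.e i k then t (C.b k) - t (C.a k) else 0) =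
      ∑ j, (if C.e i k then dl (C.b k) j - dl (C.a k) j else 0) * t j := by
    intro k
    cases C.e i k
    · simp
    · simp only [if_true]
      rw [← key (C.b k), ← key (C.a k), ← Finset.sum_sub_distrib]
      refine Finset.sum_congr rfl fun j _ => ?_
      ring
  simp only [h2]
  rw [Finset.sum_comm]
  refine Finset.sum_congr rfl fun j _ => ?_
  rw [← sub_mul, h1 i j, Finset.sum_mul]

theorem KeyOK.tiles {c : Fin 5 → ZMod 5} {K : Key} (hK : KeyOK c K) (t : Fin 5 → ℤ)
    (ht : Function.Injective t) (u : ZMod 5) (hlab : ∀ i, u * ((t i : ZMod 5) - (t 0 : ZMod 5)) = c i)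
    (hne : ∀ x ∈ K, x.1 < 5 ∧ x.2.1 < 5 ∧ x.1 ≠ x.2.1)
    (Y : ℕ → ℕ) (hY : StrictMono Y) (hv : ∀ x ∈ K, val (pt t x.1 - pt t x.2.1) = Y x.2.2) :
    IntTiles t := by
  obtain ⟨C, hV, rfl, hact, hpts⟩ := hK
  -- the generators
  have hpt : ∀ i : Fin 5, pt t i.val = t i := by
    intro i
    unfold pt
    congr 1
    apply Fin.ext
    show i.val % 5 = i.val
    exact Nat.mod_eq_of_lt i.2
  have hg : ∀ k : Fin 4, ∃ n : ℤ, t (C.b k) - t (C.a k) = 2 ^ Y (C.lev k) * (2 * n + 1) := by
    have key : ∀ a b : Fin 5, ∀ l : ℕ, (a.val, b.val, l) ∈ C.key →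
        ∃ n : ℤ, t b - t a = 2 ^ Y l * (2 * n + 1) := by
      intro a b l hmem
      have h1 := hv _ hmem
      obtain ⟨-, -, h2⟩ := hne _ hmem
      simp only [hpt] at h1
      have h3 : t b - t a ≠ 0 := sub_ne_zero.mpr (fun h => h2 (by rw [ht h]))
      obtain ⟨n, hn⟩ := val_spec h3
      refine ⟨n, ?_⟩
      rw [← h1, val_symm]
      exact hn
    intro k
    match k with
    | 0 => exact key C.a0 C.b0 C.l0 (List.mem_cons_self ..)
    | 1 => exact key C.a1 C.b1 C.l1 (List.mem_cons_of_mem _ (List.mem_cons_self ..))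
    | 2 => exact key C.a2 C.b2 C.l2 (List.mem_cons_of_mem _ (List.mem_cons_of_mem _
        (List.mem_cons_self ..)))
    | 3 => exact key C.a3 C.b3 C.l3 (List.mem_cons_of_mem _ (List.mem_cons_of_mem _
        (List.mem_cons_of_mem _ (List.mem_cons_self ..))))
  refine IntTiles.translate (t 0) (hV.tiles (g := fun k => t (C.b k) - t (C.a k))
    (h := fun l => 2 ^ Y l) (u := u) ?_)
  have hlvl : ∀ (l : ℕ) (i : Fin 5), ∃ n : ℤ, t i - t 0 =
      ∑ j, (C.sh l i j : ℤ) * (t (C.b j) - t (C.a j)) +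
        2 ^ Y l * (((C.flip l i).toNat : ℤ) + 2 * n) := by
    intro l i
    have step : ∀ k : Fin 4, ∃ n : ℤ, (if C.e i k then t (C.b k) - t (C.a k) else 0) =
        (C.sh l i k : ℤ) * (t (C.b k) - t (C.a k)) +
          2 ^ Y l * (((decide (C.lev k = l) && C.e i k).toNat : ℤ) + 2 * n) := by
      intro k
      obtain ⟨n, hn⟩ := hg k
      cases he : C.e i k
      · refine ⟨0, ?_⟩
        unfold Cert.sh
        rw [he]; simp
      · unfold Cert.sh
        rw [he]
        rcases lt_trichotomy (C.lev k) l with h1 | h1 | h1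
        · refine ⟨0, ?_⟩
          have h2 : decide (C.lev k = l) = false := by rw [decide_eq_false_iff_not]; omega
          rw [h2, decide_eq_true h1]; simp
        · refine ⟨n, ?_⟩
          have h2 : decide (C.lev k < l) = false := by rw [decide_eq_false_iff_not]; omega
          rw [h2, decide_eq_true h1, hn, h1]; simp; ring
        · have h2 : decide (C.lev k < l) = false := by rw [decide_eq_false_iff_not]; omega
          have h3 : decide (C.lev k = l) = false := by rw [decide_eq_false_iff_not]; omega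
          have h4 : Y l < Y (C.lev k) := hY h1
          refine ⟨2 ^ (Y (C.lev k) - Y l - 1) * (2 * n + 1), ?_⟩
          rw [h2, h3, hn]
          have h5 : (2 : ℤ) ^ Y (C.lev k) = 2 ^ Y l * (2 * 2 ^ (Y (C.lev k) - Y l - 1)) := by
            rw [← pow_succ', ← pow_add]; congr 1; omega
          rw [h5]; simp; ring
    choose n hn using step
    rw [ptsOK_sum hpts t i]
    obtain ⟨m, hm⟩ := four_bools (decide (C.lev 0 = l) && C.e i 0) (decide (C.lev 1 = l) && C.e i 1)
      (decide (C.lev 2 = l) && C.e i 2) (decide (C.lev 3 = l) && C.e i 3)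
    refine ⟨m + (n 0 + n 1 + n 2 + n 3), ?_⟩
    rw [Fin.sum_univ_four, Fin.sum_univ_four, hn 0, hn 1, hn 2, hn 3]
    have hf : C.flip l i = xor (xor (decide (C.lev 0 = l) && C.e i 0)
        (decide (C.lev 1 = l) && C.e i 1)) (xor (decide (C.lev 2 = l) && C.e i 2)
        (decide (C.lev 3 = l) && C.e i 3)) := rfl
    rw [hf]
    linear_combination (2 ^ Y l) * hm
  refine ⟨fun l => by positivity, ?_, fun l i _ => hlvl l i, fun i => ?_⟩
  · intro i
    have := hlab i
    push_cast
    exact this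
  · obtain ⟨n, hn⟩ := hlvl 0 i
    refine ⟨n, ?_⟩
    rw [hn]
    have hs : ∀ j, C.sh 0 i j = 0 := by
      intro j
      unfold Cert.sh
      simp
    simp only [hs, Nat.cast_zero, zero_mul, Finset.sum_const_zero, zero_add]

end Pool.Agent.Lib.MP_dae7ec_co
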