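import Pool.Agent.Lib.MP_dae7ec_co.Cert

set_option autoImplicit false

/-!
A valid certificate gives a tiling.
-/

namespace Pool.Agent.Lib.MP_dae7ec_co

open Finset

/-- five integers (with labels) tile the Gaussian integers by rotated copies -/
def IntTiles (t : Fin 5 → ℤ) : Prop :=
  ∃ P : Fin 4 → GaussianInt → Bool,
    ∀ w : GaussianInt, ∑ k : Fin 4, ∑ i : Fin 5, (P k (w - rot k * (t i : GaussianInt))).toNat = 1

theorem IntTiles.rotTiles {t : Fin 5 → ℤ} (h : IntTiles t) (ht : Function.Injective t) :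
    RotTiles (Finset.univ.image fun i => ((t i : ℤ) : GaussianInt)) := by
  obtain ⟨P, hP⟩ := h
  refine ⟨P, fun w => ?_⟩
  rw [← hP w]
  refine Finset.sum_congr rfl fun k _ => ?_
  rw [Finset.sum_image]
  intro x _ y _ hxy
  exact ht (Int.cast_injective hxy)

theorem IntTiles.perm {t : Fin 5 → ℤ} (σ : Equiv.Perm (Fin 5)) (h : IntTiles (t ∘ σ)) :
    IntTiles t := by
  obtain ⟨P, hP⟩ := h
  refine ⟨P, fun w => ?_⟩
  rw [← hP w]
  refine Finset.sum_congr rfl fun k _ => ?_
  exact (Equiv.sum_comp σ (fun i => (P k (w - rot k * (t i : GaussianInt))).toNat)).symm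

theorem IntTiles.translate {t : Fin 5 → ℤ} (a : ℤ) (h : IntTiles fun i => t i - a) :
    IntTiles t := by
  obtain ⟨P, hP⟩ := h
  refine ⟨fun k z => P k (z + rot k * (a : GaussianInt)), fun w => ?_⟩
  rw [← hP w]
  refine Finset.sum_congr rfl fun k _ => Finset.sum_congr rfl fun i _ => ?_
  show (P k (w - rot k * (t i : GaussianInt) + rot k * (a : GaussianInt))).toNat = _
  rw [show w - rot k * (t i : GaussianInt) + rot k * (a : GaussianInt)
    = w - rot k * ((t i - a : ℤ) : GaussianInt) by push_cast; ring]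

theorem bit_step {h : ℤ} (hh : h ≠ 0) (u n e : ℤ) (f : Bool) (he : e = 1 ∨ e = -1) :
    bitI h (u + e * (h * ((f.toNat : ℤ) + 2 * n))) = xor (bitI h u) f := by
  rcases he with rfl | rfl
  · rw [one_mul]; exact bitI_add hh u n f
  · rw [show u + -1 * (h * ((f.toNat : ℤ) + 2 * n)) = u + h * ((f.toNat : ℤ) + 2 * (-n - f.toNat)) by
      ring]
    exact bitI_add hh u _ f

/-- the linear form `psi` -/
def Cert.psi (C : Cert) (l : ℕ) (z : GaussianInt) : ℤ := z.re + (if C.kp l then 1 else -1) * z.im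

theorem Cert.eps_cases (C : Cert) (l : ℕ) (k : Fin 4) : C.eps l k = 1 ∨ C.eps l k = -1 := by
  unfold Cert.eps
  cases C.kp l <;> fin_cases k <;> simp

theorem Cert.psi_move (C : Cert) (l : ℕ) (z : GaussianInt) (k : Fin 4) (t : ℤ) :
    C.psi l (z + rot k * (t : GaussianInt)) = C.psi l z + C.eps l k * t := by
  unfold Cert.psi Cert.eps
  fin_cases k
  · show (z + rot 0 * (t : GaussianInt)).re + (if C.kp l then 1 else -1) *
      (z + rot 0 * (t : GaussianInt)).im = _ + 1 * t
    rw [rot_zero]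
    simp; ring
  · show (z + rot 1 * (t : GaussianInt)).re + (if C.kp l then 1 else -1) *
      (z + rot 1 * (t : GaussianInt)).im = _ + (if C.kp l then 1 else -1) * t
    rw [rot_one]
    cases C.kp l <;> simp <;> ring
  · show (z + rot 2 * (t : GaussianInt)).re + (if C.kp l then 1 else -1) *
      (z + rot 2 * (t : GaussianInt)).im = _ + -1 * t
    rw [rot_two]
    simp; ring
  · show (z + rot 3 * (t : GaussianInt)).re + (if C.kp l then 1 else -1) *
      (z + rot 3 * (t : GaussianInt)).im = _ + (if C.kp l then -1 else 1) * t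
    rw [rot_three]
    cases C.kp l <;> simp <;> ring

/-- the residue form -/
def Cert.res5 (C : Cert) (u : ZMod 5) (z : GaussianInt) : ZMod 5 :=
  u * ((z.re : ZMod 5) + C.m * (z.im : ZMod 5))

theorem Cert.res5_move (C : Cert) (u : ZMod 5) (z : GaussianInt) (k : Fin 4) (t : ℤ) :
    C.res5 u (z + rot k * (t : GaussianInt)) = C.res5 u z + C.mu k * (u * (t : ZMod 5)) := by
  unfold Cert.res5 Cert.mu
  fin_cases k
  · show u * (((z + rot 0 * (t : GaussianInt)).re : ZMod 5) + C.m *
      ((z + rot 0 * (t : GaussianInt)).im : ZMod 5)) = _ + 1 * (u * (t : ZMod 5))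
    rw [rot_zero]
    simp; ring
  · show u * (((z + rot 1 * (t : GaussianInt)).re : ZMod 5) + C.m *
      ((z + rot 1 * (t : GaussianInt)).im : ZMod 5)) = _ + C.m * (u * (t : ZMod 5))
    rw [rot_one]
    simp; ring
  · show u * (((z + rot 2 * (t : GaussianInt)).re : ZMod 5) + C.m *
      ((z + rot 2 * (t : GaussianInt)).im : ZMod 5)) = _ + -1 * (u * (t : ZMod 5))
    rw [rot_two]
    simp; ring
  · show u * (((z + rot 3 * (t : GaussianInt)).re : ZMod 5) + C.m *
      ((z + rot 3 * (t : GaussianInt)).im : ZMod 5)) = _ + -C.m * (u * (t : ZMod 5))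
    rw [rot_three]
    simp; ring

theorem im_move (z : GaussianInt) (k : Fin 4) (t : ℤ) :
    ∃ e : ℤ, (e = 1 ∨ e = -1) ∧
      (z + rot k * (t : GaussianInt)).im = z.im + (if Cert.tw k then e * t else 0) := by
  fin_cases k
  · refine ⟨1, Or.inl rfl, ?_⟩
    show (z + rot 0 * (t : GaussianInt)).im = z.im + 0
    rw [rot_zero]; simp
  · refine ⟨1, Or.inl rfl, ?_⟩
    show (z + rot 1 * (t : GaussianInt)).im = z.im + 1 * t
    rw [rot_one]; simp
  · refine ⟨1, Or.inl rfl, ?_⟩
    show (z + rot 2 * (t : GaussianInt)).im = z.im + 0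
    rw [rot_two]; simp
  · refine ⟨-1, Or.inr rfl, ?_⟩
    show (z + rot 3 * (t : GaussianInt)).im = z.im + -1 * t
    rw [rot_three]; simp

section main

variable {C : Cert} {c : Fin 5 → ZMod 5} {t : Fin 5 → ℤ} {g : Fin 4 → ℤ} {h : ℕ → ℤ} {u : ZMod 5}

theorem cell_c (z : GaussianInt) : (C.cell g h u z).c = C.res5 u z := rfl
theorem cell_x (z : GaussianInt) : (C.cell g h u z).x = bitI (h 0) z.im := rfl
theorem cell_b0 (z : GaussianInt) : (C.cell g h u z).b0 = bitI (h 0) (C.psi 0 z) := rfl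
theorem cell_b1 (z : GaussianInt) : (C.cell g h u z).b1 =
    (C.act 1 && bitI (h 1) (C.psi 1 z - potV g C.T1 (C.cell g h u z).idx1)) := rfl
theorem cell_b2 (z : GaussianInt) : (C.cell g h u z).b2 =
    (C.act 2 && bitI (h 2) (C.psi 2 z - potV g C.T2 (C.cell g h u z).idx2)) := rfl
theorem cell_b3 (z : GaussianInt) : (C.cell g h u z).b3 =
    (C.act 3 && bitI (h 3) (C.psi 3 z - potV g C.T3 (C.cell g h u z).idx3)) := rfl

/-- the change of a bit along a piece -/
theorem bit_move (hR : C.Real c t g h u) (z : GaussianInt) (k : Fin 4) (i : Fin 5) (l T n n' : ℕ)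
    (hact : C.act l = true) (hp : C.PotOK T l k i n n') :
    bitI (h l) (C.psi l (z + rot k * (t i : GaussianInt)) - potV g T n') =
      xor (bitI (h l) (C.psi l z - potV g T n)) (C.flip l i) := by
  obtain ⟨m, hm⟩ := hR.lvl l i hact
  rw [C.psi_move, hp.eval g]
  rw [← bit_step (hR.hh l) (C.psi l z - potV g T n) m (C.eps l k) (C.flip l i) (C.eps_cases l k)]
  congr 1
  linear_combination C.eps l k * hm

theorem common (hR : C.Real c t g h u) (z : GaussianInt) (k : Fin 4) (i : Fin 5) :
    (C.cell g h u (z + rot k * (t i : GaussianInt))).c = (C.cell g h u z).c + C.mu k * c i ∧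
    (C.cell g h u (z + rot k * (t i : GaussianInt))).x
      = xor (C.cell g h u z).x (Cert.tw k && C.flip 0 i) ∧
    (C.cell g h u (z + rot k * (t i : GaussianInt))).b0 = xor (C.cell g h u z).b0 (C.flip 0 i) := by
  refine ⟨?_, ?_, ?_⟩
  · rw [cell_c, cell_c, C.res5_move, hR.lab i]
  · rw [cell_x, cell_x]
    obtain ⟨e, he, h1⟩ := im_move z k (t i)
    rw [h1]
    obtain ⟨n, hn⟩ := hR.lvl0 i
    cases hk : Cert.tw k
    · simp
    · simp only [if_true, Bool.true_and]
      rw [hn]
      exact bit_step (hR.hh 0) _ n e _ he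
  · rw [cell_b0, cell_b0, C.psi_move]
    obtain ⟨n, hn⟩ := hR.lvl0 i
    rw [hn]
    exact bit_step (hR.hh 0) _ n _ _ (C.eps_cases 0 k)

theorem idx1_eq {p q : Cell} (hc : p.c = q.c) (hx : p.x = q.x) (h0 : p.b0 = q.b0) :
    p.idx1 = q.idx1 := by
  unfold Cell.idx1; rw [hc, hx, h0]

theorem idx2_eq {p q : Cell} (hc : p.c = q.c) (hx : p.x = q.x) (h0 : p.b0 = q.b0)
    (h1 : p.b1 = q.b1) : p.idx2 = q.idx2 := by
  unfold Cell.idx2; rw [hc, hx, h0, h1]

theorem idx3_eq {p q : Cell} (hc : p.c = q.c) (hx : p.x = q.x) (h0 : p.b0 = q.b0)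
    (h1 : p.b1 = q.b1) (h2 : p.b2 = q.b2) : p.idx3 = q.idx3 := by
  unfold Cell.idx3; rw [hc, hx, h0, h1, h2]

theorem inact (z : GaussianInt) : (C.act 1 = false → (C.cell g h u z).b1 = false) ∧
    (C.act 2 = false → (C.cell g h u z).b2 = false) ∧
    (C.act 3 = false → (C.cell g h u z).b3 = false) := by
  refine ⟨fun h1 => ?_, fun h1 => ?_, fun h1 => ?_⟩
  · rw [cell_b1, h1]; rfl
  · rw [cell_b2, h1]; rfl
  · rw [cell_b3, h1]; rfl

theorem forward (hV : C.Valid c) (hR : C.Real c t g h u) (z : GaussianInt) (k : Fin 4) (i : Fin 5)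
    (hp : Nat.testBit (C.P k) (C.cell g h u z).idx = true) :
    C.cell g h u (z + rot k * (t i : GaussianInt)) = C.move c k i (C.cell g h u z) := by
  obtain ⟨i1, i2, i3⟩ := inact (C := C) (g := g) (h := h) (u := u) z
  obtain ⟨o1, o2, o3⟩ := hV.pot k _ i1 i2 i3 hp i
  obtain ⟨k1, k2, k3⟩ := hR |> fun hR => common hR z k i
  have e1 : (C.cell g h u (z + rot k * (t i : GaussianInt))).b1
      = xor (C.cell g h u z).b1 (C.flip 1 i) := by
    rw [cell_b1, cell_b1]
    cases ha : C.act 1
    · rw [hV.flip1 ha]; rfl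
    · rw [Bool.true_and, Bool.true_and,
        show (C.cell g h u (z + rot k * (t i : GaussianInt))).idx1
          = (C.move c k i (C.cell g h u z)).idx1 from idx1_eq k1 k2 k3]
      exact bit_move hR z k i 1 _ _ _ ha (o1 ha)
  have e2 : (C.cell g h u (z + rot k * (t i : GaussianInt))).b2
      = xor (C.cell g h u z).b2 (C.flip 2 i) := by
    rw [cell_b2, cell_b2]
    cases ha : C.act 2
    · rw [hV.flip2 ha]; rfl
    · rw [Bool.true_and, Bool.true_and,
        show (C.cell g h u (z + rot k * (t i : GaussianInt))).idx2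
          = (C.move c k i (C.cell g h u z)).idx2 from idx2_eq k1 k2 k3 e1]
      exact bit_move hR z k i 2 _ _ _ ha (o2 ha)
  have e3 : (C.cell g h u (z + rot k * (t i : GaussianInt))).b3
      = xor (C.cell g h u z).b3 (C.flip 3 i) := by
    rw [cell_b3, cell_b3]
    cases ha : C.act 3
    · rw [hV.flip3 ha]; rfl
    · rw [Bool.true_and, Bool.true_and,
        show (C.cell g h u (z + rot k * (t i : GaussianInt))).idx3
          = (C.move c k i (C.cell g h u z)).idx3 from idx3_eq k1 k2 k3 e1 e2]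
      exact bit_move hR z k i 3 _ _ _ ha (o3 ha)
  exact Cell.ext' k1 k2 k3 e1 e2 e3

theorem eq_xor_of {a b f : Bool} (h : a = xor b f) : b = xor a f := by
  rw [h, xor_xor_cancel]

theorem backward (hV : C.Valid c) (hR : C.Real c t g h u) (z : GaussianInt) (k : Fin 4) (i : Fin 5)
    (hp : Nat.testBit (C.P k)
      (C.back c k i (C.cell g h u (z + rot k * (t i : GaussianInt)))).idx = true) :
    C.cell g h u z = C.back c k i (C.cell g h u (z + rot k * (t i : GaussianInt))) := by
  set w := z + rot k * (t i : GaussianInt) with hw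
  obtain ⟨i1, i2, i3⟩ := inact (C := C) (g := g) (h := h) (u := u) w
  set q := C.back c k i (C.cell g h u w) with hq
  have hmv : C.move c k i q = C.cell g h u w := C.move_back c k i _
  obtain ⟨o1, o2, o3⟩ := hV.pot k q
    (fun ha => by
      show xor (C.cell g h u w).b1 (C.flip 1 i) = false
      rw [i1 ha, hV.flip1 ha]; rfl)
    (fun ha => by
      show xor (C.cell g h u w).b2 (C.flip 2 i) = false
      rw [i2 ha, hV.flip2 ha]; rfl)
    (fun ha => by
      show xor (C.cell g h u w).b3 (C.flip 3 i) = false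
      rw [i3 ha, hV.flip3 ha]; rfl) hp i
  rw [hmv] at o1 o2 o3
  obtain ⟨k1, k2, k3⟩ := common hR z k i
  have k1' : (C.cell g h u z).c = q.c := by
    show _ = (C.cell g h u w).c - C.mu k * c i
    rw [hw, k1]; ring
  have k2' : (C.cell g h u z).x = q.x := eq_xor_of k2
  have k3' : (C.cell g h u z).b0 = q.b0 := eq_xor_of k3
  have e1 : (C.cell g h u z).b1 = q.b1 := by
    apply eq_xor_of
    rw [cell_b1, cell_b1]
    cases ha : C.act 1
    · rw [hV.flip1 ha]; rfl
    · rw [Bool.true_and, Bool.true_and, idx1_eq k1' k2' k3']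
      exact bit_move hR z k i 1 _ _ _ ha (o1 ha)
  have e2 : (C.cell g h u z).b2 = q.b2 := by
    apply eq_xor_of
    rw [cell_b2, cell_b2]
    cases ha : C.act 2
    · rw [hV.flip2 ha]; rfl
    · rw [Bool.true_and, Bool.true_and, idx2_eq k1' k2' k3' e1]
      exact bit_move hR z k i 2 _ _ _ ha (o2 ha)
  have e3 : (C.cell g h u z).b3 = q.b3 := by
    apply eq_xor_of
    rw [cell_b3, cell_b3]
    cases ha : C.act 3
    · rw [hV.flip3 ha]; rfl
    · rw [Bool.true_and, Bool.true_and, idx3_eq k1' k2' k3' e1 e2]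
      exact bit_move hR z k i 3 _ _ _ ha (o3 ha)
  exact Cell.ext' k1' k2' k3' e1 e2 e3

/-- A valid certificate gives a tiling. -/
theorem Cert.Valid.tiles (hV : C.Valid c) (hR : C.Real c t g h u) : IntTiles t := by
  refine ⟨fun k z => Nat.testBit (C.P k) (C.cell g h u z).idx, fun w => ?_⟩
  obtain ⟨i1, i2, i3⟩ := inact (C := C) (g := g) (h := h) (u := u) w
  rw [← hV.cover (C.cell g h u w) i1 i2 i3]
  refine Finset.sum_congr rfl fun k _ => Finset.sum_congr rfl fun i _ => ?_
  congr 1
  show Nat.testBit (C.P k) (C.cell g h u (w - rot k * (t i : GaussianInt))).idx = _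
  have hwz : w = (w - rot k * (t i : GaussianInt)) + rot k * (t i : GaussianInt) := by ring
  cases h1 : Nat.testBit (C.P k) (C.cell g h u (w - rot k * (t i : GaussianInt))).idx
  · cases h2 : Nat.testBit (C.P k) (C.back c k i (C.cell g h u w)).idx
    · rfl
    · exfalso
      rw [hwz] at h2
      have h3 := backward hV hR _ k i h2
      rw [← h3, h1] at h2
      exact absurd h2 (by decide)
  · have h3 := forward hV hR _ k i h1
    rw [← hwz] at h3
    rw [h3, C.back_move, h1]

end main

end Pool.Agent.Lib.MP_dae7ec_co
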