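import Pool.Agent.Lib.MP_dae7ec_co.Geo

set_option autoImplicit false

/-!
Counting tuples of points of a box.
-/

namespace Pool.Agent.Lib.MP_dae7ec_co

open Finset

abbrev Co := Fin 5 ⊕ Fin 5

/-- tuples of ten coordinates in `0, ..., n - 1` -/
noncomputable def pi10 (n : ℕ) : Finset (Co → ℤ) := Fintype.piFinset fun _ => Finset.Ico (0 : ℤ) n

/-- the labelled point set of a coordinate tuple -/
def pts (u : Co → ℤ) (j : Fin 5) : GaussianInt := ⟨u (Sum.inl j), u (Sum.inr j)⟩

theorem card_residue (n : ℕ) (r : ZMod 5) :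
    ((Finset.Ico (0 : ℤ) n).filter fun x : ℤ => ((x : ℤ) : ZMod 5) = r).card ≤ n / 5 + 1 := by
  have h : ((Finset.Ico (0 : ℤ) n).filter fun x : ℤ => ((x : ℤ) : ZMod 5) = r).card
      ≤ (Finset.Ico (0 : ℤ) ((n / 5 + 1 : ℕ) : ℤ)).card := by
    refine Finset.card_le_card_of_injOn (fun x : ℤ => x / 5) ?_ ?_
    · intro x hx
      rw [Finset.mem_coe, Finset.mem_filter, Finset.mem_Ico] at hx
      rw [Finset.mem_coe, Finset.mem_Ico]
      push_cast
      omega
    · intro x hx y hy hxy
      rw [Finset.mem_coe, Finset.mem_filter] at hx hy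
      have h1 : ((x : ℤ) : ZMod 5) = ((y : ℤ) : ZMod 5) := hx.2.trans hy.2.symm
      rw [ZMod.intCast_eq_intCast_iff] at h1
      have h2 : x % 5 = y % 5 := h1
      dsimp only at hxy
      omega
  refine h.trans ?_
  rw [Int.card_Ico]
  omega

theorem card_fiber (n : ℕ) (ρ : Co → ZMod 5) :
    ((pi10 n).filter fun u => (fun a => (u a : ZMod 5)) = ρ).card ≤ (n / 5 + 1) ^ 10 := by
  have h : ((pi10 n).filter fun u => (fun a => (u a : ZMod 5)) = ρ)
      = Fintype.piFinset fun a => (Finset.Ico (0 : ℤ) n).filter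
        fun x : ℤ => ((x : ℤ) : ZMod 5) = ρ a := by
    ext u
    simp only [pi10, Finset.mem_filter, Fintype.mem_piFinset, funext_iff]
    constructor
    · rintro ⟨h1, h2⟩ a
      exact ⟨h1 a, h2 a⟩
    · intro h
      exact ⟨fun a => (h a).1, fun a => (h a).2⟩
  rw [h, Fintype.card_piFinset]
  refine (Finset.prod_le_pow_card _ _ (n / 5 + 1) fun a _ => card_residue n (ρ a)).trans ?_
  simp

/-- bad residue vectors -/
def badRes : Finset (Co → ZMod 5) :=
  Finset.univ.filter fun ρ => badPair (code fun j => ρ (Sum.inl j)) (code fun j => ρ (Sum.inr j)) = true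

theorem cntIn_eq (m : ℕ) : ∀ N, cntIn m N = ∑ n ∈ Finset.range N, if okPair m n then 1 else 0
  | 0 => rfl
  | N + 1 => by rw [cntIn, Finset.sum_range_succ, cntIn_eq m N]

theorem cntOut_eq_sum (N : ℕ) : ∀ M, cntOut N M
    = ∑ m ∈ Finset.range M, ∑ n ∈ Finset.range N, if badPair m n then 1 else 0
  | 0 => rfl
  | M + 1 => by
    rw [cntOut, Finset.sum_range_succ, cntOut_eq_sum N M]
    congr 1
    by_cases h : badN M = true
    · rw [if_pos h, cntIn_eq]
      refine Finset.sum_congr rfl fun n _ => ?_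
      simp only [badPair, h, Bool.true_and]
    · rw [if_neg h]
      symm
      refine Finset.sum_eq_zero fun n _ => ?_
      rw [Bool.not_eq_true] at h
      simp only [badPair, h, Bool.false_and, if_neg (show ¬ (false = true) by decide)]

theorem card_badPairs :
    (((Finset.range 625) ×ˢ (Finset.range 625)).filter fun p => badPair p.1 p.2 = true).card
      = 11041 := by
  rw [← cntOut_eq, cntOut_eq_sum, Finset.card_filter, Finset.sum_product]

theorem code_inj (c d : Fin 5 → ZMod 5) (h0 : c 0 = d 0) (h : code c = code d) : c = d := by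
  unfold code at h
  rw [h0] at h
  have h1 := ZMod.val_lt (c 1 - d 0)
  have h2 := ZMod.val_lt (c 2 - d 0)
  have h3 := ZMod.val_lt (c 3 - d 0)
  have h4 := ZMod.val_lt (c 4 - d 0)
  have g1 := ZMod.val_lt (d 1 - d 0)
  have g2 := ZMod.val_lt (d 2 - d 0)
  have g3 := ZMod.val_lt (d 3 - d 0)
  have g4 := ZMod.val_lt (d 4 - d 0)
  have e1 : (c 1 - d 0).val = (d 1 - d 0).val := by omega
  have e2 : (c 2 - d 0).val = (d 2 - d 0).val := by omega
  have e3 : (c 3 - d 0).val = (d 3 - d 0).val := by omega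
  have e4 : (c 4 - d 0).val = (d 4 - d 0).val := by omega
  have f1 := sub_left_injective (ZMod.val_injective 5 e1)
  have f2 := sub_left_injective (ZMod.val_injective 5 e2)
  have f3 := sub_left_injective (ZMod.val_injective 5 e3)
  have f4 := sub_left_injective (ZMod.val_injective 5 e4)
  funext j
  fin_cases j
  · exact h0
  · exact f1
  · exact f2
  · exact f3
  · exact f4

theorem card_badRes : badRes.card ≤ 25 * 11041 := by
  have h : badRes.card ≤ ((Finset.univ : Finset (ZMod 5 × ZMod 5)) ×ˢ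
      (((Finset.range 625) ×ˢ (Finset.range 625)).filter fun p => badPair p.1 p.2 = true)).card := by
    refine Finset.card_le_card_of_injOn (fun ρ => ((ρ (Sum.inl 0), ρ (Sum.inr 0)),
      (code fun j => ρ (Sum.inl j), code fun j => ρ (Sum.inr j)))) ?_ ?_
    · intro ρ hρ
      have hρ' : badPair (code fun j => ρ (Sum.inl j)) (code fun j => ρ (Sum.inr j)) = true := by
        have := Finset.mem_coe.1 hρ
        rw [badRes, Finset.mem_filter] at this
        exact this.2
      have l1 := code_lt (fun j => ρ (Sum.inl j))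
      have l2 := code_lt (fun j => ρ (Sum.inr j))
      generalize 625 = N at *
      refine Finset.mem_coe.2 (Finset.mem_product.2 ⟨Finset.mem_univ _, Finset.mem_filter.2
        ⟨Finset.mem_product.2 ⟨Finset.mem_range.2 l1, Finset.mem_range.2 l2⟩, hρ'⟩⟩)
    · intro ρ _ ρ' _ h
      simp only [Prod.mk.injEq] at h
      obtain ⟨⟨h1, h2⟩, h3, h4⟩ := h
      have e1 := code_inj (fun j => ρ (Sum.inl j)) (fun j => ρ' (Sum.inl j)) h1 h3
      have e2 := code_inj (fun j => ρ (Sum.inr j)) (fun j => ρ' (Sum.inr j)) h2 h4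
      funext a
      rcases a with j | j
      · exact congrFun e1 j
      · exact congrFun e2 j
  refine h.trans ?_
  rw [Finset.card_product, card_badPairs]
  simp [ZMod.card]

theorem card_badTuples (n : ℕ) :
    ((pi10 n).filter fun u => badPair (code fun j => ((u (Sum.inl j) : ℤ) : ZMod 5))
      (code fun j => ((u (Sum.inr j) : ℤ) : ZMod 5)) = true).card
      ≤ 25 * 11041 * (n / 5 + 1) ^ 10 := by
  set E := (pi10 n).filter fun u => badPair (code fun j => ((u (Sum.inl j) : ℤ) : ZMod 5))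
      (code fun j => ((u (Sum.inr j) : ℤ) : ZMod 5)) = true with hE
  have hmap : ∀ u ∈ E, (fun a => (u a : ZMod 5)) ∈ badRes := by
    intro u hu
    rw [hE, Finset.mem_filter] at hu
    rw [badRes, Finset.mem_filter]
    exact ⟨Finset.mem_univ _, hu.2⟩
  rw [Finset.card_eq_sum_card_fiberwise hmap]
  refine (Finset.sum_le_card_nsmul _ _ ((n / 5 + 1) ^ 10) fun ρ _ => ?_).trans ?_
  · refine (Finset.card_le_card ?_).trans (card_fiber n ρ)
    intro u hu
    rw [Finset.mem_filter] at hu ⊢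
    refine ⟨?_, hu.2⟩
    have := hu.1
    rw [hE, Finset.mem_filter] at this
    exact this.1
  · rw [smul_eq_mul]
    exact Nat.mul_le_mul_right _ card_badRes

/-- a set of tuples in which one coordinate is determined by the others -/
theorem card_determined (n : ℕ) (a : Co) (E : Finset (Co → ℤ)) (hE : E ⊆ pi10 n)
    (hdet : ∀ u ∈ E, ∀ u' ∈ E, (∀ b, b ≠ a → u b = u' b) → u a = u' a) : E.card ≤ n ^ 9 := by
  classical
  have h : E.card ≤ (Fintype.piFinset fun b : Co => if b = a then ({0} : Finset ℤ)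
      else Finset.Ico (0 : ℤ) n).card := by
    refine Finset.card_le_card_of_injOn (fun u => Function.update u a 0) ?_ ?_
    · intro u hu
      rw [Finset.mem_coe, Fintype.mem_piFinset]
      intro b
      by_cases hb : b = a
      · subst hb; simp
      · rw [if_neg hb]
        show Function.update u a 0 b ∈ _
        rw [Function.update_of_ne hb]
        have := hE hu
        rw [pi10, Fintype.mem_piFinset] at this
        exact this b
    · intro u hu u' hu' h
      have h1 : ∀ b, b ≠ a → u b = u' b := by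
        intro b hb
        have := congrFun h b
        simpa [Function.update_of_ne hb] using this
      funext b
      by_cases hb : b = a
      · subst hb; exact hdet u hu u' hu' h1
      · exact h1 b hb
  refine h.trans ?_
  rw [Fintype.card_piFinset]
  rw [← Finset.mul_prod_erase Finset.univ _ (Finset.mem_univ a)]
  rw [if_pos rfl, Finset.card_singleton, one_mul]
  refine (Finset.prod_le_pow_card _ _ n fun b hb => ?_).trans ?_
  · rw [if_neg (Finset.ne_of_mem_erase hb), Int.card_Ico]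
    omega
  · rw [Finset.card_erase_of_mem (Finset.mem_univ a)]
    simp

/-- two linear conditions: the product form of both degeneracies -/
theorem card_degenerate (n : ℕ) (a b : Co) (K M : (Co → ℤ) → ℤ)
    (hKb : ∀ u u' : Co → ℤ, (∀ c, c ≠ b → u c = u' c) → K u = 0 → K u' = 0 → u b = u' b)
    (hKa : ∀ u u' : Co → ℤ, (∀ c, c ≠ a → u c = u' c) → K u = K u')
    (hMa : ∀ u u' : Co → ℤ, (∀ c, c ≠ a → u c = u' c) → M u = M u') :
    ((pi10 n).filter fun u => u a * K u + M u = 0).card ≤ 2 * n ^ 9 := by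
  classical
  have hsub : ((pi10 n).filter fun u => u a * K u + M u = 0)
      ⊆ ((pi10 n).filter fun u => K u = 0) ∪
        ((pi10 n).filter fun u => K u ≠ 0 ∧ u a * K u + M u = 0) := by
    intro u hu
    rw [Finset.mem_filter] at hu
    rw [Finset.mem_union, Finset.mem_filter, Finset.mem_filter]
    by_cases h : K u = 0
    · exact Or.inl ⟨hu.1, h⟩
    · exact Or.inr ⟨hu.1, h, hu.2⟩
  refine (Finset.card_le_card hsub).trans ((Finset.card_union_le _ _).trans ?_)
  have h1 : ((pi10 n).filter fun u => K u = 0).card ≤ n ^ 9 := by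
    refine card_determined n b _ (Finset.filter_subset _ _) ?_
    intro u hu u' hu' h
    rw [Finset.mem_filter] at hu hu'
    exact hKb u u' h hu.2 hu'.2
  have h2 : ((pi10 n).filter fun u => K u ≠ 0 ∧ u a * K u + M u = 0).card ≤ n ^ 9 := by
    refine card_determined n a _ (Finset.filter_subset _ _) ?_
    intro u hu u' hu' h
    rw [Finset.mem_filter] at hu hu'
    have e1 := hKa u u' h
    have e2 := hMa u u' h
    have e3 := hu.2.2
    have e4 := hu'.2.2
    rw [← e1, ← e2] at e4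
    have e5 : u a * K u = u' a * K u := by linarith
    exact mul_right_cancel₀ hu.2.1 e5
  omega

theorem card_D1 (n : ℕ) (v : Idx) (hv : v ∈ L1) :
    ((pi10 n).filter fun u => det2 (pts u v.2.1 - pts u v.1)
      (pts u v.2.2.2.1 + pts u v.2.2.2.2 - 2 * pts u v.2.2.1) = 0).card ≤ 2 * n ^ 9 := by
  have hne : ∀ v ∈ L1, v.2.1 ≠ v.1 ∧ v.2.1 ≠ v.2.2.1 ∧ v.2.1 ≠ v.2.2.2.1 ∧ v.2.1 ≠ v.2.2.2.2 ∧
      v.2.2.2.1 ≠ v.2.2.1 ∧ v.2.2.2.1 ≠ v.2.2.2.2 := by decide +kernel
  obtain ⟨g1, g2, g3, g4, g5, g6⟩ := hne v hv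
  refine le_trans (le_of_eq ?_) (card_degenerate n (Sum.inl v.2.1) (Sum.inr v.2.2.2.1)
    (fun u => u (Sum.inr v.2.2.2.1) + u (Sum.inr v.2.2.2.2) - 2 * u (Sum.inr v.2.2.1))
    (fun u => - u (Sum.inl v.1) * (u (Sum.inr v.2.2.2.1) + u (Sum.inr v.2.2.2.2)
        - 2 * u (Sum.inr v.2.2.1))
      - (u (Sum.inr v.2.1) - u (Sum.inr v.1)) * (u (Sum.inl v.2.2.2.1) + u (Sum.inl v.2.2.2.2)
        - 2 * u (Sum.inl v.2.2.1))) ?_ ?_ ?_)
  · congr 1
    ext u
    simp only [Finset.mem_filter]
    refine and_congr_right fun _ => ?_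
    have : det2 (pts u v.2.1 - pts u v.1)
        (pts u v.2.2.2.1 + pts u v.2.2.2.2 - 2 * pts u v.2.2.1)
        = u (Sum.inl v.2.1) * (u (Sum.inr v.2.2.2.1) + u (Sum.inr v.2.2.2.2)
            - 2 * u (Sum.inr v.2.2.1))
          + (- u (Sum.inl v.1) * (u (Sum.inr v.2.2.2.1) + u (Sum.inr v.2.2.2.2)
            - 2 * u (Sum.inr v.2.2.1))
          - (u (Sum.inr v.2.1) - u (Sum.inr v.1)) * (u (Sum.inl v.2.2.2.1)
            + u (Sum.inl v.2.2.2.2) - 2 * u (Sum.inl v.2.2.1))) := by
      simp only [det2, pts, Zsqrtd.re_sub, Zsqrtd.im_sub, Zsqrtd.re_add, Zsqrtd.im_add,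
        Zsqrtd.re_mul, Zsqrtd.im_mul]
      simp
      ring
    rw [this]
  · intro u u' h h1 h2
    have e1 := h (Sum.inr v.2.2.2.2) (fun h => g6 (Sum.inr_injective h).symm)
    have e2 := h (Sum.inr v.2.2.1) (fun h => g5 (Sum.inr_injective h).symm)
    rw [e1, e2] at h1
    omega
  · intro u u' h
    show _ = _
    rw [h (Sum.inr v.2.2.2.1) (by simp), h (Sum.inr v.2.2.2.2) (by simp),
      h (Sum.inr v.2.2.1) (by simp)]
  · intro u u' h
    show _ = _
    rw [h (Sum.inr v.2.2.2.1) (by simp), h (Sum.inr v.2.2.2.2) (by simp),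
      h (Sum.inr v.2.2.1) (by simp), h (Sum.inr v.2.1) (by simp), h (Sum.inr v.1) (by simp),
      h (Sum.inl v.1) (fun h => g1 (Sum.inl_injective h).symm),
      h (Sum.inl v.2.2.2.1) (fun h => g3 (Sum.inl_injective h).symm),
      h (Sum.inl v.2.2.2.2) (fun h => g4 (Sum.inl_injective h).symm),
      h (Sum.inl v.2.2.1) (fun h => g2 (Sum.inl_injective h).symm)]

theorem card_D3 (n : ℕ) (v : Idx) (hv : v ∈ L3) :
    ((pi10 n).filter fun u => det2 (pts u v.2.1 - pts u v.1)
      (pts u v.2.2.2.1 - pts u v.2.2.1) = 0).card ≤ 2 * n ^ 9 := by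
  have hne : ∀ v ∈ L3, v.2.1 ≠ v.1 ∧ v.2.1 ≠ v.2.2.1 ∧ v.2.1 ≠ v.2.2.2.1 ∧
      v.2.2.2.1 ≠ v.2.2.1 := by decide +kernel
  obtain ⟨g1, g2, g3, g5⟩ := hne v hv
  refine le_trans (le_of_eq ?_) (card_degenerate n (Sum.inl v.2.1) (Sum.inr v.2.2.2.1)
    (fun u => u (Sum.inr v.2.2.2.1) - u (Sum.inr v.2.2.1))
    (fun u => - u (Sum.inl v.1) * (u (Sum.inr v.2.2.2.1) - u (Sum.inr v.2.2.1))
      - (u (Sum.inr v.2.1) - u (Sum.inr v.1)) * (u (Sum.inl v.2.2.2.1)
        - u (Sum.inl v.2.2.1))) ?_ ?_ ?_)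
  · congr 1
    ext u
    simp only [Finset.mem_filter]
    refine and_congr_right fun _ => ?_
    have : det2 (pts u v.2.1 - pts u v.1) (pts u v.2.2.2.1 - pts u v.2.2.1)
        = u (Sum.inl v.2.1) * (u (Sum.inr v.2.2.2.1) - u (Sum.inr v.2.2.1))
          + (- u (Sum.inl v.1) * (u (Sum.inr v.2.2.2.1) - u (Sum.inr v.2.2.1))
          - (u (Sum.inr v.2.1) - u (Sum.inr v.1)) * (u (Sum.inl v.2.2.2.1)
            - u (Sum.inl v.2.2.1))) := by
      simp only [det2, pts, Zsqrtd.re_sub, Zsqrtd.im_sub]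
      ring
    rw [this]
  · intro u u' h h1 h2
    have e2 := h (Sum.inr v.2.2.1) (fun h => g5 (Sum.inr_injective h).symm)
    rw [e2] at h1
    omega
  · intro u u' h
    show _ = _
    rw [h (Sum.inr v.2.2.2.1) (by simp), h (Sum.inr v.2.2.1) (by simp)]
  · intro u u' h
    show _ = _
    rw [h (Sum.inr v.2.2.2.1) (by simp),
      h (Sum.inr v.2.2.1) (by simp), h (Sum.inr v.2.1) (by simp), h (Sum.inr v.1) (by simp),
      h (Sum.inl v.1) (fun h => g1 (Sum.inl_injective h).symm),
      h (Sum.inl v.2.2.2.1) (fun h => g3 (Sum.inl_injective h).symm),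
      h (Sum.inl v.2.2.1) (fun h => g2 (Sum.inl_injective h).symm)]

/-- all tuples whose points do not tile in the plus-minus sense -/
theorem card_not_pm (n : ℕ) (E : Finset (Co → ℤ)) (hE : E ⊆ pi10 n)
    (hbad : ∀ u ∈ E, ¬ PmTiles (pts u)) :
    E.card ≤ 25 * 11041 * (n / 5 + 1) ^ 10 + 90 * n ^ 9 := by
  classical
  have hsub : E ⊆ ((pi10 n).filter fun u => badPair (code fun j => ((u (Sum.inl j) : ℤ) : ZMod 5))
      (code fun j => ((u (Sum.inr j) : ℤ) : ZMod 5)) = true) ∪
      ((L1.toFinset.biUnion fun v => (pi10 n).filter fun u => det2 (pts u v.2.1 - pts u v.1)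
        (pts u v.2.2.2.1 + pts u v.2.2.2.2 - 2 * pts u v.2.2.1) = 0) ∪
      (L3.toFinset.biUnion fun v => (pi10 n).filter fun u => det2 (pts u v.2.1 - pts u v.1)
        (pts u v.2.2.2.1 - pts u v.2.2.1) = 0)) := by
    intro u hu
    by_contra hcon
    apply hbad u hu
    simp only [Finset.mem_union, Finset.mem_biUnion, Finset.mem_filter, List.mem_toFinset,
      not_or, not_exists, not_and] at hcon
    obtain ⟨h1, h2, h3⟩ := hcon
    have hmem := hE hu
    refine pmTiles_of_not_badPair (pts u) ⟨fun v hv => h2 v hv hmem, fun v hv => h3 v hv hmem⟩ ?_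
    have := h1 hmem
    rw [Bool.not_eq_true] at this
    exact this
  refine (Finset.card_le_card hsub).trans ((Finset.card_union_le _ _).trans ?_)
  refine Nat.add_le_add (card_badTuples n) ((Finset.card_union_le _ _).trans ?_)
  have h1 : (L1.toFinset.biUnion fun v => (pi10 n).filter fun u => det2 (pts u v.2.1 - pts u v.1)
        (pts u v.2.2.2.1 + pts u v.2.2.2.2 - 2 * pts u v.2.2.1) = 0).card ≤ 30 * (2 * n ^ 9) := by
    refine (Finset.card_biUnion_le_card_mul _ _ (2 * n ^ 9) fun v hv => ?_).trans ?_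
    · exact card_D1 n v (List.mem_toFinset.1 hv)
    · exact Nat.mul_le_mul_right _ (by decide +kernel)
  have h3 : (L3.toFinset.biUnion fun v => (pi10 n).filter fun u => det2 (pts u v.2.1 - pts u v.1)
        (pts u v.2.2.2.1 - pts u v.2.2.1) = 0).card ≤ 15 * (2 * n ^ 9) := by
    refine (Finset.card_biUnion_le_card_mul _ _ (2 * n ^ 9) fun v hv => ?_).trans ?_
    · exact card_D3 n v (List.mem_toFinset.1 hv)
    · exact Nat.mul_le_mul_right _ (by decide +kernel)
  omega

end Pool.Agent.Lib.MP_dae7ec_co
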