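import Pool.Agent.Lib.MP_dae7ec_co.InjMain

set_option autoImplicit false

/-!
Five-point sets with coinciding residues in `(ZMod 5)^2`: the planar configurations.
-/

namespace Pool.Agent.Lib.MP_dae7ec_co

open Finset

/-- vectors with vanishing determinant with a nonzero vector are parallel -/
theorem det_zero_trans {d x y : GaussianInt} (hd : d ≠ 0) (h1 : det2 d x = 0) (h2 : det2 d y = 0) :
    det2 x y = 0 := by
  by_contra h
  apply hd
  refine eq_zero_of_det x y d h ?_ ?_
  · have : det2 x d = -det2 d x := by simp only [det2]; ring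
    rw [this, h1, neg_zero]
  · have : det2 y d = -det2 d y := by simp only [det2]; ring
    rw [this, h2, neg_zero]

theorem det2_sub_right (a b c : GaussianInt) : det2 a (b - c) = det2 a b - det2 a c := by
  simp only [det2, Zsqrtd.re_sub, Zsqrtd.im_sub]; ring

/-- a nonzero Gaussian integer is an integer multiple of a primitive one -/
theorem exists_primitive (e : GaussianInt) (he : e ≠ 0) :
    ∃ (g : ℤ) (v : GaussianInt) (x y : ℤ), g ≠ 0 ∧ e = (g : GaussianInt) * v ∧
      x * v.re + y * v.im = 1 := by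
  have hg : (Int.gcd e.re e.im : ℤ) ≠ 0 := by
    intro h
    have h' : Int.gcd e.re e.im = 0 := by exact_mod_cast h
    rw [Int.gcd_eq_zero_iff] at h'
    exact he (Zsqrtd.ext h'.1 h'.2)
  have hcop : IsCoprime (e.re / (Int.gcd e.re e.im : ℤ)) (e.im / (Int.gcd e.re e.im : ℤ)) := by
    rw [Int.isCoprime_iff_gcd_eq_one]
    exact Int.gcd_div_gcd_div_gcd (Nat.pos_of_ne_zero (by exact_mod_cast hg))
  set g : ℤ := (Int.gcd e.re e.im : ℤ) with hgdef
  have h1 : g * (e.re / g) = e.re := Int.mul_ediv_cancel' (Int.gcd_dvd_left _ _)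
  have h2 : g * (e.im / g) = e.im := Int.mul_ediv_cancel' (Int.gcd_dvd_right _ _)
  obtain ⟨x, y, hxy⟩ := hcop
  refine ⟨g, ⟨e.re / g, e.im / g⟩, x, y, hg, ?_, hxy⟩
  apply Zsqrtd.ext
  · simp only [Zsqrtd.re_mul, Zsqrtd.re_intCast, Zsqrtd.im_intCast]
    linarith
  · simp only [Zsqrtd.im_mul, Zsqrtd.re_intCast, Zsqrtd.im_intCast]
    linarith

/-- parallel vectors are multiples of a common primitive vector -/
theorem parallel_form (d e : GaussianInt) (he : e ≠ 0) (h : det2 d e = 0) :
    ∃ (a b : ℤ) (v : GaussianInt) (x y : ℤ), b ≠ 0 ∧ d = (a : GaussianInt) * v ∧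
      e = (b : GaussianInt) * v ∧ x * v.re + y * v.im = 1 := by
  obtain ⟨g, v, x, y, hg, hev, hxy⟩ := exists_primitive e he
  refine ⟨x * d.re + y * d.im, g, v, x, y, hg, ?_, hev, hxy⟩
  have h1 : d.re * v.im - d.im * v.re = 0 := by
    have h2 : g * (d.re * v.im - d.im * v.re) = 0 := by
      have h3 : e.re = g * v.re := by
        rw [hev]; simp only [Zsqrtd.re_mul, Zsqrtd.re_intCast, Zsqrtd.im_intCast]; ring
      have h4 : e.im = g * v.im := by
        rw [hev]; simp only [Zsqrtd.im_mul, Zsqrtd.re_intCast, Zsqrtd.im_intCast]; ring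
      simp only [det2] at h
      rw [h3, h4] at h
      linarith
    exact (mul_eq_zero.mp h2).resolve_left hg
  apply Zsqrtd.ext
  · simp only [Zsqrtd.re_mul, Zsqrtd.re_intCast, Zsqrtd.im_intCast]
    linear_combination -d.re * hxy + y * h1
  · simp only [Zsqrtd.im_mul, Zsqrtd.re_intCast, Zsqrtd.im_intCast]
    linear_combination -d.im * hxy - x * h1

/-- a nonzero integer is a power of two times an odd integer -/
theorem two_adic (b : ℤ) (hb : b ≠ 0) : ∃ (k : ℕ) (m : ℤ), Odd m ∧ b = 2 ^ k * m := by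
  obtain ⟨k, m, hm, h⟩ := Nat.exists_eq_two_pow_mul_odd (Int.natAbs_ne_zero.mpr hb)
  rcases Int.natAbs_eq b with h1 | h1
  · refine ⟨k, m, by exact_mod_cast hm, ?_⟩
    rw [h1, h]; push_cast; ring
  · refine ⟨k, -m, (show Odd (m : ℤ) by exact_mod_cast hm).neg, ?_⟩
    rw [h1, h]; push_cast; ring

/-- If no function flips along `d` and is constant along `e`, then `e` is an odd multiple and `d` a
multiple of a common vector. -/
theorem no_bit {d e : GaussianInt} (hd : d ≠ 0)
    (hn : ¬ ∃ f : GaussianInt → Bool, (∀ z, f (z + d) = !f z) ∧ (∀ z, f (z + e) = f z)) :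
    ∃ (n m : ℤ) (v : GaussianInt), Odd m ∧ d = (n : GaussianInt) * v ∧ e = (m : GaussianInt) * v := by
  have hdet : det2 d e = 0 := by
    by_contra h
    exact hn (exists_bit_indep d e h)
  have he : e ≠ 0 := by
    rintro rfl
    obtain ⟨f, h1⟩ := exists_flip d hd
    exact hn ⟨f, h1, fun z => by rw [add_zero]⟩
  obtain ⟨a, b, v, x, y, hb, hdv, hev, hxy⟩ := parallel_form d e he hdet
  have ha : a ≠ 0 := by
    rintro rfl
    apply hd; rw [hdv]; simp
  obtain ⟨i, a', ha', hai⟩ := two_adic a ha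
  obtain ⟨j, b', hb', hbj⟩ := two_adic b hb
  by_cases hij : j ≤ i
  · refine ⟨2 ^ (i - j) * a', b', ((2 ^ j : ℤ) : GaussianInt) * v, hb', ?_, ?_⟩
    · rw [hdv, hai]
      have : (2 : ℤ) ^ i = 2 ^ (i - j) * 2 ^ j := by rw [← pow_add]; congr 1; omega
      rw [this]; push_cast; ring
    · rw [hev, hbj]; push_cast; ring
  · exfalso
    push Not at hij
    apply hn
    obtain ⟨m, hm⟩ := ha'
    have hlv : lin x y v = 1 := hxy
    have hlin : ∀ k : ℤ, lin x y ((k : GaussianInt) * v) = k := by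
      intro k
      have : lin x y ((k : GaussianInt) * v) = k * lin x y v := by
        simp only [lin, Zsqrtd.re_mul, Zsqrtd.im_mul, Zsqrtd.re_intCast, Zsqrtd.im_intCast]
        ring
      rw [this, hlv, mul_one]
    refine exists_bit_lin d e x y (2 ^ i) m (2 ^ (j - i - 1) * b') (by positivity) ?_ ?_
    · rw [hdv, hlin, hai, hm]
    · rw [hev, hlin, hbj]
      have : (2 : ℤ) ^ j = 2 ^ i * (2 * 2 ^ (j - i - 1)) := by
        rw [← pow_succ', ← pow_add]; congr 1; omega
      rw [this]; ring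

/-- If no function flips along both `d` and `e`, then one of them is an odd multiple and the other
one an even multiple of a common vector. -/
theorem no_bit' {d e : GaussianInt} (hd : d ≠ 0) (he : e ≠ 0)
    (hn : ¬ ∃ f : GaussianInt → Bool, (∀ z, f (z + d) = !f z) ∧ (∀ z, f (z + e) = !f z)) :
    ∃ (n m : ℤ) (v : GaussianInt), (Odd m ∧ Even n ∨ Odd n ∧ Even m) ∧
      d = (n : GaussianInt) * v ∧ e = (m : GaussianInt) * v := by
  have hdet : det2 d e = 0 := by
    by_contra h
    exact hn (exists_bit_indep' d e h)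
  obtain ⟨a, b, v, x, y, hb, hdv, hev, hxy⟩ := parallel_form d e he hdet
  have ha : a ≠ 0 := by
    rintro rfl
    apply hd; rw [hdv]; simp
  obtain ⟨i, a', ha', hai⟩ := two_adic a ha
  obtain ⟨j, b', hb', hbj⟩ := two_adic b hb
  rcases lt_trichotomy i j with hij | hij | hij
  · refine ⟨a', 2 ^ (j - i) * b', ((2 ^ i : ℤ) : GaussianInt) * v, Or.inr ⟨ha', ?_⟩, ?_, ?_⟩
    · exact (Even.pow_of_ne_zero even_two (by omega)).mul_right _
    · rw [hdv, hai]; push_cast; ring
    · rw [hev, hbj]
      have : (2 : ℤ) ^ j = 2 ^ (j - i) * 2 ^ i := by rw [← pow_add]; congr 1; omega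
      rw [this]; push_cast; ring
  · exfalso
    subst hij
    apply hn
    obtain ⟨m, hm⟩ := ha'
    obtain ⟨n, hn'⟩ := hb'
    have hlv : lin x y v = 1 := hxy
    have hlin : ∀ k : ℤ, lin x y ((k : GaussianInt) * v) = k := by
      intro k
      have : lin x y ((k : GaussianInt) * v) = k * lin x y v := by
        simp only [lin, Zsqrtd.re_mul, Zsqrtd.im_mul, Zsqrtd.re_intCast, Zsqrtd.im_intCast]
        ring
      rw [this, hlv, mul_one]
    refine exists_bit_lin' d e x y (2 ^ i) m n (by positivity) ?_ ?_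
    · rw [hdv, hlin, hai, hm]
    · rw [hev, hlin, hbj, hn']
  · refine ⟨2 ^ (i - j) * a', b', ((2 ^ j : ℤ) : GaussianInt) * v, Or.inl ⟨hb', ?_⟩, ?_, ?_⟩
    · exact (Even.pow_of_ne_zero even_two (by omega)).mul_right _
    · rw [hdv, hai]
      have : (2 : ℤ) ^ i = 2 ^ (i - j) * 2 ^ j := by rw [← pow_add]; congr 1; omega
      rw [this]; push_cast; ring
    · rw [hev, hbj]; push_cast; ring

end Pool.Agent.Lib.MP_dae7ec_co
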