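import Pool.Agent.Lib.MP_dae7ec_co.InjTable

set_option autoImplicit false

/-!
Finite classification of five points of the affine plane over the field with five elements which
span the plane and are not all distinct.
-/

namespace Pool.Agent.Lib.MP_dae7ec_co

/-- the Boolean check -/
def goodD (α β γ δ : ZMod 5) : Bool :=
  let A : Fin 5 → ZMod 5 := ![0, 1, 0, α, γ]
  let B : Fin 5 → ZMod 5 := ![0, 0, 1, β, δ]
  decide (∀ i j : Fin 5, A i = A j → B i = B j → i = j) ||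
  perms.any fun p => cls A B p 0 0 0 2 || cls A B p 0 0 0 4 || cls A B p 0 0 1 1 ||
    cls A B p 0 0 1 2 || cls A B p 0 0 2 2 || cls A B p 0 0 2 4 || cls A B p 0 0 4 4 ||
    cls A B p 0 0 1 0 || cls A B p 0 0 0 0

theorem all_goodD : ∀ α β γ δ : ZMod 5, goodD α β γ δ = true := by decide +kernel

theorem tableD (α β γ δ : ZMod 5) :
    (∀ i j : Fin 5, (![0, 1, 0, α, γ] : Fin 5 → ZMod 5) i = (![0, 1, 0, α, γ] : Fin 5 → ZMod 5) j →
      (![0, 0, 1, β, δ] : Fin 5 → ZMod 5) i = (![0, 0, 1, β, δ] : Fin 5 → ZMod 5) j → i = j) ∨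
    (∃ p : Fin 5 → Fin 5, Function.Injective p ∧
      (Cls ![0, 1, 0, α, γ] ![0, 0, 1, β, δ] p 0 0 0 2 ∨
       Cls ![0, 1, 0, α, γ] ![0, 0, 1, β, δ] p 0 0 0 4 ∨
       Cls ![0, 1, 0, α, γ] ![0, 0, 1, β, δ] p 0 0 1 1 ∨
       Cls ![0, 1, 0, α, γ] ![0, 0, 1, β, δ] p 0 0 1 2 ∨
       Cls ![0, 1, 0, α, γ] ![0, 0, 1, β, δ] p 0 0 2 2 ∨
       Cls ![0, 1, 0, α, γ] ![0, 0, 1, β, δ] p 0 0 2 4 ∨
       Cls ![0, 1, 0, α, γ] ![0, 0, 1, β, δ] p 0 0 4 4 ∨
       Cls ![0, 1, 0, α, γ] ![0, 0, 1, β, δ] p 0 0 1 0 ∨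
       Cls ![0, 1, 0, α, γ] ![0, 0, 1, β, δ] p 0 0 0 0)) := by
  have h := all_goodD α β γ δ
  simp only [goodD, Bool.or_eq_true, List.any_eq_true, decide_eq_true_eq] at h
  rcases h with h | ⟨p, hp, h⟩
  · exact Or.inl h
  · refine Or.inr ⟨p, perms_inj p hp, ?_⟩
    rcases h with (((((((h | h) | h) | h) | h) | h) | h) | h) | h
    · exact Or.inl (cls_iff h)
    · exact Or.inr (Or.inl (cls_iff h))
    · exact Or.inr (Or.inr (Or.inl (cls_iff h)))
    · exact Or.inr (Or.inr (Or.inr (Or.inl (cls_iff h))))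
    · exact Or.inr (Or.inr (Or.inr (Or.inr (Or.inl (cls_iff h)))))
    · exact Or.inr (Or.inr (Or.inr (Or.inr (Or.inr (Or.inl (cls_iff h))))))
    · exact Or.inr (Or.inr (Or.inr (Or.inr (Or.inr (Or.inr (Or.inl (cls_iff h)))))))
    · exact Or.inr (Or.inr (Or.inr (Or.inr (Or.inr (Or.inr (Or.inr (Or.inl (cls_iff h))))))))
    · exact Or.inr (Or.inr (Or.inr (Or.inr (Or.inr (Or.inr (Or.inr (Or.inr (cls_iff h))))))))

/-- coordinates in the affine basis -/
theorem Cls.coord {A B : Fin 5 → ZMod 5} {p : Fin 5 → Fin 5} {α β γ δ : ZMod 5}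
    (h : Cls A B p α β γ δ) (k : Fin 5) :
    A (p k) = A (p 0) + ((![0, 1, 0, α, γ] : Fin 5 → ZMod 5) k * (A (p 1) - A (p 0))
        + (![0, 0, 1, β, δ] : Fin 5 → ZMod 5) k * (A (p 2) - A (p 0))) ∧
    B (p k) = B (p 0) + ((![0, 1, 0, α, γ] : Fin 5 → ZMod 5) k * (B (p 1) - B (p 0))
        + (![0, 0, 1, β, δ] : Fin 5 → ZMod 5) k * (B (p 2) - B (p 0))) := by
  have hfact : Fact (Nat.Prime 5) := ⟨by norm_num⟩
  obtain ⟨hD, kα, kβ, kγ, kδ⟩ := h
  set D := (A (p 1) - A (p 0)) * (B (p 2) - B (p 0)) - (B (p 1) - B (p 0)) * (A (p 2) - A (p 0))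
    with hDdef
  have key : ∀ x y : ZMod 5, D * x = D * y → x = y := fun x y hxy => mul_left_cancel₀ hD hxy
  fin_cases k
  · constructor
    · show A (p 0) = A (p 0) + (0 * (A (p 1) - A (p 0)) + 0 * (A (p 2) - A (p 0))); ring
    · show B (p 0) = B (p 0) + (0 * (B (p 1) - B (p 0)) + 0 * (B (p 2) - B (p 0))); ring
  · constructor
    · show A (p 1) = A (p 0) + (1 * (A (p 1) - A (p 0)) + 0 * (A (p 2) - A (p 0))); ring
    · show B (p 1) = B (p 0) + (1 * (B (p 1) - B (p 0)) + 0 * (B (p 2) - B (p 0))); ring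
  · constructor
    · show A (p 2) = A (p 0) + (0 * (A (p 1) - A (p 0)) + 1 * (A (p 2) - A (p 0))); ring
    · show B (p 2) = B (p 0) + (0 * (B (p 1) - B (p 0)) + 1 * (B (p 2) - B (p 0))); ring
  · constructor
    · show A (p 3) = A (p 0) + (α * (A (p 1) - A (p 0)) + β * (A (p 2) - A (p 0)))
      apply key
      linear_combination (A (p 1) - A (p 0)) * kα + (A (p 2) - A (p 0)) * kβ
        + (A (p 3) - A (p 0)) * hDdef
    · show B (p 3) = B (p 0) + (α * (B (p 1) - B (p 0)) + β * (B (p 2) - B (p 0)))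
      apply key
      linear_combination (B (p 1) - B (p 0)) * kα + (B (p 2) - B (p 0)) * kβ
        + (B (p 3) - B (p 0)) * hDdef
  · constructor
    · show A (p 4) = A (p 0) + (γ * (A (p 1) - A (p 0)) + δ * (A (p 2) - A (p 0)))
      apply key
      linear_combination (A (p 1) - A (p 0)) * kγ + (A (p 2) - A (p 0)) * kδ
        + (A (p 4) - A (p 0)) * hDdef
    · show B (p 4) = B (p 0) + (γ * (B (p 1) - B (p 0)) + δ * (B (p 2) - B (p 0)))
      apply key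
      linear_combination (B (p 1) - B (p 0)) * kγ + (B (p 2) - B (p 0)) * kδ
        + (B (p 4) - B (p 0)) * hDdef

end Pool.Agent.Lib.MP_dae7ec_co
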