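import Pool.Agent.Lib.MP_dae7ec_co.Degen
import Pool.Agent.Lib.MP_dae7ec_co.DegenTable

set_option autoImplicit false

/-!
Main theorem: labelled five-point sets whose residues span the plane `(ZMod 5)^2`.
-/

namespace Pool.Agent.Lib.MP_dae7ec_co

open Finset

variable {s : Fin 5 → GaussianInt} {X Y : GaussianInt → ZMod 5}

theorem degen1 (hX : Inc s X ![0, 1, 0, 0, 0]) (hY : Inc s Y ![0, 0, 1, 0, 2])
    (hd : s 3 - s 0 ≠ 0) : PmTiles s := by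
  by_contra hn
  have e1 := T3_det (hX.comb hY 1 1) (mkp ![0, 3, 1, 2, 4] ![0, 2, 3, 1, 4] (by decide) (by decide))
    (by decide) hn
  have e2 := T1_det (hX.comb hY 1 2) (mkp ![0, 3, 4, 1, 2] ![0, 3, 4, 1, 2] (by decide) (by decide))
    3 (by decide) hn
  change det2 (s 3 - s 0) (s 2 - s 1) = 0 at e1
  change det2 (s 3 - s 0) (s 1 + s 2 - 2 * s 4) = 0 at e2
  have e3 : det2 (s 3 - s 0) (s 2 - s 4) = 0 := by
    have h : det2 (s 3 - s 0) (s 1 + s 2 - 2 * s 4) =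
        2 * det2 (s 3 - s 0) (s 2 - s 4) - det2 (s 3 - s 0) (s 2 - s 1) := by
      simp only [det2, Zsqrtd.re_sub, Zsqrtd.im_sub, Zsqrtd.re_add, Zsqrtd.im_add,
        Zsqrtd.re_mul, Zsqrtd.im_mul, Zsqrtd.re_ofNat, Zsqrtd.im_ofNat]
      ring
    rw [h, e1] at e2
    linarith
  exact det_ne_zero_of_inc (inc_sub hX 2 1) (inc_sub hY 2 1) (inc_sub hX 2 4) (inc_sub hY 2 4)
    (by decide) (det_zero_trans hd e1 e3)

theorem degen2 (hX : Inc s X ![0, 1, 0, 0, 0]) (hY : Inc s Y ![0, 0, 1, 0, 4])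
    (hd : s 3 - s 0 ≠ 0) : PmTiles s := by
  by_contra hn
  have e1 := T3_det (hX.comb hY 1 1) (mkp ![0, 3, 1, 2, 4] ![0, 2, 3, 1, 4] (by decide) (by decide))
    (by decide) hn
  have e2 := T3_det (hX.comb hY 1 4) (mkp ![0, 3, 1, 4, 2] ![0, 2, 4, 1, 3] (by decide) (by decide))
    (by decide) hn
  change det2 (s 3 - s 0) (s 2 - s 1) = 0 at e1
  change det2 (s 3 - s 0) (s 4 - s 1) = 0 at e2
  exact det_ne_zero_of_inc (inc_sub hX 2 1) (inc_sub hY 2 1) (inc_sub hX 4 1) (inc_sub hY 4 1)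
    (by decide) (det_zero_trans hd e1 e2)

theorem degen3 (hX : Inc s X ![0, 1, 0, 0, 1]) (hY : Inc s Y ![0, 0, 1, 0, 1])
    (hd : s 3 - s 0 ≠ 0) : PmTiles s := by
  by_contra hn
  have e1 := T3_det (hX.comb hY 1 1) (mkp ![0, 3, 1, 2, 4] ![0, 2, 3, 1, 4] (by decide) (by decide))
    (by decide) hn
  have e2 := T1_det (hX.comb hY 1 2) (mkp ![0, 3, 2, 1, 4] ![0, 3, 2, 1, 4] (by decide) (by decide))
    4 (by decide) hn
  change det2 (s 3 - s 0) (s 2 - s 1) = 0 at e1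
  change det2 (s 3 - s 0) (s 1 + s 4 - 2 * s 2) = 0 at e2
  have e3 : det2 (s 3 - s 0) (s 4 - s 2) = 0 := by
    have h : det2 (s 3 - s 0) (s 1 + s 4 - 2 * s 2) =
        det2 (s 3 - s 0) (s 4 - s 2) - det2 (s 3 - s 0) (s 2 - s 1) := by
      simp only [det2, Zsqrtd.re_sub, Zsqrtd.im_sub, Zsqrtd.re_add, Zsqrtd.im_add,
        Zsqrtd.re_mul, Zsqrtd.im_mul, Zsqrtd.re_ofNat, Zsqrtd.im_ofNat]
      ring
    rw [h, e1] at e2
    linarith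
  exact det_ne_zero_of_inc (inc_sub hX 2 1) (inc_sub hY 2 1) (inc_sub hX 4 2) (inc_sub hY 4 2)
    (by decide) (det_zero_trans hd e1 e3)

theorem degen4 (hX : Inc s X ![0, 1, 0, 0, 1]) (hY : Inc s Y ![0, 0, 1, 0, 2])
    (hd : s 3 - s 0 ≠ 0) : PmTiles s := by
  by_contra hn
  have e1 := T1_det (hX.comb hY 1 3) (mkp ![0, 3, 4, 1, 2] ![0, 3, 4, 1, 2] (by decide) (by decide))
    4 (by decide) hn
  have e2 := T3_det (hX.comb hY 1 4) (mkp ![0, 3, 2, 4, 1] ![0, 4, 2, 1, 3] (by decide) (by decide))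
    (by decide) hn
  change det2 (s 3 - s 0) (s 1 + s 2 - 2 * s 4) = 0 at e1
  change det2 (s 3 - s 0) (s 4 - s 2) = 0 at e2
  have e3 : det2 (s 3 - s 0) (s 1 - s 4) = 0 := by
    have h : det2 (s 3 - s 0) (s 1 + s 2 - 2 * s 4) =
        det2 (s 3 - s 0) (s 1 - s 4) - det2 (s 3 - s 0) (s 4 - s 2) := by
      simp only [det2, Zsqrtd.re_sub, Zsqrtd.im_sub, Zsqrtd.re_add, Zsqrtd.im_add,
        Zsqrtd.re_mul, Zsqrtd.im_mul, Zsqrtd.re_ofNat, Zsqrtd.im_ofNat]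
      ring
    rw [h, e2] at e1
    linarith
  exact det_ne_zero_of_inc (inc_sub hX 4 2) (inc_sub hY 4 2) (inc_sub hX 1 4) (inc_sub hY 1 4)
    (by decide) (det_zero_trans hd e2 e3)

theorem degen5 (hX : Inc s X ![0, 1, 0, 0, 2]) (hY : Inc s Y ![0, 0, 1, 0, 2])
    (hd : s 3 - s 0 ≠ 0) : PmTiles s := by
  by_contra hn
  have e1 := T3_det (hX.comb hY 1 1) (mkp ![0, 3, 1, 2, 4] ![0, 2, 3, 1, 4] (by decide) (by decide))
    (by decide) hn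
  have e2 := T3_det (hX.comb hY 1 2) (mkp ![0, 3, 1, 4, 2] ![0, 2, 4, 1, 3] (by decide) (by decide))
    (by decide) hn
  change det2 (s 3 - s 0) (s 2 - s 1) = 0 at e1
  change det2 (s 3 - s 0) (s 4 - s 1) = 0 at e2
  exact det_ne_zero_of_inc (inc_sub hX 2 1) (inc_sub hY 2 1) (inc_sub hX 4 1) (inc_sub hY 4 1)
    (by decide) (det_zero_trans hd e1 e2)

theorem degen6 (hX : Inc s X ![0, 1, 0, 0, 2]) (hY : Inc s Y ![0, 0, 1, 0, 4])
    (hd : s 3 - s 0 ≠ 0) (hn : ¬ PmTiles s) :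
    ∃ (n m : ℤ) (v : GaussianInt), Odd m ∧ s 3 - s 0 = (n : GaussianInt) * v ∧
      s 2 + s 4 - 2 * s 1 = (m : GaussianInt) * v := by
  refine no_bit hd ?_
  rintro ⟨f, h1, h2⟩
  have hc : CondT1 (fun j => 1 * (![0, 1, 0, 0, 2] : Fin 5 → ZMod 5) j
      + 3 * (![0, 0, 1, 0, 4] : Fin 5 → ZMod 5) j)
      (mkp ![0, 3, 1, 2, 4] ![0, 2, 3, 1, 4] (by decide) (by decide)) 2 := by decide
  exact hn (pm_T1 (hX.comb hY 1 3)
    (mkp ![0, 3, 1, 2, 4] ![0, 2, 3, 1, 4] (by decide) (by decide)) 2 hc.1 hc.2.1 hc.2.2.1 hc.2.2.2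
    f h1 h2)

theorem degen8 (hX : Inc s X ![0, 1, 0, 0, 1]) (hY : Inc s Y ![0, 0, 1, 0, 0])
    (hd : s 3 - s 0 ≠ 0) (he : s 4 - s 1 ≠ 0) (hn : ¬ PmTiles s) :
    ∃ (n m : ℤ) (v : GaussianInt), (Odd m ∧ Even n ∨ Odd n ∧ Even m) ∧
      s 3 - s 0 = (n : GaussianInt) * v ∧ s 4 - s 1 = (m : GaussianInt) * v := by
  refine no_bit' hd he ?_
  rintro ⟨f, h1, h2⟩
  have hc : CondT3 (fun j => 1 * (![0, 1, 0, 0, 1] : Fin 5 → ZMod 5) j
      + 2 * (![0, 0, 1, 0, 0] : Fin 5 → ZMod 5) j)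
      (mkp ![0, 3, 1, 4, 2] ![0, 2, 4, 1, 3] (by decide) (by decide)) := by decide
  exact hn (pm_T3 (hX.comb hY 1 2)
    (mkp ![0, 3, 1, 4, 2] ![0, 2, 4, 1, 3] (by decide) (by decide)) hc.1 hc.2.1 hc.2.2.1
    hc.2.2.2.1 hc.2.2.2.2.1 hc.2.2.2.2.2 f h1 h2)

/-- the exceptional configurations, in terms of the residues `A, B` -/
def ExcD (s : Fin 5 → GaussianInt) (A B : Fin 5 → ZMod 5) : Prop :=
  ∃ σ : Equiv.Perm (Fin 5), A (σ 3) = A (σ 0) ∧ B (σ 3) = B (σ 0) ∧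
    ((A (σ 2) + A (σ 4) = 2 * A (σ 1) ∧ B (σ 2) + B (σ 4) = 2 * B (σ 1) ∧
        ∃ (n m : ℤ) (v : GaussianInt), Odd m ∧ s (σ 3) - s (σ 0) = (n : GaussianInt) * v ∧
          s (σ 2) + s (σ 4) - 2 * s (σ 1) = (m : GaussianInt) * v) ∨
      (A (σ 1) + A (σ 2) + A (σ 4) = 3 * A (σ 0) ∧ B (σ 1) + B (σ 2) + B (σ 4) = 3 * B (σ 0)) ∨
      (A (σ 4) = A (σ 1) ∧ B (σ 4) = B (σ 1) ∧
        ∃ (n m : ℤ) (v : GaussianInt), (Odd m ∧ Even n ∨ Odd n ∧ Even m) ∧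
          s (σ 3) - s (σ 0) = (n : GaussianInt) * v ∧
          s (σ 4) - s (σ 1) = (m : GaussianInt) * v) ∨
      (A (σ 4) = A (σ 0) ∧ B (σ 4) = B (σ 0)))

theorem ExcD.perm {s : Fin 5 → GaussianInt} {A B : Fin 5 → ZMod 5} (σ : Equiv.Perm (Fin 5))
    (h : ExcD (s ∘ σ) (A ∘ σ) (B ∘ σ)) : ExcD s A B := by
  obtain ⟨τ, h⟩ := h
  exact ⟨τ.trans σ, h⟩

theorem ExcD.lin {s : Fin 5 → GaussianInt} {A B c e : Fin 5 → ZMod 5} (a0 b0 a1 a2 b1 b2 : ZMod 5)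
    (hA : ∀ k, A k = a0 + (c k * a1 + e k * a2)) (hB : ∀ k, B k = b0 + (c k * b1 + e k * b2))
    (h : ExcD s c e) : ExcD s A B := by
  obtain ⟨σ, h1, h2, h⟩ := h
  have h5 : (5 : ZMod 5) = 0 := by decide
  refine ⟨σ, ?_, ?_, ?_⟩
  · rw [hA, hA, h1, h2]
  · rw [hB, hB, h1, h2]
  · rcases h with ⟨h3, h4, h6⟩ | ⟨h3, h4⟩ | ⟨h3, h4, h6⟩ | ⟨h3, h4⟩
    · refine Or.inl ⟨?_, ?_, h6⟩
      · rw [hA, hA, hA]; linear_combination a1 * h3 + a2 * h4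
      · rw [hB, hB, hB]; linear_combination b1 * h3 + b2 * h4
    · refine Or.inr (Or.inl ⟨?_, ?_⟩)
      · rw [hA, hA, hA, hA]; linear_combination a1 * h3 + a2 * h4
      · rw [hB, hB, hB, hB]; linear_combination b1 * h3 + b2 * h4
    · refine Or.inr (Or.inr (Or.inl ⟨?_, ?_, h6⟩))
      · rw [hA, hA, h3, h4]
      · rw [hB, hB, h3, h4]
    · refine Or.inr (Or.inr (Or.inr ⟨?_, ?_⟩))
      · rw [hA, hA, h3, h4]
      · rw [hB, hB, h3, h4]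

/-- the degenerate classes -/
theorem of_clsD {s : Fin 5 → GaussianInt} {X Y : GaussianInt → ZMod 5} {A B : Fin 5 → ZMod 5}
    (hs : Function.Injective s)
    (hX : Inc s X A) (hY : Inc s Y B) (p : Fin 5 → Fin 5) (hp : Function.Injective p)
    (h : Cls A B p 0 0 0 2 ∨ Cls A B p 0 0 0 4 ∨ Cls A B p 0 0 1 1 ∨ Cls A B p 0 0 1 2 ∨
      Cls A B p 0 0 2 2 ∨ Cls A B p 0 0 2 4 ∨ Cls A B p 0 0 4 4 ∨ Cls A B p 0 0 1 0 ∨
      Cls A B p 0 0 0 0) : PmTiles s ∨ ExcD s A B := by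
  have hbij : Function.Bijective p := by
    rw [Fintype.bijective_iff_injective_and_card]
    exact ⟨hp, rfl⟩
  let σ : Equiv.Perm (Fin 5) := Equiv.ofBijective p hbij
  have hd : ∀ i j : Fin 5, i ≠ j → (s ∘ σ) i - (s ∘ σ) j ≠ 0 := by
    intro i j hij h
    exact hij (σ.injective (hs (sub_eq_zero.mp h)))
  -- transport of the exceptional configurations
  have tr : ∀ γ δ : ZMod 5, Cls A B p 0 0 γ δ → ExcD (s ∘ σ) ![0, 1, 0, 0, γ] ![0, 0, 1, 0, δ] →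
      ExcD s A B := by
    intro γ δ hc hE
    refine ExcD.perm σ (ExcD.lin (A (p 0)) (B (p 0)) (A (p 1) - A (p 0)) (A (p 2) - A (p 0))
      (B (p 1) - B (p 0)) (B (p 2) - B (p 0)) (fun k => (hc.coord k).1) (fun k => (hc.coord k).2) hE)
  by_cases hn : PmTiles (s ∘ σ)
  · exact Or.inl (PmTiles.perm σ hn)
  rcases h with h | h | h | h | h | h | h | h | h
  · obtain ⟨X', Y', h1, h2⟩ := rebase hX hY σ _ _ _ _ h.1 h.2.1 h.2.2.1 h.2.2.2.1 h.2.2.2.2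
    exact absurd (degen1 h1 h2 (hd 3 0 (by decide))) hn
  · obtain ⟨X', Y', h1, h2⟩ := rebase hX hY σ _ _ _ _ h.1 h.2.1 h.2.2.1 h.2.2.2.1 h.2.2.2.2
    exact absurd (degen2 h1 h2 (hd 3 0 (by decide))) hn
  · obtain ⟨X', Y', h1, h2⟩ := rebase hX hY σ _ _ _ _ h.1 h.2.1 h.2.2.1 h.2.2.2.1 h.2.2.2.2
    exact absurd (degen3 h1 h2 (hd 3 0 (by decide))) hn
  · obtain ⟨X', Y', h1, h2⟩ := rebase hX hY σ _ _ _ _ h.1 h.2.1 h.2.2.1 h.2.2.2.1 h.2.2.2.2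
    exact absurd (degen4 h1 h2 (hd 3 0 (by decide))) hn
  · obtain ⟨X', Y', h1, h2⟩ := rebase hX hY σ _ _ _ _ h.1 h.2.1 h.2.2.1 h.2.2.2.1 h.2.2.2.2
    exact absurd (degen5 h1 h2 (hd 3 0 (by decide))) hn
  · obtain ⟨X', Y', h1, h2⟩ := rebase hX hY σ _ _ _ _ h.1 h.2.1 h.2.2.1 h.2.2.2.1 h.2.2.2.2
    obtain ⟨n, m, v, k1, k2, k3⟩ := degen6 h1 h2 (hd 3 0 (by decide)) hn
    exact Or.inr (tr _ _ h ⟨1, by decide, by decide, Or.inl ⟨by decide, by decide,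
      n, m, v, k1, k2, k3⟩⟩)
  · exact Or.inr (tr _ _ h ⟨1, by decide, by decide, Or.inr (Or.inl ⟨by decide, by decide⟩)⟩)
  · obtain ⟨X', Y', h1, h2⟩ := rebase hX hY σ _ _ _ _ h.1 h.2.1 h.2.2.1 h.2.2.2.1 h.2.2.2.2
    obtain ⟨n, m, v, k1, k2, k3⟩ := degen8 h1 h2 (hd 3 0 (by decide)) (hd 4 1 (by decide)) hn
    exact Or.inr (tr _ _ h ⟨1, by decide, by decide, Or.inr (Or.inr (Or.inl ⟨by decide, by decide,
      n, m, v, k1, k2, k3⟩))⟩)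
  · exact Or.inr (tr _ _ h ⟨1, by decide, by decide, Or.inr (Or.inr (Or.inr
      ⟨by decide, by decide⟩))⟩)

/-- Points whose residues span the plane: translates of `s` and `-s` tile, or the set is
exceptional. -/
theorem pm_or_excD {s : Fin 5 → GaussianInt} {X Y : GaussianInt → ZMod 5} {A B : Fin 5 → ZMod 5}
    (hs : Function.Injective s) (hX : Inc s X A) (hY : Inc s Y B)
    (hspan : ∃ i j, A i * B j - B i * A j ≠ 0) :
    PmTiles s ∨ Exc s ∨ ExcD s A B := by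
  have hfact : Fact (Nat.Prime 5) := ⟨by norm_num⟩
  by_cases hinj : ∀ i j, A i = A j → B i = B j → i = j
  · rcases pm_or_exc hX hY hinj with h | h
    · exact Or.inl h
    · exact Or.inr (Or.inl h)
  have hA0 := inc_zero hX
  have hB0 := inc_zero hY
  obtain ⟨i, j, hij⟩ := hspan
  have hi0 : i ≠ 0 := by rintro rfl; apply hij; rw [hA0, hB0]; ring
  have hj0 : j ≠ 0 := by rintro rfl; apply hij; rw [hA0, hB0]; ring
  have hne : i ≠ j := by rintro rfl; apply hij; ring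
  obtain ⟨σ, h0, h1, h2⟩ := exists_perm i j hi0 hj0 hne
  have hD : (A (σ 1) - A (σ 0)) * (B (σ 2) - B (σ 0)) - (B (σ 1) - B (σ 0)) * (A (σ 2) - A (σ 0))
      ≠ 0 := by
    rw [h0, h1, h2, hA0, hB0]
    simpa using hij
  obtain ⟨α, β, γ, δ, hcls⟩ : ∃ α β γ δ, Cls A B σ α β γ δ := by
    set D := (A (σ 1) - A (σ 0)) * (B (σ 2) - B (σ 0)) - (B (σ 1) - B (σ 0)) * (A (σ 2) - A (σ 0))
      with hDdef
    have hDi : D * D⁻¹ = 1 := mul_inv_cancel₀ hD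
    have key : ∀ x, x = D * (D⁻¹ * x) := fun x => by rw [← mul_assoc, hDi, one_mul]
    exact ⟨_, _, _, _, hD, key _, key _, key _, key _⟩
  obtain ⟨X', Y', hX', hY'⟩ := rebase hX hY σ _ _ _ _ hcls.1 hcls.2.1 hcls.2.2.1 hcls.2.2.2.1
    hcls.2.2.2.2
  have hs' : Function.Injective (s ∘ σ) := hs.comp σ.injective
  rcases tableD α β γ δ with h | ⟨p, hp, h⟩
  · rcases pm_or_exc hX' hY' h with h3 | h3
    · exact Or.inl (PmTiles.perm σ h3)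
    · exact Or.inr (Or.inl (Exc.perm σ h3))
  · rcases of_clsD hs' hX' hY' p hp h with h3 | h3
    · exact Or.inl (PmTiles.perm σ h3)
    · refine Or.inr (Or.inr (ExcD.perm σ (ExcD.lin (A (σ 0)) (B (σ 0)) (A (σ 1) - A (σ 0))
        (A (σ 2) - A (σ 0)) (B (σ 1) - B (σ 0)) (B (σ 2) - B (σ 0)) (fun k => (hcls.coord k).1)
        (fun k => (hcls.coord k).2) h3)))

end Pool.Agent.Lib.MP_dae7ec_co
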