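import Pool.Agent.Lib.MP_dae7ec_co.Basic

set_option autoImplicit false

namespace Pool.Agent.Lib.MP_dae7ec_co

open Finset

theorem flip_sub {f : GaussianInt → Bool} {a : GaussianInt} (h : ∀ x, f (x + a) = !f x)
    (x : GaussianInt) : f (x - a) = !f x := by
  have := h (x - a)
  rw [sub_add_cancel] at this
  rw [this, Bool.not_not]

theorem same_sub {f : GaussianInt → Bool} {a : GaussianInt} (h : ∀ x, f (x + a) = f x)
    (x : GaussianInt) : f (x - a) = f x := by
  have := h (x - a)
  rw [sub_add_cancel] at this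
  exact this.symm

/-- expansion of a sum over a four element set -/
theorem sum_four {a b c d : GaussianInt} (hab : a ≠ b) (hac : a ≠ c) (had : a ≠ d) (hbc : b ≠ c)
    (hbd : b ≠ d) (hcd : c ≠ d) (F : GaussianInt → ℕ) :
    ∑ s ∈ ({a, b, c, d} : Finset GaussianInt), F s = F a + F b + F c + F d := by
  rw [Finset.sum_insert (by simp [hab, hac, had]), Finset.sum_insert (by simp [hbc, hbd]),
    Finset.sum_insert (by simp [hcd]), Finset.sum_singleton]
  ring

/-- One point of one parity and three of the other. -/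
theorem tiles_one_three {u1 u2 u3 : GaussianInt} (h01 : u1 ≠ 0) (h02 : u2 ≠ 0) (h03 : u3 ≠ 0)
    (h12 : u1 ≠ u2) (h13 : u1 ≠ u3) (h23 : u2 ≠ u3) (E f g : GaussianInt → Bool)
    (hE1 : ∀ x, E (x + u1) = !E x) (hE2 : ∀ x, E (x + u2) = !E x) (hE3 : ∀ x, E (x + u3) = !E x)
    (hf1 : ∀ x, f (x + (u2 - u1)) = f x) (hf2 : ∀ x, f (x + (u2 - u3)) = !f x)
    (hg : ∀ x, g (x + (u2 - u1)) = !g x) : RotTiles {0, u1, u2, u3} := by
  let T : GaussianInt → Bool := fun b => E b && (!f b) && (!g b)
  refine ⟨fun k b => if k = 0 then T b else if k = 2 then T (b - (u1 - u2 + u3)) else false, ?_⟩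
  intro w
  have hdist : ∀ k : Fin 4, ∑ s ∈ ({0, u1, u2, u3} : Finset GaussianInt),
      ((fun (k : Fin 4) b => if k = 0 then T b else if k = 2 then T (b - (u1 - u2 + u3)) else false)
        k (w - rot k * s)).toNat = _ := fun k =>
    sum_four (Ne.symm h01) (Ne.symm h02) (Ne.symm h03) h12 h13 h23 _
  rw [Finset.sum_congr rfl fun k _ => hdist k, Fin.sum_univ_four]
  have k1 : (1 : Fin 4) ≠ 0 := by decide
  have k2 : (1 : Fin 4) ≠ 2 := by decide
  have k3 : (3 : Fin 4) ≠ 0 := by decide
  have k4 : (3 : Fin 4) ≠ 2 := by decide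
  have k5 : (2 : Fin 4) ≠ 0 := by decide
  simp only [k1, k2, k3, k4, k5, if_true, if_false, rot_zero, rot_two, mul_zero, sub_zero, one_mul,
    Bool.toNat_false, add_zero]
  simp only [neg_mul, one_mul, sub_neg_eq_add]
  -- the arguments
  have a1 : w + u1 - (u1 - u2 + u3) = w + (u2 - u3) := by ring
  have a2 : w + u2 - (u1 - u2 + u3) = w + (u2 - u3) + (u2 - u1) := by ring
  have a3 : w + u3 - (u1 - u2 + u3) = w + (u2 - u1) := by ring
  have b1 : w - u1 = w - (u1 - u2 + u3) - (u2 - u3) := by ring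
  have b2 : w - u2 = w - (u1 - u2 + u3) - (u2 - u3) - (u2 - u1) := by ring
  have b3 : w - u3 = w - (u1 - u2 + u3) - (u2 - u1) := by ring
  have e1 : E (w - u1) = !E w := flip_sub hE1 w
  have e2 : E (w - u2) = !E w := flip_sub hE2 w
  have e3 : E (w - u3) = !E w := flip_sub hE3 w
  have e4 : E (w - (u1 - u2 + u3)) = !E w := by
    rw [show w - (u1 - u2 + u3) = w - u1 + u2 - u3 by ring, flip_sub hE3, hE2, e1, Bool.not_not]
  have e5 : E (w + u1 - (u1 - u2 + u3)) = E w := by
    rw [show w + u1 - (u1 - u2 + u3) = w + u2 - u3 by ring, flip_sub hE3, hE2, Bool.not_not]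
  have e6 : E (w + u2 - (u1 - u2 + u3)) = E w := by
    rw [show w + u2 - (u1 - u2 + u3) = w + u2 - u1 + u2 - u3 by ring, flip_sub hE3, hE2,
      flip_sub hE1, hE2, Bool.not_not, Bool.not_not]
  have e7 : E (w + u3 - (u1 - u2 + u3)) = E w := by
    rw [show w + u3 - (u1 - u2 + u3) = w + u2 - u1 by ring, flip_sub hE1, hE2, Bool.not_not]
  simp only [T, e1, e2, e3, e4, e5, e6, e7]
  cases hw : E w
  · simp only [Bool.false_and, Bool.toNat_false, Bool.not_false, Bool.true_and, zero_add, add_zero]
    rw [b1, b2, b3]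
    simp only [flip_sub hf2, flip_sub hg, same_sub hf1]
    cases f (w - (u1 - u2 + u3)) <;> cases g (w - (u1 - u2 + u3)) <;>
      cases g (w - (u1 - u2 + u3) - (u2 - u3)) <;> rfl
  · simp only [Bool.false_and, Bool.toNat_false, Bool.not_true, Bool.true_and, zero_add, add_zero]
    rw [a1, a2, a3]
    simp only [hf2, hg, hf1]
    cases f w <;> cases g w <;> cases g (w + (u2 - u3)) <;> rfl

/-- Two points of each class, translations only. -/
theorem tiles_two_two_translation {a t b : GaussianInt} (h01 : a ≠ 0) (h02 : t ≠ 0)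
    (h03 : t + b ≠ 0) (h12 : a ≠ t) (h13 : a ≠ t + b) (h23 : t ≠ t + b) (E f : GaussianInt → Bool)
    (hEa : ∀ x, E (x + a) = E x) (hEt : ∀ x, E (x + t) = !E x) (hEb : ∀ x, E (x + b) = E x)
    (hfa : ∀ x, f (x + a) = !f x) (hfb : ∀ x, f (x + b) = !f x) : RotTiles {0, a, t, t + b} := by
  let T : GaussianInt → Bool := fun b => E b && (!f b)
  refine ⟨fun k b => if k = 0 then T b else false, ?_⟩
  intro w
  have hdist : ∀ k : Fin 4, ∑ s ∈ ({0, a, t, t + b} : Finset GaussianInt),
      ((fun (k : Fin 4) b => if k = 0 then T b else false)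
        k (w - rot k * s)).toNat = _ := fun k =>
    sum_four (Ne.symm h01) (Ne.symm h02) (Ne.symm h03) h12 h13 h23 _
  rw [Finset.sum_congr rfl fun k _ => hdist k, Fin.sum_univ_four]
  have k1 : (1 : Fin 4) ≠ 0 := by decide
  have k3 : (3 : Fin 4) ≠ 0 := by decide
  have k5 : (2 : Fin 4) ≠ 0 := by decide
  simp only [k1, k3, k5, if_true, if_false, rot_zero, mul_zero, sub_zero, one_mul,
    Bool.toNat_false, add_zero]
  have b3 : w - (t + b) = w - t - b := by ring
  simp only [T, b3, flip_sub hEt, same_sub hEa, same_sub hEb, flip_sub hfa, flip_sub hfb]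
  cases E w <;> cases f w <;> cases f (w - t) <;> rfl

/-- Two points of each class, copies of `S` and of `-S`. -/
theorem tiles_two_two_reflection {c t : GaussianInt} {m n : ℤ} (h01 : (m : GaussianInt) * c ≠ 0)
    (h02 : t ≠ 0)
    (h03 : t + n * c ≠ 0) (h12 : (m : GaussianInt) * c ≠ t) (h13 : (m : GaussianInt) * c ≠ t + n * c)
    (h23 : t ≠ t + n * c) (hm : m % 2 = 1) (hn : n % 2 = 0) (hn0 : n ≠ 0)
    (J X : GaussianInt → ℤ) (hJt : ∀ x, J (x + t) = J x + 1) (hJc : ∀ x, J (x + c) = J x)
    (hXt : ∀ x, X (x + t) = X x) (hXc : ∀ x, X (x + c) = X x + 1) :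
    RotTiles {0, (m : GaussianInt) * c, t, t + n * c} := by
  have hJn : ∀ (k : ℤ) x, J (x + k * c) = J x := by
    intro k
    induction k using Int.induction_on with
    | zero => intro x; simp
    | succ i ih => intro x; rw [show x + ((i + 1 : ℤ) : GaussianInt) * c = x + (i : ℤ) * c + c by
        push_cast; ring, hJc, ih]
    | pred i ih => intro x; rw [← hJc, show x + ((-i - 1 : ℤ) : GaussianInt) * c + c
        = x + (-i : ℤ) * c by push_cast; ring, ih]
  have hXn : ∀ (k : ℤ) x, X (x + k * c) = X x + k := by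
    intro k
    induction k using Int.induction_on with
    | zero => intro x; simp
    | succ i ih => intro x; rw [show x + ((i + 1 : ℤ) : GaussianInt) * c = x + (i : ℤ) * c + c by
        push_cast; ring, hXc, ih]; ring
    | pred i ih =>
      intro x
      have h1 := hXc (x + ((-i - 1 : ℤ) : GaussianInt) * c)
      rw [show x + ((-i - 1 : ℤ) : GaussianInt) * c + c
        = x + (-i : ℤ) * c by push_cast; ring, ih] at h1
      linarith
  have hJt' : ∀ x, J (x - t) = J x - 1 := fun x => by
    have := hJt (x - t); rw [sub_add_cancel] at this; linarith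
  have hXt' : ∀ x, X (x - t) = X x := fun x => by
    have := hXt (x - t); rw [sub_add_cancel] at this; linarith
  have hJn' : ∀ (k : ℤ) x, J (x - k * c) = J x := fun k x => by
    have := hJn (-k) x; push_cast at this; rw [neg_mul, ← sub_eq_add_neg] at this; exact this
  have hXn' : ∀ (k : ℤ) x, X (x - k * c) = X x - k := fun k x => by
    have := hXn (-k) x; push_cast at this; rw [neg_mul, ← sub_eq_add_neg] at this; linarith
  let T0 : GaussianInt → Bool := fun b => decide (J b % 2 = 0 ∧ X b % 2 = 0 ∧ (X b / n) % 2 = 0)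
  let T2 : GaussianInt → Bool := fun b =>
    decide (J b % 2 = 0 ∧ X b % 2 = 1 ∧ ((X b - m) / n) % 2 = 1)
  refine ⟨fun k b => if k = 0 then T0 b else if k = 2 then T2 b else false, ?_⟩
  intro w
  have hdist : ∀ k : Fin 4, ∑ s ∈ ({0, (m : GaussianInt) * c, t, t + n * c} : Finset GaussianInt),
      ((fun (k : Fin 4) b => if k = 0 then T0 b else if k = 2 then T2 b else false)
        k (w - rot k * s)).toNat = _ := fun k =>
    sum_four (Ne.symm h01) (Ne.symm h02) (Ne.symm h03) h12 h13 h23 _
  rw [Finset.sum_congr rfl fun k _ => hdist k, Fin.sum_univ_four]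
  have k1 : (1 : Fin 4) ≠ 0 := by decide
  have k2 : (1 : Fin 4) ≠ 2 := by decide
  have k3 : (3 : Fin 4) ≠ 0 := by decide
  have k4 : (3 : Fin 4) ≠ 2 := by decide
  have k5 : (2 : Fin 4) ≠ 0 := by decide
  simp only [k1, k2, k3, k4, k5, if_true, if_false, rot_zero, rot_two, mul_zero, sub_zero, one_mul,
    Bool.toNat_false, add_zero]
  simp only [neg_mul, one_mul, sub_neg_eq_add]
  have c1 : w - (t + n * c) = w - t - n * c := by ring
  have c2 : w + (t + n * c) = w + t + n * c := by ring
  simp only [T0, T2, c1, c2, hJt, hJt', hJn, hJn', hXn, hXn', hXt, hXt']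
  have hq1 : (X w - n) / n = X w / n - 1 := by
    rw [show X w - n = X w + (-1) * n by ring, Int.add_mul_ediv_right _ _ hn0]; ring
  have hq2 : (X w + n - m) / n = (X w - m) / n + 1 := by
    rw [show X w + n - m = (X w - m) + 1 * n by ring, Int.add_mul_ediv_right _ _ hn0]
  have hq3 : (X w + m - m) / n = X w / n := by
    rw [add_sub_cancel_right]
  rw [hq1, hq2, hq3]
  have hcases : J w % 2 = 0 ∨ J w % 2 = 1 := by omega
  have hcases2 : X w % 2 = 0 ∨ X w % 2 = 1 := by omega
  have hcases3 : (X w / n) % 2 = 0 ∨ (X w / n) % 2 = 1 := by omega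
  have hcases4 : ((X w - m) / n) % 2 = 0 ∨ ((X w - m) / n) % 2 = 1 := by omega
  have g1 : (J w - 1) % 2 = 0 ↔ J w % 2 = 1 := by omega
  have g2 : (J w + 1) % 2 = 0 ↔ J w % 2 = 1 := by omega
  have g3 : (X w - m) % 2 = 0 ↔ X w % 2 = 1 := by omega
  have g4 : (X w + m) % 2 = 1 ↔ X w % 2 = 0 := by omega
  have g5 : (X w - n) % 2 = 0 ↔ X w % 2 = 0 := by omega
  have g6 : (X w + n) % 2 = 1 ↔ X w % 2 = 1 := by omega
  have g7 : (X w / n - 1) % 2 = 0 ↔ (X w / n) % 2 = 1 := by omega
  have g8 : ((X w - m) / n + 1) % 2 = 1 ↔ ((X w - m) / n) % 2 = 0 := by omega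
  simp only [g1, g2, g3, g4, g5, g6, g7, g8]
  rcases hcases with h1 | h1 <;> rcases hcases2 with h2 | h2 <;> rcases hcases3 with h3 | h3 <;>
    rcases hcases4 with h4 | h4 <;> simp [h1, h2, h3, h4]

/-- Two points of each class, copies of `S` and of `i S`. -/
theorem tiles_two_two_rotation {a t b i : GaussianInt} (hi : i = ⟨0, 1⟩) (h01 : a ≠ 0)
    (h02 : t ≠ 0)
    (h03 : t + b ≠ 0) (h12 : a ≠ t) (h13 : a ≠ t + b) (h23 : t ≠ t + b)
    (E f d : GaussianInt → Bool)
    (hEa : ∀ x, E (x + a) = E x) (hEt : ∀ x, E (x + t) = !E x) (hEb : ∀ x, E (x + b) = E x)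
    (hEia : ∀ x, E (x + i * a) = E x) (hEit : ∀ x, E (x + i * t) = !E x)
    (hEib : ∀ x, E (x + i * b) = E x)
    (hf : ∀ x, f (x + (a - i * a)) = f x) (hfb : ∀ x, f (x + b) = !f x)
    (hfib : ∀ x, f (x + i * b) = !f x)
    (hda : ∀ x, E x = true → d (x + a) = !d x) (hdia : ∀ x, E x = true → d (x + i * a) = !d x)
    (hdb : ∀ x, E x = true → d (x + b) = d x) (hdib : ∀ x, E x = true → d (x + i * b) = d x)
    (hdt : ∀ x, E x = true → d (x + (t - i * t)) = !d x) : RotTiles {0, a, t, t + b} := by
  let T : GaussianInt → Bool := fun b => E b && d b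
  refine ⟨fun k b => if k = 0 then (T b && f b) else if k = 1 then (T b && !f b) else false, ?_⟩
  intro w
  have hdist : ∀ k : Fin 4, ∑ s ∈ ({0, a, t, t + b} : Finset GaussianInt),
      ((fun (k : Fin 4) b => if k = 0 then (T b && f b) else if k = 1 then (T b && !f b) else false)
        k (w - rot k * s)).toNat = _ := fun k =>
    sum_four (Ne.symm h01) (Ne.symm h02) (Ne.symm h03) h12 h13 h23 _
  rw [Finset.sum_congr rfl fun k _ => hdist k, Fin.sum_univ_four]
  have k1 : (1 : Fin 4) ≠ 0 := by decide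
  have k3 : (3 : Fin 4) ≠ 0 := by decide
  have k4 : (3 : Fin 4) ≠ 1 := by decide
  have k5 : (2 : Fin 4) ≠ 0 := by decide
  have k6 : (2 : Fin 4) ≠ 1 := by decide
  simp only [k1, k3, k4, k5, k6, if_true, if_false, rot_zero, rot_one, ← hi, mul_zero, sub_zero,
    one_mul, Bool.toNat_false, add_zero]
  have c1 : w - (t + b) = w - t - b := by ring
  have c2 : w - i * (t + b) = w - i * t - i * b := by ring
  simp only [T, c1, c2, flip_sub hEt, flip_sub hEit, same_sub hEa, same_sub hEia, same_sub hEb,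
    same_sub hEib]
  cases hw : E w
  · -- odd points
    simp only [Bool.false_and, Bool.toNat_false, Bool.not_false, Bool.true_and, zero_add, add_zero]
    have e1 : E (w - t) = true := by rw [flip_sub hEt, hw]; rfl
    have e2 : E (w - i * t) = true := by rw [flip_sub hEit, hw]; rfl
    have e3 : E (w - t - b) = true := by rw [same_sub hEb, e1]
    have e4 : E (w - i * t - i * b) = true := by rw [same_sub hEib, e2]
    have d1 : d (w - t - b) = d (w - t) := by
      have := hdb _ e3; rw [sub_add_cancel] at this; exact this.symm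
    have d2 : d (w - i * t - i * b) = d (w - i * t) := by
      have := hdib _ e4; rw [sub_add_cancel] at this; exact this.symm
    have d3 : d (w - i * t) = !d (w - t) := by
      have := hdt _ e1
      rw [show w - t + (t - i * t) = w - i * t by ring] at this
      exact this
    have f1 : f (w - t - b) = !f (w - t) := flip_sub hfb _
    have f2 : f (w - i * t - i * b) = !f (w - i * t) := flip_sub hfib _
    simp only [d1, d2, d3, f1, f2]
    cases d (w - t) <;> cases f (w - t) <;> cases f (w - i * t) <;> rfl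
  · simp only [Bool.false_and, Bool.toNat_false, Bool.not_true, Bool.true_and, zero_add, add_zero]
    have e1 : E (w - a) = true := by rw [same_sub hEa, hw]
    have e2 : E (w - i * a) = true := by rw [same_sub hEia, hw]
    have d1 : d (w - a) = !d w := by
      have := hda _ e1; rw [sub_add_cancel] at this; rw [this, Bool.not_not]
    have d2 : d (w - i * a) = !d w := by
      have := hdia _ e2; rw [sub_add_cancel] at this; rw [this, Bool.not_not]
    have f1 : f (w - i * a) = f (w - a) := by
      rw [← hf (w - a), show w - a + (a - i * a) = w - i * a by ring]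
    simp only [d1, d2, f1]
    cases d w <;> cases f w <;> cases f (w - a) <;> rfl

end Pool.Agent.Lib.MP_dae7ec_co
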