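import Pool.Agent.Lib.MP_dae7ec_co.FourMain

set_option autoImplicit false

namespace Pool.Agent.Lib.MP_dae7ec_co

open Finset

theorem two_factor : ∀ (N : ℕ) (g : ℤ), g.natAbs = N → g ≠ 0 → g % 2 = 0 →
    ∃ (k : ℕ) (g0 : ℤ), g = 2 ^ (k + 1) * g0 ∧ g0 % 2 = 1 := by
  intro N
  induction N using Nat.strong_induction_on with
  | _ N ih =>
    intro g hN h0 h2
    by_cases h : (g / 2) % 2 = 1
    · exact ⟨0, g / 2, by simp; omega, h⟩
    · obtain ⟨k, g0, h3, h4⟩ := ih (g / 2).natAbs (by omega) (g / 2) rfl (by omega) (by omega)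
      refine ⟨k + 1, g0, ?_, h4⟩
      have : g = 2 * (g / 2) := by omega
      rw [this, h3, pow_succ 2 (k + 1)]
      ring

theorem intCast_mul_re (n : ℤ) (x : GaussianInt) : ((n : GaussianInt) * x).re = n * x.re := by
  simp [Zsqrtd.re_mul]

theorem intCast_mul_im (n : ℤ) (x : GaussianInt) : ((n : GaussianInt) * x).im = n * x.im := by
  simp [Zsqrtd.im_mul]

theorem intCast_mul_ne_zero {n : ℤ} {x : GaussianInt} (hn : n ≠ 0) (hx : x ≠ 0) :
    (n : GaussianInt) * x ≠ 0 := by
  intro h
  apply hx
  have h1 := congrArg Zsqrtd.re h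
  have h2 := congrArg Zsqrtd.im h
  rw [intCast_mul_re] at h1
  rw [intCast_mul_im] at h2
  simp only [Zsqrtd.re_zero, Zsqrtd.im_zero, mul_eq_zero, hn, false_or] at h1 h2
  exact Zsqrtd.ext h1 h2

theorem ne_of_par {x y : GaussianInt} (hx : (x.re + x.im) % 2 = 0) (hy : (y.re + y.im) % 2 = 1) :
    x ≠ y := by
  rintro rfl
  omega

theorem case_two_two_lt {γ t : GaussianInt} {m n : ℤ} (hγ : γ ≠ 0) (hm : m % 2 = 1)
    (hn : n % 2 = 0) (hn0 : n ≠ 0) (hpa : (((m : GaussianInt) * γ).re
      + ((m : GaussianInt) * γ).im) % 2 = 0) (hpt : (t.re + t.im) % 2 = 1) :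
    RotTiles {0, (m : GaussianInt) * γ, t, t + n * γ} := by
  have hm0 : m ≠ 0 := by rintro rfl; simp at hm
  have hpb : (((n : GaussianInt) * γ).re + ((n : GaussianInt) * γ).im) % 2 = 0 := by
    rw [intCast_mul_re, intCast_mul_im, ← mul_add, Int.mul_emod, hn]; simp
  have p0 : ((0 : GaussianInt).re + (0 : GaussianInt).im) % 2 = 0 := by simp
  have ptb : ((t + n * γ).re + (t + n * γ).im) % 2 = 1 := by
    rw [Zsqrtd.re_add, Zsqrtd.im_add]; omega
  have h01 := intCast_mul_ne_zero hm0 hγ
  have h02 : t ≠ 0 := (ne_of_par p0 hpt).symm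
  have h03 : t + n * γ ≠ 0 := (ne_of_par p0 ptb).symm
  have h12 : (m : GaussianInt) * γ ≠ t := ne_of_par hpa hpt
  have h13 : (m : GaussianInt) * γ ≠ t + n * γ := ne_of_par hpa ptb
  have h23 : t ≠ t + n * γ := by
    intro h
    exact intCast_mul_ne_zero hn0 hγ (by
      have : t + n * γ - t = 0 := by rw [← h]; ring
      rwa [add_sub_cancel_left] at this)
  by_cases hD : t.re * γ.im - t.im * γ.re = 0
  · obtain ⟨δ, g, h, h1, h2⟩ := exists_common (x := γ) (y := t) hγ (by linarith)
    have hδ : δ ≠ 0 := by
      rintro rfl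
      simp at h1
      exact hγ h1
    have hg0 : g ≠ 0 := by
      rintro rfl
      simp at h1
      exact hγ h1
    have hpt' : (h * (δ.re + δ.im)) % 2 = 1 := by
      rw [h2, intCast_mul_re, intCast_mul_im] at hpt
      rw [mul_add]; exact hpt
    have hh : h % 2 = 1 := by
      by_contra hcon
      have : h % 2 = 0 := by omega
      rw [Int.mul_emod, this] at hpt'
      simp at hpt'
    have hδ2 : (δ.re + δ.im) % 2 = 1 := by
      by_contra hcon
      have : (δ.re + δ.im) % 2 = 0 := by omega
      rw [Int.mul_emod, this] at hpt'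
      simp at hpt'
    have hg2 : g % 2 = 0 := by
      by_contra hcon
      have hg1 : g % 2 = 1 := by omega
      rw [intCast_mul_re, intCast_mul_im, h1, intCast_mul_re, intCast_mul_im, ← mul_add, ← mul_add,
        Int.mul_emod, Int.mul_emod g, hg1, hδ2, hm] at hpa
      simp at hpa
    obtain ⟨k, g0, hk1, hk2⟩ := two_factor _ g rfl hg0 hg2
    have hnn : n = 2 * (n / 2) := by omega
    have key := int_case (k := k) (A := m * g) (A0 := m * g0) (B := n * g) (B0 := (n / 2) * g0)
      (t := h) (by rw [hk1]; ring) (by rw [Int.mul_emod, hm, hk2]; simp)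
      (by
        rw [hk1]
        nth_rewrite 1 [hnn]
        rw [pow_succ 2 (k + 1)]
        ring) (mul_ne_zero hn0 hg0) hh
    have := key.scale hδ
    have he : Finset.image (fun s => δ * s)
        ({0, ((m * g : ℤ) : GaussianInt), (h : GaussianInt),
          (h : GaussianInt) + ((n * g : ℤ) : GaussianInt)} : Finset GaussianInt)
        = {0, (m : GaussianInt) * γ, t, t + n * γ} := by
      simp only [Finset.image_insert, Finset.image_singleton, mul_zero]
      rw [h1, h2]
      push_cast
      rw [show δ * ((m : GaussianInt) * g) = m * (g * δ) by ring,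
        show δ * (h : GaussianInt) = h * δ by ring,
        show δ * ((h : GaussianInt) + n * g) = h * δ + n * (g * δ) by ring]
    rwa [he] at this
  · set D := t.re * γ.im - t.im * γ.re with hDdef
    refine tiles_two_two_reflection h01 h02 h03 h12 h13 h23 hm hn hn0
      (fun x => (x.re * γ.im - x.im * γ.re) / D) (fun x => (t.re * x.im - t.im * x.re) / D)
      ?_ ?_ ?_ ?_
    · intro x
      simp only [Zsqrtd.re_add, Zsqrtd.im_add]
      rw [show (x.re + t.re) * γ.im - (x.im + t.im) * γ.re
        = (x.re * γ.im - x.im * γ.re) + 1 * D by rw [hDdef]; ring, Int.add_mul_ediv_right _ _ hD]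
    · intro x
      simp only [Zsqrtd.re_add, Zsqrtd.im_add]
      congr 1
      ring
    · intro x
      simp only [Zsqrtd.re_add, Zsqrtd.im_add]
      congr 1
      ring
    · intro x
      simp only [Zsqrtd.re_add, Zsqrtd.im_add]
      rw [show t.re * (x.im + γ.im) - t.im * (x.re + γ.re)
        = (t.re * x.im - t.im * x.re) + 1 * D by rw [hDdef]; ring, Int.add_mul_ediv_right _ _ hD]

theorem case_two_two {a t b : GaussianInt} (ha : a ≠ 0) (hb : b ≠ 0)
    (pa : (a.re + a.im) % 2 = 0) (pb : (b.re + b.im) % 2 = 0) (pt : (t.re + t.im) % 2 = 1) :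
    RotTiles {0, a, t, t + b} := by
  have p0 : ((0 : GaussianInt).re + (0 : GaussianInt).im) % 2 = 0 := by simp
  have ptb : ((t + b).re + (t + b).im) % 2 = 1 := by
    rw [Zsqrtd.re_add, Zsqrtd.im_add]; omega
  have h02 : t ≠ 0 := (ne_of_par p0 pt).symm
  have h03 : t + b ≠ 0 := (ne_of_par p0 ptb).symm
  have h12 : a ≠ t := ne_of_par pa pt
  have h13 : a ≠ t + b := ne_of_par pa ptb
  have h23 : t ≠ t + b := by
    intro h
    apply hb
    have : t + b - t = 0 := by rw [← h]; ring
    rwa [add_sub_cancel_left] at this
  by_cases hD : a.re * b.im - a.im * b.re = 0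
  · obtain ⟨δ, g, h, h1, h2⟩ := exists_common (x := a) (y := b) ha (by linarith)
    have hδ : δ ≠ 0 := by
      rintro rfl
      simp at h1
      exact ha h1
    have hg0 : g ≠ 0 := by
      rintro rfl
      simp at h1
      exact ha h1
    have hh0 : h ≠ 0 := by
      rintro rfl
      simp at h2
      exact hb h2
    obtain ⟨m, hm⟩ := Int.gcd_dvd_left (a := g) (b := h)
    obtain ⟨n, hn⟩ := Int.gcd_dvd_right (a := g) (b := h)
    have hc0 : (Int.gcd g h : ℤ) ≠ 0 := by
      intro hcon
      rw [hcon] at hm
      simp at hm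
      exact hg0 hm
    have hcop : ¬ (m % 2 = 0 ∧ n % 2 = 0) := by
      rintro ⟨hm2, hn2⟩
      have h3 : ((2 * Int.gcd g h : ℕ) : ℤ) ∣ (Int.gcd g h : ℤ) := by
        apply Int.dvd_coe_gcd
        · refine ⟨m / 2, ?_⟩
          have h5 : g = (Int.gcd g h : ℤ) * m := hm
          have h4 : (2 : ℤ) * (m / 2) = m := by omega
          push_cast
          calc g = (Int.gcd g h : ℤ) * m := h5
            _ = (Int.gcd g h : ℤ) * (2 * (m / 2)) := by rw [h4]
            _ = 2 * (Int.gcd g h : ℤ) * (m / 2) := by ring
        · refine ⟨n / 2, ?_⟩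
          have h5 : h = (Int.gcd g h : ℤ) * n := hn
          have h4 : (2 : ℤ) * (n / 2) = n := by omega
          push_cast
          calc h = (Int.gcd g h : ℤ) * n := h5
            _ = (Int.gcd g h : ℤ) * (2 * (n / 2)) := by rw [h4]
            _ = 2 * (Int.gcd g h : ℤ) * (n / 2) := by ring
      have h4 := Nat.le_of_dvd (by
        have : (Int.gcd g h) ≠ 0 := by exact_mod_cast hc0
        omega) (Int.natCast_dvd_natCast.mp h3)
      have : (Int.gcd g h) ≠ 0 := by exact_mod_cast hc0
      omega
    set c : ℤ := (Int.gcd g h : ℤ) with hcdef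
    have hγ : (c : GaussianInt) * δ ≠ 0 := intCast_mul_ne_zero hc0 hδ
    have ha' : a = (m : GaussianInt) * (c * δ) := by
      rw [h1, hm]; push_cast; ring
    have hb' : b = (n : GaussianInt) * (c * δ) := by
      rw [h2, hn]; push_cast; ring
    have hm0 : m ≠ 0 := by
      rintro rfl
      rw [mul_zero] at hm
      exact hg0 hm
    have hn0 : n ≠ 0 := by
      rintro rfl
      rw [mul_zero] at hn
      exact hh0 hn
    by_cases hm2 : m % 2 = 1
    · by_cases hn2 : n % 2 = 1
      · -- both odd
        obtain ⟨f, hf⟩ := exists_flip hγ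
        have hk : ∀ (k : ℕ) x, f (x + (k : GaussianInt) * (c * δ))
            = if k % 2 = 1 then !f x else f x := by
          intro k
          induction k with
          | zero => intro x; simp
          | succ i ih =>
            intro x
            rw [show x + ((i + 1 : ℕ) : GaussianInt) * (c * δ) = x + (i : ℕ) * (c * δ) + c * δ by
              push_cast; ring, hf, ih]
            rcases Nat.mod_two_eq_zero_or_one i with h | h
            · have : (i + 1) % 2 = 1 := by omega
              simp [h, this]
            · have : (i + 1) % 2 = 0 := by omega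
              simp [h, this]
        have hk' : ∀ (k : ℤ) x, k % 2 = 1 → f (x + (k : GaussianInt) * (c * δ)) = !f x := by
          intro k x hk2
          obtain ⟨j, rfl | rfl⟩ := Int.eq_nat_or_neg k
          · have := hk j x
            rw [if_pos (by omega)] at this
            exact_mod_cast this
          · have := hk j (x + ((-(j : ℤ) : ℤ) : GaussianInt) * (c * δ))
            rw [if_pos (by omega)] at this
            rw [show x + ((-(j : ℤ) : ℤ) : GaussianInt) * (c * δ) + (j : GaussianInt) * (c * δ) = x
              by push_cast; ring] at this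
            rw [this, Bool.not_not]
        exact tiles_two_two_translation ha h02 h03 h12 h13 h23 ev f (ev_add_even pa)
          (ev_add_odd pt) (ev_add_even pb) (fun x => by rw [ha']; exact hk' m x hm2)
          (fun x => by rw [hb']; exact hk' n x hn2)
      · -- `m` odd, `n` even
        have := case_two_two_lt (t := t) hγ hm2 (by omega) hn0 (by rw [← ha']; exact pa) pt
        rw [← ha', ← hb'] at this
        exact this
    · -- `m` even, `n` odd
      have hn2 : n % 2 = 1 := by
        by_contra hcon
        exact hcop ⟨by omega, by omega⟩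
      have hpt' : ((-t).re + (-t).im) % 2 = 1 := by
        rw [Zsqrtd.re_neg, Zsqrtd.im_neg]; omega
      have := (case_two_two_lt (t := -t) hγ hn2 (by omega) hm0 (by rw [← hb']; exact pb)
        hpt').translate t
      rw [← ha', ← hb'] at this
      have he : Finset.image (fun s => t + s) ({0, b, -t, -t + a} : Finset GaussianInt)
          = {0, a, t, t + b} := by
        simp only [Finset.image_insert, Finset.image_singleton, add_zero]
        rw [show t + -t = 0 by ring, show t + (-t + a) = a by ring]
        ext x
        simp only [mem_insert, mem_singleton]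
        tauto
      rwa [he] at this
  · -- independent vectors
    set D := a.re * b.im - a.im * b.re with hDdef
    refine tiles_two_two_translation ha h02 h03 h12 h13 h23 ev
      (fun x => decide (((x.re * b.im - x.im * b.re) / D + (a.re * x.im - a.im * x.re) / D) % 2 = 1))
      (ev_add_even pa) (ev_add_odd pt) (ev_add_even pb) ?_ ?_
    · intro x
      simp only [Zsqrtd.re_add, Zsqrtd.im_add]
      rw [← decide_not, decide_eq_decide,
        show (x.re + a.re) * b.im - (x.im + a.im) * b.re
        = (x.re * b.im - x.im * b.re) + 1 * D by rw [hDdef]; ring, Int.add_mul_ediv_right _ _ hD,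
        show a.re * (x.im + a.im) - a.im * (x.re + a.re) = a.re * x.im - a.im * x.re by ring]
      omega
    · intro x
      simp only [Zsqrtd.re_add, Zsqrtd.im_add]
      rw [← decide_not, decide_eq_decide,
        show a.re * (x.im + b.im) - a.im * (x.re + b.re)
        = (a.re * x.im - a.im * x.re) + 1 * D by rw [hDdef]; ring, Int.add_mul_ediv_right _ _ hD,
        show (x.re + b.re) * b.im - (x.im + b.im) * b.re = x.re * b.im - x.im * b.re by ring]
      omega

/-- division by `1 + i` for even Gaussian integers -/
theorem exists_half {x : GaussianInt} (h : (x.re + x.im) % 2 = 0) :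
    ∃ y : GaussianInt, x = (⟨1, 1⟩ : GaussianInt) * y ∧
      2 * (y.re ^ 2 + y.im ^ 2) = x.re ^ 2 + x.im ^ 2 := by
  refine ⟨⟨(x.re + x.im) / 2, (x.im - x.re) / 2⟩, ?_, ?_⟩
  · ext
    · simp only [Zsqrtd.re_mul]; omega
    · simp only [Zsqrtd.im_mul]; omega
  · have h1 : x.re + x.im = 2 * ((x.re + x.im) / 2) := by omega
    have h2 : x.im - x.re = 2 * ((x.im - x.re) / 2) := by omega
    simp only
    set p := (x.re + x.im) / 2
    set q := (x.im - x.re) / 2
    have h3 : x.re = p - q := by omega
    have h4 : x.im = p + q := by omega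
    rw [h3, h4]; ring

theorem four_aux : ∀ (N : ℕ) (x y z : GaussianInt),
    (x.re ^ 2 + x.im ^ 2 + (y.re ^ 2 + y.im ^ 2) + (z.re ^ 2 + z.im ^ 2)).toNat = N →
    x ≠ 0 → y ≠ 0 → z ≠ 0 → x ≠ y → x ≠ z → y ≠ z → RotTiles {0, x, y, z} := by
  intro N
  induction N using Nat.strong_induction_on with
  | _ N ih =>
    intro x y z hN hx hy hz hxy hxz hyz
    have hpos : ∀ w : GaussianInt, w ≠ 0 → 0 < w.re ^ 2 + w.im ^ 2 := by
      intro w hw
      have : w.re ≠ 0 ∨ w.im ≠ 0 := by
        by_contra hcon
        push Not at hcon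
        exact hw (Zsqrtd.ext hcon.1 hcon.2)
      rcases this with h | h
      · have := sq_pos_of_ne_zero h
        have := sq_nonneg w.im
        omega
      · have := sq_pos_of_ne_zero h
        have := sq_nonneg w.re
        omega
    -- swaps
    have mod2 : ∀ w : GaussianInt, (w.re + w.im) % 2 = 0 ∨ (w.re + w.im) % 2 = 1 := by
      intro w; omega
    -- one odd, two even
    have odd1 : ∀ x y z : GaussianInt, x ≠ 0 → y ≠ 0 → z ≠ 0 → x ≠ y → x ≠ z → y ≠ z →
        (x.re + x.im) % 2 = 1 → (y.re + y.im) % 2 = 0 → (z.re + z.im) % 2 = 0 →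
        RotTiles {0, x, y, z} := by
      intro x y z hx hy hz hxy hxz hyz px py pz
      have := (case_one_three (u1 := -x) (u2 := y - x) (u3 := z - x)
        (by intro h; apply hy; have : y = y - x + x := by ring
            rw [this, ← h]; ring)
        (by intro h; apply hz; have : z = z - x + x := by ring
            rw [this, ← h]; ring)
        (by intro h; apply hyz; have := congrArg (fun w => w + x) h; simpa using this)
        (by rw [Zsqrtd.re_neg, Zsqrtd.im_neg]; omega)
        (by rw [Zsqrtd.re_sub, Zsqrtd.im_sub]; omega)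
        (by rw [Zsqrtd.re_sub, Zsqrtd.im_sub]; omega)).translate x
      have he : Finset.image (fun s => x + s) ({0, -x, y - x, z - x} : Finset GaussianInt)
          = {0, x, y, z} := by
        simp only [Finset.image_insert, Finset.image_singleton, add_zero]
        rw [show x + -x = 0 by ring, show x + (y - x) = y by ring, show x + (z - x) = z by ring]
        ext w
        simp only [mem_insert, mem_singleton]
        tauto
      rwa [he] at this
    -- two odd, one even
    have odd2 : ∀ x y z : GaussianInt, x ≠ 0 → y ≠ 0 → z ≠ 0 → x ≠ y → x ≠ z → y ≠ z →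
        (x.re + x.im) % 2 = 0 → (y.re + y.im) % 2 = 1 → (z.re + z.im) % 2 = 1 →
        RotTiles {0, x, y, z} := by
      intro x y z hx hy hz hxy hxz hyz px py pz
      have := case_two_two (a := x) (t := y) (b := z - y) hx (sub_ne_zero.mpr hyz.symm) px
        (by rw [Zsqrtd.re_sub, Zsqrtd.im_sub]; omega) py
      rwa [show y + (z - y) = z by ring] at this
    have perm1 : ({0, y, x, z} : Finset GaussianInt) = {0, x, y, z} := by
      ext w; simp only [mem_insert, mem_singleton]; tauto
    have perm2 : ({0, z, x, y} : Finset GaussianInt) = {0, x, y, z} := by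
      ext w; simp only [mem_insert, mem_singleton]; tauto
    rcases mod2 x with px | px <;> rcases mod2 y with py | py <;> rcases mod2 z with pz | pz
    · -- all even
      obtain ⟨x', hx1, hx2⟩ := exists_half px
      obtain ⟨y', hy1, hy2⟩ := exists_half py
      obtain ⟨z', hz1, hz2⟩ := exists_half pz
      have hx' : x' ≠ 0 := by rintro rfl; simp at hx1; exact hx hx1
      have hy' : y' ≠ 0 := by rintro rfl; simp at hy1; exact hy hy1
      have hz' : z' ≠ 0 := by rintro rfl; simp at hz1; exact hz hz1
      have key := ih _ (by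
        have e1 := hpos x' hx'
        have e2 := hpos y' hy'
        have e3 := hpos z' hz'
        omega) x' y' z' rfl hx' hy' hz' (by rintro rfl; exact hxy (hx1.trans hy1.symm))
        (by rintro rfl; exact hxz (hx1.trans hz1.symm))
        (by rintro rfl; exact hyz (hy1.trans hz1.symm))
      have hpi : (⟨1, 1⟩ : GaussianInt) ≠ 0 := by
        intro h
        have := congrArg Zsqrtd.re h
        simp at this
      have := key.scale hpi
      simp only [Finset.image_insert, Finset.image_singleton, mul_zero] at this
      rwa [← hx1, ← hy1, ← hz1] at this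
    · have := odd1 z x y hz hx hy hxz.symm hyz.symm hxy pz px py
      rwa [perm2] at this
    · have := odd1 y x z hy hx hz hxy.symm hyz hxz py px pz
      rwa [perm1] at this
    · exact odd2 x y z hx hy hz hxy hxz hyz px py pz
    · exact odd1 x y z hx hy hz hxy hxz hyz px py pz
    · have := odd2 y x z hy hx hz hxy.symm hyz hxz py px pz
      rwa [perm1] at this
    · have := odd2 z x y hz hx hy hxz.symm hyz.symm hxy pz px py
      rwa [perm2] at this
    · exact case_one_three hxy hxz hyz px py pz

end Pool.Agent.Lib.MP_dae7ec_co
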