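import Pool.Agent.Lib.MP_dae7ec_co.Four

set_option autoImplicit false

namespace Pool.Agent.Lib.MP_dae7ec_co

open Finset

/-- A nonzero binary character on the subgroup generated by two vectors, realised by a function
on the whole lattice. -/
theorem exists_char : ∀ (N : ℕ) (α β : GaussianInt),
    α.re.natAbs + α.im.natAbs + β.re.natAbs + β.im.natAbs = N → (α ≠ 0 ∨ β ≠ 0) →
    ∃ f : GaussianInt → Bool, ∃ p q : Bool, (p = true ∨ q = true) ∧
      (∀ x, f (x + α) = xor (f x) p) ∧ (∀ x, f (x + β) = xor (f x) q) := by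
  intro N
  induction N using Nat.strong_induction_on with
  | _ N ih =>
    intro α β hN hne
    by_cases h1 : α.re % 2 = 1 ∨ β.re % 2 = 1
    · refine ⟨fun x => decide (x.re % 2 = 1), decide (α.re % 2 = 1), decide (β.re % 2 = 1),
        by simpa using h1, ?_, ?_⟩
      · intro x
        show decide ((x + _).re % 2 = 1) = xor (decide (x.re % 2 = 1)) _
        rw [Zsqrtd.re_add]
        by_cases ha : x.re % 2 = 1 <;> by_cases hb : α.re % 2 = 1 <;> simp [ha, hb] <;> omega
      · intro x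
        show decide ((x + _).re % 2 = 1) = xor (decide (x.re % 2 = 1)) _
        rw [Zsqrtd.re_add]
        by_cases ha : x.re % 2 = 1 <;> by_cases hb : β.re % 2 = 1 <;> simp [ha, hb] <;> omega
    by_cases h2 : α.im % 2 = 1 ∨ β.im % 2 = 1
    · refine ⟨fun x => decide (x.im % 2 = 1), decide (α.im % 2 = 1), decide (β.im % 2 = 1),
        by simpa using h2, ?_, ?_⟩
      · intro x
        show decide ((x + _).im % 2 = 1) = xor (decide (x.im % 2 = 1)) _
        rw [Zsqrtd.im_add]
        by_cases ha : x.im % 2 = 1 <;> by_cases hb : α.im % 2 = 1 <;> simp [ha, hb] <;> omega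
      · intro x
        show decide ((x + _).im % 2 = 1) = xor (decide (x.im % 2 = 1)) _
        rw [Zsqrtd.im_add]
        by_cases ha : x.im % 2 = 1 <;> by_cases hb : β.im % 2 = 1 <;> simp [ha, hb] <;> omega
    push Not at h1 h2
    have hne' : α.re ≠ 0 ∨ α.im ≠ 0 ∨ β.re ≠ 0 ∨ β.im ≠ 0 := by
      by_contra hcon
      push Not at hcon
      rcases hne with h | h
      · exact h (Zsqrtd.ext hcon.1 hcon.2.1)
      · exact h (Zsqrtd.ext hcon.2.2.1 hcon.2.2.2)
    obtain ⟨f, p, q, hpq, hf1, hf2⟩ := ih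
      ((α.re / 2).natAbs + (α.im / 2).natAbs + (β.re / 2).natAbs + (β.im / 2).natAbs)
      (by omega) ⟨α.re / 2, α.im / 2⟩ ⟨β.re / 2, β.im / 2⟩ rfl (by
        by_contra hcon
        push Not at hcon
        have e1 := congrArg Zsqrtd.re hcon.1
        have e2 := congrArg Zsqrtd.im hcon.1
        have e3 := congrArg Zsqrtd.re hcon.2
        have e4 := congrArg Zsqrtd.im hcon.2
        simp only [Zsqrtd.re_zero, Zsqrtd.im_zero] at e1 e2 e3 e4
        omega)
    refine ⟨fun x => f ⟨x.re / 2, x.im / 2⟩, p, q, hpq, ?_, ?_⟩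
    · intro x
      have := hf1 ⟨x.re / 2, x.im / 2⟩
      show f ⟨(x + α).re / 2, (x + α).im / 2⟩ = _
      rw [← this]
      congr 1
      ext
      · simp only [Zsqrtd.re_add]; omega
      · simp only [Zsqrtd.im_add]; omega
    · intro x
      have := hf2 ⟨x.re / 2, x.im / 2⟩
      show f ⟨(x + β).re / 2, (x + β).im / 2⟩ = _
      rw [← this]
      congr 1
      ext
      · simp only [Zsqrtd.re_add]; omega
      · simp only [Zsqrtd.im_add]; omega

/-- A function changing its value along a given nonzero vector. -/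
theorem exists_flip {α : GaussianInt} (h : α ≠ 0) :
    ∃ f : GaussianInt → Bool, ∀ x, f (x + α) = !f x := by
  obtain ⟨f, p, q, hpq, h1, h2⟩ := exists_char _ α 0 rfl (Or.inl h)
  have hq : q = false := by
    have := h2 0
    rw [add_zero] at this
    cases q
    · rfl
    · simp at this
  have hp : p = true := by
    rcases hpq with h | h
    · exact h
    · rw [hq] at h; exact absurd h (by decide)
  exact ⟨f, fun x => by rw [h1, hp, Bool.xor_true]⟩

/-- indicator of the even Gaussian integers -/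
def ev (x : GaussianInt) : Bool := decide ((x.re + x.im) % 2 = 0)

theorem ev_add_even {a : GaussianInt} (h : (a.re + a.im) % 2 = 0) (x : GaussianInt) :
    ev (x + a) = ev x := by
  unfold ev
  rw [Zsqrtd.re_add, Zsqrtd.im_add, decide_eq_decide]
  omega

theorem ev_add_odd {a : GaussianInt} (h : (a.re + a.im) % 2 = 1) (x : GaussianInt) :
    ev (x + a) = !ev x := by
  unfold ev
  rw [Zsqrtd.re_add, Zsqrtd.im_add, ← decide_not, decide_eq_decide]
  omega

theorem case_one_three {u1 u2 u3 : GaussianInt}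
    (h12 : u1 ≠ u2) (h13 : u1 ≠ u3) (h23 : u2 ≠ u3)
    (p1 : (u1.re + u1.im) % 2 = 1) (p2 : (u2.re + u2.im) % 2 = 1)
    (p3 : (u3.re + u3.im) % 2 = 1) : RotTiles {0, u1, u2, u3} := by
  have h01 : u1 ≠ 0 := by rintro rfl; simp at p1
  have h02 : u2 ≠ 0 := by rintro rfl; simp at p2
  have h03 : u3 ≠ 0 := by rintro rfl; simp at p3
  obtain ⟨f, p, q, hpq, hf1, hf2⟩ := exists_char _ (u2 - u1) (u3 - u1) rfl
    (Or.inl (sub_ne_zero.mpr h12.symm))
  have hq1 : ∀ x, f (x - (u2 - u1)) = xor (f x) p := by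
    intro x
    have := hf1 (x - (u2 - u1))
    rw [sub_add_cancel] at this
    rw [this]; cases p <;> simp
  have hq2 : ∀ x, f (x - (u3 - u1)) = xor (f x) q := by
    intro x
    have := hf2 (x - (u3 - u1))
    rw [sub_add_cancel] at this
    rw [this]; cases q <;> simp
  cases hp : p <;> cases hq : q
  · simp [hp, hq] at hpq
  · -- `u2 - u1` neutral
    obtain ⟨g, hg⟩ := exists_flip (sub_ne_zero.mpr h12.symm)
    refine tiles_one_three h01 h02 h03 h12 h13 h23 ev f g (ev_add_odd p1) (ev_add_odd p2)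
      (ev_add_odd p3) (fun x => by rw [hf1, hp, Bool.xor_false]) (fun x => ?_) hg
    rw [show x + (u2 - u3) = x - (u3 - u1) + (u2 - u1) by ring, hf1, hq2, hp, hq, Bool.xor_false,
      Bool.xor_true]
  · -- `u3 - u1` neutral
    obtain ⟨g, hg⟩ := exists_flip (sub_ne_zero.mpr h13.symm)
    have := tiles_one_three h01 h03 h02 h13 h12 h23.symm ev f g (ev_add_odd p1) (ev_add_odd p3)
      (ev_add_odd p2) (fun x => by rw [hf2, hq, Bool.xor_false]) (fun x => by
        rw [show x + (u3 - u2) = x - (u2 - u1) + (u3 - u1) by ring, hf2, hq1, hp, hq,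
          Bool.xor_false, Bool.xor_true]) hg
    have he : ({0, u1, u3, u2} : Finset GaussianInt) = {0, u1, u2, u3} := by
      ext x; simp only [mem_insert, mem_singleton]; tauto
    rwa [he] at this
  · -- `u3 - u2` neutral
    obtain ⟨g, hg⟩ := exists_flip (sub_ne_zero.mpr h23.symm)
    have := tiles_one_three h02 h03 h01 h23 h12.symm h13.symm ev f g (ev_add_odd p2)
      (ev_add_odd p3) (ev_add_odd p1) (fun x => by
        rw [show x + (u3 - u2) = x - (u2 - u1) + (u3 - u1) by ring, hf2, hq1, hp, hq,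
          Bool.xor_true, Bool.xor_true, Bool.not_not]) (fun x => by
        rw [hf2, hq, Bool.xor_true]) hg
    have he : ({0, u2, u3, u1} : Finset GaussianInt) = {0, u1, u2, u3} := by
      ext x; simp only [mem_insert, mem_singleton]; tauto
    rwa [he] at this

theorem exists_common {x y : GaussianInt} (hx : x ≠ 0) (hdet : x.re * y.im = x.im * y.re) :
    ∃ δ : GaussianInt, ∃ g h : ℤ, x = g * δ ∧ y = h * δ := by
  have hg : (Int.gcd x.re x.im : ℤ) ≠ 0 := by
    intro h
    apply hx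
    have := Int.gcd_eq_zero_iff.mp (by exact_mod_cast h)
    exact Zsqrtd.ext this.1 this.2
  obtain ⟨p, hp⟩ := Int.gcd_dvd_left (a := x.re) (b := x.im)
  obtain ⟨q, hq⟩ := Int.gcd_dvd_right (a := x.re) (b := x.im)
  have hbez := Int.gcd_eq_gcd_ab x.re x.im
  set g : ℤ := (Int.gcd x.re x.im : ℤ)
  set u := Int.gcdA x.re x.im
  set v := Int.gcdB x.re x.im
  have hbez' : u * p + v * q = 1 := by
    have h1 : g * (u * p + v * q) = g * 1 := by
      calc g * (u * p + v * q) = (g * p) * u + (g * q) * v := by ring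
        _ = g := by rw [← hp, ← hq]; exact hbez.symm
        _ = g * 1 := by ring
    exact mul_left_cancel₀ hg h1
  have hdet' : p * y.im = q * y.re := by
    have h1 : g * (p * y.im) = g * (q * y.re) := by
      calc g * (p * y.im) = (g * p) * y.im := by ring
        _ = x.re * y.im := by rw [← hp]
        _ = x.im * y.re := hdet
        _ = (g * q) * y.re := by rw [← hq]
        _ = g * (q * y.re) := by ring
    exact mul_left_cancel₀ hg h1
  refine ⟨⟨p, q⟩, g, u * y.re + v * y.im, ?_, ?_⟩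
  · ext
    · simp only [Zsqrtd.re_mul, Zsqrtd.re_intCast, Zsqrtd.im_intCast]
      rw [hp]; ring
    · simp only [Zsqrtd.im_mul, Zsqrtd.re_intCast, Zsqrtd.im_intCast]
      rw [hq]; ring
  · ext
    · simp only [Zsqrtd.re_mul, Zsqrtd.re_intCast, Zsqrtd.im_intCast]
      linear_combination (-y.re) * hbez' - v * hdet'
    · simp only [Zsqrtd.im_mul, Zsqrtd.re_intCast, Zsqrtd.im_intCast]
      linear_combination (-y.im) * hbez' + u * hdet'

theorem int_case {k : ℕ} {A A0 B B0 t : ℤ} (hA : A = 2 ^ (k + 1) * A0) (hA0 : A0 % 2 = 1)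
    (hB : B = 2 ^ (k + 2) * B0) (hB0 : B ≠ 0) (ht : t % 2 = 1) :
    RotTiles {0, (A : GaussianInt), (t : GaussianInt), (t : GaussianInt) + (B : GaussianInt)} := by
  have hAA : A = 2 * (2 ^ k * A0) := by rw [hA, pow_succ]; ring
  have hBB : B = 2 * (2 ^ k * (2 * B0)) := by rw [hB, pow_succ, pow_succ]; ring
  have hAe : A % 2 = 0 := by rw [hAA]; omega
  have hBe : B % 2 = 0 := by rw [hBB]; omega
  have hAne : A ≠ 0 := by
    intro h
    have : A0 ≠ 0 := by rintro rfl; simp at hA0
    rw [hA] at h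
    have h2 : (2 : ℤ) ^ (k + 1) ≠ 0 := by positivity
    exact (mul_ne_zero h2 this) h
  have cast_ne : ∀ {x y : ℤ}, x ≠ y → (x : GaussianInt) ≠ (y : GaussianInt) := by
    intro x y h h'
    have := congrArg Zsqrtd.re h'
    simp only [Zsqrtd.re_intCast] at this
    exact h this
  have h2k : (2 : ℤ) ^ k ≠ 0 := by positivity
  -- `d`
  let F : GaussianInt → ℤ := fun x =>
    (x.re - x.im) / 2 + (if k = 0 then 0 else ((x.re + x.im) / 2) / 2 ^ k)
  have hE : ∀ x : GaussianInt, ev x = true ↔ (x.re + x.im) % 2 = 0 := by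
    intro x; unfold ev; simp
  have key1 : ∀ s u : ℤ, (s + 2 ^ k * u) / 2 ^ k = s / 2 ^ k + u := by
    intro s u
    rw [mul_comm, Int.add_mul_ediv_right _ _ h2k]
  have k2 : k ≠ 0 → (2 : ℤ) ^ k % 2 = 0 := by
    intro hk
    obtain ⟨j, rfl⟩ := Nat.exists_eq_succ_of_ne_zero hk
    rw [pow_succ]; omega
  have cmul2 : ∀ u : ℤ, k ≠ 0 → (2 ^ k * u) % 2 = 0 := by
    intro u hk
    rw [Int.mul_emod, k2 hk]; simp
  refine tiles_two_two_rotation (i := ⟨0, 1⟩) rfl ?_ ?_ ?_ ?_ ?_ ?_ ev
    (fun x => decide (((x.re + x.im) / B) % 2 = 0)) (fun x => decide (F x % 2 = 0))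
    (ev_add_even (by simp; omega)) (ev_add_odd (by simp; omega)) (ev_add_even (by simp; omega))
    (ev_add_even (by simp [Zsqrtd.re_mul, Zsqrtd.im_mul]; omega))
    (ev_add_odd (by simp [Zsqrtd.re_mul, Zsqrtd.im_mul]; omega))
    (ev_add_even (by simp [Zsqrtd.re_mul, Zsqrtd.im_mul]; omega)) ?_ ?_ ?_ ?_ ?_ ?_ ?_ ?_
  · exact_mod_cast cast_ne (x := A) (y := 0) hAne
  · exact_mod_cast cast_ne (x := t) (y := 0) (by omega)
  · exact_mod_cast cast_ne (x := t + B) (y := 0) (by omega)
  · exact cast_ne (by omega)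
  · exact_mod_cast cast_ne (x := A) (y := t + B) (by omega)
  · intro h
    have := congrArg Zsqrtd.re h
    simp at this
    omega
  · intro x
    simp only [Zsqrtd.re_add, Zsqrtd.im_add, Zsqrtd.re_sub, Zsqrtd.im_sub, Zsqrtd.re_mul,
      Zsqrtd.im_mul, Zsqrtd.re_intCast, Zsqrtd.im_intCast]
    congr 4
    ring
  · intro x
    simp only [Zsqrtd.re_add, Zsqrtd.im_add, Zsqrtd.re_intCast, Zsqrtd.im_intCast]
    rw [show x.re + B + (x.im + 0) = (x.re + x.im) + 1 * B by ring,
      Int.add_mul_ediv_right _ _ hB0, ← decide_not, decide_eq_decide]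
    omega
  · intro x
    simp only [Zsqrtd.re_add, Zsqrtd.im_add, Zsqrtd.re_mul,
      Zsqrtd.im_mul, Zsqrtd.re_intCast, Zsqrtd.im_intCast]
    rw [show x.re + (0 * B + -1 * 1 * 0) + (x.im + (0 * 0 + 1 * B)) = (x.re + x.im) + 1 * B by ring,
      Int.add_mul_ediv_right _ _ hB0, ← decide_not, decide_eq_decide]
    omega
  · intro x hx
    rw [hE] at hx
    rw [← decide_not, decide_eq_decide]
    simp only [F, Zsqrtd.re_add, Zsqrtd.im_add, Zsqrtd.re_intCast, Zsqrtd.im_intCast]
    have e1 : (x.re + A - (x.im + 0)) / 2 = (x.re - x.im) / 2 + 2 ^ k * A0 := by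
      rw [hAA]; omega
    have e2 : (x.re + A + (x.im + 0)) / 2 = (x.re + x.im) / 2 + 2 ^ k * A0 := by
      rw [hAA]; omega
    rw [e1, e2, key1]
    by_cases hk : k = 0
    · subst hk; simp; omega
    · have := cmul2 A0 hk
      simp only [hk, if_false]
      omega
  · intro x hx
    rw [hE] at hx
    rw [← decide_not, decide_eq_decide]
    simp only [F, Zsqrtd.re_add, Zsqrtd.im_add, Zsqrtd.re_mul, Zsqrtd.im_mul, Zsqrtd.re_intCast,
      Zsqrtd.im_intCast]
    have e1 : (x.re + (0 * A + -1 * 1 * 0) - (x.im + (0 * 0 + 1 * A))) / 2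
        = (x.re - x.im) / 2 - 2 ^ k * A0 := by
      rw [hAA]; omega
    have e2 : (x.re + (0 * A + -1 * 1 * 0) + (x.im + (0 * 0 + 1 * A))) / 2
        = (x.re + x.im) / 2 + 2 ^ k * A0 := by
      rw [hAA]; omega
    rw [e1, e2, key1]
    by_cases hk : k = 0
    · subst hk; simp; omega
    · have := cmul2 A0 hk
      simp only [hk, if_false]
      omega
  · intro x hx
    rw [hE] at hx
    rw [decide_eq_decide]
    simp only [F, Zsqrtd.re_add, Zsqrtd.im_add, Zsqrtd.re_intCast, Zsqrtd.im_intCast]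
    have e1 : (x.re + B - (x.im + 0)) / 2 = (x.re - x.im) / 2 + 2 ^ k * (2 * B0) := by
      rw [hBB]; omega
    have e2 : (x.re + B + (x.im + 0)) / 2 = (x.re + x.im) / 2 + 2 ^ k * (2 * B0) := by
      rw [hBB]; omega
    rw [e1, e2, key1]
    by_cases hk : k = 0
    · subst hk; simp
    · have := cmul2 (2 * B0) hk
      simp only [hk, if_false]
      omega
  · intro x hx
    rw [hE] at hx
    rw [decide_eq_decide]
    simp only [F, Zsqrtd.re_add, Zsqrtd.im_add, Zsqrtd.re_mul, Zsqrtd.im_mul, Zsqrtd.re_intCast,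
      Zsqrtd.im_intCast]
    have e1 : (x.re + (0 * B + -1 * 1 * 0) - (x.im + (0 * 0 + 1 * B))) / 2
        = (x.re - x.im) / 2 - 2 ^ k * (2 * B0) := by
      rw [hBB]; omega
    have e2 : (x.re + (0 * B + -1 * 1 * 0) + (x.im + (0 * 0 + 1 * B))) / 2
        = (x.re + x.im) / 2 + 2 ^ k * (2 * B0) := by
      rw [hBB]; omega
    rw [e1, e2, key1]
    by_cases hk : k = 0
    · subst hk; simp
    · have := cmul2 (2 * B0) hk
      simp only [hk, if_false]
      omega
  · intro x hx
    rw [hE] at hx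
    rw [← decide_not, decide_eq_decide]
    simp only [F, Zsqrtd.re_add, Zsqrtd.im_add, Zsqrtd.re_sub, Zsqrtd.im_sub, Zsqrtd.re_mul,
      Zsqrtd.im_mul, Zsqrtd.re_intCast, Zsqrtd.im_intCast]
    have e1 : (x.re + (t - (0 * t + -1 * 1 * 0)) - (x.im + (0 - (0 * 0 + 1 * t)))) / 2
        = (x.re - x.im) / 2 + t := by
      omega
    have e2 : (x.re + (t - (0 * t + -1 * 1 * 0)) + (x.im + (0 - (0 * 0 + 1 * t))))
        = (x.re + x.im) := by
      omega
    rw [e1, e2]
    omega

end Pool.Agent.Lib.MP_dae7ec_co
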