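import Pool.Agent.Lib.MP_dae7ec_co.Patt

set_option autoImplicit false

/-!
From residue patterns to tilings.
-/

namespace Pool.Agent.Lib.MP_dae7ec_co

/-- the code of the differences of a residue vector -/
def code (c : Fin 5 → ZMod 5) : ℕ :=
  (c 1 - c 0).val + 5 * (c 2 - c 0).val + 25 * (c 3 - c 0).val + 125 * (c 4 - c 0).val

theorem code_lt (c : Fin 5 → ZMod 5) : code c < 625 := by
  unfold code
  have h1 := ZMod.val_lt (c 1 - c 0)
  have h2 := ZMod.val_lt (c 2 - c 0)
  have h3 := ZMod.val_lt (c 3 - c 0)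
  have h4 := ZMod.val_lt (c 4 - c 0)
  omega

theorem digits_aux (a b c d : ℕ) (ha : a < 5) (hb : b < 5) (hc : c < 5) (hd : d < 5) :
    (a + 5 * b + 25 * c + 125 * d) % 5 = a ∧ (a + 5 * b + 25 * c + 125 * d) / 5 % 5 = b ∧
    (a + 5 * b + 25 * c + 125 * d) / 25 % 5 = c ∧ (a + 5 * b + 25 * c + 125 * d) / 125 = d := by
  refine ⟨by omega, by omega, by omega, by omega⟩

theorem code_add (c d : Fin 5 → ZMod 5) : code (fun j => c j + d j) = addN (code c) (code d) := by
  have key : ∀ j : Fin 5, ((c j + d j) - (c 0 + d 0)).val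
      = ((c j - c 0).val + (d j - d 0).val) % 5 := by
    intro j
    rw [show (c j + d j) - (c 0 + d 0) = (c j - c 0) + (d j - d 0) by ring, ZMod.val_add]
  unfold code addN
  simp only [key]
  have h1 := ZMod.val_lt (c 1 - c 0)
  have h2 := ZMod.val_lt (c 2 - c 0)
  have h3 := ZMod.val_lt (c 3 - c 0)
  have h4 := ZMod.val_lt (c 4 - c 0)
  have g1 := ZMod.val_lt (d 1 - d 0)
  have g2 := ZMod.val_lt (d 2 - d 0)
  have g3 := ZMod.val_lt (d 3 - d 0)
  have g4 := ZMod.val_lt (d 4 - d 0)
  obtain ⟨a1, a2, a3, a4⟩ := digits_aux _ _ _ _ h1 h2 h3 h4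
  obtain ⟨b1, b2, b3, b4⟩ := digits_aux _ _ _ _ g1 g2 g3 g4
  rw [a1, a2, a3, a4, b1, b2, b3, b4]

theorem allDiff_sub (a b c d e t : ZMod 5) :
    allDiff (a - t) (b - t) (c - t) (d - t) (e - t) = allDiff a b c d e := by
  revert a b c d e t
  have : ∀ x y t : ZMod 5, ((x - t) != (y - t)) = (x != y) := by decide +kernel
  intro a b c d e t
  unfold allDiff
  simp only [this]

theorem t1_sub (c : Fin 5 → ZMod 5) (t : ZMod 5) (v : Idx) : t1 (fun j => c j - t) v = t1 c v := by
  unfold t1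
  have h1 : ∀ x y t : ZMod 5, ((x - t) == (y - t)) = (x == y) := by decide +kernel
  have h2 : ∀ x y z t : ZMod 5, ((x - t) + (y - t) == (z - t) + (z - t)) = (x + y == z + z) := by
    decide +kernel
  simp only [h1, h2]
  rw [show c v.2.2.1 - t + (c v.2.2.1 - t) - (c v.1 - t) = (c v.2.2.1 + c v.2.2.1 - c v.1) - t by
    ring, allDiff_sub]

theorem t3_sub (c : Fin 5 → ZMod 5) (t : ZMod 5) (v : Idx) : t3 (fun j => c j - t) v = t3 c v := by
  unfold t3
  have h1 : ∀ x y t : ZMod 5, ((x - t) == (y - t)) = (x == y) := by decide +kernel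
  have h1' : ∀ x y t : ZMod 5, ((x - t) != (y - t)) = (x != y) := by decide +kernel
  have h2 : ∀ x y z t : ZMod 5, ((x - t) + (y - t) != (z - t) + (z - t)) = (x + y != z + z) := by
    decide +kernel
  simp only [h1, h1', h2]

theorem goodC_sub (c : Fin 5 → ZMod 5) (t : ZMod 5) : goodC (fun j => c j - t) = goodC c := by
  unfold goodC
  simp only [t1_sub, t3_sub, allDiff_sub]

theorem goodC_of_badN (c : Fin 5 → ZMod 5) (h : badN (code c) = false) : goodC c = true := by
  rw [← goodC_sub c (c 0)]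
  have := goodC_of_code (c 1 - c 0) (c 2 - c 0) (c 3 - c 0) (c 4 - c 0) h
  rw [← this]
  congr 1
  funext j
  fin_cases j <;> simp

theorem perm_of_L1 : ∀ v ∈ L1, Function.Injective ![v.1, v.2.1, v.2.2.1, v.2.2.2.1, v.2.2.2.2] := by
  decide +kernel

theorem perm_of_L3 : ∀ v ∈ L3, Function.Injective ![v.1, v.2.1, v.2.2.1, v.2.2.2.1, v.2.2.2.2] := by
  decide +kernel

theorem allDiff_cover : ∀ a b c d e : ZMod 5, allDiff a b c d e = true →
    ∀ r : ZMod 5, r = a ∨ r = b ∨ r = c ∨ r = d ∨ r = e := by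
  decide +kernel

theorem allDiff_iff (a b c d e : ZMod 5) : allDiff a b c d e = true ↔
    (a ≠ b ∧ a ≠ c ∧ a ≠ d ∧ a ≠ e ∧ b ≠ c ∧ b ≠ d ∧ b ≠ e ∧ c ≠ d ∧ c ≠ e ∧ d ≠ e) := by
  unfold allDiff
  simp only [Bool.and_eq_true, bne_iff_ne, ne_eq]
  tauto

/-- nondegeneracy of a labelled five-point set -/
def ND (s : Fin 5 → GaussianInt) : Prop :=
  (∀ v ∈ L1, det2 (s v.2.1 - s v.1) (s v.2.2.2.1 + s v.2.2.2.2 - 2 * s v.2.2.1) ≠ 0) ∧
  (∀ v ∈ L3, det2 (s v.2.1 - s v.1) (s v.2.2.2.1 - s v.2.2.1) ≠ 0)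

theorem pmTiles_of_good (s : Fin 5 → GaussianInt) (p q : ℤ)
    (hgood : goodC (fun j => ((lin p q (s j) : ℤ) : ZMod 5)) = true) (hND : ND s) :
    PmTiles s := by
  set c : Fin 5 → ZMod 5 := fun j => ((lin p q (s j) : ℤ) : ZMod 5) with hc
  set phi : GaussianInt → ZMod 5 := fun z => ((lin p q z : ℤ) : ZMod 5) with hphi
  have hadd : ∀ z j, phi (z + s j) = phi z + c j := by
    intro z j
    simp only [hphi, hc, lin_add, Int.cast_add]
  unfold goodC at hgood
  simp only [Bool.or_eq_true, List.any_eq_true] at hgood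
  rcases hgood with (h | ⟨v, hv, h⟩) | ⟨v, hv, h⟩
  · rw [allDiff_iff] at h
    refine pmTiles_inj s phi c hadd ?_
    obtain ⟨h1, h2, h3, h4, h5, h6, h7, h8, h9, h10⟩ := h
    intro i j hij
    fin_cases i <;> fin_cases j <;> first | rfl | (exfalso; first | exact h1 hij | exact h2 hij | exact h3 hij | exact h4 hij | exact h5 hij | exact h6 hij | exact h7 hij | exact h8 hij | exact h9 hij | exact h10 hij | exact h1 hij.symm | exact h2 hij.symm | exact h3 hij.symm | exact h4 hij.symm | exact h5 hij.symm | exact h6 hij.symm | exact h7 hij.symm | exact h8 hij.symm | exact h9 hij.symm | exact h10 hij.symm)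
  · have hinj := perm_of_L1 v hv
    let σ : Equiv.Perm (Fin 5) := Equiv.ofBijective _ (Finite.injective_iff_bijective.1 hinj)
    have e0 : σ 0 = v.1 := rfl
    have e1 : σ 1 = v.2.1 := rfl
    have e2 : σ 2 = v.2.2.1 := rfl
    have e3 : σ 3 = v.2.2.2.1 := rfl
    have e4 : σ 4 = v.2.2.2.2 := rfl
    unfold t1 at h
    simp only [Bool.and_eq_true, beq_iff_eq] at h
    obtain ⟨⟨h1, h2⟩, h3⟩ := h
    have hcov := allDiff_cover _ _ _ _ _ h3
    obtain ⟨f, hf1, hf2⟩ := exists_bit_indep _ _ (hND.1 v hv)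
    refine PmTiles.perm σ (pmTiles_T1 (s ∘ σ) phi (c ∘ σ) (fun z j => hadd z (σ j))
      (c v.2.2.1 + c v.2.2.1 - c v.1) ?_ ?_ ?_ ?_ f ?_ ?_)
    · simp only [Function.comp_apply, e0, e1]; exact h1
    · simp only [Function.comp_apply, e0, e2]; ring
    · simp only [Function.comp_apply, e0, e3, e4]; rw [h2]; ring
    · simp only [Function.comp_apply, e0, e2, e3, e4]; exact hcov
    · simp only [Function.comp_apply, e0, e1]; exact hf1
    · simp only [Function.comp_apply, e2, e3, e4]; exact hf2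
  · have hinj := perm_of_L3 v hv
    let σ : Equiv.Perm (Fin 5) := Equiv.ofBijective _ (Finite.injective_iff_bijective.1 hinj)
    have e0 : σ 0 = v.1 := rfl
    have e1 : σ 1 = v.2.1 := rfl
    have e2 : σ 2 = v.2.2.1 := rfl
    have e3 : σ 3 = v.2.2.2.1 := rfl
    have e4 : σ 4 = v.2.2.2.2 := rfl
    unfold t3 at h
    simp only [Bool.and_eq_true, beq_iff_eq, bne_iff_ne, ne_eq] at h
    obtain ⟨⟨⟨⟨⟨h1, h2⟩, h3⟩, h4⟩, h5⟩, h6⟩ := h
    obtain ⟨f, hf1, hf2⟩ := exists_bit_indep' _ _ (hND.2 v hv)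
    refine PmTiles.perm σ (pmTiles_T3 (s ∘ σ) phi (c ∘ σ) (fun z j => hadd z (σ j))
      ?_ ?_ ?_ ?_ ?_ ?_ f ?_ ?_)
    · simp only [Function.comp_apply, e0, e1]; exact h1
    · simp only [Function.comp_apply, e2, e3]; exact h2
    · simp only [Function.comp_apply, e0, e2]; exact h3
    · simp only [Function.comp_apply, e0, e4]; exact h4
    · simp only [Function.comp_apply, e2, e4]; exact h5
    · simp only [Function.comp_apply, e0, e2, e4]; exact h6
    · simp only [Function.comp_apply, e0, e1]; exact hf1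
    · simp only [Function.comp_apply, e2, e3]; exact hf2

/-- the pair of codes is bad: all six directions are bad -/
def badPair (m n : ℕ) : Bool := badN m && okPair m n

theorem pmTiles_of_not_badPair (s : Fin 5 → GaussianInt) (hND : ND s)
    (h : badPair (code fun j => ((s j).re : ZMod 5)) (code fun j => ((s j).im : ZMod 5)) = false) :
    PmTiles s := by
  set X : Fin 5 → ZMod 5 := fun j => ((s j).re : ZMod 5) with hX
  set Y : Fin 5 → ZMod 5 := fun j => ((s j).im : ZMod 5) with hY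
  have hdir : ∀ p q : ℤ, (fun j => ((lin p q (s j) : ℤ) : ZMod 5))
      = fun j => (p : ZMod 5) * X j + (q : ZMod 5) * Y j := by
    intro p q
    funext j
    simp only [lin, hX, hY, Int.cast_add, Int.cast_mul]
  have c1 : code (fun j => X j + Y j) = addN (code X) (code Y) := code_add X Y
  have c2 : code (fun j => X j + Y j + Y j) = addN (addN (code X) (code Y)) (code Y) := by
    rw [← c1]; exact code_add (fun j => X j + Y j) Y
  have c3 : code (fun j => X j + Y j + Y j + Y j)
      = addN (addN (addN (code X) (code Y)) (code Y)) (code Y) := by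
    rw [← c2]; exact code_add (fun j => X j + Y j + Y j) Y
  have c4 : code (fun j => X j + Y j + Y j + Y j + Y j)
      = addN (addN (addN (addN (code X) (code Y)) (code Y)) (code Y)) (code Y) := by
    rw [← c3]; exact code_add (fun j => X j + Y j + Y j + Y j) Y
  unfold badPair okPair at h
  simp only [Bool.and_eq_false_iff] at h
  rcases h with h | h | h | h | h | h
  · refine pmTiles_of_good s 1 0 ?_ hND
    rw [hdir]
    have := goodC_of_badN X h
    rw [← this]; congr 1; funext j; push_cast; ring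
  · refine pmTiles_of_good s 0 1 ?_ hND
    rw [hdir]
    have := goodC_of_badN Y h
    rw [← this]; congr 1; funext j; push_cast; ring
  · refine pmTiles_of_good s 1 1 ?_ hND
    rw [hdir]
    rw [← c1] at h
    have := goodC_of_badN _ h
    rw [← this]; congr 1; funext j; push_cast; ring
  · refine pmTiles_of_good s 1 2 ?_ hND
    rw [hdir]
    rw [← c2] at h
    have := goodC_of_badN _ h
    rw [← this]; congr 1; funext j; push_cast; ring
  · refine pmTiles_of_good s 1 3 ?_ hND
    rw [hdir]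
    rw [← c3] at h
    have := goodC_of_badN _ h
    rw [← this]; congr 1; funext j; push_cast; ring
  · refine pmTiles_of_good s 1 4 ?_ hND
    rw [hdir]
    rw [← c4] at h
    have := goodC_of_badN _ h
    rw [← this]; congr 1; funext j; push_cast; ring

end Pool.Agent.Lib.MP_dae7ec_co
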