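import Mathlib

set_option autoImplicit false

/-!
Finite classification of five distinct points of the affine plane over the field with five
elements: either some linear functional is injective on them, or up to an affine change of
coordinates and a permutation they form one of five configurations.
-/

namespace Pool.Agent.Lib.MP_dae7ec_co

/-- determinant over F_5 -/
def dz (a b c d : ZMod 5) : ZMod 5 := a * d - b * c

/-- in the affine basis `p 0, p 1, p 2` the points `p 3`, `p 4` have coordinates `(α, β)`, `(γ, δ)` -/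
def cls (A B : Fin 5 → ZMod 5) (p : Fin 5 → Fin 5) (α β γ δ : ZMod 5) : Bool :=
  let a0 := A (p 0); let b0 := B (p 0)
  let a1 := A (p 1) - a0; let b1 := B (p 1) - b0
  let a2 := A (p 2) - a0; let b2 := B (p 2) - b0
  let a3 := A (p 3) - a0; let b3 := B (p 3) - b0
  let a4 := A (p 4) - a0; let b4 := B (p 4) - b0
  let D := dz a1 b1 a2 b2
  decide (D ≠ 0) && decide (dz a3 b3 a2 b2 = D * α) && decide (dz a1 b1 a3 b3 = D * β) &&
    decide (dz a4 b4 a2 b2 = D * γ) && decide (dz a1 b1 a4 b4 = D * δ)

/-- the list of all permutations of five letters, as functions -/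
def perms : List (Fin 5 → Fin 5) :=
  (List.finRange 5).flatMap fun a => (List.finRange 5).flatMap fun b =>
    (List.finRange 5).flatMap fun c => (List.finRange 5).flatMap fun d =>
      (List.finRange 5).filterMap fun e =>
        if (a ≠ b ∧ a ≠ c ∧ a ≠ d ∧ a ≠ e ∧ b ≠ c ∧ b ≠ d ∧ b ≠ e ∧ c ≠ d ∧ c ≠ e ∧ d ≠ e) then
          some ![a, b, c, d, e] else none

theorem perms_inj : ∀ p ∈ perms, Function.Injective p := by
  intro p hp
  simp only [perms, List.mem_flatMap, List.mem_filterMap] at hp
  obtain ⟨a, -, b, -, c, -, d, -, e, -, h⟩ := hp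
  split_ifs at h with h'
  · obtain ⟨h1, h2, h3, h4, h5, h6, h7, h8, h9, h10⟩ := h'
    have hp' : ![a, b, c, d, e] = p := by simpa using h
    rw [← hp']
    intro i j hij
    fin_cases i <;> fin_cases j <;> first
      | rfl
      | exact absurd hij h1
      | exact absurd hij.symm h1
      | exact absurd hij h2
      | exact absurd hij.symm h2
      | exact absurd hij h3
      | exact absurd hij.symm h3
      | exact absurd hij h4
      | exact absurd hij.symm h4
      | exact absurd hij h5
      | exact absurd hij.symm h5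
      | exact absurd hij h6
      | exact absurd hij.symm h6
      | exact absurd hij h7
      | exact absurd hij.symm h7
      | exact absurd hij h8
      | exact absurd hij.symm h8
      | exact absurd hij h9
      | exact absurd hij.symm h9
      | exact absurd hij h10
      | exact absurd hij.symm h10

/-- the functional `x, y` takes all values -/
def injb (A B : Fin 5 → ZMod 5) (x y : ZMod 5) : Bool :=
  decide (∀ r : ZMod 5, ∃ j : Fin 5, x * A j + y * B j = r)

/-- the Boolean check -/
def good (α β γ δ : ZMod 5) : Bool :=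
  let A : Fin 5 → ZMod 5 := ![0, 1, 0, α, γ]
  let B : Fin 5 → ZMod 5 := ![0, 0, 1, β, δ]
  decide ((α, β) = ((0 : ZMod 5), (0 : ZMod 5))) || decide ((α, β) = ((1 : ZMod 5), (0 : ZMod 5))) ||
  decide ((α, β) = ((0 : ZMod 5), (1 : ZMod 5))) || decide ((γ, δ) = ((0 : ZMod 5), (0 : ZMod 5))) ||
  decide ((γ, δ) = ((1 : ZMod 5), (0 : ZMod 5))) || decide ((γ, δ) = ((0 : ZMod 5), (1 : ZMod 5))) ||
  decide ((γ, δ) = (α, β)) ||
  injb A B 1 0 || injb A B 0 1 || injb A B 1 1 || injb A B 1 2 || injb A B 1 3 || injb A B 1 4 ||
  perms.any fun p => cls A B p 0 2 1 2 || cls A B p 0 2 2 1 || cls A B p 0 2 2 4 ||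
    cls A B p 0 2 4 1 || cls A B p 1 1 2 3

end Pool.Agent.Lib.MP_dae7ec_co
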