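import Pool.Agent.Lib.MP_dae7ec_co.Pm

set_option autoImplicit false

/-!
Five-point sets whose points are pairwise incongruent modulo five times a lattice.
-/

namespace Pool.Agent.Lib.MP_dae7ec_co

open Finset

/-- residue data: `phi` changes by `c j` when `s j - s 0` is added -/
def Inc (s : Fin 5 → GaussianInt) (phi : GaussianInt → ZMod 5) (c : Fin 5 → ZMod 5) : Prop :=
  ∀ z j, phi (z + (s j - s 0)) = phi z + c j

theorem Inc.comb {s : Fin 5 → GaussianInt} {phi psi : GaussianInt → ZMod 5} {c e : Fin 5 → ZMod 5}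
    (h : Inc s phi c) (k : Inc s psi e) (x y : ZMod 5) :
    Inc s (fun z => x * phi z + y * psi z) (fun j => x * c j + y * e j) := by
  intro z j
  show x * phi (z + (s j - s 0)) + y * psi (z + (s j - s 0)) = _
  rw [h z j, k z j]; ring

/-- changing the base point and the order of the points -/
theorem Inc.perm {s : Fin 5 → GaussianInt} {phi : GaussianInt → ZMod 5} {c : Fin 5 → ZMod 5}
    (h : Inc s phi c) (σ : Equiv.Perm (Fin 5)) :
    Inc (s ∘ σ) phi (fun j => c (σ j) - c (σ 0)) := by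
  intro z j
  show phi (z + (s (σ j) - s (σ 0))) = _
  have h1 := h z (σ j)
  have h2 := h (z + (s (σ j) - s (σ 0))) (σ 0)
  rw [show z + (s (σ j) - s (σ 0)) + (s (σ 0) - s 0) = z + (s (σ j) - s 0) by ring, h1] at h2
  have h3 : phi (z + (s (σ j) - s (σ 0))) = phi z + c (σ j) - c (σ 0) := by
    rw [h2]; ring
  rw [h3]; ring

theorem pm_inj {s : Fin 5 → GaussianInt} {phi : GaussianInt → ZMod 5} {c : Fin 5 → ZMod 5}
    (h : Inc s phi c) (hc : Function.Injective c) : PmTiles s :=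
  PmTiles.translate (s 0) (pmTiles_inj (fun j => s j - s 0) phi c h hc)

/-- type T1 with an arbitrary order of the points -/
theorem pm_T1 {s : Fin 5 → GaussianInt} {phi : GaussianInt → ZMod 5} {c : Fin 5 → ZMod 5}
    (h : Inc s phi c) (σ : Equiv.Perm (Fin 5)) (b : ZMod 5)
    (h01 : c (σ 0) = c (σ 1)) (hmid : c (σ 2) + c (σ 2) = c (σ 0) + b)
    (h34 : c (σ 3) + c (σ 4) = c (σ 0) + b)
    (hall : ∀ r : ZMod 5, r = c (σ 0) ∨ r = b ∨ r = c (σ 2) ∨ r = c (σ 3) ∨ r = c (σ 4))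
    (f : GaussianInt → Bool) (hd : ∀ z, f (z + (s (σ 1) - s (σ 0))) = !f z)
    (he : ∀ z, f (z + (s (σ 3) + s (σ 4) - 2 * s (σ 2))) = f z) : PmTiles s := by
  refine PmTiles.translate (s 0) (PmTiles.perm σ ?_)
  refine pmTiles_T1 _ phi (fun j => c (σ j)) (fun z j => h z (σ j)) b h01 hmid h34 hall f ?_ ?_
  · intro z
    show f (z + (s (σ 1) - s 0 - (s (σ 0) - s 0))) = !f z
    rw [show s (σ 1) - s 0 - (s (σ 0) - s 0) = s (σ 1) - s (σ 0) by ring]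
    exact hd z
  · intro z
    show f (z + (s (σ 3) - s 0 + (s (σ 4) - s 0) - 2 * (s (σ 2) - s 0))) = f z
    rw [show s (σ 3) - s 0 + (s (σ 4) - s 0) - 2 * (s (σ 2) - s 0)
      = s (σ 3) + s (σ 4) - 2 * s (σ 2) by ring]
    exact he z

/-- type T3 with an arbitrary order of the points -/
theorem pm_T3 {s : Fin 5 → GaussianInt} {phi : GaussianInt → ZMod 5} {c : Fin 5 → ZMod 5}
    (h : Inc s phi c) (σ : Equiv.Perm (Fin 5))
    (h01 : c (σ 0) = c (σ 1)) (h23 : c (σ 2) = c (σ 3)) (h02 : c (σ 0) ≠ c (σ 2))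
    (h04 : c (σ 0) ≠ c (σ 4)) (h24 : c (σ 2) ≠ c (σ 4))
    (hmid : c (σ 0) + c (σ 2) ≠ c (σ 4) + c (σ 4))
    (f : GaussianInt → Bool) (hd : ∀ z, f (z + (s (σ 1) - s (σ 0))) = !f z)
    (he : ∀ z, f (z + (s (σ 3) - s (σ 2))) = !f z) : PmTiles s := by
  refine PmTiles.translate (s 0) (PmTiles.perm σ ?_)
  refine pmTiles_T3 _ phi (fun j => c (σ j)) (fun z j => h z (σ j)) h01 h23 h02 h04 h24 hmid f ?_ ?_
  · intro z
    show f (z + (s (σ 1) - s 0 - (s (σ 0) - s 0))) = !f z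
    rw [show s (σ 1) - s 0 - (s (σ 0) - s 0) = s (σ 1) - s (σ 0) by ring]
    exact hd z
  · intro z
    show f (z + (s (σ 3) - s 0 - (s (σ 2) - s 0))) = !f z
    rw [show s (σ 3) - s 0 - (s (σ 2) - s 0) = s (σ 3) - s (σ 2) by ring]
    exact he z

/-- the condition for a type T1 direction, as one decidable statement -/
def CondT1 (c : Fin 5 → ZMod 5) (σ : Equiv.Perm (Fin 5)) (b : ZMod 5) : Prop :=
  c (σ 0) = c (σ 1) ∧ c (σ 2) + c (σ 2) = c (σ 0) + b ∧ c (σ 3) + c (σ 4) = c (σ 0) + b ∧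
    ∀ r : ZMod 5, r = c (σ 0) ∨ r = b ∨ r = c (σ 2) ∨ r = c (σ 3) ∨ r = c (σ 4)

instance (c : Fin 5 → ZMod 5) (σ : Equiv.Perm (Fin 5)) (b : ZMod 5) : Decidable (CondT1 c σ b) := by
  unfold CondT1; infer_instance

/-- the condition for a type T3 direction -/
def CondT3 (c : Fin 5 → ZMod 5) (σ : Equiv.Perm (Fin 5)) : Prop :=
  c (σ 0) = c (σ 1) ∧ c (σ 2) = c (σ 3) ∧ c (σ 0) ≠ c (σ 2) ∧ c (σ 0) ≠ c (σ 4) ∧
    c (σ 2) ≠ c (σ 4) ∧ c (σ 0) + c (σ 2) ≠ c (σ 4) + c (σ 4)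

instance (c : Fin 5 → ZMod 5) (σ : Equiv.Perm (Fin 5)) : Decidable (CondT3 c σ) := by
  unfold CondT3; infer_instance

theorem T1_det {s : Fin 5 → GaussianInt} {phi : GaussianInt → ZMod 5} {c : Fin 5 → ZMod 5}
    (h : Inc s phi c) (σ : Equiv.Perm (Fin 5)) (b : ZMod 5) (hc : CondT1 c σ b)
    (hn : ¬ PmTiles s) :
    det2 (s (σ 1) - s (σ 0)) (s (σ 3) + s (σ 4) - 2 * s (σ 2)) = 0 := by
  by_contra hdet
  obtain ⟨f, h1, h2⟩ := exists_bit_indep _ _ hdet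
  exact hn (pm_T1 h σ b hc.1 hc.2.1 hc.2.2.1 hc.2.2.2 f h1 h2)

theorem T3_det {s : Fin 5 → GaussianInt} {phi : GaussianInt → ZMod 5} {c : Fin 5 → ZMod 5}
    (h : Inc s phi c) (σ : Equiv.Perm (Fin 5)) (hc : CondT3 c σ)
    (hn : ¬ PmTiles s) :
    det2 (s (σ 1) - s (σ 0)) (s (σ 3) - s (σ 2)) = 0 := by
  by_contra hdet
  obtain ⟨f, h1, h2⟩ := exists_bit_indep' _ _ hdet
  exact hn (pm_T3 h σ hc.1 hc.2.1 hc.2.2.1 hc.2.2.2.1 hc.2.2.2.2.1 hc.2.2.2.2.2 f h1 h2)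

/-- a function flipping along a nonzero vector -/
theorem exists_flip (d : GaussianInt) (hd : d ≠ 0) : ∃ f : GaussianInt → Bool, ∀ z, f (z + d) = !f z := by
  have h : det2 d (⟨-d.im, d.re⟩ : GaussianInt) ≠ 0 := by
    simp only [det2]
    intro h0
    apply hd
    have h1 : d.re ^ 2 + d.im ^ 2 = 0 := by linarith [h0, sq d.re, sq d.im]
    have h2 : d.re = 0 := by nlinarith [sq_nonneg d.re, sq_nonneg d.im]
    have h3 : d.im = 0 := by nlinarith [sq_nonneg d.re, sq_nonneg d.im]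
    exact Zsqrtd.ext h2 h3
  obtain ⟨f, h1, -⟩ := exists_bit_indep d _ h
  exact ⟨f, h1⟩

/-- type T1 with `e = -2 d` -/
theorem T1_minus_two {s : Fin 5 → GaussianInt} {phi : GaussianInt → ZMod 5} {c : Fin 5 → ZMod 5}
    (h : Inc s phi c) (σ : Equiv.Perm (Fin 5)) (b : ZMod 5) (hc : CondT1 c σ b)
    (hd : s (σ 1) - s (σ 0) ≠ 0)
    (he : s (σ 3) + s (σ 4) - 2 * s (σ 2) = -2 * (s (σ 1) - s (σ 0))) : PmTiles s := by
  obtain ⟨f, h1⟩ := exists_flip _ hd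
  refine pm_T1 h σ b hc.1 hc.2.1 hc.2.2.1 hc.2.2.2 f h1 ?_
  intro z
  rw [he]
  have e1 := h1 (z + -2 * (s (σ 1) - s (σ 0)))
  have e2 := h1 (z + -2 * (s (σ 1) - s (σ 0)) + (s (σ 1) - s (σ 0)))
  rw [show z + -2 * (s (σ 1) - s (σ 0)) + (s (σ 1) - s (σ 0)) + (s (σ 1) - s (σ 0)) = z by ring,
    e1, Bool.not_not] at e2
  exact e2.symm

/-- type T1 with `e = 0` -/
theorem T1_zero {s : Fin 5 → GaussianInt} {phi : GaussianInt → ZMod 5} {c : Fin 5 → ZMod 5}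
    (h : Inc s phi c) (σ : Equiv.Perm (Fin 5)) (b : ZMod 5) (hc : CondT1 c σ b)
    (hd : s (σ 1) - s (σ 0) ≠ 0)
    (he : s (σ 3) + s (σ 4) - 2 * s (σ 2) = 0) : PmTiles s := by
  obtain ⟨f, h1⟩ := exists_flip _ hd
  refine pm_T1 h σ b hc.1 hc.2.1 hc.2.2.1 hc.2.2.2 f h1 ?_
  intro z
  rw [he, add_zero]

/-- determinants of the difference vectors -/
def dd (s : Fin 5 → GaussianInt) (i j : Fin 5) : ℤ := det2 (s i - s 0) (s j - s 0)

theorem plucker (s : Fin 5 → GaussianInt) :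
    dd s 1 2 * dd s 3 4 - dd s 1 3 * dd s 2 4 + dd s 1 4 * dd s 2 3 = 0 := by
  simp only [dd, det2, Zsqrtd.re_sub, Zsqrtd.im_sub]; ring

/-- the sets not covered by translates of `s` and `-s` -/
def Exc (s : Fin 5 → GaussianInt) : Prop :=
  ∃ (σ : Equiv.Perm (Fin 5)) (p A B : GaussianInt), s (σ 0) = p ∧ s (σ 1) = p + 3 * A ∧
    s (σ 2) = p + B ∧ s (σ 3) = p + B + A ∧ s (σ 4) = p + B + 2 * A

/-- a vector orthogonal (for the determinant) to two independent vectors vanishes -/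
theorem eq_zero_of_det (u v w : GaussianInt) (huv : det2 u v ≠ 0) (h1 : det2 u w = 0)
    (h2 : det2 v w = 0) : w = 0 := by
  simp only [det2] at huv h1 h2
  have h3 : (u.re * v.im - u.im * v.re) * w.re = 0 := by
    linear_combination v.re * h1 - u.re * h2
  have h4 : (u.re * v.im - u.im * v.re) * w.im = 0 := by
    linear_combination v.im * h1 - u.im * h2
  exact Zsqrtd.ext ((mul_eq_zero.mp h3).resolve_left huv) ((mul_eq_zero.mp h4).resolve_left huv)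

section classes


variable {s : Fin 5 → GaussianInt} {X Y : GaussianInt → ZMod 5}

/-- a permutation from explicit functions -/
def mkp (f g : Fin 5 → Fin 5) (h : ∀ i, g (f i) = i) (k : ∀ i, f (g i) = i) :
    Equiv.Perm (Fin 5) := ⟨f, g, h, k⟩

theorem class1 (hX : Inc s X ![0, 1, 0, 0, 1]) (hY : Inc s Y ![0, 0, 1, 2, 2])
    (h24 : dd s 2 4 ≠ 0) (hn : ¬ PmTiles s) : Exc s := by
  have e1 := T1_det (hX.comb hY 1 1) (mkp ![1, 2, 0, 3, 4] ![2, 0, 1, 3, 4] (by decide) (by decide))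
    4 (by decide) hn
  have e2 := T1_det (hX.comb hY 1 2) (mkp ![0, 4, 3, 1, 2] ![0, 3, 4, 2, 1] (by decide) (by decide))
    3 (by decide) hn
  have e3 := T1_det (hX.comb hY 1 3) (mkp ![1, 3, 0, 2, 4] ![2, 0, 3, 1, 4] (by decide) (by decide))
    4 (by decide) hn
  have e4 := T1_det (hX.comb hY 1 4) (mkp ![2, 4, 3, 0, 1] ![3, 4, 0, 2, 1] (by decide) (by decide))
    2 (by decide) hn
  have pl := plucker s
  change det2 (s 2 - s 1) (s 3 + s 4 - 2 * s 0) = 0 at e1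
  change det2 (s 4 - s 0) (s 1 + s 2 - 2 * s 3) = 0 at e2
  change det2 (s 3 - s 1) (s 2 + s 4 - 2 * s 0) = 0 at e3
  change det2 (s 4 - s 2) (s 0 + s 1 - 2 * s 3) = 0 at e4
  have f1 : -dd s 1 3 - dd s 1 4 + dd s 2 3 + dd s 2 4 = 0 := by
    rw [← e1]
    simp only [dd, det2, Zsqrtd.re_sub, Zsqrtd.im_sub, Zsqrtd.re_add, Zsqrtd.im_add,
      Zsqrtd.re_mul, Zsqrtd.im_mul, Zsqrtd.re_ofNat, Zsqrtd.im_ofNat]
    ring
  have f2 : -dd s 1 4 - dd s 2 4 + 2 * dd s 3 4 = 0 := by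
    rw [← e2]
    simp only [dd, det2, Zsqrtd.re_sub, Zsqrtd.im_sub, Zsqrtd.re_add, Zsqrtd.im_add,
      Zsqrtd.re_mul, Zsqrtd.im_mul, Zsqrtd.re_ofNat, Zsqrtd.im_ofNat]
    ring
  have f3 : -dd s 1 2 - dd s 1 4 - dd s 2 3 + dd s 3 4 = 0 := by
    rw [← e3]
    simp only [dd, det2, Zsqrtd.re_sub, Zsqrtd.im_sub, Zsqrtd.re_add, Zsqrtd.im_add,
      Zsqrtd.re_mul, Zsqrtd.im_mul, Zsqrtd.re_ofNat, Zsqrtd.im_ofNat]
    ring
  have f4 : dd s 1 2 - dd s 1 4 + 2 * dd s 2 3 + 2 * dd s 3 4 = 0 := by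
    rw [← e4]
    simp only [dd, det2, Zsqrtd.re_sub, Zsqrtd.im_sub, Zsqrtd.re_add, Zsqrtd.im_add,
      Zsqrtd.re_mul, Zsqrtd.im_mul, Zsqrtd.re_ofNat, Zsqrtd.im_ofNat]
    ring
  have g12 : dd s 1 2 = 3 * dd s 2 4 - 2 * dd s 3 4 := by linarith
  have g13 : dd s 1 3 = -dd s 3 4 := by linarith
  have g14 : dd s 1 4 = -dd s 2 4 + 2 * dd s 3 4 := by linarith
  have g23 : dd s 2 3 = -2 * dd s 2 4 + dd s 3 4 := by linarith
  have q : dd s 2 4 * (2 * dd s 2 4 - dd s 3 4) = 0 := by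
    rw [g12, g13, g14, g23] at pl
    linear_combination pl
  have q1 : dd s 3 4 = 2 * dd s 2 4 := by
    have := (mul_eq_zero.mp q).resolve_left h24
    linarith
  have h12 : dd s 1 2 ≠ 0 := by rw [g12, q1]; intro h; apply h24; linarith
  have w1 : s 3 - s 0 - 2 * (s 2 - s 0) = 0 := by
    refine eq_zero_of_det (s 1 - s 0) (s 2 - s 0) _ h12 ?_ ?_
    · have : det2 (s 1 - s 0) (s 3 - s 0 - 2 * (s 2 - s 0)) = dd s 1 3 - 2 * dd s 1 2 := by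
        simp only [dd, det2, Zsqrtd.re_sub, Zsqrtd.im_sub, Zsqrtd.re_add, Zsqrtd.im_add,
          Zsqrtd.re_mul, Zsqrtd.im_mul, Zsqrtd.re_ofNat, Zsqrtd.im_ofNat]
        ring
      rw [this, g13, g12, q1]; ring
    · have : det2 (s 2 - s 0) (s 3 - s 0 - 2 * (s 2 - s 0)) = dd s 2 3 := by
        simp only [dd, det2, Zsqrtd.re_sub, Zsqrtd.im_sub, Zsqrtd.re_add, Zsqrtd.im_add,
          Zsqrtd.re_mul, Zsqrtd.im_mul, Zsqrtd.re_ofNat, Zsqrtd.im_ofNat]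
        ring
      rw [this, g23, q1]; ring
  have w2 : s 4 - s 0 - (s 1 - s 0) + 3 * (s 2 - s 0) = 0 := by
    refine eq_zero_of_det (s 1 - s 0) (s 2 - s 0) _ h12 ?_ ?_
    · have : det2 (s 1 - s 0) (s 4 - s 0 - (s 1 - s 0) + 3 * (s 2 - s 0))
          = dd s 1 4 + 3 * dd s 1 2 := by
        simp only [dd, det2, Zsqrtd.re_sub, Zsqrtd.im_sub, Zsqrtd.re_add, Zsqrtd.im_add,
          Zsqrtd.re_mul, Zsqrtd.im_mul, Zsqrtd.re_ofNat, Zsqrtd.im_ofNat]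
        ring
      rw [this, g14, g12, q1]; ring
    · have : det2 (s 2 - s 0) (s 4 - s 0 - (s 1 - s 0) + 3 * (s 2 - s 0))
          = dd s 2 4 + dd s 1 2 := by
        simp only [dd, det2, Zsqrtd.re_sub, Zsqrtd.im_sub, Zsqrtd.re_add, Zsqrtd.im_add,
          Zsqrtd.re_mul, Zsqrtd.im_mul, Zsqrtd.re_ofNat, Zsqrtd.im_ofNat]
        ring
      rw [this, g12, q1]; ring
  refine ⟨mkp ![4, 1, 0, 2, 3] ![2, 1, 3, 4, 0] (by decide) (by decide), s 4, s 2 - s 0,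
    s 0 - s 4, rfl, ?_, ?_, ?_, ?_⟩
  · change s 1 = s 4 + 3 * (s 2 - s 0)
    linear_combination -w2
  · change s 0 = s 4 + (s 0 - s 4)
    ring
  · change s 2 = s 4 + (s 0 - s 4) + (s 2 - s 0)
    ring
  · change s 3 = s 4 + (s 0 - s 4) + 2 * (s 2 - s 0)
    linear_combination w1

theorem class2 (hX : Inc s X ![0, 1, 0, 0, 2]) (hY : Inc s Y ![0, 0, 1, 2, 1])
    (h34 : dd s 3 4 ≠ 0) : PmTiles s := by
  by_contra hn
  have e1 := T1_det (hX.comb hY 1 1) (mkp ![1, 2, 0, 3, 4] ![2, 0, 1, 3, 4] (by decide) (by decide))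
    4 (by decide) hn
  have e2 := T1_det (hX.comb hY 1 2) (mkp ![3, 4, 1, 0, 2] ![3, 2, 4, 0, 1] (by decide) (by decide))
    3 (by decide) hn
  have e3 := T1_det (hX.comb hY 1 4) (mkp ![1, 4, 2, 0, 3] ![3, 0, 2, 4, 1] (by decide) (by decide))
    2 (by decide) hn
  have e4 := T3_det (hX.comb hY 0 1) (mkp ![0, 1, 2, 4, 3] ![0, 1, 2, 4, 3] (by decide) (by decide))
    (by decide) hn
  have pl := plucker s
  change det2 (s 2 - s 1) (s 3 + s 4 - 2 * s 0) = 0 at e1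
  change det2 (s 4 - s 3) (s 0 + s 2 - 2 * s 1) = 0 at e2
  change det2 (s 4 - s 1) (s 0 + s 3 - 2 * s 2) = 0 at e3
  change det2 (s 1 - s 0) (s 4 - s 2) = 0 at e4
  have f1 : -dd s 1 3 - dd s 1 4 + dd s 2 3 + dd s 2 4 = 0 := by
    rw [← e1]
    simp only [dd, det2, Zsqrtd.re_sub, Zsqrtd.im_sub, Zsqrtd.re_add, Zsqrtd.im_add,
      Zsqrtd.re_mul, Zsqrtd.im_mul, Zsqrtd.re_ofNat, Zsqrtd.im_ofNat]
    ring
  have f2 : -2 * dd s 1 3 + 2 * dd s 1 4 + dd s 2 3 - dd s 2 4 = 0 := by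
    rw [← e2]
    simp only [dd, det2, Zsqrtd.re_sub, Zsqrtd.im_sub, Zsqrtd.re_add, Zsqrtd.im_add,
      Zsqrtd.re_mul, Zsqrtd.im_mul, Zsqrtd.re_ofNat, Zsqrtd.im_ofNat]
    ring
  have f3 : 2 * dd s 1 2 - dd s 1 3 + 2 * dd s 2 4 - dd s 3 4 = 0 := by
    rw [← e3]
    simp only [dd, det2, Zsqrtd.re_sub, Zsqrtd.im_sub, Zsqrtd.re_add, Zsqrtd.im_add,
      Zsqrtd.re_mul, Zsqrtd.im_mul, Zsqrtd.re_ofNat, Zsqrtd.im_ofNat]
    ring
  have f4 : -dd s 1 2 + dd s 1 4 = 0 := by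
    rw [← e4]
    simp only [dd, det2, Zsqrtd.re_sub, Zsqrtd.im_sub, Zsqrtd.re_add, Zsqrtd.im_add,
      Zsqrtd.re_mul, Zsqrtd.im_mul, Zsqrtd.re_ofNat, Zsqrtd.im_ofNat]
    ring
  have g12 : dd s 1 2 = 4 * dd s 2 4 - dd s 3 4 := by linarith
  have g13 : dd s 1 3 = 10 * dd s 2 4 - 3 * dd s 3 4 := by linarith
  have g14 : dd s 1 4 = 4 * dd s 2 4 - dd s 3 4 := by linarith
  have g23 : dd s 2 3 = 13 * dd s 2 4 - 4 * dd s 3 4 := by linarith
  have q : (3 * dd s 3 4 - 11 * dd s 2 4) ^ 2 + 5 * dd s 2 4 ^ 2 = 0 := by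
    rw [g12, g13, g14, g23] at pl
    linear_combination 3 * pl
  have q1 : dd s 2 4 = 0 := by nlinarith [sq_nonneg (3 * dd s 3 4 - 11 * dd s 2 4), sq_nonneg (dd s 2 4)]
  apply h34
  rw [q1] at q
  nlinarith [sq_nonneg (dd s 3 4)]

theorem class3 (hX : Inc s X ![0, 1, 0, 0, 2]) (hY : Inc s Y ![0, 0, 1, 2, 4])
    (h34 : dd s 3 4 ≠ 0) : PmTiles s := by
  by_contra hn
  have e1 := T1_det (hX.comb hY 1 2) (mkp ![0, 4, 3, 1, 2] ![0, 3, 4, 2, 1] (by decide) (by decide))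
    3 (by decide) hn
  have e2 := T1_det (hX.comb hY 1 3) (mkp ![1, 3, 4, 0, 2] ![3, 0, 4, 1, 2] (by decide) (by decide))
    2 (by decide) hn
  have e3 := T1_det (hX.comb hY 1 4) (mkp ![3, 4, 0, 1, 2] ![2, 3, 4, 0, 1] (by decide) (by decide))
    2 (by decide) hn
  have e4 := T1_det (hX.comb hY 0 1) (mkp ![0, 1, 4, 2, 3] ![0, 1, 3, 4, 2] (by decide) (by decide))
    3 (by decide) hn
  have pl := plucker s
  change det2 (s 4 - s 0) (s 1 + s 2 - 2 * s 3) = 0 at e1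
  change det2 (s 3 - s 1) (s 0 + s 2 - 2 * s 4) = 0 at e2
  change det2 (s 4 - s 3) (s 1 + s 2 - 2 * s 0) = 0 at e3
  change det2 (s 1 - s 0) (s 2 + s 3 - 2 * s 4) = 0 at e4
  have f1 : -dd s 1 4 - dd s 2 4 + 2 * dd s 3 4 = 0 := by
    rw [← e1]
    simp only [dd, det2, Zsqrtd.re_sub, Zsqrtd.im_sub, Zsqrtd.re_add, Zsqrtd.im_add,
      Zsqrtd.re_mul, Zsqrtd.im_mul, Zsqrtd.re_ofNat, Zsqrtd.im_ofNat]
    ring
  have f2 : -dd s 1 2 + 2 * dd s 1 4 - dd s 2 3 - 2 * dd s 3 4 = 0 := by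
    rw [← e2]
    simp only [dd, det2, Zsqrtd.re_sub, Zsqrtd.im_sub, Zsqrtd.re_add, Zsqrtd.im_add,
      Zsqrtd.re_mul, Zsqrtd.im_mul, Zsqrtd.re_ofNat, Zsqrtd.im_ofNat]
    ring
  have f3 : dd s 1 3 - dd s 1 4 + dd s 2 3 - dd s 2 4 = 0 := by
    rw [← e3]
    simp only [dd, det2, Zsqrtd.re_sub, Zsqrtd.im_sub, Zsqrtd.re_add, Zsqrtd.im_add,
      Zsqrtd.re_mul, Zsqrtd.im_mul, Zsqrtd.re_ofNat, Zsqrtd.im_ofNat]
    ring
  have f4 : dd s 1 2 + dd s 1 3 - 2 * dd s 1 4 = 0 := by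
    rw [← e4]
    simp only [dd, det2, Zsqrtd.re_sub, Zsqrtd.im_sub, Zsqrtd.re_add, Zsqrtd.im_add,
      Zsqrtd.re_mul, Zsqrtd.im_mul, Zsqrtd.re_ofNat, Zsqrtd.im_ofNat]
    ring
  have g12 : dd s 1 2 = -2 * dd s 2 4 + 2 * dd s 3 4 := by linarith
  have g13 : dd s 1 3 = 2 * dd s 3 4 := by linarith
  have g14 : dd s 1 4 = -dd s 2 4 + 2 * dd s 3 4 := by linarith
  have g23 : dd s 2 3 = 0 := by linarith
  have q : dd s 3 4 * (dd s 3 4 - 2 * dd s 2 4) = 0 := by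
    rw [g12, g13, g14, g23] at pl
    have : 2 * (dd s 3 4 * (dd s 3 4 - 2 * dd s 2 4)) = 0 := by linear_combination pl
    linarith
  have q1 : dd s 3 4 = 2 * dd s 2 4 := by
    have := (mul_eq_zero.mp q).resolve_left h34
    linarith
  have h24 : dd s 2 4 ≠ 0 := by intro h; apply h34; rw [q1, h]; rfl
  have h12 : dd s 1 2 ≠ 0 := by rw [g12, q1]; intro h; apply h24; linarith
  have w : s 1 + s 2 - 2 * s 3 + 2 * (s 4 - s 0) = 0 := by
    refine eq_zero_of_det (s 1 - s 0) (s 2 - s 0) _ h12 ?_ ?_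
    · have : det2 (s 1 - s 0) (s 1 + s 2 - 2 * s 3 + 2 * (s 4 - s 0))
          = dd s 1 2 - 2 * dd s 1 3 + 2 * dd s 1 4 := by
        simp only [dd, det2, Zsqrtd.re_sub, Zsqrtd.im_sub, Zsqrtd.re_add, Zsqrtd.im_add,
          Zsqrtd.re_mul, Zsqrtd.im_mul, Zsqrtd.re_ofNat, Zsqrtd.im_ofNat]
        ring
      rw [this, g12, g13, g14, q1]; ring
    · have : det2 (s 2 - s 0) (s 1 + s 2 - 2 * s 3 + 2 * (s 4 - s 0))
          = -dd s 1 2 - 2 * dd s 2 3 + 2 * dd s 2 4 := by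
        simp only [dd, det2, Zsqrtd.re_sub, Zsqrtd.im_sub, Zsqrtd.re_add, Zsqrtd.im_add,
          Zsqrtd.re_mul, Zsqrtd.im_mul, Zsqrtd.re_ofNat, Zsqrtd.im_ofNat]
        ring
      rw [this, g12, g23, q1]; ring
  apply hn
  refine T1_minus_two (hX.comb hY 1 2)
    (mkp ![0, 4, 3, 1, 2] ![0, 3, 4, 2, 1] (by decide) (by decide)) 3 (by decide) ?_ ?_
  · change s 4 - s 0 ≠ 0
    intro h
    apply h34
    simp only [dd, h, det2, Zsqrtd.re_zero, Zsqrtd.im_zero, mul_zero, sub_zero]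
  · change s 1 + s 2 - 2 * s 3 = -2 * (s 4 - s 0)
    linear_combination w

theorem class4 (hX : Inc s X ![0, 1, 0, 0, 4]) (hY : Inc s Y ![0, 0, 1, 2, 1])
    (h24 : dd s 2 4 ≠ 0) : PmTiles s := by
  by_contra hn
  have e1 := T1_det (hX.comb hY 1 2) (mkp ![1, 4, 2, 0, 3] ![3, 0, 2, 4, 1] (by decide) (by decide))
    3 (by decide) hn
  have e2 := T1_det (hX.comb hY 1 3) (mkp ![1, 3, 0, 2, 4] ![2, 0, 3, 1, 4] (by decide) (by decide))
    4 (by decide) hn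
  have e3 := T1_det (hX.comb hY 1 4) (mkp ![3, 4, 0, 1, 2] ![2, 3, 4, 0, 1] (by decide) (by decide))
    2 (by decide) hn
  have e4 := T3_det (hX.comb hY 1 1) (mkp ![0, 4, 1, 2, 3] ![0, 2, 3, 4, 1] (by decide) (by decide))
    (by decide) hn
  have e5 := T3_det (hX.comb hY 0 1) (mkp ![0, 1, 2, 4, 3] ![0, 1, 2, 4, 3] (by decide) (by decide))
    (by decide) hn
  have pl := plucker s
  change det2 (s 4 - s 1) (s 0 + s 3 - 2 * s 2) = 0 at e1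
  change det2 (s 3 - s 1) (s 2 + s 4 - 2 * s 0) = 0 at e2
  change det2 (s 4 - s 3) (s 1 + s 2 - 2 * s 0) = 0 at e3
  change det2 (s 4 - s 0) (s 2 - s 1) = 0 at e4
  change det2 (s 1 - s 0) (s 4 - s 2) = 0 at e5
  have f1 : 2 * dd s 1 2 - dd s 1 3 + 2 * dd s 2 4 - dd s 3 4 = 0 := by
    rw [← e1]
    simp only [dd, det2, Zsqrtd.re_sub, Zsqrtd.im_sub, Zsqrtd.re_add, Zsqrtd.im_add,
      Zsqrtd.re_mul, Zsqrtd.im_mul, Zsqrtd.re_ofNat, Zsqrtd.im_ofNat]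
    ring
  have f2 : -dd s 1 2 - dd s 1 4 - dd s 2 3 + dd s 3 4 = 0 := by
    rw [← e2]
    simp only [dd, det2, Zsqrtd.re_sub, Zsqrtd.im_sub, Zsqrtd.re_add, Zsqrtd.im_add,
      Zsqrtd.re_mul, Zsqrtd.im_mul, Zsqrtd.re_ofNat, Zsqrtd.im_ofNat]
    ring
  have f3 : dd s 1 3 - dd s 1 4 + dd s 2 3 - dd s 2 4 = 0 := by
    rw [← e3]
    simp only [dd, det2, Zsqrtd.re_sub, Zsqrtd.im_sub, Zsqrtd.re_add, Zsqrtd.im_add,
      Zsqrtd.re_mul, Zsqrtd.im_mul, Zsqrtd.re_ofNat, Zsqrtd.im_ofNat]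
    ring
  have f4 : dd s 1 4 - dd s 2 4 = 0 := by
    rw [← e4]
    simp only [dd, det2, Zsqrtd.re_sub, Zsqrtd.im_sub, Zsqrtd.re_add, Zsqrtd.im_add,
      Zsqrtd.re_mul, Zsqrtd.im_mul, Zsqrtd.re_ofNat, Zsqrtd.im_ofNat]
    ring
  have f5 : -dd s 1 2 + dd s 1 4 = 0 := by
    rw [← e5]
    simp only [dd, det2, Zsqrtd.re_sub, Zsqrtd.im_sub, Zsqrtd.re_add, Zsqrtd.im_add,
      Zsqrtd.re_mul, Zsqrtd.im_mul, Zsqrtd.re_ofNat, Zsqrtd.im_ofNat]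
    ring
  have g12 : dd s 1 2 = dd s 2 4 := by linarith
  have g13 : dd s 1 3 = 4 * dd s 2 4 - dd s 3 4 := by linarith
  have g14 : dd s 1 4 = dd s 2 4 := by linarith
  have g23 : dd s 2 3 = -2 * dd s 2 4 + dd s 3 4 := by linarith
  have q : dd s 2 4 * (dd s 3 4 - 2 * dd s 2 4) = 0 := by
    rw [g12, g13, g14, g23] at pl
    have : 3 * (dd s 2 4 * (dd s 3 4 - 2 * dd s 2 4)) = 0 := by linear_combination pl
    linarith
  have q1 : dd s 3 4 = 2 * dd s 2 4 := by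
    have := (mul_eq_zero.mp q).resolve_left h24
    linarith
  have h12 : dd s 1 2 ≠ 0 := by rw [g12]; exact h24
  have w : s 0 + s 3 - 2 * s 2 = 0 := by
    refine eq_zero_of_det (s 1 - s 0) (s 2 - s 0) _ h12 ?_ ?_
    · have : det2 (s 1 - s 0) (s 0 + s 3 - 2 * s 2) = dd s 1 3 - 2 * dd s 1 2 := by
        simp only [dd, det2, Zsqrtd.re_sub, Zsqrtd.im_sub, Zsqrtd.re_add, Zsqrtd.im_add,
          Zsqrtd.re_mul, Zsqrtd.im_mul, Zsqrtd.re_ofNat, Zsqrtd.im_ofNat]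
        ring
      rw [this, g12, g13, q1]; ring
    · have : det2 (s 2 - s 0) (s 0 + s 3 - 2 * s 2) = dd s 2 3 := by
        simp only [dd, det2, Zsqrtd.re_sub, Zsqrtd.im_sub, Zsqrtd.re_add, Zsqrtd.im_add,
          Zsqrtd.re_mul, Zsqrtd.im_mul, Zsqrtd.re_ofNat, Zsqrtd.im_ofNat]
        ring
      rw [this, g23, q1]; ring
  apply hn
  refine T1_zero (hX.comb hY 1 2)
    (mkp ![1, 4, 2, 0, 3] ![3, 0, 2, 4, 1] (by decide) (by decide)) 3 (by decide) ?_ w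
  change s 4 - s 1 ≠ 0
  intro h
  have h' : s 4 = s 1 := sub_eq_zero.mp h
  apply h24
  have h5 : dd s 1 4 = 0 := by simp only [dd, h', det2]; ring
  rw [← g14, h5]

theorem class5 (hX : Inc s X ![0, 1, 0, 1, 2]) (hY : Inc s Y ![0, 0, 1, 1, 3])
    (h34 : dd s 3 4 ≠ 0) (hne : dd s 2 4 - dd s 3 4 ≠ 0) : PmTiles s := by
  by_contra hn
  have e1 := T1_det (hX.comb hY 1 2) (mkp ![3, 4, 1, 0, 2] ![3, 2, 4, 0, 1] (by decide) (by decide))
    4 (by decide) hn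
  have e2 := T1_det (hX.comb hY 1 3) (mkp ![1, 4, 3, 0, 2] ![3, 0, 4, 2, 1] (by decide) (by decide))
    2 (by decide) hn
  have e3 := T3_det (hX.comb hY 1 0) (mkp ![0, 2, 1, 3, 4] ![0, 2, 1, 3, 4] (by decide) (by decide))
    (by decide) hn
  have e4 := T3_det (hX.comb hY 1 1) (mkp ![0, 4, 1, 2, 3] ![0, 2, 3, 4, 1] (by decide) (by decide))
    (by decide) hn
  have e5 := T3_det (hX.comb hY 1 4) (mkp ![0, 3, 2, 4, 1] ![0, 4, 2, 1, 3] (by decide) (by decide))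
    (by decide) hn
  have pl := plucker s
  change det2 (s 4 - s 3) (s 0 + s 2 - 2 * s 1) = 0 at e1
  change det2 (s 4 - s 1) (s 0 + s 2 - 2 * s 3) = 0 at e2
  change det2 (s 2 - s 0) (s 3 - s 1) = 0 at e3
  change det2 (s 4 - s 0) (s 2 - s 1) = 0 at e4
  change det2 (s 3 - s 0) (s 4 - s 2) = 0 at e5
  have f1 : -2 * dd s 1 3 + 2 * dd s 1 4 + dd s 2 3 - dd s 2 4 = 0 := by
    rw [← e1]
    simp only [dd, det2, Zsqrtd.re_sub, Zsqrtd.im_sub, Zsqrtd.re_add, Zsqrtd.im_add,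
      Zsqrtd.re_mul, Zsqrtd.im_mul, Zsqrtd.re_ofNat, Zsqrtd.im_ofNat]
    ring
  have f2 : -dd s 1 2 + 2 * dd s 1 3 - dd s 2 4 + 2 * dd s 3 4 = 0 := by
    rw [← e2]
    simp only [dd, det2, Zsqrtd.re_sub, Zsqrtd.im_sub, Zsqrtd.re_add, Zsqrtd.im_add,
      Zsqrtd.re_mul, Zsqrtd.im_mul, Zsqrtd.re_ofNat, Zsqrtd.im_ofNat]
    ring
  have f3 : dd s 1 2 + dd s 2 3 = 0 := by
    rw [← e3]
    simp only [dd, det2, Zsqrtd.re_sub, Zsqrtd.im_sub, Zsqrtd.re_add, Zsqrtd.im_add,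
      Zsqrtd.re_mul, Zsqrtd.im_mul, Zsqrtd.re_ofNat, Zsqrtd.im_ofNat]
    ring
  have f4 : dd s 1 4 - dd s 2 4 = 0 := by
    rw [← e4]
    simp only [dd, det2, Zsqrtd.re_sub, Zsqrtd.im_sub, Zsqrtd.re_add, Zsqrtd.im_add,
      Zsqrtd.re_mul, Zsqrtd.im_mul, Zsqrtd.re_ofNat, Zsqrtd.im_ofNat]
    ring
  have f5 : dd s 2 3 + dd s 3 4 = 0 := by
    rw [← e5]
    simp only [dd, det2, Zsqrtd.re_sub, Zsqrtd.im_sub, Zsqrtd.re_add, Zsqrtd.im_add,
      Zsqrtd.re_mul, Zsqrtd.im_mul, Zsqrtd.re_ofNat, Zsqrtd.im_ofNat]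
    ring
  have g12 : dd s 1 2 = dd s 3 4 := by linarith
  have g13 : 2 * dd s 1 3 = dd s 2 4 - dd s 3 4 := by linarith
  have g14 : dd s 1 4 = dd s 2 4 := by linarith
  have g23 : dd s 2 3 = -dd s 3 4 := by linarith
  have q : (dd s 2 4 - dd s 3 4) * (dd s 2 4 + 2 * dd s 3 4) = 0 := by
    rw [g12, g14, g23] at pl
    linear_combination -2 * pl - dd s 2 4 * g13
  have q1 : dd s 2 4 = -2 * dd s 3 4 := by
    have := (mul_eq_zero.mp q).resolve_left hne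
    linarith
  have h12 : dd s 1 2 ≠ 0 := by rw [g12]; exact h34
  have w : s 0 + s 2 - 2 * s 1 + 2 * (s 4 - s 3) = 0 := by
    refine eq_zero_of_det (s 1 - s 0) (s 2 - s 0) _ h12 ?_ ?_
    · have : det2 (s 1 - s 0) (s 0 + s 2 - 2 * s 1 + 2 * (s 4 - s 3))
          = dd s 1 2 + 2 * dd s 1 4 - 2 * dd s 1 3 := by
        simp only [dd, det2, Zsqrtd.re_sub, Zsqrtd.im_sub, Zsqrtd.re_add, Zsqrtd.im_add,
          Zsqrtd.re_mul, Zsqrtd.im_mul, Zsqrtd.re_ofNat, Zsqrtd.im_ofNat]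
        ring
      rw [this, g13, g12, g14, q1]; ring
    · have : det2 (s 2 - s 0) (s 0 + s 2 - 2 * s 1 + 2 * (s 4 - s 3))
          = 2 * dd s 1 2 + 2 * dd s 2 4 - 2 * dd s 2 3 := by
        simp only [dd, det2, Zsqrtd.re_sub, Zsqrtd.im_sub, Zsqrtd.re_add, Zsqrtd.im_add,
          Zsqrtd.re_mul, Zsqrtd.im_mul, Zsqrtd.re_ofNat, Zsqrtd.im_ofNat]
        ring
      rw [this, g12, g23, q1]; ring
  apply hn
  refine T1_minus_two (hX.comb hY 1 2)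
    (mkp ![3, 4, 1, 0, 2] ![3, 2, 4, 0, 1] (by decide) (by decide)) 4 (by decide) ?_ ?_
  · change s 4 - s 3 ≠ 0
    intro h
    have h' : s 4 = s 3 := sub_eq_zero.mp h
    apply h34
    simp only [dd, h', det2]; ring
  · change s 0 + s 2 - 2 * s 1 = -2 * (s 4 - s 3)
    linear_combination w

end classes

theorem Exc.perm {s : Fin 5 → GaussianInt} (σ : Equiv.Perm (Fin 5)) (h : Exc (s ∘ σ)) : Exc s := by
  obtain ⟨τ, p, A, B, h0, h1, h2, h3, h4⟩ := h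
  exact ⟨τ.trans σ, p, A, B, h0, h1, h2, h3, h4⟩

theorem inc_zsmul {X : GaussianInt → ZMod 5} {p : GaussianInt} {c : ZMod 5}
    (h : ∀ z, X (z + p) = X z + c) (m : ℤ) : ∀ z, X (z + (m : GaussianInt) * p) = X z + m * c := by
  induction m using Int.induction_on with
  | zero => intro z; simp
  | succ k ih =>
    intro z
    rw [show z + ((k + 1 : ℤ) : GaussianInt) * p = z + ((k : ℤ) : GaussianInt) * p + p by
      push_cast; ring, h, ih]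
    push_cast; ring
  | pred k ih =>
    intro z
    have h1 := h (z + ((-(k : ℤ) - 1 : ℤ) : GaussianInt) * p)
    rw [show z + ((-(k : ℤ) - 1 : ℤ) : GaussianInt) * p + p = z + ((-(k : ℤ) : ℤ) : GaussianInt) * p by
      push_cast; ring, ih] at h1
    have h2 : X (z + ((-(k : ℤ) - 1 : ℤ) : GaussianInt) * p) = X z + ((-(k : ℤ) : ℤ) : ZMod 5) * c - c := by
      rw [h1]; ring
    rw [h2]
    push_cast; ring

/-- vectors whose increments are independent modulo five are independent -/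
theorem det_ne_zero_of_inc {X Y : GaussianInt → ZMod 5} {p q : GaussianInt} {xp yp xq yq : ZMod 5}
    (h1 : ∀ z, X (z + p) = X z + xp) (h2 : ∀ z, Y (z + p) = Y z + yp)
    (h3 : ∀ z, X (z + q) = X z + xq) (h4 : ∀ z, Y (z + q) = Y z + yq)
    (hd : xp * yq - yp * xq ≠ 0) : det2 p q ≠ 0 := by
  have h01 : (0 : ZMod 5) ≠ 1 := by decide
  intro hdet
  -- integers `m n`, not both zero, with `m p = n q`
  have key : ∀ m n : ℤ, (m ≠ 0 ∨ n ≠ 0) → m * p.re = n * q.re → m * p.im = n * q.im → False := by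
    intro m0 n0 hmn hre him
    obtain ⟨g, m, n, hg, hcop, hm, hn⟩ : ∃ g m n : ℤ, g ≠ 0 ∧ IsCoprime m n ∧ m0 = g * m ∧ n0 = g * n := by
      have hg : (Int.gcd m0 n0 : ℤ) ≠ 0 := by
        intro h
        have h' : Int.gcd m0 n0 = 0 := by exact_mod_cast h
        rw [Int.gcd_eq_zero_iff] at h'
        rcases hmn with h1 | h1
        · exact h1 h'.1
        · exact h1 h'.2
      refine ⟨Int.gcd m0 n0, m0 / Int.gcd m0 n0, n0 / Int.gcd m0 n0, hg, ?_, ?_, ?_⟩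
      · rw [Int.isCoprime_iff_gcd_eq_one]
        exact Int.gcd_div_gcd_div_gcd (Nat.pos_of_ne_zero (by exact_mod_cast hg))
      · exact (Int.mul_ediv_cancel' (Int.gcd_dvd_left _ _)).symm
      · exact (Int.mul_ediv_cancel' (Int.gcd_dvd_right _ _)).symm
    have hre' : m * p.re = n * q.re := by
      rw [hm, hn] at hre
      exact mul_left_cancel₀ hg (by linarith [hre, mul_assoc g m p.re, mul_assoc g n q.re])
    have him' : m * p.im = n * q.im := by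
      rw [hm, hn] at him
      exact mul_left_cancel₀ hg (by linarith [him, mul_assoc g m p.im, mul_assoc g n q.im])
    have heq : (m : GaussianInt) * p = (n : GaussianInt) * q := by
      apply Zsqrtd.ext
      · simp only [Zsqrtd.re_mul, Zsqrtd.re_intCast, Zsqrtd.im_intCast]
        linarith
      · simp only [Zsqrtd.im_mul, Zsqrtd.re_intCast, Zsqrtd.im_intCast]
        linarith
    have a1 := inc_zsmul h1 m 0
    have a2 := inc_zsmul h2 m 0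
    have a3 := inc_zsmul h3 n 0
    have a4 := inc_zsmul h4 n 0
    rw [heq, a3] at a1
    rw [heq, a4] at a2
    have b1 : (n : ZMod 5) * xq = m * xp := add_left_cancel a1
    have b2 : (n : ZMod 5) * yq = m * yp := add_left_cancel a2
    have c1 : (m : ZMod 5) * (xp * yq - yp * xq) = 0 := by
      linear_combination -yq * b1 + xq * b2
    have c2 : (n : ZMod 5) * (xp * yq - yp * xq) = 0 := by
      linear_combination xp * b2 - yp * b1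
    have hfact : Fact (Nat.Prime 5) := ⟨by norm_num⟩
    have d1 := (mul_eq_zero.mp c1).resolve_right hd
    have d2 := (mul_eq_zero.mp c2).resolve_right hd
    obtain ⟨x, y, hxy⟩ := hcop
    have : ((x * m + y * n : ℤ) : ZMod 5) = ((1 : ℤ) : ZMod 5) := by rw [hxy]
    push_cast at this
    rw [d1, d2, mul_zero, mul_zero, add_zero] at this
    exact h01 this
  simp only [det2] at hdet
  by_cases hq1 : q.re = 0
  · by_cases hq2 : q.im = 0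
    · exact key 0 1 (Or.inr one_ne_zero) (by rw [hq1]; ring) (by rw [hq2]; ring)
    · exact key q.im p.im (Or.inl hq2) (by linarith) (by ring)
  · exact key q.re p.re (Or.inl hq1) (by ring) (by linarith)

/-- choice of an affine basis of the residues -/
theorem rebase {s : Fin 5 → GaussianInt} {X Y : GaussianInt → ZMod 5} {A B : Fin 5 → ZMod 5}
    (hX : Inc s X A) (hY : Inc s Y B) (σ : Equiv.Perm (Fin 5)) (α β γ δ : ZMod 5)
    (hD : (A (σ 1) - A (σ 0)) * (B (σ 2) - B (σ 0)) - (B (σ 1) - B (σ 0)) * (A (σ 2) - A (σ 0)) ≠ 0)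
    (h1 : (A (σ 3) - A (σ 0)) * (B (σ 2) - B (σ 0)) - (B (σ 3) - B (σ 0)) * (A (σ 2) - A (σ 0)) =
      ((A (σ 1) - A (σ 0)) * (B (σ 2) - B (σ 0)) - (B (σ 1) - B (σ 0)) * (A (σ 2) - A (σ 0))) * α)
    (h2 : (A (σ 1) - A (σ 0)) * (B (σ 3) - B (σ 0)) - (B (σ 1) - B (σ 0)) * (A (σ 3) - A (σ 0)) =
      ((A (σ 1) - A (σ 0)) * (B (σ 2) - B (σ 0)) - (B (σ 1) - B (σ 0)) * (A (σ 2) - A (σ 0))) * β)
    (h3 : (A (σ 4) - A (σ 0)) * (B (σ 2) - B (σ 0)) - (B (σ 4) - B (σ 0)) * (A (σ 2) - A (σ 0)) =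
      ((A (σ 1) - A (σ 0)) * (B (σ 2) - B (σ 0)) - (B (σ 1) - B (σ 0)) * (A (σ 2) - A (σ 0))) * γ)
    (h4 : (A (σ 1) - A (σ 0)) * (B (σ 4) - B (σ 0)) - (B (σ 1) - B (σ 0)) * (A (σ 4) - A (σ 0)) =
      ((A (σ 1) - A (σ 0)) * (B (σ 2) - B (σ 0)) - (B (σ 1) - B (σ 0)) * (A (σ 2) - A (σ 0))) * δ) :
    ∃ X' Y' : GaussianInt → ZMod 5, Inc (s ∘ σ) X' ![0, 1, 0, α, γ] ∧
      Inc (s ∘ σ) Y' ![0, 0, 1, β, δ] := by
  have hfact : Fact (Nat.Prime 5) := ⟨by norm_num⟩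
  set D := (A (σ 1) - A (σ 0)) * (B (σ 2) - B (σ 0)) - (B (σ 1) - B (σ 0)) * (A (σ 2) - A (σ 0))
    with hDdef
  have kX := (hX.perm σ).comb (hY.perm σ) (D⁻¹ * (B (σ 2) - B (σ 0))) (-(D⁻¹ * (A (σ 2) - A (σ 0))))
  have kY := (hX.perm σ).comb (hY.perm σ) (-(D⁻¹ * (B (σ 1) - B (σ 0)))) (D⁻¹ * (A (σ 1) - A (σ 0)))
  have hinv : D⁻¹ * D = 1 := inv_mul_cancel₀ hD
  refine ⟨fun z => D⁻¹ * (B (σ 2) - B (σ 0)) * X z + -(D⁻¹ * (A (σ 2) - A (σ 0))) * Y z,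
    fun z => -(D⁻¹ * (B (σ 1) - B (σ 0))) * X z + D⁻¹ * (A (σ 1) - A (σ 0)) * Y z, ?_, ?_⟩
  · intro z j
    rw [kX z j]
    congr 1
    fin_cases j
    · show D⁻¹ * (B (σ 2) - B (σ 0)) * (A (σ 0) - A (σ 0)) +
        -(D⁻¹ * (A (σ 2) - A (σ 0))) * (B (σ 0) - B (σ 0)) = 0
      ring
    · show D⁻¹ * (B (σ 2) - B (σ 0)) * (A (σ 1) - A (σ 0)) +
        -(D⁻¹ * (A (σ 2) - A (σ 0))) * (B (σ 1) - B (σ 0)) = 1
      rw [← hinv]; rw [hDdef]; ring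
    · show D⁻¹ * (B (σ 2) - B (σ 0)) * (A (σ 2) - A (σ 0)) +
        -(D⁻¹ * (A (σ 2) - A (σ 0))) * (B (σ 2) - B (σ 0)) = 0
      ring
    · show D⁻¹ * (B (σ 2) - B (σ 0)) * (A (σ 3) - A (σ 0)) +
        -(D⁻¹ * (A (σ 2) - A (σ 0))) * (B (σ 3) - B (σ 0)) = α
      linear_combination D⁻¹ * h1 + α * hinv
    · show D⁻¹ * (B (σ 2) - B (σ 0)) * (A (σ 4) - A (σ 0)) +
        -(D⁻¹ * (A (σ 2) - A (σ 0))) * (B (σ 4) - B (σ 0)) = γ
      linear_combination D⁻¹ * h3 + γ * hinv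
  · intro z j
    rw [kY z j]
    congr 1
    fin_cases j
    · show -(D⁻¹ * (B (σ 1) - B (σ 0))) * (A (σ 0) - A (σ 0)) +
        (D⁻¹ * (A (σ 1) - A (σ 0))) * (B (σ 0) - B (σ 0)) = 0
      ring
    · show -(D⁻¹ * (B (σ 1) - B (σ 0))) * (A (σ 1) - A (σ 0)) +
        (D⁻¹ * (A (σ 1) - A (σ 0))) * (B (σ 1) - B (σ 0)) = 0
      ring
    · show -(D⁻¹ * (B (σ 1) - B (σ 0))) * (A (σ 2) - A (σ 0)) +
        (D⁻¹ * (A (σ 1) - A (σ 0))) * (B (σ 2) - B (σ 0)) = 1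
      rw [← hinv]; rw [hDdef]; ring
    · show -(D⁻¹ * (B (σ 1) - B (σ 0))) * (A (σ 3) - A (σ 0)) +
        (D⁻¹ * (A (σ 1) - A (σ 0))) * (B (σ 3) - B (σ 0)) = β
      linear_combination D⁻¹ * h2 + β * hinv
    · show -(D⁻¹ * (B (σ 1) - B (σ 0))) * (A (σ 4) - A (σ 0)) +
        (D⁻¹ * (A (σ 1) - A (σ 0))) * (B (σ 4) - B (σ 0)) = δ
      linear_combination D⁻¹ * h4 + δ * hinv

end Pool.Agent.Lib.MP_dae7ec_co
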