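import Pool.Agent.Lib.MP_dae7ec_co.InjBase

set_option autoImplicit false

/-!
Finite classification of five distinct points of the plane over F_5: part 4 of the check.
-/

namespace Pool.Agent.Lib.MP_dae7ec_co

theorem all_good4 : ∀ β γ δ : ZMod 5, good 4 β γ δ = true := by decide +kernel

end Pool.Agent.Lib.MP_dae7ec_co
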