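import Pool.Agent.Lib.MP_dae7ec_co.InjT0
import Pool.Agent.Lib.MP_dae7ec_co.InjT1
import Pool.Agent.Lib.MP_dae7ec_co.InjT2
import Pool.Agent.Lib.MP_dae7ec_co.InjT3
import Pool.Agent.Lib.MP_dae7ec_co.InjT4

set_option autoImplicit false

/-!
Finite classification of five distinct points of the affine plane over the field with five
elements: either some linear functional is injective on them, or up to an affine change of
coordinates and a permutation they form one of five configurations.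
-/

namespace Pool.Agent.Lib.MP_dae7ec_co

theorem all_good : ∀ α β γ δ : ZMod 5, good α β γ δ = true := by
  have h5 : ∀ α : ZMod 5, α = 0 ∨ α = 1 ∨ α = 2 ∨ α = 3 ∨ α = 4 := by decide
  intro α
  rcases h5 α with rfl | rfl | rfl | rfl | rfl
  · exact all_good0
  · exact all_good1
  · exact all_good2
  · exact all_good3
  · exact all_good4

/-- the same as a proposition -/
def Cls (A B : Fin 5 → ZMod 5) (p : Fin 5 → Fin 5) (α β γ δ : ZMod 5) : Prop :=
  (A (p 1) - A (p 0)) * (B (p 2) - B (p 0)) - (B (p 1) - B (p 0)) * (A (p 2) - A (p 0)) ≠ 0 ∧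
  (A (p 3) - A (p 0)) * (B (p 2) - B (p 0)) - (B (p 3) - B (p 0)) * (A (p 2) - A (p 0)) =
    ((A (p 1) - A (p 0)) * (B (p 2) - B (p 0)) - (B (p 1) - B (p 0)) * (A (p 2) - A (p 0))) * α ∧
  (A (p 1) - A (p 0)) * (B (p 3) - B (p 0)) - (B (p 1) - B (p 0)) * (A (p 3) - A (p 0)) =
    ((A (p 1) - A (p 0)) * (B (p 2) - B (p 0)) - (B (p 1) - B (p 0)) * (A (p 2) - A (p 0))) * β ∧
  (A (p 4) - A (p 0)) * (B (p 2) - B (p 0)) - (B (p 4) - B (p 0)) * (A (p 2) - A (p 0)) =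
    ((A (p 1) - A (p 0)) * (B (p 2) - B (p 0)) - (B (p 1) - B (p 0)) * (A (p 2) - A (p 0))) * γ ∧
  (A (p 1) - A (p 0)) * (B (p 4) - B (p 0)) - (B (p 1) - B (p 0)) * (A (p 4) - A (p 0)) =
    ((A (p 1) - A (p 0)) * (B (p 2) - B (p 0)) - (B (p 1) - B (p 0)) * (A (p 2) - A (p 0))) * δ

theorem cls_iff {A B : Fin 5 → ZMod 5} {p : Fin 5 → Fin 5} {α β γ δ : ZMod 5}
    (h : cls A B p α β γ δ = true) : Cls A B p α β γ δ := by
  simp only [cls, Bool.and_eq_true, dz] at h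
  exact ⟨of_decide_eq_true h.1.1.1.1, of_decide_eq_true h.1.1.1.2, of_decide_eq_true h.1.1.2,
    of_decide_eq_true h.1.2, of_decide_eq_true h.2⟩

theorem injb_iff {A B : Fin 5 → ZMod 5} {x y : ZMod 5} (h : injb A B x y = true) :
    Function.Injective (fun j => x * A j + y * B j) := by
  have h' : Function.Surjective (fun j => x * A j + y * B j) := fun r => of_decide_eq_true h r
  have : Function.Bijective (fun j => x * A j + y * B j) := by
    rw [Fintype.bijective_iff_surjective_and_card]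
    exact ⟨h', by simp [ZMod.card]⟩
  exact this.1

theorem table (α β γ δ : ZMod 5)
    (hinj : ∀ i j : Fin 5, (![0, 1, 0, α, γ] : Fin 5 → ZMod 5) i = (![0, 1, 0, α, γ] : Fin 5 → ZMod 5) j →
      (![0, 0, 1, β, δ] : Fin 5 → ZMod 5) i = (![0, 0, 1, β, δ] : Fin 5 → ZMod 5) j → i = j) :
    (∃ x y : ZMod 5, Function.Injective (fun j : Fin 5 => x * (![0, 1, 0, α, γ] : Fin 5 → ZMod 5) j
      + y * (![0, 0, 1, β, δ] : Fin 5 → ZMod 5) j)) ∨
    (∃ p : Fin 5 → Fin 5, Function.Injective p ∧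
      (Cls ![0, 1, 0, α, γ] ![0, 0, 1, β, δ] p 0 2 1 2 ∨
       Cls ![0, 1, 0, α, γ] ![0, 0, 1, β, δ] p 0 2 2 1 ∨
       Cls ![0, 1, 0, α, γ] ![0, 0, 1, β, δ] p 0 2 2 4 ∨
       Cls ![0, 1, 0, α, γ] ![0, 0, 1, β, δ] p 0 2 4 1 ∨
       Cls ![0, 1, 0, α, γ] ![0, 0, 1, β, δ] p 1 1 2 3)) := by
  have h := all_good α β γ δ
  simp only [good, Bool.or_eq_true, List.any_eq_true, decide_eq_true_eq, Prod.mk.injEq] at h
  rcases h with ((((((((((((h | h) | h) | h) | h) | h) | h) | h) | h) | h) | h) | h) | h) | h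
  · exact absurd (hinj 3 0 h.1 h.2) (by decide)
  · exact absurd (hinj 3 1 h.1 h.2) (by decide)
  · exact absurd (hinj 3 2 h.1 h.2) (by decide)
  · exact absurd (hinj 4 0 h.1 h.2) (by decide)
  · exact absurd (hinj 4 1 h.1 h.2) (by decide)
  · exact absurd (hinj 4 2 h.1 h.2) (by decide)
  · exact absurd (hinj 4 3 h.1 h.2) (by decide)
  · exact Or.inl ⟨1, 0, injb_iff h⟩
  · exact Or.inl ⟨0, 1, injb_iff h⟩
  · exact Or.inl ⟨1, 1, injb_iff h⟩
  · exact Or.inl ⟨1, 2, injb_iff h⟩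
  · exact Or.inl ⟨1, 3, injb_iff h⟩
  · exact Or.inl ⟨1, 4, injb_iff h⟩
  · obtain ⟨p, hp, h⟩ := h
    refine Or.inr ⟨p, perms_inj p hp, ?_⟩
    rcases h with (((h | h) | h) | h) | h
    · exact Or.inl (cls_iff h)
    · exact Or.inr (Or.inl (cls_iff h))
    · exact Or.inr (Or.inr (Or.inl (cls_iff h)))
    · exact Or.inr (Or.inr (Or.inr (Or.inl (cls_iff h))))
    · exact Or.inr (Or.inr (Or.inr (Or.inr (cls_iff h))))

end Pool.Agent.Lib.MP_dae7ec_co
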