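import Pool.Agent.Lib.MP_dae7ec_co.InjFive
import Pool.Agent.Lib.MP_dae7ec_co.InjTable

set_option autoImplicit false

/-!
Main theorem: labelled five-point sets with pairwise different residues in `(ZMod 5)^2`.
-/

namespace Pool.Agent.Lib.MP_dae7ec_co

open Finset

theorem inc_zero {s : Fin 5 → GaussianInt} {X : GaussianInt → ZMod 5} {A : Fin 5 → ZMod 5}
    (h : Inc s X A) : A 0 = 0 := by
  have := h 0 0
  rw [sub_self, add_zero] at this
  have h2 : X 0 + 0 = X 0 + A 0 := by rw [add_zero]; exact this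
  exact (add_left_cancel h2).symm

theorem inc_sub {s : Fin 5 → GaussianInt} {X : GaussianInt → ZMod 5} {A : Fin 5 → ZMod 5}
    (h : Inc s X A) (i j : Fin 5) : ∀ z, X (z + (s i - s j)) = X z + (A i - A j) := by
  intro z
  have h1 := h (z + (s i - s j)) j
  rw [show z + (s i - s j) + (s j - s 0) = z + (s i - s 0) by ring, h z i] at h1
  rw [eq_sub_of_add_eq h1.symm]; ring

/-- the five exceptional classes -/
theorem of_cls {s : Fin 5 → GaussianInt} {X Y : GaussianInt → ZMod 5} {A B : Fin 5 → ZMod 5}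
    (hX : Inc s X A) (hY : Inc s Y B) (p : Fin 5 → Fin 5) (hp : Function.Injective p)
    (h : Cls A B p 0 2 1 2 ∨ Cls A B p 0 2 2 1 ∨ Cls A B p 0 2 2 4 ∨ Cls A B p 0 2 4 1 ∨
      Cls A B p 1 1 2 3) : PmTiles s ∨ Exc s := by
  have hbij : Function.Bijective p := by
    rw [Fintype.bijective_iff_injective_and_card]
    exact ⟨hp, rfl⟩
  let σ : Equiv.Perm (Fin 5) := Equiv.ofBijective p hbij
  have key : ∀ {X' Y' : GaussianInt → ZMod 5} {c e : Fin 5 → ZMod 5}, Inc (s ∘ σ) X' c →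
      Inc (s ∘ σ) Y' e → ∀ i j : Fin 5, c i * e j - e i * c j ≠ 0 → dd (s ∘ σ) i j ≠ 0 := by
    intro X' Y' c e h1 h2 i j hij
    exact det_ne_zero_of_inc (fun z => h1 z i) (fun z => h2 z i) (fun z => h1 z j)
      (fun z => h2 z j) hij
  rcases h with h | h | h | h | h
  · obtain ⟨X', Y', h1, h2⟩ := rebase hX hY σ _ _ _ _ h.1 h.2.1 h.2.2.1 h.2.2.2.1 h.2.2.2.2
    by_cases hn : PmTiles (s ∘ σ)
    · exact Or.inl (PmTiles.perm σ hn)
    · exact Or.inr (Exc.perm σ (class1 h1 h2 (key h1 h2 2 4 (by decide)) hn))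
  · obtain ⟨X', Y', h1, h2⟩ := rebase hX hY σ _ _ _ _ h.1 h.2.1 h.2.2.1 h.2.2.2.1 h.2.2.2.2
    exact Or.inl (PmTiles.perm σ (class2 h1 h2 (key h1 h2 3 4 (by decide))))
  · obtain ⟨X', Y', h1, h2⟩ := rebase hX hY σ _ _ _ _ h.1 h.2.1 h.2.2.1 h.2.2.2.1 h.2.2.2.2
    exact Or.inl (PmTiles.perm σ (class3 h1 h2 (key h1 h2 3 4 (by decide))))
  · obtain ⟨X', Y', h1, h2⟩ := rebase hX hY σ _ _ _ _ h.1 h.2.1 h.2.2.1 h.2.2.2.1 h.2.2.2.2
    exact Or.inl (PmTiles.perm σ (class4 h1 h2 (key h1 h2 2 4 (by decide))))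
  · obtain ⟨X', Y', h1, h2⟩ := rebase hX hY σ _ _ _ _ h.1 h.2.1 h.2.2.1 h.2.2.2.1 h.2.2.2.2
    refine Or.inl (PmTiles.perm σ (class5 h1 h2 (key h1 h2 3 4 (by decide)) ?_))
    -- the combination `dd 2 4 - dd 3 4`
    have h5 : det2 ((s ∘ σ) 2 - (s ∘ σ) 3) ((s ∘ σ) 4 - (s ∘ σ) 0) ≠ 0 :=
      det_ne_zero_of_inc (inc_sub h1 2 3) (inc_sub h2 2 3) (inc_sub h1 4 0) (inc_sub h2 4 0)
        (by decide)
    intro h6
    apply h5
    rw [← h6]
    simp only [dd, det2, Zsqrtd.re_sub, Zsqrtd.im_sub]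
    ring

theorem exists_perm : ∀ i j : Fin 5, i ≠ 0 → j ≠ 0 → i ≠ j →
    ∃ σ : Equiv.Perm (Fin 5), σ 0 = 0 ∧ σ 1 = i ∧ σ 2 = j := by decide +kernel

/-- Points with pairwise different residues: translates of `s` and `-s` tile, or the set is
exceptional. -/
theorem pm_or_exc {s : Fin 5 → GaussianInt} {X Y : GaussianInt → ZMod 5} {A B : Fin 5 → ZMod 5}
    (hX : Inc s X A) (hY : Inc s Y B) (hinj : ∀ i j, A i = A j → B i = B j → i = j) :
    PmTiles s ∨ Exc s := by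
  have hfact : Fact (Nat.Prime 5) := ⟨by norm_num⟩
  have hA0 := inc_zero hX
  have hB0 := inc_zero hY
  by_cases hall : ∀ i j : Fin 5, A i * B j - B i * A j = 0
  · -- all residues on a line
    left
    have h1 : A 1 ≠ 0 ∨ B 1 ≠ 0 := by
      by_contra h
      push Not at h
      exact absurd (hinj 1 0 (by rw [h.1, hA0]) (by rw [h.2, hB0])) (by decide)
    rcases h1 with h1 | h1
    · refine pm_inj (hX.comb hY 1 0) ?_
      intro i j hij
      have hij' : A i = A j := by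
        have : 1 * A i + 0 * B i = 1 * A j + 0 * B j := hij
        linear_combination this
      refine hinj i j hij' ?_
      have e1 := hall 1 i
      have e2 := hall 1 j
      have : A 1 * (B i - B j) = 0 := by
        linear_combination e1 - e2 + B 1 * hij'
      exact sub_eq_zero.mp ((mul_eq_zero.mp this).resolve_left h1)
    · refine pm_inj (hX.comb hY 0 1) ?_
      intro i j hij
      have hij' : B i = B j := by
        have : 0 * A i + 1 * B i = 0 * A j + 1 * B j := hij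
        linear_combination this
      refine hinj i j ?_ hij'
      have e1 := hall 1 i
      have e2 := hall 1 j
      have : B 1 * (A i - A j) = 0 := by
        linear_combination e2 - e1 + A 1 * hij'
      exact sub_eq_zero.mp ((mul_eq_zero.mp this).resolve_left h1)
  · push Not at hall
    obtain ⟨i, j, hij⟩ := hall
    -- a permutation with `0 ↦ 0, 1 ↦ i, 2 ↦ j`
    have hi0 : i ≠ 0 := by rintro rfl; apply hij; rw [hA0, hB0]; ring
    have hj0 : j ≠ 0 := by rintro rfl; apply hij; rw [hA0, hB0]; ring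
    have hne : i ≠ j := by rintro rfl; apply hij; ring
    obtain ⟨σ, h0, h1, h2⟩ := exists_perm i j hi0 hj0 hne
    have hD : (A (σ 1) - A (σ 0)) * (B (σ 2) - B (σ 0)) - (B (σ 1) - B (σ 0)) * (A (σ 2) - A (σ 0))
        ≠ 0 := by
      rw [h0, h1, h2, hA0, hB0]
      simpa using hij
    set D := (A (σ 1) - A (σ 0)) * (B (σ 2) - B (σ 0)) - (B (σ 1) - B (σ 0)) * (A (σ 2) - A (σ 0))
      with hDdef
    have hDi : D * D⁻¹ = 1 := mul_inv_cancel₀ hD
    set a1 := A (σ 1) - A (σ 0) with ha1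
    set b1 := B (σ 1) - B (σ 0) with hb1
    set a2 := A (σ 2) - A (σ 0) with ha2
    set b2 := B (σ 2) - B (σ 0) with hb2
    obtain ⟨α, hα⟩ : ∃ α, α = D⁻¹ * ((A (σ 3) - A (σ 0)) * b2 - (B (σ 3) - B (σ 0)) * a2) := ⟨_, rfl⟩
    obtain ⟨β, hβ⟩ : ∃ β, β = D⁻¹ * (a1 * (B (σ 3) - B (σ 0)) - b1 * (A (σ 3) - A (σ 0))) := ⟨_, rfl⟩
    obtain ⟨γ, hγ⟩ : ∃ γ, γ = D⁻¹ * ((A (σ 4) - A (σ 0)) * b2 - (B (σ 4) - B (σ 0)) * a2) := ⟨_, rfl⟩
    obtain ⟨δ, hδ⟩ : ∃ δ, δ = D⁻¹ * (a1 * (B (σ 4) - B (σ 0)) - b1 * (A (σ 4) - A (σ 0))) := ⟨_, rfl⟩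
    have kα : (A (σ 3) - A (σ 0)) * b2 - (B (σ 3) - B (σ 0)) * a2 = D * α := by
      rw [hα, ← mul_assoc, hDi, one_mul]
    have kβ : a1 * (B (σ 3) - B (σ 0)) - b1 * (A (σ 3) - A (σ 0)) = D * β := by
      rw [hβ, ← mul_assoc, hDi, one_mul]
    have kγ : (A (σ 4) - A (σ 0)) * b2 - (B (σ 4) - B (σ 0)) * a2 = D * γ := by
      rw [hγ, ← mul_assoc, hDi, one_mul]
    have kδ : a1 * (B (σ 4) - B (σ 0)) - b1 * (A (σ 4) - A (σ 0)) = D * δ := by
      rw [hδ, ← mul_assoc, hDi, one_mul]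
    obtain ⟨X', Y', hX', hY'⟩ := rebase hX hY σ α β γ δ hD kα kβ kγ kδ
    have hcA : ∀ k : Fin 5, D * (A (σ k) - A (σ 0)) =
        D * ((![0, 1, 0, α, γ] : Fin 5 → ZMod 5) k * a1 + (![0, 0, 1, β, δ] : Fin 5 → ZMod 5) k * a2) := by
      intro k
      fin_cases k
      · show D * (A (σ 0) - A (σ 0)) = D * (0 * a1 + 0 * a2)
        ring
      · show D * (A (σ 1) - A (σ 0)) = D * (1 * a1 + 0 * a2)
        rw [ha1]; ring
      · show D * (A (σ 2) - A (σ 0)) = D * (0 * a1 + 1 * a2)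
        rw [ha2]; ring
      · show D * (A (σ 3) - A (σ 0)) = D * (α * a1 + β * a2)
        linear_combination a1 * kα + a2 * kβ + (A (σ 3) - A (σ 0)) * hDdef
      · show D * (A (σ 4) - A (σ 0)) = D * (γ * a1 + δ * a2)
        linear_combination a1 * kγ + a2 * kδ + (A (σ 4) - A (σ 0)) * hDdef
    have hcB : ∀ k : Fin 5, D * (B (σ k) - B (σ 0)) =
        D * ((![0, 1, 0, α, γ] : Fin 5 → ZMod 5) k * b1 + (![0, 0, 1, β, δ] : Fin 5 → ZMod 5) k * b2) := by
      intro k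
      fin_cases k
      · show D * (B (σ 0) - B (σ 0)) = D * (0 * b1 + 0 * b2)
        ring
      · show D * (B (σ 1) - B (σ 0)) = D * (1 * b1 + 0 * b2)
        rw [hb1]; ring
      · show D * (B (σ 2) - B (σ 0)) = D * (0 * b1 + 1 * b2)
        rw [hb2]; ring
      · show D * (B (σ 3) - B (σ 0)) = D * (α * b1 + β * b2)
        linear_combination b1 * kα + b2 * kβ + (B (σ 3) - B (σ 0)) * hDdef
      · show D * (B (σ 4) - B (σ 0)) = D * (γ * b1 + δ * b2)
        linear_combination b1 * kγ + b2 * kδ + (B (σ 4) - B (σ 0)) * hDdef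
    have hinj' : ∀ i j : Fin 5,
        (![0, 1, 0, α, γ] : Fin 5 → ZMod 5) i = (![0, 1, 0, α, γ] : Fin 5 → ZMod 5) j →
        (![0, 0, 1, β, δ] : Fin 5 → ZMod 5) i = (![0, 0, 1, β, δ] : Fin 5 → ZMod 5) j → i = j := by
      intro k l h3 h4
      apply σ.injective
      have e1 := mul_left_cancel₀ hD (hcA k)
      have e2 := mul_left_cancel₀ hD (hcA l)
      have e3 := mul_left_cancel₀ hD (hcB k)
      have e4 := mul_left_cancel₀ hD (hcB l)
      rw [h3, h4, ← e2] at e1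
      rw [h3, h4, ← e4] at e3
      exact hinj _ _ (sub_left_injective e1) (sub_left_injective e3)
    rcases table α β γ δ hinj' with ⟨x, y, hxy⟩ | ⟨p, hp, h⟩
    · exact Or.inl (PmTiles.perm σ (pm_inj (hX'.comb hY' x y) hxy))
    · rcases of_cls hX' hY' p hp h with h5 | h5
      · exact Or.inl (PmTiles.perm σ h5)
      · exact Or.inr (Exc.perm σ h5)

end Pool.Agent.Lib.MP_dae7ec_co
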