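import Pool.Agent.Lib.MP_dae7ec_co.TableCa
import Pool.Agent.Lib.MP_dae7ec_co.TableCb

set_option autoImplicit false

/-!
The table of certificates for the residues (0, 0, 1, 1, 3) modulo five.
-/

namespace Pool.Agent.Lib.MP_dae7ec_co

theorem chkC : chk3 keysC tausC exC 8 permL levL witC = true :=
  chk3_split 16 levL witC chkC0 chkC1

theorem keysC_lt : ∀ K ∈ keysC, ∀ x ∈ K, x.1 < 5 ∧ x.2.1 < 5 ∧ x.1 ≠ x.2.1 := by decide +kernel

theorem tableC : TableOK ![0, 0, 1, 1, 3] keysC tausC exC where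
  keyOK := okC
  chk := ⟨8, witC, chkC⟩
  hkey := keysC_lt
  htau := by decide
  htau2 := by decide
  hlab := by decide
  hex := by decide

end Pool.Agent.Lib.MP_dae7ec_co
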