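import Pool.Agent.Lib.MP_dae7ec_co.TableA
import Pool.Agent.Lib.MP_dae7ec_co.TableB
import Pool.Agent.Lib.MP_dae7ec_co.TableC

set_option autoImplicit false

/-!
Five integers, as points of a line in the plane.
-/

namespace Pool.Agent.Lib.MP_dae7ec_co

open Finset

/-- three of the integers are congruent modulo five -/
def Trip (t : Fin 5 → ℤ) : Prop :=
  ∃ i j k : Fin 5, i ≠ j ∧ i ≠ k ∧ j ≠ k ∧ (5 : ℤ) ∣ t i - t j ∧ (5 : ℤ) ∣ t i - t k

/-- two pairs and their midpoint modulo five, and one of the three groups is separated first from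
the other points, 2-adically -/
def MidExc (t : Fin 5 → ℤ) : Prop :=
  ∃ σ : Equiv.Perm (Fin 5), (5 : ℤ) ∣ t (σ 1) - t (σ 0) ∧ (5 : ℤ) ∣ t (σ 3) - t (σ 2) ∧
    (5 : ℤ) ∣ 2 * t (σ 4) - t (σ 0) - t (σ 2) ∧ ∃ k : ℕ,
      ((2 : ℤ) ^ k ∣ t (σ 1) - t (σ 0) ∧ (2 : ℤ) ^ k ∣ t (σ 2) - t (σ 0) ∧
        (2 : ℤ) ^ k ∣ t (σ 3) - t (σ 0) ∧ ¬ (2 : ℤ) ^ k ∣ t (σ 4) - t (σ 0)) ∨
      ((2 : ℤ) ^ k ∣ t (σ 1) - t (σ 0) ∧ (2 : ℤ) ^ k ∣ t (σ 3) - t (σ 2) ∧
        (2 : ℤ) ^ k ∣ t (σ 4) - t (σ 2) ∧ ¬ (2 : ℤ) ^ k ∣ t (σ 2) - t (σ 0))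

/-- the conclusion -/
def Good (t : Fin 5 → ℤ) : Prop := IntTiles t ∨ Trip t ∨ MidExc t

theorem Good.perm {t : Fin 5 → ℤ} (σ : Equiv.Perm (Fin 5)) (h : Good (t ∘ σ)) : Good t := by
  rcases h with h | ⟨i, j, k, h1, h2, h3, h4, h5⟩ | ⟨τ, h⟩
  · exact Or.inl (IntTiles.perm σ h)
  · exact Or.inr (Or.inl ⟨σ i, σ j, σ k, fun h => h1 (σ.injective h), fun h => h2 (σ.injective h),
      fun h => h3 (σ.injective h), h4, h5⟩)
  · exact Or.inr (Or.inr ⟨τ.trans σ, h⟩)

theorem dvd_of_le_val {z : ℤ} {k : ℕ} (h : k ≤ val z) : (2 : ℤ) ^ k ∣ z := by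
  by_cases hz : z = 0
  · rw [hz]; exact dvd_zero _
  · obtain ⟨n, hn⟩ := val_spec hz
    rw [hn]
    exact Dvd.dvd.mul_right (pow_dvd_pow 2 h) _

theorem not_dvd_val {z : ℤ} (hz : z ≠ 0) : ¬ (2 : ℤ) ^ (val z + 1) ∣ z := by
  intro h
  obtain ⟨n, hn⟩ := val_spec hz
  obtain ⟨m, hm⟩ := h
  have h1 : (2 : ℤ) ^ val z * (2 * n + 1) = 2 ^ val z * (2 * m) := by
    rw [← hn, ← mul_assoc, ← pow_succ]
    exact hm
  have h2 := mul_left_cancel₀ (pow_ne_zero _ (two_ne_zero)) h1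
  omega

theorem intTiles_of_distinct {t : Fin 5 → ℤ} (h : ∀ i j, (5 : ℤ) ∣ t i - t j → i = j) :
    IntTiles t := by
  have hinj : Function.Injective fun i => ((t i : ℤ) : ZMod 5) := by
    intro i j hij
    apply h
    have : ((t i - t j : ℤ) : ZMod 5) = 0 := by push_cast; exact sub_eq_zero.mpr hij
    exact (ZMod.intCast_zmod_eq_zero_iff_dvd _ 5).mp this
  have hsurj : Function.Surjective fun i => ((t i : ℤ) : ZMod 5) := by
    have : Function.Bijective fun i => ((t i : ℤ) : ZMod 5) := by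
      rw [Fintype.bijective_iff_injective_and_card]
      exact ⟨hinj, by simp [ZMod.card]⟩
    exact this.2
  refine ⟨fun k z => decide (k = 0) && decide ((z.re : ZMod 5) = 0), fun w => ?_⟩
  obtain ⟨i, hi⟩ := hsurj (w.re : ZMod 5)
  rw [Finset.sum_eq_single (0 : Fin 4)]
  · rw [Finset.sum_eq_single i]
    · have : ((w - rot 0 * (t i : GaussianInt)).re : ZMod 5) = 0 := by
        rw [rot_zero]
        simp only [one_mul, Zsqrtd.re_sub, Zsqrtd.re_intCast, Int.cast_sub]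
        exact sub_eq_zero.mpr hi.symm
      simp only [decide_true, Bool.true_and]
      rw [decide_eq_true this]
      rfl
    · intro j _ hj
      have : ¬ ((w - rot 0 * (t j : GaussianInt)).re : ZMod 5) = 0 := by
        rw [rot_zero]
        simp only [one_mul, Zsqrtd.re_sub, Zsqrtd.re_intCast, Int.cast_sub]
        intro h0
        exact hj (hinj ((sub_eq_zero.mp h0).symm.trans hi.symm))
      simp only [decide_true, Bool.true_and]
      rw [decide_eq_false this]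
      rfl
    · intro h0
      exact absurd (Finset.mem_univ i) h0
  · intro k _ hk
    refine Finset.sum_eq_zero fun j _ => ?_
    show (decide (k = 0) && decide (((w - rot k * (t j : GaussianInt)).re : ZMod 5) = 0)).toNat = 0
    rw [decide_eq_false hk, Bool.false_and]
    rfl
  · intro h0
    exact absurd (Finset.mem_univ _) h0

theorem exists_perm01 {a b : Fin 5} (h : a ≠ b) : ∃ σ : Equiv.Perm (Fin 5), σ 0 = a ∧ σ 1 = b := by
  refine ⟨(Equiv.swap 0 a).trans (Equiv.swap (Equiv.swap 0 a 1) b), ?_, ?_⟩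
  · rw [Equiv.trans_apply, Equiv.swap_apply_left]
    refine Equiv.swap_apply_of_ne_of_ne ?_ h
    intro h1
    have h2 : (Equiv.swap (0 : Fin 5) a) 0 = (Equiv.swap (0 : Fin 5) a) 1 := by
      rw [Equiv.swap_apply_left]; exact h1
    exact absurd ((Equiv.swap (0 : Fin 5) a).injective h2) (by decide)
  · rw [Equiv.trans_apply, Equiv.swap_apply_left]

theorem unit_mul_eq_zero : ∀ u x : ZMod 5, u ≠ 0 → u * x = 0 → x = 0 := by decide

theorem typeA {t : Fin 5 → ℤ} (ht : Function.Injective t) (u : ZMod 5)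
    (h1 : u * ((t 1 : ZMod 5) - t 0) = 0) (h2 : u * ((t 2 : ZMod 5) - t 0) = 1)
    (h3 : u * ((t 3 : ZMod 5) - t 0) = 2) (h4 : u * ((t 4 : ZMod 5) - t 0) = 4) : IntTiles t := by
  rcases tableA.tiles t ht u (by
    intro i
    fin_cases i
    · show u * ((t 0 : ZMod 5) - t 0) = 0
      ring
    · exact h1
    · exact h2
    · exact h3
    · exact h4) with h | ⟨A, hA, -⟩
  · exact h
  · exact absurd hA (List.not_mem_nil)

theorem typeB {t : Fin 5 → ℤ} (ht : Function.Injective t) (u : ZMod 5)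
    (h1 : u * ((t 1 : ZMod 5) - t 0) = 0) (h2 : u * ((t 2 : ZMod 5) - t 0) = 1)
    (h3 : u * ((t 3 : ZMod 5) - t 0) = 1) (h4 : u * ((t 4 : ZMod 5) - t 0) = 2) : IntTiles t := by
  rcases tableB.tiles t ht u (by
    intro i
    fin_cases i
    · show u * ((t 0 : ZMod 5) - t 0) = 0
      ring
    · exact h1
    · exact h2
    · exact h3
    · exact h4) with h | ⟨A, hA, -⟩
  · exact h
  · exact absurd hA (List.not_mem_nil)

theorem typeC {t : Fin 5 → ℤ} (ht : Function.Injective t) (u : ZMod 5) (hu : u ≠ 0)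
    (h1 : u * ((t 1 : ZMod 5) - t 0) = 0) (h2 : u * ((t 2 : ZMod 5) - t 0) = 1)
    (h3 : u * ((t 3 : ZMod 5) - t 0) = 1) (h4 : u * ((t 4 : ZMod 5) - t 0) = 3) : Good t := by
  have ne : ∀ i j : Fin 5, i ≠ j → t i - t j ≠ 0 := fun i j hij =>
    sub_ne_zero.mpr (fun h => hij (ht h))
  have z : ∀ {x : ZMod 5}, u * x = 0 → x = 0 := fun {x} hx => unit_mul_eq_zero u x hu hx
  have d5 : ∀ {x : ℤ}, ((x : ℤ) : ZMod 5) = 0 → (5 : ℤ) ∣ x := fun {x} hx =>
    (ZMod.intCast_zmod_eq_zero_iff_dvd _ 5).mp hx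
  have e1 : (5 : ℤ) ∣ t 1 - t 0 := d5 (by push_cast; exact z h1)
  have e2 : (5 : ℤ) ∣ t 3 - t 2 := d5 (by
    push_cast
    apply z
    linear_combination h3 - h2)
  have e3 : (5 : ℤ) ∣ 2 * t 4 - t 0 - t 2 := d5 (by
    push_cast
    apply z
    have : (5 : ZMod 5) = 0 := by decide
    linear_combination 2 * h4 - h2 + this)
  rcases tableC.tiles t ht u (by
    intro i
    fin_cases i
    · show u * ((t 0 : ZMod 5) - t 0) = 0
      ring
    · exact h1
    · exact h2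
    · exact h3
    · exact h4) with h | ⟨A, hA, hs1, hs2⟩
  · exact Or.inl h
  · right; right
    simp only [exC, List.mem_cons, List.not_mem_nil, or_false] at hA
    rcases hA with rfl | rfl | rfl
    · -- the point `4` is separated first
      have k1 : val (t 0 - t 4) < val (t 0 - t 1) := hs2 0 (by decide) 1 (by decide) (by decide) 4
        (by decide)
      have k2 : val (t 0 - t 4) < val (t 0 - t 2) := hs2 0 (by decide) 2 (by decide) (by decide) 4
        (by decide)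
      have k3 : val (t 0 - t 4) < val (t 0 - t 3) := hs2 0 (by decide) 3 (by decide) (by decide) 4
        (by decide)
      refine ⟨Equiv.refl _, e1, e2, e3, val (t 4 - t 0) + 1, Or.inl ⟨?_, ?_, ?_, ?_⟩⟩
      · apply dvd_of_le_val
        show val (t 4 - t 0) + 1 ≤ val (t 1 - t 0)
        rw [val_symm (t 4), val_symm (t 1)]; exact k1
      · apply dvd_of_le_val
        show val (t 4 - t 0) + 1 ≤ val (t 2 - t 0)
        rw [val_symm (t 4), val_symm (t 2)]; exact k2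
      · apply dvd_of_le_val
        show val (t 4 - t 0) + 1 ≤ val (t 3 - t 0)
        rw [val_symm (t 4), val_symm (t 3)]; exact k3
      · exact not_dvd_val (ne 4 0 (by decide))
    · -- the pair `0, 1` is separated first
      have k1 : val (t 0 - t 2) < val (t 0 - t 1) := hs1 0 (by decide) 1 (by decide) (by decide) 2
        (by decide)
      have k2 : val (t 2 - t 0) < val (t 2 - t 3) := hs2 2 (by decide) 3 (by decide) (by decide) 0
        (by decide)
      have k3 : val (t 2 - t 0) < val (t 2 - t 4) := hs2 2 (by decide) 4 (by decide) (by decide) 0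
        (by decide)
      refine ⟨Equiv.refl _, e1, e2, e3, val (t 2 - t 0) + 1, Or.inr ⟨?_, ?_, ?_, ?_⟩⟩
      · apply dvd_of_le_val
        show val (t 2 - t 0) + 1 ≤ val (t 1 - t 0)
        rw [val_symm (t 2), val_symm (t 1)]; exact k1
      · apply dvd_of_le_val
        show val (t 2 - t 0) + 1 ≤ val (t 3 - t 2)
        rw [val_symm (t 3)]; exact k2
      · apply dvd_of_le_val
        show val (t 2 - t 0) + 1 ≤ val (t 4 - t 2)
        rw [val_symm (t 4)]; exact k3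
      · exact not_dvd_val (ne 2 0 (by decide))
    · -- the pair `2, 3` is separated first
      have k1 : val (t 2 - t 0) < val (t 2 - t 3) := hs1 2 (by decide) 3 (by decide) (by decide) 0
        (by decide)
      have k2 : val (t 0 - t 2) < val (t 0 - t 1) := hs2 0 (by decide) 1 (by decide) (by decide) 2
        (by decide)
      have k3 : val (t 0 - t 2) < val (t 0 - t 4) := hs2 0 (by decide) 4 (by decide) (by decide) 2
        (by decide)
      refine ⟨(Equiv.swap 0 2).trans (Equiv.swap 1 3), ?_, ?_, ?_, val (t 0 - t 2) + 1,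
        Or.inr ⟨?_, ?_, ?_, ?_⟩⟩
      · exact e2
      · exact e1
      · show (5 : ℤ) ∣ 2 * t 4 - t 2 - t 0
        rw [show 2 * t 4 - t 2 - t 0 = 2 * t 4 - t 0 - t 2 by ring]
        exact e3
      · apply dvd_of_le_val
        show val (t 0 - t 2) + 1 ≤ val (t 3 - t 2)
        rw [val_symm (t 0), val_symm (t 3)]; exact k1
      · apply dvd_of_le_val
        show val (t 0 - t 2) + 1 ≤ val (t 1 - t 0)
        rw [val_symm (t 1)]; exact k2
      · apply dvd_of_le_val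
        show val (t 0 - t 2) + 1 ≤ val (t 4 - t 0)
        rw [val_symm (t 4)]; exact k3
      · exact not_dvd_val (ne 0 2 (by decide))

/-- the three residues are `1, 2, 4` up to the factor `u` -/
def isA (u x y z : ZMod 5) : Bool := decide (u * x = 1) && decide (u * y = 2) && decide (u * z = 4)

theorem isA_spec {u x y z : ZMod 5} (h : isA u x y z = true) :
    u * x = 1 ∧ u * y = 2 ∧ u * z = 4 := by
  unfold isA at h
  simp only [Bool.and_eq_true, decide_eq_true_eq] at h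
  exact ⟨h.1.1, h.1.2, h.2⟩

theorem normA' : ∀ x y z : ZMod 5, x ≠ 0 → y ≠ 0 → z ≠ 0 → x ≠ y → x ≠ z → y ≠ z → ∃ u : ZMod 5,
    (isA u x y z || isA u x z y || isA u y x z || isA u y z x || isA u z x y || isA u z y x)
      = true := by
  decide +kernel

theorem normA (x y z : ZMod 5) (h1 : x ≠ 0) (h2 : y ≠ 0) (h3 : z ≠ 0) (h4 : x ≠ y) (h5 : x ≠ z)
    (h6 : y ≠ z) : ∃ u : ZMod 5,
    (u * x = 1 ∧ u * y = 2 ∧ u * z = 4) ∨ (u * x = 1 ∧ u * z = 2 ∧ u * y = 4) ∨
    (u * y = 1 ∧ u * x = 2 ∧ u * z = 4) ∨ (u * y = 1 ∧ u * z = 2 ∧ u * x = 4) ∨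
    (u * z = 1 ∧ u * x = 2 ∧ u * y = 4) ∨ (u * z = 1 ∧ u * y = 2 ∧ u * x = 4) := by
  obtain ⟨u, hu⟩ := normA' x y z h1 h2 h3 h4 h5 h6
  simp only [Bool.or_eq_true] at hu
  refine ⟨u, ?_⟩
  rcases hu with ((((h | h) | h) | h) | h) | h
  · exact Or.inl (isA_spec h)
  · exact Or.inr (Or.inl (isA_spec h))
  · exact Or.inr (Or.inr (Or.inl (isA_spec h)))
  · exact Or.inr (Or.inr (Or.inr (Or.inl (isA_spec h))))
  · exact Or.inr (Or.inr (Or.inr (Or.inr (Or.inl (isA_spec h)))))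
  · exact Or.inr (Or.inr (Or.inr (Or.inr (Or.inr (isA_spec h)))))

theorem normB : ∀ d e : ZMod 5, d ≠ 0 → e ≠ 0 → d ≠ e → ∃ u : ZMod 5, u ≠ 0 ∧ u * d = 1 ∧
    (u * e = 2 ∨ u * e = 3 ∨ u * e = 4) := by decide +kernel

theorem good_two_pairs {t : Fin 5 → ℤ} (ht : Function.Injective t)
    (h1 : ((t 1 : ℤ) : ZMod 5) = t 0) (h3 : ((t 3 : ℤ) : ZMod 5) = t 2)
    (h2 : ((t 2 : ℤ) : ZMod 5) ≠ t 0) (h4 : ((t 4 : ℤ) : ZMod 5) ≠ t 0)
    (h5 : ((t 4 : ℤ) : ZMod 5) ≠ t 2) : Good t := by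
  obtain ⟨u, hu, hd, he⟩ := normB ((t 2 : ZMod 5) - t 0) ((t 4 : ZMod 5) - t 0)
    (sub_ne_zero.mpr h2) (sub_ne_zero.mpr h4) (fun h => h5 (sub_left_inj.mp h).symm)
  have f1 : u * ((t 1 : ZMod 5) - t 0) = 0 := by rw [h1]; ring
  have f3 : u * ((t 3 : ZMod 5) - t 0) = 1 := by rw [h3]; exact hd
  rcases he with he | he | he
  · exact Or.inl (typeB ht u f1 hd f3 he)
  · exact typeC ht u hu f1 hd f3 he
  · -- exchange the pairs
    refine Or.inl (IntTiles.perm ((Equiv.swap 0 2).trans (Equiv.swap 1 3)) ?_)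
    have five : (5 : ZMod 5) = 0 := by decide
    refine typeB (ht.comp (Equiv.injective _)) (-u) ?_ ?_ ?_ ?_
    · show -u * ((t 3 : ZMod 5) - t 2) = 0
      rw [h3]; ring
    · show -u * ((t 0 : ZMod 5) - t 2) = 1
      linear_combination hd
    · show -u * ((t 1 : ZMod 5) - t 2) = 1
      rw [h1]; linear_combination hd
    · show -u * ((t 4 : ZMod 5) - t 2) = 2
      linear_combination hd - he - five

theorem good_of_pair {t : Fin 5 → ℤ} (ht : Function.Injective t)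
    (h1 : ((t 1 : ℤ) : ZMod 5) = t 0) : Good t := by
  have d5 : ∀ {i j : Fin 5}, ((t i : ℤ) : ZMod 5) = t j → (5 : ℤ) ∣ t j - t i := fun {i j} hx => by
    apply (ZMod.intCast_zmod_eq_zero_iff_dvd _ 5).mp
    push_cast
    rw [hx]; ring
  by_cases h2 : ((t 2 : ℤ) : ZMod 5) = t 0
  · exact Or.inr (Or.inl ⟨0, 1, 2, by decide, by decide, by decide, d5 h1, d5 h2⟩)
  by_cases h3 : ((t 3 : ℤ) : ZMod 5) = t 0
  · exact Or.inr (Or.inl ⟨0, 1, 3, by decide, by decide, by decide, d5 h1, d5 h3⟩)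
  by_cases h4 : ((t 4 : ℤ) : ZMod 5) = t 0
  · exact Or.inr (Or.inl ⟨0, 1, 4, by decide, by decide, by decide, d5 h1, d5 h4⟩)
  by_cases h23 : ((t 3 : ℤ) : ZMod 5) = t 2
  · by_cases h42 : ((t 4 : ℤ) : ZMod 5) = t 2
    · exact Or.inr (Or.inl ⟨2, 3, 4, by decide, by decide, by decide, d5 h23, d5 h42⟩)
    · exact good_two_pairs ht h1 h23 h2 h4 h42
  by_cases h24 : ((t 4 : ℤ) : ZMod 5) = t 2
  · -- the pair `2, 4`
    refine Good.perm (Equiv.swap 3 4) (good_two_pairs (ht.comp (Equiv.injective _)) ?_ ?_ ?_ ?_ ?_)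
    · exact h1
    · exact h24
    · exact h2
    · exact h3
    · exact h23
  by_cases h34 : ((t 4 : ℤ) : ZMod 5) = t 3
  · -- the pair `3, 4`
    refine Good.perm (Equiv.swap 2 4) (good_two_pairs (ht.comp (Equiv.injective _)) ?_ ?_ ?_ ?_ ?_)
    · exact h1
    · exact h34.symm
    · exact h4
    · exact h2
    · exact fun h => h24 h.symm
  -- four residues
  left
  obtain ⟨u, hu⟩ := normA ((t 2 : ZMod 5) - t 0) ((t 3 : ZMod 5) - t 0) ((t 4 : ZMod 5) - t 0)
    (sub_ne_zero.mpr h2) (sub_ne_zero.mpr h3) (sub_ne_zero.mpr h4)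
    (fun h => h23 (sub_left_inj.mp h).symm) (fun h => h24 (sub_left_inj.mp h).symm)
    (fun h => h34 (sub_left_inj.mp h).symm)
  have f1 : u * ((t 1 : ZMod 5) - t 0) = 0 := by rw [h1]; ring
  rcases hu with ⟨a, b, c⟩ | ⟨a, b, c⟩ | ⟨a, b, c⟩ | ⟨a, b, c⟩ | ⟨a, b, c⟩ | ⟨a, b, c⟩
  · exact typeA ht u f1 a b c
  · exact IntTiles.perm (Equiv.swap 3 4) (typeA (ht.comp (Equiv.injective _)) u f1 a b c)
  · exact IntTiles.perm (Equiv.swap 2 3) (typeA (ht.comp (Equiv.injective _)) u f1 a b c)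
  · exact IntTiles.perm ((Equiv.swap 2 3).trans (Equiv.swap 2 4)) (typeA
      (ht.comp (Equiv.injective _)) u f1 a b c)
  · exact IntTiles.perm ((Equiv.swap 2 4).trans (Equiv.swap 2 3)) (typeA
      (ht.comp (Equiv.injective _)) u f1 a b c)
  · exact IntTiles.perm (Equiv.swap 2 4) (typeA (ht.comp (Equiv.injective _)) u f1 a b c)

/-- Five distinct integers, seen as points of a line of the plane, tile the plane unless three of
them are congruent modulo five or they are exceptional. -/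
theorem line_good {t : Fin 5 → ℤ} (ht : Function.Injective t) : Good t := by
  by_cases h : ∀ i j, (5 : ℤ) ∣ t i - t j → i = j
  · exact Or.inl (intTiles_of_distinct h)
  · push Not at h
    obtain ⟨i, j, hd, hij⟩ := h
    obtain ⟨σ, h0, h1⟩ := exists_perm01 hij
    refine Good.perm σ (good_of_pair (ht.comp σ.injective) ?_)
    show ((t (σ 1) : ℤ) : ZMod 5) = t (σ 0)
    rw [h0, h1]
    have := (ZMod.intCast_zmod_eq_zero_iff_dvd (t i - t j) 5).mpr hd
    push_cast at this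
    exact (sub_eq_zero.mp this).symm

end Pool.Agent.Lib.MP_dae7ec_co
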