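import Pool.Agent.Lib.MP_dae7ec_co.Pm

set_option autoImplicit false

/-!
Classification of residue vectors modulo five.
-/

namespace Pool.Agent.Lib.MP_dae7ec_co

abbrev Idx := Fin 5 × Fin 5 × Fin 5 × Fin 5 × Fin 5

/-- the thirty ways to choose a pair, a middle and the two others -/
def L1 : List Idx := [(0, 1, 2, 3, 4), (0, 1, 3, 2, 4), (0, 1, 4, 2, 3), (0, 2, 1, 3, 4),
  (0, 2, 3, 1, 4), (0, 2, 4, 1, 3), (0, 3, 1, 2, 4), (0, 3, 2, 1, 4), (0, 3, 4, 1, 2),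
  (0, 4, 1, 2, 3), (0, 4, 2, 1, 3), (0, 4, 3, 1, 2), (1, 2, 0, 3, 4), (1, 2, 3, 0, 4),
  (1, 2, 4, 0, 3), (1, 3, 0, 2, 4), (1, 3, 2, 0, 4), (1, 3, 4, 0, 2), (1, 4, 0, 2, 3),
  (1, 4, 2, 0, 3), (1, 4, 3, 0, 2), (2, 3, 0, 1, 4), (2, 3, 1, 0, 4), (2, 3, 4, 0, 1),
  (2, 4, 0, 1, 3), (2, 4, 1, 0, 3), (2, 4, 3, 0, 1), (3, 4, 0, 1, 2), (3, 4, 1, 0, 2),
  (3, 4, 2, 0, 1)]

/-- the fifteen ways to choose two disjoint pairs and the remaining index -/
def L3 : List Idx := [(1, 2, 3, 4, 0), (1, 3, 2, 4, 0), (1, 4, 2, 3, 0), (0, 2, 3, 4, 1),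
  (0, 3, 2, 4, 1), (0, 4, 2, 3, 1), (0, 1, 3, 4, 2), (0, 3, 1, 4, 2), (0, 4, 1, 3, 2),
  (0, 1, 2, 4, 3), (0, 2, 1, 4, 3), (0, 4, 1, 2, 3), (0, 1, 2, 3, 4), (0, 2, 1, 3, 4),
  (0, 3, 1, 2, 4)]

/-- five pairwise different residues -/
def allDiff (a b c d e : ZMod 5) : Bool :=
  a != b && a != c && a != d && a != e && b != c && b != d && b != e && c != d && c != e && d != e

def t1 (c : Fin 5 → ZMod 5) (v : Idx) : Bool :=
  c v.1 == c v.2.1 && (c v.2.2.2.1 + c v.2.2.2.2 == c v.2.2.1 + c v.2.2.1) &&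
    allDiff (c v.1) (c v.2.2.1 + c v.2.2.1 - c v.1) (c v.2.2.1) (c v.2.2.2.1) (c v.2.2.2.2)

def t3 (c : Fin 5 → ZMod 5) (v : Idx) : Bool :=
  c v.1 == c v.2.1 && c v.2.2.1 == c v.2.2.2.1 && c v.1 != c v.2.2.1 &&
    c v.1 != c v.2.2.2.2 && c v.2.2.1 != c v.2.2.2.2 &&
    (c v.1 + c v.2.2.1 != c v.2.2.2.2 + c v.2.2.2.2)

def goodC (c : Fin 5 → ZMod 5) : Bool :=
  allDiff (c 0) (c 1) (c 2) (c 3) (c 4) || L1.any (fun v => t1 c v) || L3.any (fun v => t3 c v)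

def mask : ℕ :=
  137133810909428133380088551657741639580017112815603631044921946397814605923231047963994782907904993561509444287828966612580511624059170357288819714990123165606972059647588110786544200056831

def badN (m : ℕ) : Bool := mask.testBit m

theorem goodC_of_code : ∀ a b c d : ZMod 5,
    badN (a.val + 5 * b.val + 25 * c.val + 125 * d.val) = false → goodC ![0, a, b, c, d] = true := by
  decide +kernel

/-- digitwise addition modulo five of four-digit codes -/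
def addN (m n : ℕ) : ℕ :=
  (m % 5 + n % 5) % 5 + 5 * ((m / 5 % 5 + n / 5 % 5) % 5)
    + 25 * ((m / 25 % 5 + n / 25 % 5) % 5) + 125 * ((m / 125 + n / 125) % 5)

def okPair (m n : ℕ) : Bool :=
  badN n && (badN (addN m n) && (badN (addN (addN m n) n) && (badN (addN (addN (addN m n) n) n)
    && badN (addN (addN (addN (addN m n) n) n) n))))

def cntIn (m : ℕ) : ℕ → ℕ
  | 0 => 0
  | n + 1 => cntIn m n + (if okPair m n then 1 else 0)

def cntOut (N : ℕ) : ℕ → ℕ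
  | 0 => 0
  | m + 1 => cntOut N m + (if badN m then cntIn m N else 0)

theorem cntOut_eq : cntOut 625 625 = 11041 := by decide +kernel

end Pool.Agent.Lib.MP_dae7ec_co
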