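import Pool.Agent.Lib.MP_dae7ec_co.Basic

set_option autoImplicit false

/-!
Tilings of the Gaussian integers by translates of a labelled five-point set `s` and of `-s`.
-/

namespace Pool.Agent.Lib.MP_dae7ec_co

open Finset

/-- The labelled set `s` and its negative tile: `P z` says that `z + s` is used, `Q z` says that
`z - s` is used. -/
def PmTiles (s : Fin 5 → GaussianInt) : Prop :=
  ∃ P Q : GaussianInt → Bool,
    ∀ w : GaussianInt, ∑ j : Fin 5, ((P (w - s j)).toNat + (Q (w + s j)).toNat) = 1

theorem PmTiles.rotTiles {s : Fin 5 → GaussianInt} (h : PmTiles s) (hs : Function.Injective s) :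
    RotTiles (Finset.univ.image s) := by
  obtain ⟨P, Q, hPQ⟩ := h
  refine ⟨fun k z => if k = 0 then P z else if k = 2 then Q z else false, fun w => ?_⟩
  rw [← hPQ w, Finset.sum_add_distrib]
  simp only [Finset.sum_image (fun x _ y _ hxy => hs hxy)]
  rw [Fin.sum_univ_four]
  have h0 : ∀ j, w - rot 0 * s j = w - s j := fun j => by rw [rot_zero, one_mul]
  have h2 : ∀ j, w - rot 2 * s j = w + s j := fun j => by rw [rot_two]; ring
  simp only [h0, h2, if_true, if_neg (show (1 : Fin 4) ≠ 0 by decide),
    if_neg (show (1 : Fin 4) ≠ 2 by decide), if_neg (show (2 : Fin 4) ≠ 0 by decide),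
    if_neg (show (3 : Fin 4) ≠ 0 by decide), if_neg (show (3 : Fin 4) ≠ 2 by decide),
    Bool.toNat_false, Finset.sum_const_zero, add_zero]

theorem PmTiles.perm {s : Fin 5 → GaussianInt} (σ : Equiv.Perm (Fin 5))
    (h : PmTiles (s ∘ σ)) : PmTiles s := by
  obtain ⟨P, Q, hPQ⟩ := h
  refine ⟨P, Q, fun w => ?_⟩
  rw [← hPQ w]
  exact (Equiv.sum_comp σ (fun j => ((P (w - s j)).toNat + (Q (w + s j)).toNat))).symm

theorem PmTiles.translate {s : Fin 5 → GaussianInt} (a : GaussianInt)
    (h : PmTiles (fun j => s j - a)) : PmTiles s := by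
  obtain ⟨P, Q, hPQ⟩ := h
  refine ⟨fun z => P (z + a), fun z => Q (z - a), fun w => ?_⟩
  rw [← hPQ w]
  refine Finset.sum_congr rfl fun j _ => ?_
  show (P (w - s j + a)).toNat + (Q (w + s j - a)).toNat
    = (P (w - (s j - a))).toNat + (Q (w + (s j - a))).toNat
  rw [show w - s j + a = w - (s j - a) by ring, show w + s j - a = w + (s j - a) by ring]

theorem sum_five (f : Fin 5 → ℕ) : ∑ j, f j = f 0 + f 1 + f 2 + f 3 + f 4 := by
  rw [Fin.sum_univ_five]

theorem toNat_add_not (b : Bool) : b.toNat + (!b).toNat = 1 := by cases b <;> rfl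

theorem not_add_toNat (b : Bool) : (!b).toNat + b.toNat = 1 := by cases b <;> rfl

/-- five pairwise different residues: translates of `s` suffice -/
theorem pmTiles_inj (s : Fin 5 → GaussianInt) (phi : GaussianInt → ZMod 5) (c : Fin 5 → ZMod 5)
    (hphi : ∀ z j, phi (z + s j) = phi z + c j) (hc : Function.Injective c) : PmTiles s := by
  have hsub : ∀ z j, phi (z - s j) = phi z - c j := by
    intro z j
    have := hphi (z - s j) j
    rw [sub_add_cancel] at this
    rw [this]; ring
  refine ⟨fun z => decide (phi z = 0), fun _ => false, fun w => ?_⟩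
  simp only [Bool.toNat_false, add_zero, hsub]
  have hb : Function.Bijective c := by
    rw [Fintype.bijective_iff_injective_and_card]
    exact ⟨hc, by simp [ZMod.card]⟩
  obtain ⟨j0, hj0⟩ := hb.2 (phi w)
  rw [Finset.sum_eq_single j0]
  · rw [hj0]; simp
  · intro j _ hj
    have : phi w - c j ≠ 0 := by
      intro h
      apply hj
      apply hc
      rw [hj0]
      exact (sub_eq_zero.mp h).symm
    simp [this]
  · intro h
    exact absurd (Finset.mem_univ j0) h

/-- One coincidence `c 0 = c 1` (missing residue `b`), `c 2` the middle of `c 0` and `b`. -/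
theorem pmTiles_T1 (s : Fin 5 → GaussianInt) (phi : GaussianInt → ZMod 5) (c : Fin 5 → ZMod 5)
    (hphi : ∀ z j, phi (z + s j) = phi z + c j) (b : ZMod 5)
    (h01 : c 0 = c 1) (hmid : c 2 + c 2 = c 0 + b) (h34 : c 3 + c 4 = c 0 + b)
    (hall : ∀ r : ZMod 5, r = c 0 ∨ r = b ∨ r = c 2 ∨ r = c 3 ∨ r = c 4)
    (f : GaussianInt → Bool) (hd : ∀ z, f (z + (s 1 - s 0)) = !f z)
    (he : ∀ z, f (z + (s 3 + s 4 - 2 * s 2)) = f z) : PmTiles s := by
  have hsub : ∀ z j, phi (z - s j) = phi z - c j := by
    intro z j
    have := hphi (z - s j) j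
    rw [sub_add_cancel] at this
    rw [this]; ring
  -- the five residues are distinct
  have hne : c 0 ≠ b ∧ c 0 ≠ c 2 ∧ c 0 ≠ c 3 ∧ c 0 ≠ c 4 ∧ b ≠ c 2 ∧ b ≠ c 3 ∧ b ≠ c 4 ∧
      c 2 ≠ c 3 ∧ c 2 ≠ c 4 ∧ c 3 ≠ c 4 := by
    have key : ∀ x0 x1 x2 x3 x4 : ZMod 5, (∀ r : ZMod 5, r = x0 ∨ r = x1 ∨ r = x2 ∨ r = x3 ∨ r = x4)
        → (x0 ≠ x1 ∧ x0 ≠ x2 ∧ x0 ≠ x3 ∧ x0 ≠ x4 ∧ x1 ≠ x2 ∧ x1 ≠ x3 ∧ x1 ≠ x4 ∧
          x2 ≠ x3 ∧ x2 ≠ x4 ∧ x3 ≠ x4) := by decide +kernel
    exact key _ _ _ _ _ hall
  obtain ⟨n1, n2, n3, n4, n5, n6, n7, n8, n9, n10⟩ := hne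
  refine ⟨fun z => decide (phi z = 0) && f z,
    fun z => decide (phi z = c 0 + b) && !f (z - s 3 - s 4), fun w => ?_⟩
  simp only [hsub, hphi, sum_five]
  have hneg : ∀ z, f (z - (s 1 - s 0)) = !f z := by
    intro z
    have := hd (z - (s 1 - s 0))
    rw [sub_add_cancel] at this
    rw [this, Bool.not_not]
  have hneg' : ∀ z, f (z - (s 3 + s 4 - 2 * s 2)) = f z := by
    intro z
    have := he (z - (s 3 + s 4 - 2 * s 2))
    rw [sub_add_cancel] at this
    exact this.symm
  have e1 : ∀ x y : ZMod 5, decide (x - y = 0) = decide (x = y) := by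
    intro x y; rw [decide_eq_decide]; exact sub_eq_zero
  simp only [e1, ← h01]
  rcases hall (phi w) with h | h | h | h | h
  · -- class of `c 0`
    have q2 : decide (phi w + c 0 = c 0 + b) = false := by
      rw [decide_eq_false_iff_not, h]; intro h'; exact n1 (add_left_cancel h')
    have q3 : decide (phi w + c 2 = c 0 + b) = false := by
      rw [decide_eq_false_iff_not, h]; intro h'; exact n5 (add_left_cancel h').symm
    have q4 : decide (phi w + c 3 = c 0 + b) = false := by
      rw [decide_eq_false_iff_not, h]; intro h'; exact n6 (add_left_cancel h').symm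
    have q5 : decide (phi w + c 4 = c 0 + b) = false := by
      rw [decide_eq_false_iff_not, h]; intro h'; exact n7 (add_left_cancel h').symm
    have p1 : decide (phi w = c 0) = true := by rw [decide_eq_true_iff]; exact h
    have p2 : decide (phi w = c 2) = false := by rw [decide_eq_false_iff_not, h]; exact n2
    have p3 : decide (phi w = c 3) = false := by rw [decide_eq_false_iff_not, h]; exact n3
    have p4 : decide (phi w = c 4) = false := by rw [decide_eq_false_iff_not, h]; exact n4
    simp only [q2, q3, q4, q5, p1, p2, p3, p4, Bool.true_and, Bool.false_and, Bool.toNat_false,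
      add_zero]
    rw [show w - s 0 = w - s 1 + (s 1 - s 0) by ring, hd]
    exact not_add_toNat _
  · -- class of `b`
    have q2 : decide (phi w + c 0 = c 0 + b) = true := by
      rw [decide_eq_true_iff, h]; ring
    have q3 : decide (phi w + c 2 = c 0 + b) = false := by
      rw [decide_eq_false_iff_not, h]; intro h'; apply n2
      exact (add_left_cancel (h'.trans (add_comm _ _))).symm
    have q4 : decide (phi w + c 3 = c 0 + b) = false := by
      rw [decide_eq_false_iff_not, h]; intro h'; apply n3
      exact (add_left_cancel (h'.trans (add_comm _ _))).symm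
    have q5 : decide (phi w + c 4 = c 0 + b) = false := by
      rw [decide_eq_false_iff_not, h]; intro h'; apply n4
      exact (add_left_cancel (h'.trans (add_comm _ _))).symm
    have p1 : decide (phi w = c 0) = false := by rw [decide_eq_false_iff_not, h]; exact n1.symm
    have p2 : decide (phi w = c 2) = false := by rw [decide_eq_false_iff_not, h]; exact n5
    have p3 : decide (phi w = c 3) = false := by rw [decide_eq_false_iff_not, h]; exact n6
    have p4 : decide (phi w = c 4) = false := by rw [decide_eq_false_iff_not, h]; exact n7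
    simp only [q2, q3, q4, q5, p1, p2, p3, p4, Bool.true_and, Bool.false_and, Bool.toNat_false,
      add_zero, zero_add]
    rw [show w + s 1 - s 3 - s 4 = w + s 0 - s 3 - s 4 + (s 1 - s 0) by ring, hd, Bool.not_not]
    exact not_add_toNat _
  · -- class of `c 2`
    have q2 : decide (phi w + c 0 = c 0 + b) = false := by
      rw [decide_eq_false_iff_not, h]; intro h'; apply n5
      exact (add_right_cancel (h'.trans (add_comm _ _))).symm
    have q3 : decide (phi w + c 2 = c 0 + b) = true := by
      rw [decide_eq_true_iff, h]; exact hmid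
    have q4 : decide (phi w + c 3 = c 0 + b) = false := by
      rw [decide_eq_false_iff_not, h, ← hmid]; intro h'; exact n8 (add_left_cancel h').symm
    have q5 : decide (phi w + c 4 = c 0 + b) = false := by
      rw [decide_eq_false_iff_not, h, ← hmid]; intro h'; exact n9 (add_left_cancel h').symm
    have p1 : decide (phi w = c 0) = false := by rw [decide_eq_false_iff_not, h]; exact n2.symm
    have p2 : decide (phi w = c 2) = true := by rw [decide_eq_true_iff, h]
    have p3 : decide (phi w = c 3) = false := by rw [decide_eq_false_iff_not, h]; exact n8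
    have p4 : decide (phi w = c 4) = false := by rw [decide_eq_false_iff_not, h]; exact n9
    simp only [q2, q3, q4, q5, p1, p2, p3, p4, Bool.true_and, Bool.false_and, Bool.toNat_false,
      add_zero, zero_add]
    rw [show w + s 2 - s 3 - s 4 = w - s 2 - (s 3 + s 4 - 2 * s 2) by ring, hneg']
    exact toNat_add_not _
  · -- class of `c 3`
    have q2 : decide (phi w + c 0 = c 0 + b) = false := by
      rw [decide_eq_false_iff_not, h]; intro h'; apply n6
      exact (add_right_cancel (h'.trans (add_comm _ _))).symm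
    have q3 : decide (phi w + c 2 = c 0 + b) = false := by
      rw [decide_eq_false_iff_not, h, ← hmid]; intro h'; exact n8 (add_right_cancel h').symm
    have q4 : decide (phi w + c 3 = c 0 + b) = false := by
      rw [decide_eq_false_iff_not, h, ← h34]; intro h'; exact n10 (add_left_cancel h')
    have q5 : decide (phi w + c 4 = c 0 + b) = true := by
      rw [decide_eq_true_iff, h]; exact h34
    have p1 : decide (phi w = c 0) = false := by rw [decide_eq_false_iff_not, h]; exact n3.symm
    have p2 : decide (phi w = c 2) = false := by rw [decide_eq_false_iff_not, h]; exact n8.symm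
    have p3 : decide (phi w = c 3) = true := by rw [decide_eq_true_iff, h]
    have p4 : decide (phi w = c 4) = false := by rw [decide_eq_false_iff_not, h]; exact n10
    simp only [q2, q3, q4, q5, p1, p2, p3, p4, Bool.true_and, Bool.false_and, Bool.toNat_false,
      add_zero, zero_add]
    rw [show w + s 4 - s 3 - s 4 = w - s 3 by ring]
    exact toNat_add_not _
  · -- class of `c 4`
    have q2 : decide (phi w + c 0 = c 0 + b) = false := by
      rw [decide_eq_false_iff_not, h]; intro h'; apply n7
      exact (add_right_cancel (h'.trans (add_comm _ _))).symm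
    have q3 : decide (phi w + c 2 = c 0 + b) = false := by
      rw [decide_eq_false_iff_not, h, ← hmid]; intro h'; exact n9 (add_right_cancel h').symm
    have q4 : decide (phi w + c 3 = c 0 + b) = true := by
      rw [decide_eq_true_iff, h, add_comm]; exact h34
    have q5 : decide (phi w + c 4 = c 0 + b) = false := by
      rw [decide_eq_false_iff_not, h, ← h34]; intro h'; exact n10 (add_right_cancel h').symm
    have p1 : decide (phi w = c 0) = false := by rw [decide_eq_false_iff_not, h]; exact n4.symm
    have p2 : decide (phi w = c 2) = false := by rw [decide_eq_false_iff_not, h]; exact n9.symm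
    have p3 : decide (phi w = c 3) = false := by rw [decide_eq_false_iff_not, h]; exact n10.symm
    have p4 : decide (phi w = c 4) = true := by rw [decide_eq_true_iff, h]
    simp only [q2, q3, q4, q5, p1, p2, p3, p4, Bool.true_and, Bool.false_and, Bool.toNat_false,
      add_zero, zero_add]
    rw [show w + s 3 - s 3 - s 4 = w - s 4 by ring]
    rw [add_comm]
    exact toNat_add_not _

/-- Two coincidences `c 0 = c 1`, `c 2 = c 3`, single `c 4` which is not the middle. -/
theorem pmTiles_T3 (s : Fin 5 → GaussianInt) (phi : GaussianInt → ZMod 5) (c : Fin 5 → ZMod 5)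
    (hphi : ∀ z j, phi (z + s j) = phi z + c j)
    (h01 : c 0 = c 1) (h23 : c 2 = c 3) (h02 : c 0 ≠ c 2) (h04 : c 0 ≠ c 4) (h24 : c 2 ≠ c 4)
    (hmid : c 0 + c 2 ≠ c 4 + c 4)
    (f : GaussianInt → Bool) (hd : ∀ z, f (z + (s 1 - s 0)) = !f z)
    (he : ∀ z, f (z + (s 3 - s 2)) = !f z) : PmTiles s := by
  have hsub : ∀ z j, phi (z - s j) = phi z - c j := by
    intro z j
    have := hphi (z - s j) j
    rw [sub_add_cancel] at this
    rw [this]; ring
  have hd' : ∀ z, f (z - (s 1 - s 0)) = !f z := by
    intro z
    have := hd (z - (s 1 - s 0))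
    rw [sub_add_cancel] at this
    rw [this, Bool.not_not]
  have he' : ∀ z, f (z - (s 3 - s 2)) = !f z := by
    intro z
    have := he (z - (s 3 - s 2))
    rw [sub_add_cancel] at this
    rw [this, Bool.not_not]
  have key : ∀ a c' x r : ZMod 5, a ≠ c' → a ≠ x → c' ≠ x → a + c' ≠ x + x →
      ((decide (r = a) = true ∧ decide (r = c') = false ∧ decide (r = x) = false ∧
        decide (r + a = x + x) = false ∧ decide (r + c' = x + x) = false ∧
        decide (r + x = x + x) = false) ∨
       (decide (r = a) = false ∧ decide (r = c') = true ∧ decide (r = x) = false ∧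
        decide (r + a = x + x) = false ∧ decide (r + c' = x + x) = false ∧
        decide (r + x = x + x) = false) ∨
       (decide (r = a) = false ∧ decide (r = c') = false ∧ decide (r = x) = true ∧
        decide (r + a = x + x) = false ∧ decide (r + c' = x + x) = false ∧
        decide (r + x = x + x) = true) ∨
       (decide (r = a) = false ∧ decide (r = c') = false ∧ decide (r = x) = false ∧
        decide (r + a = x + x) = true ∧ decide (r + c' = x + x) = false ∧
        decide (r + x = x + x) = false) ∨
       (decide (r = a) = false ∧ decide (r = c') = false ∧ decide (r = x) = false ∧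
        decide (r + a = x + x) = false ∧ decide (r + c' = x + x) = true ∧
        decide (r + x = x + x) = false)) := by decide +kernel
  refine ⟨fun z => decide (phi z = 0) && f z,
    fun z => decide (phi z = c 4 + c 4) && !f (z - s 4 - s 4), fun w => ?_⟩
  simp only [hsub, hphi, sum_five]
  have e1 : ∀ x y : ZMod 5, decide (x - y = 0) = decide (x = y) := by
    intro x y; rw [decide_eq_decide]; exact sub_eq_zero
  simp only [e1, ← h01, ← h23]
  rcases key _ _ _ (phi w) h02 h04 h24 hmid with ⟨p1, p2, p3, q1, q2, q3⟩ | ⟨p1, p2, p3, q1, q2, q3⟩ |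
    ⟨p1, p2, p3, q1, q2, q3⟩ | ⟨p1, p2, p3, q1, q2, q3⟩ | ⟨p1, p2, p3, q1, q2, q3⟩
  · simp only [p1, p2, p3, q1, q2, q3, Bool.true_and, Bool.false_and, Bool.toNat_false,
      add_zero, zero_add]
    rw [show w - s 0 = w - s 1 + (s 1 - s 0) by ring, hd]
    exact not_add_toNat _
  · simp only [p1, p2, p3, q1, q2, q3, Bool.true_and, Bool.false_and, Bool.toNat_false,
      add_zero, zero_add]
    rw [show w - s 2 = w - s 3 + (s 3 - s 2) by ring, he]
    exact not_add_toNat _
  · simp only [p1, p2, p3, q1, q2, q3, Bool.true_and, Bool.false_and, Bool.toNat_false,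
      add_zero, zero_add]
    rw [show w + s 4 - s 4 - s 4 = w - s 4 by ring]
    exact toNat_add_not _
  · simp only [p1, p2, p3, q1, q2, q3, Bool.true_and, Bool.false_and, Bool.toNat_false,
      add_zero, zero_add]
    rw [show w + s 1 - s 4 - s 4 = w + s 0 - s 4 - s 4 + (s 1 - s 0) by ring, hd, Bool.not_not]
    exact not_add_toNat _
  · simp only [p1, p2, p3, q1, q2, q3, Bool.true_and, Bool.false_and, Bool.toNat_false,
      add_zero, zero_add]
    rw [show w + s 3 - s 4 - s 4 = w + s 2 - s 4 - s 4 + (s 3 - s 2) by ring, he, Bool.not_not]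
    exact not_add_toNat _

/-- linear functionals with integer coefficients -/
def lin (p q : ℤ) (z : GaussianInt) : ℤ := p * z.re + q * z.im

theorem lin_add (p q : ℤ) (z w : GaussianInt) : lin p q (z + w) = lin p q z + lin p q w := by
  simp only [lin, Zsqrtd.re_add, Zsqrtd.im_add]; ring

theorem lin_sub (p q : ℤ) (z w : GaussianInt) : lin p q (z - w) = lin p q z - lin p q w := by
  simp only [lin, Zsqrtd.re_sub, Zsqrtd.im_sub]; ring

/-- the parity of `floor (lin z / g)` -/
def bit (p q g : ℤ) (z : GaussianInt) : Bool := decide ((lin p q z / g) % 2 = 1)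

theorem bit_add_odd (p q g : ℤ) (hg : g ≠ 0) (z d : GaussianInt) (m : ℤ)
    (hd : lin p q d = g * (2 * m + 1)) : bit p q g (z + d) = !bit p q g z := by
  unfold bit
  rw [lin_add, hd, Int.add_mul_ediv_left _ _ hg]
  rcases Int.emod_two_eq_zero_or_one (lin p q z / g) with h | h
  · have h1 : ((lin p q z / g + (2 * m + 1)) % 2 = 1) := by omega
    rw [decide_eq_true h1, h]; rfl
  · have h1 : ¬ ((lin p q z / g + (2 * m + 1)) % 2 = 1) := by omega
    rw [decide_eq_false h1, h]; rfl

theorem bit_add_even (p q g : ℤ) (hg : g ≠ 0) (z d : GaussianInt) (m : ℤ)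
    (hd : lin p q d = g * (2 * m)) : bit p q g (z + d) = bit p q g z := by
  unfold bit
  rw [lin_add, hd, Int.add_mul_ediv_left _ _ hg, decide_eq_decide]
  constructor <;> intro h <;> omega

/-- residue functions: `floor (lin z / g)` modulo five -/
def res (p q g : ℤ) (z : GaussianInt) : ZMod 5 := ((lin p q z / g : ℤ) : ZMod 5)

theorem res_add (p q g : ℤ) (hg : g ≠ 0) (z d : GaussianInt) (m : ℤ)
    (hd : lin p q d = g * m) : res p q g (z + d) = res p q g z + (m : ZMod 5) := by
  unfold res
  rw [lin_add, hd, Int.add_mul_ediv_left _ _ hg, Int.cast_add]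

/-- the determinant -/
def det2 (z w : GaussianInt) : ℤ := z.re * w.im - z.im * w.re

/-- independent vectors: a function flipping along `d`, constant along `e` -/
theorem exists_bit_indep (d e : GaussianInt) (h : det2 d e ≠ 0) :
    ∃ f : GaussianInt → Bool, (∀ z, f (z + d) = !f z) ∧ (∀ z, f (z + e) = f z) := by
  refine ⟨bit e.im (-e.re) (det2 d e), fun z => ?_, fun z => ?_⟩
  · exact bit_add_odd _ _ _ h z d 0 (by simp only [lin, det2]; ring)
  · exact bit_add_even _ _ _ h z e 0 (by simp only [lin]; ring)

/-- independent vectors: a function flipping along both -/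
theorem exists_bit_indep' (d e : GaussianInt) (h : det2 d e ≠ 0) :
    ∃ f : GaussianInt → Bool, (∀ z, f (z + d) = !f z) ∧ (∀ z, f (z + e) = !f z) := by
  refine ⟨bit (e.im - d.im) (d.re - e.re) (det2 d e), fun z => ?_, fun z => ?_⟩
  · exact bit_add_odd _ _ _ h z d 0 (by simp only [lin, det2]; ring)
  · exact bit_add_odd _ _ _ h z e 0 (by simp only [lin, det2]; ring)

/-- general criterion: a linear functional taking an odd multiple of `g` at `d` and an even
multiple at `e` -/
theorem exists_bit_lin (d e : GaussianInt) (p q g m n : ℤ) (hg : g ≠ 0)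
    (hd : lin p q d = g * (2 * m + 1)) (he : lin p q e = g * (2 * n)) :
    ∃ f : GaussianInt → Bool, (∀ z, f (z + d) = !f z) ∧ (∀ z, f (z + e) = f z) :=
  ⟨bit p q g, fun z => bit_add_odd _ _ _ hg z d m hd, fun z => bit_add_even _ _ _ hg z e n he⟩

/-- general criterion: a linear functional taking odd multiples of `g` at `d` and at `e` -/
theorem exists_bit_lin' (d e : GaussianInt) (p q g m n : ℤ) (hg : g ≠ 0)
    (hd : lin p q d = g * (2 * m + 1)) (he : lin p q e = g * (2 * n + 1)) :
    ∃ f : GaussianInt → Bool, (∀ z, f (z + d) = !f z) ∧ (∀ z, f (z + e) = !f z) :=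
  ⟨bit p q g, fun z => bit_add_odd _ _ _ hg z d m hd, fun z => bit_add_odd _ _ _ hg z e n he⟩

end Pool.Agent.Lib.MP_dae7ec_co
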