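import Pool.Agent.Lib.MP_dae7ec_co.PowBase

set_option autoImplicit false

/-!
Insertion of rows and columns: from `60 * 60 + 1` cells to `M * M + 1` cells, `M = 60 + 20 * j`.
-/

namespace Pool.Agent.Lib.MP_dae7ec_co.Pow

/-- collapse the `20 * j` inserted positions after `a` to the four positions after `a` -/
def rh (a j r : ℕ) : ℕ :=
  if r < a then r else if r < a + 20 * j then a + (r - a) % 4 else r - 20 * j

/-- the cell of the basic colouring under the cell `n` -/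
def bs (j n : ℕ) : ℕ :=
  if n = (60 + 20 * j) * (60 + 20 * j) then 3600
  else 60 * rh 29 j (n / (60 + 20 * j)) + rh 27 j (n % (60 + 20 * j))

/-- the code of the cell `n` -/
def gj (j n : ℕ) : ℕ := cd (bs j n)

theorem rh_lt {a j r : ℕ} (ha : a ≤ 40) (hr : r < 60 + 20 * j) : rh a j r < 60 := by
  unfold rh; split_ifs <;> omega

theorem rh_zero {a j : ℕ} (ha : 0 < a) : rh a j 0 = 0 := by
  unfold rh; split_ifs; rfl

theorem rh_last {a j : ℕ} (ha : a ≤ 40) : rh a j (60 + 20 * j - 1) = 59 := by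
  unfold rh; split_ifs <;> omega

theorem rh_succ {a j r : ℕ} :
    rh a j (r + 1) = rh a j r + 1 ∨ (rh a j r = a + 3 ∧ rh a j (r + 1) = a) := by
  unfold rh; split_ifs <;> omega

theorem rh_pos {a j r : ℕ} (ha : 0 < a) (hr : 0 < r) : 0 < rh a j r := by
  unfold rh; split_ifs <;> omega

theorem rh_lt_last {a j r : ℕ} (ha : a ≤ 40) (hr : r + 1 < 60 + 20 * j) : rh a j r < 59 := by
  unfold rh; split_ifs <;> omega

theorem lin_mk {M q r : ℕ} (hr : r < M) : lin M (M * q + r) = 3 * r + 6 * q := by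
  unfold lin
  rw [Nat.mul_add_mod, Nat.mod_eq_of_lt hr, Nat.mul_add_div (by omega), Nat.div_eq_of_lt hr,
    add_zero]

theorem lin_last (M : ℕ) (hM : 0 < M) : lin M (M * M) = 6 * M := by
  have := lin_mk (M := M) (q := M) (r := 0) hM
  simpa using this

theorem bs_mk {j q r : ℕ} (hq : q < 60 + 20 * j) (hr : r < 60 + 20 * j) :
    bs j ((60 + 20 * j) * q + r) = 60 * rh 29 j q + rh 27 j r := by
  have h : (60 + 20 * j) * q + r ≠ (60 + 20 * j) * (60 + 20 * j) := by
    have : (60 + 20 * j) * (q + 1) ≤ (60 + 20 * j) * (60 + 20 * j) := Nat.mul_le_mul_left _ hq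
    have h2 : (60 + 20 * j) * (q + 1) = (60 + 20 * j) * q + (60 + 20 * j) := by ring
    omega
  unfold bs
  rw [if_neg h, Nat.mul_add_mod, Nat.mod_eq_of_lt hr, Nat.mul_add_div (by omega),
    Nat.div_eq_of_lt hr, add_zero]

theorem bs_last {j : ℕ} : bs j ((60 + 20 * j) * (60 + 20 * j)) = 3600 := by
  unfold bs; rw [if_pos rfl]

/-- the cell `n'` of the big colouring looks like the cell `m'` of the basic one, relative to the
cells `n` and `m` -/
def Rel (j n m n' m' : ℕ) : Prop :=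
  gj j n' = cd m' ∧
    (5 : ℤ) ∣ ((lin (60 + 20 * j) n' : ℤ) - lin 60 m') - ((lin (60 + 20 * j) n : ℤ) - lin 60 m)

theorem rel_mk {j n m n' m' : ℕ} {q r q' r' s t s' t' : ℕ}
    (hn : lin (60 + 20 * j) n = 3 * r + 6 * q) (hm : lin 60 m = 3 * t + 6 * s)
    (hn' : lin (60 + 20 * j) n' = 3 * r' + 6 * q') (hm' : lin 60 m' = 3 * t' + 6 * s')
    (hg : cd (bs j n') = cd m')
    (h : (5 : ℤ) ∣ ((3 * r' + 6 * q' : ℤ) - (3 * t' + 6 * s')) - ((3 * r + 6 * q) - (3 * t + 6 * s))) :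
    Rel j n m n' m' := by
  refine ⟨hg, ?_⟩
  rw [hn, hm, hn', hm']
  push_cast
  exact h

/-- column step -/
theorem col_step {j q0 r : ℕ} (hq : q0 < 60) :
    cd (60 * q0 + rh 27 j (r + 1)) = cd (60 * q0 + (rh 27 j r + 1)) ∧
    (cd (60 * q0 + rh 27 j r) = cd (60 * q0 + (rh 27 j (r + 1) - 1))) := by
  rcases rh_succ (a := 27) (j := j) (r := r) with h | ⟨h1, h2⟩
  · rw [h]; exact ⟨rfl, rfl⟩
  · rw [h1, h2]
    exact ⟨(cols_eq q0 hq).1, (cols_eq q0 hq).2.symm⟩

/-- row step -/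
theorem row_step {j q r0 : ℕ} (hr : r0 < 60) :
    cd (60 * rh 29 j (q + 1) + r0) = cd (60 * (rh 29 j q + 1) + r0) ∧
    (cd (60 * rh 29 j q + r0) = cd (60 * (rh 29 j (q + 1) - 1) + r0)) := by
  rcases rh_succ (a := 29) (j := j) (r := q) with h | ⟨h1, h2⟩
  · rw [h]; exact ⟨rfl, rfl⟩
  · rw [h1, h2]
    exact ⟨(rows_eq r0 hr).1, (rows_eq r0 hr).2.symm⟩

section
variable {j q r : ℕ} (hq : q < 60 + 20 * j) (hr : r < 60 + 20 * j)
include hq hr

theorem rel_rgt : Rel j ((60 + 20 * j) * q + r) (60 * rh 29 j q + rh 27 j r)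
    (rgt (60 + 20 * j) ((60 + 20 * j) * q + r)) (rgt 60 (60 * rh 29 j q + rh 27 j r)) := by
  have hq0 := rh_lt (a := 29) (j := j) (by norm_num) hq
  have hr0 := rh_lt (a := 27) (j := j) (by norm_num) hr
  have e0 := lin_mk (M := 60 + 20 * j) (q := q) hr
  have e1 := lin_mk (M := 60) (q := rh 29 j q) hr0
  have hne : (60 + 20 * j) * q + r ≠ (60 + 20 * j) * (60 + 20 * j) := by
    have : (60 + 20 * j) * (q + 1) ≤ (60 + 20 * j) * (60 + 20 * j) := Nat.mul_le_mul_left _ hq
    have h2 : (60 + 20 * j) * (q + 1) = (60 + 20 * j) * q + (60 + 20 * j) := by ring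
    omega
  unfold rgt
  rw [if_neg hne, if_neg (by omega)]
  by_cases h1 : r + 1 < 60 + 20 * j
  · have h2 := rh_lt_last (a := 27) (j := j) (by norm_num) h1
    refine rel_mk e0 e1 (q' := q) (r' := r + 1) (s' := rh 29 j q) (t' := rh 27 j r + 1) ?_ ?_ ?_ ?_
    · rw [add_assoc, lin_mk h1]
    · rw [add_assoc, lin_mk (by omega)]
    · rw [add_assoc, bs_mk hq h1, add_assoc]
      exact (col_step hq0).1
    · push_cast; omega
  · have hr1 : r = 60 + 20 * j - 1 := by omega
    have hr2 : rh 27 j r = 59 := by rw [hr1]; exact rh_last (by norm_num)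
    by_cases h3 : q + 1 < 60 + 20 * j
    · have h4 := rh_lt_last (a := 29) (j := j) (by norm_num) h3
      have e2 : (60 + 20 * j) * q + r + 1 = (60 + 20 * j) * (q + 1) + 0 := by
        rw [hr1]; ring_nf; omega
      refine rel_mk e0 e1 (q' := q + 1) (r' := 0) (s' := rh 29 j q + 1) (t' := 0) ?_ ?_ ?_ ?_
      · rw [e2, lin_mk (by omega)]
      · rw [show 60 * rh 29 j q + rh 27 j r + 1 = 60 * (rh 29 j q + 1) + 0 by omega,
          lin_mk (by omega)]
      · rw [e2, bs_mk h3 (by omega), rh_zero (by norm_num),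
          show 60 * rh 29 j q + rh 27 j r + 1 = 60 * (rh 29 j q + 1) + 0 by omega]
        exact (row_step (by norm_num)).1
      · push_cast; omega
    · have hq1 : q = 60 + 20 * j - 1 := by omega
      have hq2 : rh 29 j q = 59 := by rw [hq1]; exact rh_last (by norm_num)
      have e2 : (60 + 20 * j) * q + r + 1 = (60 + 20 * j) * (60 + 20 * j) := by
        have h5 : (60 + 20 * j) * (60 + 20 * j) = (60 + 20 * j) * (q + 1) := by
          rw [hq1]; congr 1; omega
        rw [h5, mul_add, mul_one]; omega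
      refine rel_mk e0 e1 (q' := 60 + 20 * j) (r' := 0) (s' := 60) (t' := 0) ?_ ?_ ?_ ?_
      · rw [e2, lin_last _ (by omega)]; ring
      · rw [hq2, hr2]; rfl
      · rw [e2, bs_last, hq2, hr2]
      · push_cast; omega

theorem rel_lft : Rel j ((60 + 20 * j) * q + r) (60 * rh 29 j q + rh 27 j r)
    (lft (60 + 20 * j) ((60 + 20 * j) * q + r)) (lft 60 (60 * rh 29 j q + rh 27 j r)) := by
  have hq0 := rh_lt (a := 29) (j := j) (by norm_num) hq
  have hr0 := rh_lt (a := 27) (j := j) (by norm_num) hr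
  have e0 := lin_mk (M := 60 + 20 * j) (q := q) hr
  have e1 := lin_mk (M := 60) (q := rh 29 j q) hr0
  unfold lft
  rcases Nat.eq_zero_or_pos r with h0 | h0
  · subst h0
    have hr2 : rh 27 j 0 = 0 := rh_zero (by norm_num)
    rcases Nat.eq_zero_or_pos q with h1 | h1
    · subst h1
      have hq2 : rh 29 j 0 = 0 := rh_zero (by norm_num)
      rw [if_pos (by ring), if_pos (by omega)]
      refine rel_mk e0 e1 (q' := 60 + 20 * j) (r' := 0) (s' := 60) (t' := 0) ?_ ?_ ?_ ?_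
      · rw [lin_last _ (by omega)]; ring
      · rfl
      · rw [bs_last]
      · push_cast; omega
    · obtain ⟨p, rfl⟩ : ∃ p, q = p + 1 := ⟨q - 1, by omega⟩
      have hp := rh_pos (a := 29) (j := j) (by norm_num) h1
      have hpos : 0 < (60 + 20 * j) * (p + 1) := Nat.mul_pos (by omega) (by omega)
      rw [if_neg (by omega), if_neg (by omega)]
      have e2 : (60 + 20 * j) * (p + 1) + 0 - 1 = (60 + 20 * j) * p + (60 + 20 * j - 1) := by
        rw [mul_add, mul_one]; omega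
      refine rel_mk e0 e1 (q' := p) (r' := 60 + 20 * j - 1) (s' := rh 29 j (p + 1) - 1)
        (t' := 59) ?_ ?_ ?_ ?_
      · rw [e2, lin_mk (by omega)]
      · rw [show 60 * rh 29 j (p + 1) + rh 27 j 0 - 1 = 60 * (rh 29 j (p + 1) - 1) + 59 by omega,
          lin_mk (by omega)]
      · rw [e2, bs_mk (by omega) (by omega), rh_last (by norm_num),
          show 60 * rh 29 j (p + 1) + rh 27 j 0 - 1 = 60 * (rh 29 j (p + 1) - 1) + 59 by omega]
        exact (row_step (by norm_num)).2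
      · push_cast; omega
  · obtain ⟨p, rfl⟩ : ∃ p, r = p + 1 := ⟨r - 1, by omega⟩
    have hp := rh_pos (a := 27) (j := j) (by norm_num) h0
    rw [if_neg (by omega), if_neg (by omega)]
    refine rel_mk e0 e1 (q' := q) (r' := p) (s' := rh 29 j q) (t' := rh 27 j (p + 1) - 1)
      ?_ ?_ ?_ ?_
    · rw [show (60 + 20 * j) * q + (p + 1) - 1 = (60 + 20 * j) * q + p by omega,
        lin_mk (by omega)]
    · rw [show 60 * rh 29 j q + rh 27 j (p + 1) - 1 = 60 * rh 29 j q + (rh 27 j (p + 1) - 1) by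
        omega, lin_mk (by omega)]
    · rw [show (60 + 20 * j) * q + (p + 1) - 1 = (60 + 20 * j) * q + p by omega,
        bs_mk hq (by omega),
        show 60 * rh 29 j q + rh 27 j (p + 1) - 1 = 60 * rh 29 j q + (rh 27 j (p + 1) - 1) by
        omega]
      exact (col_step hq0).2
    · push_cast; omega

theorem rel_upp : Rel j ((60 + 20 * j) * q + r) (60 * rh 29 j q + rh 27 j r)
    (upp (60 + 20 * j) ((60 + 20 * j) * q + r)) (upp 60 (60 * rh 29 j q + rh 27 j r)) := by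
  have hq0 := rh_lt (a := 29) (j := j) (by norm_num) hq
  have hr0 := rh_lt (a := 27) (j := j) (by norm_num) hr
  have e0 := lin_mk (M := 60 + 20 * j) (q := q) hr
  have e1 := lin_mk (M := 60) (q := rh 29 j q) hr0
  unfold upp
  by_cases h1 : q + 1 < 60 + 20 * j
  · have h2 := rh_lt_last (a := 29) (j := j) (by norm_num) h1
    have h3 : (60 + 20 * j) * (q + 2) ≤ (60 + 20 * j) * (60 + 20 * j) :=
      Nat.mul_le_mul_left _ h1
    have h4 : (60 + 20 * j) * (q + 2) = (60 + 20 * j) * q + (60 + 20 * j) + (60 + 20 * j) := by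
      ring
    have e2 : (60 + 20 * j) * q + r + (60 + 20 * j) = (60 + 20 * j) * (q + 1) + r := by ring
    rw [if_pos (by omega), if_pos (by omega)]
    refine rel_mk e0 e1 (q' := q + 1) (r' := r) (s' := rh 29 j q + 1) (t' := rh 27 j r) ?_ ?_ ?_ ?_
    · rw [e2, lin_mk hr]
    · rw [show 60 * rh 29 j q + rh 27 j r + 60 = 60 * (rh 29 j q + 1) + rh 27 j r by ring,
        lin_mk hr0]
    · rw [e2, bs_mk h1 hr,
        show 60 * rh 29 j q + rh 27 j r + 60 = 60 * (rh 29 j q + 1) + rh 27 j r by ring]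
      exact (row_step hr0).1
    · push_cast; omega
  · have hq1 : q = 60 + 20 * j - 1 := by omega
    have hq2 : rh 29 j q = 59 := by rw [hq1]; exact rh_last (by norm_num)
    have h5 : (60 + 20 * j) * q + (60 + 20 * j) = (60 + 20 * j) * (60 + 20 * j) := by
      have : (60 + 20 * j) * (q + 1) = (60 + 20 * j) * (60 + 20 * j) := by
        rw [hq1]; congr 1; omega
      rw [← this]; ring
    rcases Nat.eq_zero_or_pos r with h0 | h0
    · subst h0
      have hr2 : rh 27 j 0 = 0 := rh_zero (by norm_num)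
      rw [if_pos (by omega), if_pos (by omega)]
      have e2 : (60 + 20 * j) * q + 0 + (60 + 20 * j) = (60 + 20 * j) * (60 + 20 * j) := by omega
      refine rel_mk e0 e1 (q' := 60 + 20 * j) (r' := 0) (s' := 60) (t' := 0) ?_ ?_ ?_ ?_
      · rw [e2, lin_last _ (by omega)]; ring
      · rw [hq2, hr2]; rfl
      · rw [e2, bs_last, hq2, hr2]
      · push_cast; omega
    · obtain ⟨p, rfl⟩ : ∃ p, r = p + 1 := ⟨r - 1, by omega⟩
      have hp := rh_pos (a := 27) (j := j) (by norm_num) h0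
      rw [if_neg (by omega), if_neg (by omega)]
      have e2 : (60 + 20 * j) * q + (p + 1) + (60 + 20 * j)
          - ((60 + 20 * j) * (60 + 20 * j) + 1) = (60 + 20 * j) * 0 + p := by omega
      have e3 : 60 * rh 29 j q + rh 27 j (p + 1) + 60 - (60 * 60 + 1)
          = 60 * 0 + (rh 27 j (p + 1) - 1) := by omega
      refine rel_mk e0 e1 (q' := 0) (r' := p) (s' := 0) (t' := rh 27 j (p + 1) - 1) ?_ ?_ ?_ ?_
      · rw [e2, lin_mk (by omega)]
      · rw [e3, lin_mk (by omega)]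
      · rw [e2, e3, bs_mk (by omega) (by omega), rh_zero (by norm_num)]
        exact (col_step (by norm_num)).2
      · push_cast; omega

theorem rel_dwn : Rel j ((60 + 20 * j) * q + r) (60 * rh 29 j q + rh 27 j r)
    (dwn (60 + 20 * j) ((60 + 20 * j) * q + r)) (dwn 60 (60 * rh 29 j q + rh 27 j r)) := by
  have hq0 := rh_lt (a := 29) (j := j) (by norm_num) hq
  have hr0 := rh_lt (a := 27) (j := j) (by norm_num) hr
  have e0 := lin_mk (M := 60 + 20 * j) (q := q) hr
  have e1 := lin_mk (M := 60) (q := rh 29 j q) hr0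
  unfold dwn
  rcases Nat.eq_zero_or_pos q with h0 | h0
  · subst h0
    have hq2 : rh 29 j 0 = 0 := rh_zero (by norm_num)
    have h5 : (60 + 20 * j) * (60 + 20 * j) = (60 + 20 * j) * (60 + 20 * j - 1) + (60 + 20 * j) := by
      have : (60 + 20 * j) * (60 + 20 * j - 1 + 1) = (60 + 20 * j) * (60 + 20 * j) := by
        congr 1; omega
      rw [← this]; ring
    rw [if_pos (by omega), if_pos (by omega)]
    by_cases h1 : r + 1 < 60 + 20 * j
    · have h2 := rh_lt_last (a := 27) (j := j) (by norm_num) h1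
      have e2 : (60 + 20 * j) * 0 + r + (60 + 20 * j) * (60 + 20 * j) + 1 - (60 + 20 * j)
          = (60 + 20 * j) * (60 + 20 * j - 1) + (r + 1) := by
        rw [h5]; omega
      have e3 : 60 * rh 29 j 0 + rh 27 j r + 60 * 60 + 1 - 60 = 60 * 59 + (rh 27 j r + 1) := by
        omega
      refine rel_mk e0 e1 (q' := 60 + 20 * j - 1) (r' := r + 1) (s' := 59) (t' := rh 27 j r + 1)
        ?_ ?_ ?_ ?_
      · rw [e2, lin_mk h1]
      · rw [e3, lin_mk (by omega)]
      · rw [e2, e3, bs_mk (by omega) h1, rh_last (by norm_num)]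
        exact (col_step (by norm_num)).1
      · push_cast; omega
    · have hr1 : r = 60 + 20 * j - 1 := by omega
      have hr2 : rh 27 j r = 59 := by rw [hr1]; exact rh_last (by norm_num)
      have e2 : (60 + 20 * j) * 0 + r + (60 + 20 * j) * (60 + 20 * j) + 1 - (60 + 20 * j)
          = (60 + 20 * j) * (60 + 20 * j) := by omega
      refine rel_mk e0 e1 (q' := 60 + 20 * j) (r' := 0) (s' := 60) (t' := 0) ?_ ?_ ?_ ?_
      · rw [e2, lin_last _ (by omega)]; ring
      · rw [hq2, hr2]; rfl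
      · rw [e2, bs_last, hq2, hr2]
      · push_cast; omega
  · obtain ⟨p, rfl⟩ : ∃ p, q = p + 1 := ⟨q - 1, by omega⟩
    have hp := rh_pos (a := 29) (j := j) (by norm_num) h0
    have e4 : (60 + 20 * j) * (p + 1) = (60 + 20 * j) * p + (60 + 20 * j) := by ring
    rw [if_neg (by omega), if_neg (by omega)]
    have e2 : (60 + 20 * j) * (p + 1) + r - (60 + 20 * j) = (60 + 20 * j) * p + r := by omega
    have e3 : 60 * rh 29 j (p + 1) + rh 27 j r - 60
        = 60 * (rh 29 j (p + 1) - 1) + rh 27 j r := by omega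
    refine rel_mk e0 e1 (q' := p) (r' := r) (s' := rh 29 j (p + 1) - 1) (t' := rh 27 j r)
      ?_ ?_ ?_ ?_
    · rw [e2, lin_mk hr]
    · rw [e3, lin_mk hr0]
    · rw [e2, e3, bs_mk (by omega) hr]
      exact (row_step hr0).2
    · push_cast; omega

end

theorem rel_last_lft {j : ℕ} : Rel j ((60 + 20 * j) * (60 + 20 * j)) 3600
    (lft (60 + 20 * j) ((60 + 20 * j) * (60 + 20 * j))) (lft 60 3600) := by
  have e0 : lin (60 + 20 * j) ((60 + 20 * j) * (60 + 20 * j)) = 3 * 0 + 6 * (60 + 20 * j) := by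
    rw [lin_last _ (by omega)]; ring
  have e1 : lin 60 3600 = 3 * 0 + 6 * 60 := rfl
  have hpos : 0 < (60 + 20 * j) * (60 + 20 * j) := Nat.mul_pos (by omega) (by omega)
  have h5 : (60 + 20 * j) * (60 + 20 * j) = (60 + 20 * j) * (60 + 20 * j - 1) + (60 + 20 * j) := by
    have : (60 + 20 * j) * (60 + 20 * j - 1 + 1) = (60 + 20 * j) * (60 + 20 * j) := by
      congr 1; omega
    rw [← this]; ring
  unfold lft
  rw [if_neg (by omega), if_neg (by omega)]
  have e2 : (60 + 20 * j) * (60 + 20 * j) - 1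
      = (60 + 20 * j) * (60 + 20 * j - 1) + (60 + 20 * j - 1) := by omega
  refine rel_mk e0 e1 (q' := 60 + 20 * j - 1) (r' := 60 + 20 * j - 1) (s' := 59) (t' := 59)
    ?_ ?_ ?_ ?_
  · rw [e2, lin_mk (by omega)]
  · rfl
  · rw [e2, bs_mk (by omega) (by omega), rh_last (by norm_num), rh_last (by norm_num)]
  · push_cast; omega

theorem rel_last_rgt {j : ℕ} : Rel j ((60 + 20 * j) * (60 + 20 * j)) 3600
    (rgt (60 + 20 * j) ((60 + 20 * j) * (60 + 20 * j))) (rgt 60 3600) := by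
  have e0 : lin (60 + 20 * j) ((60 + 20 * j) * (60 + 20 * j)) = 3 * 0 + 6 * (60 + 20 * j) := by
    rw [lin_last _ (by omega)]; ring
  have e1 : lin 60 3600 = 3 * 0 + 6 * 60 := rfl
  unfold rgt
  rw [if_pos rfl, if_pos rfl]
  refine rel_mk e0 e1 (q' := 0) (r' := 0) (s' := 0) (t' := 0) ?_ ?_ ?_ ?_
  · have := lin_mk (M := 60 + 20 * j) (q := 0) (r := 0) (by omega)
    simpa using this
  · rfl
  · have := bs_mk (j := j) (q := 0) (r := 0) (by omega) (by omega)
    rw [rh_zero (by norm_num), rh_zero (by norm_num)] at this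
    rw [mul_zero, add_zero] at this
    rw [this]
  · push_cast; omega

theorem rel_last_dwn {j : ℕ} : Rel j ((60 + 20 * j) * (60 + 20 * j)) 3600
    (dwn (60 + 20 * j) ((60 + 20 * j) * (60 + 20 * j))) (dwn 60 3600) := by
  have e0 : lin (60 + 20 * j) ((60 + 20 * j) * (60 + 20 * j)) = 3 * 0 + 6 * (60 + 20 * j) := by
    rw [lin_last _ (by omega)]; ring
  have e1 : lin 60 3600 = 3 * 0 + 6 * 60 := rfl
  have h5 : (60 + 20 * j) * (60 + 20 * j) = (60 + 20 * j) * (60 + 20 * j - 1) + (60 + 20 * j) := by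
    have : (60 + 20 * j) * (60 + 20 * j - 1 + 1) = (60 + 20 * j) * (60 + 20 * j) := by
      congr 1; omega
    rw [← this]; ring
  unfold dwn
  rw [if_neg (by omega), if_neg (by omega)]
  have e2 : (60 + 20 * j) * (60 + 20 * j) - (60 + 20 * j)
      = (60 + 20 * j) * (60 + 20 * j - 1) + 0 := by omega
  refine rel_mk e0 e1 (q' := 60 + 20 * j - 1) (r' := 0) (s' := 59) (t' := 0) ?_ ?_ ?_ ?_
  · rw [e2, lin_mk (by omega)]
  · rfl
  · rw [e2, bs_mk (by omega) (by omega), rh_last (by norm_num), rh_zero (by norm_num)]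
  · push_cast; omega

theorem rel_last_upp {j : ℕ} : Rel j ((60 + 20 * j) * (60 + 20 * j)) 3600
    (upp (60 + 20 * j) ((60 + 20 * j) * (60 + 20 * j))) (upp 60 3600) := by
  have e0 : lin (60 + 20 * j) ((60 + 20 * j) * (60 + 20 * j)) = 3 * 0 + 6 * (60 + 20 * j) := by
    rw [lin_last _ (by omega)]; ring
  have e1 : lin 60 3600 = 3 * 0 + 6 * 60 := rfl
  unfold upp
  rw [if_neg (by omega), if_neg (by omega)]
  have e2 : (60 + 20 * j) * (60 + 20 * j) + (60 + 20 * j) - ((60 + 20 * j) * (60 + 20 * j) + 1)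
      = (60 + 20 * j) * 0 + (60 + 20 * j - 1) := by omega
  refine rel_mk e0 e1 (q' := 0) (r' := 60 + 20 * j - 1) (s' := 0) (t' := 59) ?_ ?_ ?_ ?_
  · rw [e2, lin_mk (by omega)]
  · rfl
  · rw [e2, bs_mk (by omega) (by omega), rh_zero (by norm_num), rh_last (by norm_num)]
  · push_cast; omega

/-- all four neighbours -/
theorem rel_all {j n : ℕ} (hn : n ≤ (60 + 20 * j) * (60 + 20 * j)) :
    bs j n ≤ 3600 ∧
    Rel j n (bs j n) (lft (60 + 20 * j) n) (lft 60 (bs j n)) ∧
    Rel j n (bs j n) (dwn (60 + 20 * j) n) (dwn 60 (bs j n)) ∧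
    Rel j n (bs j n) (rgt (60 + 20 * j) n) (rgt 60 (bs j n)) ∧
    Rel j n (bs j n) (upp (60 + 20 * j) n) (upp 60 (bs j n)) := by
  by_cases h : n = (60 + 20 * j) * (60 + 20 * j)
  · subst h
    rw [bs_last]
    exact ⟨le_rfl, rel_last_lft, rel_last_dwn, rel_last_rgt, rel_last_upp⟩
  · have hpos : 0 < 60 + 20 * j := by omega
    have hq : n / (60 + 20 * j) < 60 + 20 * j := by
      rw [Nat.div_lt_iff_lt_mul hpos]; omega
    have hr : n % (60 + 20 * j) < 60 + 20 * j := Nat.mod_lt _ hpos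
    have hn' : n = (60 + 20 * j) * (n / (60 + 20 * j)) + n % (60 + 20 * j) :=
      (Nat.div_add_mod n _).symm
    set q := n / (60 + 20 * j)
    set r := n % (60 + 20 * j)
    rw [hn', bs_mk hq hr]
    have hq0 := rh_lt (a := 29) (j := j) (by norm_num) hq
    have hr0 := rh_lt (a := 27) (j := j) (by norm_num) hr
    exact ⟨by omega, rel_lft hq hr, rel_dwn hq hr, rel_rgt hq hr, rel_upp hq hr⟩

theorem dist5_iff {a b c d e : ℕ} (h : dist5 a b c d e = true) {a' b' c' d' e' : ℕ} {t : ℤ}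
    (ha : (5 : ℤ) ∣ (a' : ℤ) - a - t) (hb : (5 : ℤ) ∣ (b' : ℤ) - b - t)
    (hc : (5 : ℤ) ∣ (c' : ℤ) - c - t) (hd : (5 : ℤ) ∣ (d' : ℤ) - d - t)
    (he : (5 : ℤ) ∣ (e' : ℤ) - e - t) : dist5 a' b' c' d' e' = true := by
  unfold dist5 at h ⊢
  simp only [Bool.and_eq_true, bne_iff_ne, ne_eq] at h ⊢
  obtain ⟨⟨⟨⟨⟨⟨⟨⟨⟨h1, h2⟩, h3⟩, h4⟩, h5⟩, h6⟩, h7⟩, h8⟩, h9⟩, h10⟩ := h
  refine ⟨⟨⟨⟨⟨⟨⟨⟨⟨?_, ?_⟩, ?_⟩, ?_⟩, ?_⟩, ?_⟩, ?_⟩, ?_⟩, ?_⟩, ?_⟩ <;> omega

theorem loc_all {j n : ℕ} (hn : n ≤ (60 + 20 * j) * (60 + 20 * j)) :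
    locOK (60 + 20 * j) (gj j) n = true := by
  obtain ⟨h0, ⟨l1, l2⟩, ⟨d1, d2⟩, ⟨r1, r2⟩, ⟨u1, u2⟩⟩ := rel_all hn
  have hb := base_ok _ h0
  unfold locOK at hb ⊢
  refine dist5_iff hb (t := (lin (60 + 20 * j) n : ℤ) - lin 60 (bs j n)) ?_ ?_ ?_ ?_ ?_
  · unfold ctr gj; push_cast; ring_nf; exact dvd_zero _
  · unfold arm; rw [l1]; push_cast; convert l2 using 1; ring
  · unfold arm; rw [d1]; push_cast; convert d2 using 1; ring
  · unfold arm; rw [r1]; push_cast; convert r2 using 1; ring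
  · unfold arm; rw [u1]; push_cast; convert u2 using 1; ring

end Pool.Agent.Lib.MP_dae7ec_co.Pow
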