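import Pool.Agent.Lib.MP_dae7ec_co.Basic
import Pool.Agent.Lib.MP_dae7ec_co.PowIns

set_option autoImplicit false

/-!
From the colouring of `ZMod (M * M + 1)` to a tiling of the Gaussian integers.
-/

namespace Pool.Agent.Lib.MP_dae7ec_co.Pow

open Finset

theorem four0 {K : ℕ} (hK : K < 4) (c p w : ZMod 5) :
    (decide (K = 0 ∧ c = p - w)).toNat + (decide (K = 1 ∧ c = p)).toNat
      + (decide (K = 2 ∧ c = p)).toNat + (decide (K = 3 ∧ c = p)).toNat
      = if c + (if K = 0 then w else 0) = p then 1 else 0 := by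
  have h : (c = p - w) = (c + w = p) := by rw [eq_sub_iff_add_eq]
  interval_cases K <;> simp [h] <;> split_ifs <;> simp_all

theorem four1 {K : ℕ} (hK : K < 4) (c p w : ZMod 5) :
    (decide (K = 0 ∧ c = p)).toNat + (decide (K = 1 ∧ c = p - w)).toNat
      + (decide (K = 2 ∧ c = p)).toNat + (decide (K = 3 ∧ c = p)).toNat
      = if c + (if K = 1 then w else 0) = p then 1 else 0 := by
  have h : (c = p - w) = (c + w = p) := by rw [eq_sub_iff_add_eq]
  interval_cases K <;> simp [h] <;> split_ifs <;> simp_all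

theorem four2 {K : ℕ} (hK : K < 4) (c p w : ZMod 5) :
    (decide (K = 0 ∧ c = p)).toNat + (decide (K = 1 ∧ c = p)).toNat
      + (decide (K = 2 ∧ c = p - w)).toNat + (decide (K = 3 ∧ c = p)).toNat
      = if c + (if K = 2 then w else 0) = p then 1 else 0 := by
  have h : (c = p - w) = (c + w = p) := by rw [eq_sub_iff_add_eq]
  interval_cases K <;> simp [h] <;> split_ifs <;> simp_all

theorem four3 {K : ℕ} (hK : K < 4) (c p w : ZMod 5) :
    (decide (K = 0 ∧ c = p)).toNat + (decide (K = 1 ∧ c = p)).toNat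
      + (decide (K = 2 ∧ c = p)).toNat + (decide (K = 3 ∧ c = p - w)).toNat
      = if c + (if K = 3 then w else 0) = p then 1 else 0 := by
  have h : (c = p - w) = (c + w = p) := by rw [eq_sub_iff_add_eq]
  interval_cases K <;> simp [h] <;> split_ifs <;> simp_all

theorem four4 {K : ℕ} (hK : K < 4) (c p : ZMod 5) :
    (decide (K = 0 ∧ c = p)).toNat + (decide (K = 1 ∧ c = p)).toNat
      + (decide (K = 2 ∧ c = p)).toNat + (decide (K = 3 ∧ c = p)).toNat
      = if c = p then 1 else 0 := by
  interval_cases K <;> simp <;> split_ifs <;> simp_all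

theorem ne_of_mod {a b : ℕ} (h : (a % 5 != b % 5) = true) : ((a : ℕ) : ZMod 5) ≠ (b : ZMod 5) := by
  intro hab
  rw [ZMod.natCast_eq_natCast_iff'] at hab
  simp [hab] at h

theorem inj_of_dist5 {a b c d e : ℕ} (h : dist5 a b c d e = true) :
    Function.Injective (![(a : ZMod 5), (b : ZMod 5), (c : ZMod 5), (d : ZMod 5), (e : ZMod 5)]) := by
  unfold dist5 at h
  simp only [Bool.and_eq_true] at h
  obtain ⟨⟨⟨⟨⟨⟨⟨⟨⟨h1, h2⟩, h3⟩, h4⟩, h5⟩, h6⟩, h7⟩, h8⟩, h9⟩, h10⟩ := h
  have h1 := ne_of_mod h1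
  have h2 := ne_of_mod h2
  have h3 := ne_of_mod h3
  have h4 := ne_of_mod h4
  have h5 := ne_of_mod h5
  have h6 := ne_of_mod h6
  have h7 := ne_of_mod h7
  have h8 := ne_of_mod h8
  have h9 := ne_of_mod h9
  have h10 := ne_of_mod h10
  intro x y hxy
  fin_cases x <;> fin_cases y <;> first
    | rfl
    | exact absurd hxy h1 | exact absurd hxy h2 | exact absurd hxy h3 | exact absurd hxy h4
    | exact absurd hxy h5 | exact absurd hxy h6 | exact absurd hxy h7 | exact absurd hxy h8
    | exact absurd hxy h9 | exact absurd hxy h10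
    | exact absurd hxy.symm h1 | exact absurd hxy.symm h2 | exact absurd hxy.symm h3
    | exact absurd hxy.symm h4 | exact absurd hxy.symm h5 | exact absurd hxy.symm h6
    | exact absurd hxy.symm h7 | exact absurd hxy.symm h8 | exact absurd hxy.symm h9
    | exact absurd hxy.symm h10

theorem sum_five {f : Fin 5 → ZMod 5} (hf : Function.Injective f) (p : ZMod 5) :
    ∑ i, (if f i = p then 1 else 0 : ℕ) = 1 := by
  have hb : Function.Bijective f := by
    rw [Fintype.bijective_iff_injective_and_card]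
    exact ⟨hf, by simp⟩
  obtain ⟨i, hi⟩ := hb.2 p
  rw [Finset.sum_eq_single i, if_pos hi]
  · intro k _ hk
    rw [if_neg]
    intro h
    exact hk (hf (h.trans hi.symm))
  · intro h
    exact absurd (Finset.mem_univ i) h

theorem sum_five' {a b c d e : ZMod 5} (hf : Function.Injective (![a, b, c, d, e])) (p : ZMod 5) :
    (if a = p then 1 else 0 : ℕ) + (if b = p then 1 else 0) + (if c = p then 1 else 0)
      + (if d = p then 1 else 0) + (if e = p then 1 else 0) = 1 := by
  have h := sum_five hf p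
  rw [Fin.sum_univ_five] at h
  exact h

section
variable {M : ℕ} (hM : 0 < M)

theorem cast_N : ((M : ZMod (M * M + 1)) * M + 1) = 0 := by
  have := ZMod.natCast_self (M * M + 1)
  push_cast at this
  exact this

theorem val_eq {v : ZMod (M * M + 1)} {n : ℕ} (hn : n < M * M + 1) (h : (n : ZMod (M * M + 1)) = v) :
    v.val = n := by
  rw [← h, ZMod.val_natCast_of_lt hn]

theorem cast_val' (v : ZMod (M * M + 1)) : ((v.val : ℕ) : ZMod (M * M + 1)) = v :=
  ZMod.natCast_zmod_val v

theorem val_lft (v : ZMod (M * M + 1)) : (v - 1).val = lft M v.val := by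
  have hv := ZMod.val_lt v
  have hc := cast_val' v
  unfold lft
  split_ifs with h
  · refine val_eq (by omega) ?_
    rw [h] at hc
    rw [← hc]
    push_cast
    linear_combination cast_N (M := M)
  · refine val_eq (by omega) ?_
    rw [Nat.cast_sub (by omega), hc]
    simp

theorem val_rgt (v : ZMod (M * M + 1)) : (v + 1).val = rgt M v.val := by
  have hv := ZMod.val_lt v
  have hc := cast_val' v
  unfold rgt
  split_ifs with h
  · refine val_eq (by omega) ?_
    rw [h] at hc
    rw [← hc]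
    push_cast
    linear_combination -cast_N (M := M)
  · refine val_eq (by omega) ?_
    push_cast
    rw [hc]

include hM in
theorem val_dwn (v : ZMod (M * M + 1)) : (v - M).val = dwn M v.val := by
  have hv := ZMod.val_lt v
  have hc := cast_val' v
  have hMM : M ≤ M * M := Nat.le_mul_of_pos_left M hM
  unfold dwn
  split_ifs with h
  · refine val_eq (by omega) ?_
    rw [Nat.cast_sub (by omega)]
    push_cast
    rw [hc]
    linear_combination cast_N (M := M)
  · refine val_eq (by omega) ?_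
    rw [Nat.cast_sub (by omega), hc]

include hM in
theorem val_upp (v : ZMod (M * M + 1)) : (v + M).val = upp M v.val := by
  have hv := ZMod.val_lt v
  have hc := cast_val' v
  have hMM : M ≤ M * M := Nat.le_mul_of_pos_left M hM
  unfold upp
  split_ifs with h
  · refine val_eq (by omega) ?_
    push_cast
    rw [hc]
  · refine val_eq (by omega) ?_
    rw [Nat.cast_sub (by omega)]
    push_cast
    rw [hc]
    linear_combination -cast_N (M := M)

end

theorem map_rot {R : Type} [CommRing R] (f : GaussianInt →+ R) (m : R)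
    (hf : ∀ z, f (⟨0, 1⟩ * z) = m * f z) (k : Fin 4) (z : GaussianInt) :
    f (rot k * z) = m ^ (k : ℕ) * f z := by
  unfold rot
  generalize (k : ℕ) = n
  induction n with
  | zero => simp
  | succ n ih => rw [pow_succ', mul_assoc, hf, ih, pow_succ']; ring

/-- the tiling by rotated copies of five Gaussian integers -/
theorem tiles_five (M : ℕ) (hM : 0 < M) (g : ℕ → ℕ) (hg : ∀ n ≤ M * M, locOK M g n = true)
    (pos : GaussianInt →+ ZMod (M * M + 1)) (lab : GaussianInt →+ ZMod 5)
    (hpos : ∀ z, pos (⟨0, 1⟩ * z) = (M : ZMod (M * M + 1)) * pos z)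
    (hlab : ∀ z, lab (⟨0, 1⟩ * z) = 2 * lab z) (t : Fin 5 → GaussianInt)
    (p0 : pos (t 0) = 0) (p1 : pos (t 1) = 1)
    (p2 : pos (t 2) = (M : ZMod (M * M + 1)))
    (p3 : pos (t 3) = (M : ZMod (M * M + 1)) ^ 2)
    (p4 : pos (t 4) = (M : ZMod (M * M + 1)) ^ 3)
    (l0 : lab (t 0) = 0) (l1 : lab (t 1) = 1) (l2 : lab (t 2) = 0) (l3 : lab (t 3) = 0)
    (l4 : lab (t 4) = 0) :
    ∃ P : Fin 4 → GaussianInt → Bool,
      ∀ w : GaussianInt, ∑ k : Fin 4, ∑ i : Fin 5, (P k (w - rot k * t i)).toNat = 1 := by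
  let K : ZMod (M * M + 1) → ℕ := fun v => g v.val % 4
  let C : ZMod (M * M + 1) → ZMod 5 := fun v => ((ctr M g v.val : ℕ) : ZMod 5)
  have hK : ∀ v, K v < 4 := fun v => Nat.mod_lt _ (by norm_num)
  refine ⟨fun k z => decide (K (pos z) = (k : ℕ) ∧ C (pos z) = lab z), fun w => ?_⟩
  have hMM : (M : ZMod (M * M + 1)) * M = -1 := by
    linear_combination cast_N (M := M)
  -- positions and labels
  have hPos : ∀ (k : Fin 4) (i : Fin 5), pos (w - rot k * t i)
      = pos w - (M : ZMod (M * M + 1)) ^ (k : ℕ) * pos (t i) := by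
    intro k i
    rw [map_sub, map_rot pos _ hpos]
  have hLab : ∀ (k : Fin 4) (i : Fin 5), lab (w - rot k * t i)
      = lab w - (2 : ZMod 5) ^ (k : ℕ) * lab (t i) := by
    intro k i
    rw [map_sub, map_rot lab _ hlab]
  simp only [hPos, hLab, Fin.sum_univ_four, Fin.sum_univ_five, p0, p1, p2, p3, p4,
    l0, l1, l2, l3, l4]
  generalize pos w = v
  generalize lab w = p
  -- the local condition
  have hloc := hg v.val (by have := ZMod.val_lt v; omega)
  unfold locOK at hloc
  have hinj := inj_of_dist5 hloc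
  have harm : ∀ (d w : ℕ) (v' : ZMod (M * M + 1)) (n : ℕ), v'.val = n →
      ((arm M g d w n : ℕ) : ZMod 5) = C v' + (if K v' = d then (w : ZMod 5) else 0) := by
    intro d w v' n hn
    subst hn
    simp only [arm, C, K, ctr]
    push_cast
    split_ifs <;> simp
  rw [harm 0 1 (v - 1) _ (val_lft v), harm 1 2 (v - M) _ (val_dwn hM v),
    harm 2 4 (v + 1) _ (val_rgt v), harm 3 3 (v + M) _ (val_upp hM v)] at hinj
  have hsum := sum_five' hinj p
  have c0 : ((0 : Fin 4) : ℕ) = 0 := rfl
  have c1 : ((1 : Fin 4) : ℕ) = 1 := rfl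
  have c2 : ((2 : Fin 4) : ℕ) = 2 := rfl
  have c3 : ((3 : Fin 4) : ℕ) = 3 := rfl
  have q2 : (M : ZMod (M * M + 1)) ^ 2 = -1 := by rw [sq, hMM]
  have q3 : (M : ZMod (M * M + 1)) ^ 3 = -M := by rw [pow_succ, q2]; ring
  have f0 := four4 (hK v) (C v) p
  have f1 := four0 (hK (v - 1)) (C (v - 1)) p 1
  have f2 := four1 (hK (v - M)) (C (v - M)) p 2
  have f3 := four2 (hK (v + 1)) (C (v + 1)) p 4
  have f4 := four3 (hK (v + M)) (C (v + M)) p 3
  have hC : ((ctr M g v.val : ℕ) : ZMod 5) = C v := rfl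
  rw [hC] at hsum
  push_cast at hsum
  rw [← f0, ← f1, ← f2, ← f3, ← f4] at hsum
  simp only [c0, c1, c2, c3, mul_zero, sub_zero, pow_zero, one_mul, mul_one, pow_one, q2, q3]
  have r1 : v - (-1 : ZMod (M * M + 1)) = v + 1 := by ring
  have r2 : v - (-(M : ZMod (M * M + 1))) = v + M := by ring
  have r3 : v - (M : ZMod (M * M + 1)) * M = v + 1 := by rw [hMM]; ring
  have r4 : v - (M : ZMod (M * M + 1)) * (-1) = v + M := by ring
  have r5 : v - (M : ZMod (M * M + 1)) * (-M) = v - 1 := by
    linear_combination hMM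
  have r6 : v - (-1 : ZMod (M * M + 1)) * M = v + M := by ring
  have r7 : v - (-1 : ZMod (M * M + 1)) * (-1) = v - 1 := by ring
  have r8 : v - (-1 : ZMod (M * M + 1)) * (-M) = v - M := by ring
  have r9 : v - (-(M : ZMod (M * M + 1))) * M = v - 1 := by
    linear_combination hMM
  have r10 : v - (-(M : ZMod (M * M + 1))) * (-1) = v - M := by ring
  have r11 : v - (-(M : ZMod (M * M + 1))) * (-M) = v + 1 := by
    linear_combination -hMM
  have s1 : p - (2 : ZMod 5) ^ 2 = p - 4 := by norm_num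
  have s2 : p - (2 : ZMod 5) ^ 3 = p - 3 := by
    rw [show (2 : ZMod 5) ^ 3 = 3 by decide]
  simp only [r1, r2, r3, r4, r5, r6, r7, r8, r9, r10, r11, s1, s2]
  refine Eq.trans ?_ hsum
  ring

end Pool.Agent.Lib.MP_dae7ec_co.Pow
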