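import Pool.Agent.Lib.MP_dae7ec_co.CertKey

set_option autoImplicit false

/-!
From tables of certificates to tilings.
-/

namespace Pool.Agent.Lib.MP_dae7ec_co

open Finset

/-- the groups `A.1` and `A.2` of points are separated first, 2-adically -/
def Sep (t : Fin 5 → ℤ) (A : List ℕ × List ℕ) : Prop :=
  (∀ x ∈ A.1, ∀ y ∈ A.1, x ≠ y → ∀ z ∈ A.2, val (pt t x - pt t z) < val (pt t x - pt t y)) ∧
    ∀ x ∈ A.2, ∀ y ∈ A.2, x ≠ y → ∀ z ∈ A.1, val (pt t x - pt t z) < val (pt t x - pt t y)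

/-- the relabelling of a list as a function -/
def tauF (tau : List ℕ) (i : Fin 5) : Fin 5 := Fin.ofNat 5 (at5 tau i)

theorem pt_comp (t : Fin 5 → ℤ) (tau : List ℕ) {n : ℕ} (hn : n < 5) :
    pt (fun i => t (tauF tau i)) n = pt t (at5 tau n) := by
  unfold pt tauF
  have : ((Fin.ofNat 5 n : Fin 5) : ℕ) = n := Nat.mod_eq_of_lt hn
  show t (Fin.ofNat 5 (at5 tau ((Fin.ofNat 5 n : Fin 5) : ℕ))) = _
  rw [this]

/-- the complete data of a table of certificates -/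
structure TableOK (c : Fin 5 → ZMod 5) (keys : List Key) (taus : List (List ℕ))
    (ex : List (List ℕ × List ℕ)) : Prop where
  keyOK : ∀ K ∈ keys, KeyOK c K
  chk : ∃ (N : ℕ) (W : List (List ℕ)), chk3 keys taus ex N permL levL W = true
  hkey : ∀ K ∈ keys, ∀ x ∈ K, x.1 < 5 ∧ x.2.1 < 5 ∧ x.1 ≠ x.2.1
  htau : ∀ tau ∈ taus, ∀ n < 5, at5 tau n < 5
  htau2 : ∀ tau ∈ taus, ∀ m < 5, ∀ n < 5, at5 tau m = at5 tau n → m = n
  hlab : ∀ tau ∈ taus, ∃ b : ZMod 5, ∀ i, b * (c (tauF tau i) - c (tauF tau 0)) = c i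
  hex : ∀ A ∈ ex, (∀ x ∈ A.1, x < 5) ∧ (∀ x ∈ A.2, x < 5) ∧ ∀ x ∈ A.1, ∀ y ∈ A.2, x ≠ y

theorem TableOK.tiles {c : Fin 5 → ZMod 5} {keys : List Key} {taus : List (List ℕ)}
    {ex : List (List ℕ × List ℕ)} (h : TableOK c keys taus ex) (t : Fin 5 → ℤ)
    (ht : Function.Injective t) (u : ZMod 5)
    (hu : ∀ i, u * ((t i : ZMod 5) - (t 0 : ZMod 5)) = c i) :
    IntTiles t ∨ ∃ A ∈ ex, Sep t A := by
  obtain ⟨N, W, hW⟩ := h.chk
  rcases classify hW h.htau h.hkey h.htau2 h.hex t ht with ⟨A, hA, h1⟩ |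
    ⟨K, hK, tau, htau, Y, hY, hv⟩
  · exact Or.inr ⟨A, hA, h1⟩
  · left
    have hinj : Function.Injective (tauF tau) := by
      intro i j hij
      have h1 := h.htau tau htau i i.2
      have h2 := h.htau tau htau j j.2
      have h3 : at5 tau i = at5 tau j := by
        have h4 : ((Fin.ofNat 5 (at5 tau i) : Fin 5) : ℕ) = (Fin.ofNat 5 (at5 tau j) : Fin 5) :=
          congrArg Fin.val hij
        rw [show ((Fin.ofNat 5 (at5 tau i) : Fin 5) : ℕ) = at5 tau i from Nat.mod_eq_of_lt h1,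
          show ((Fin.ofNat 5 (at5 tau j) : Fin 5) : ℕ) = at5 tau j from Nat.mod_eq_of_lt h2] at h4
        exact h4
      exact Fin.ext (h.htau2 tau htau i i.2 j j.2 h3)
    have hbij : Function.Bijective (tauF tau) := Finite.injective_iff_bijective.mp hinj
    obtain ⟨b, hb⟩ := h.hlab tau htau
    refine IntTiles.perm (Equiv.ofBijective (tauF tau) hbij) ?_
    refine (h.keyOK K hK).tiles (fun i => t (tauF tau i)) (ht.comp hinj) (b * u) ?_
      (h.hkey K hK) Y hY ?_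
    · intro i
      have h1 := hu (tauF tau i)
      have h2 := hu (tauF tau 0)
      have h3 := hb i
      rw [← h3, ← h1, ← h2]
      ring
    · intro x hx
      obtain ⟨b1, b2, -⟩ := h.hkey K hK x hx
      rw [pt_comp t tau b1, pt_comp t tau b2]
      exact hv x hx

end Pool.Agent.Lib.MP_dae7ec_co
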