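import Pool.Agent.Lib.MP_dae7ec_co.TableCd

set_option autoImplicit false

/-!
The table of certificates for the residues (0, 0, 1, 1, 3) modulo five: part of the check.
-/

namespace Pool.Agent.Lib.MP_dae7ec_co

theorem chkC0 : chk3 keysC tausC exC 8 permL (levL.take 16) (witC.take 16) = true := by
  decide +kernel

end Pool.Agent.Lib.MP_dae7ec_co
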