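import Pool.Agent.Lib.MP_dae7ec_co.FourMain

set_option autoImplicit false

namespace Pool.Agent.Lib.MP_dae7ec_co

open Finset

theorem sum_three {a b c : GaussianInt} (hab : a ≠ b) (hac : a ≠ c) (hbc : b ≠ c)
    (F : GaussianInt → ℕ) :
    ∑ s ∈ ({a, b, c} : Finset GaussianInt), F s = F a + F b + F c := by
  rw [Finset.sum_insert (by simp [hab, hac]), Finset.sum_insert (by simp [hbc]),
    Finset.sum_singleton]
  ring

theorem tiles_one (a : GaussianInt) : RotTiles {a} := by
  refine ⟨fun k b => if k = 0 then true else false, fun w => ?_⟩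
  simp only [Finset.sum_singleton, Fin.sum_univ_four]
  rfl

theorem tiles_two {a : GaussianInt} (ha : a ≠ 0) : RotTiles {0, a} := by
  obtain ⟨f, hf⟩ := exists_flip ha
  refine ⟨fun k b => if k = 0 then f b else false, fun w => ?_⟩
  have k1 : (1 : Fin 4) ≠ 0 := by decide
  have k3 : (3 : Fin 4) ≠ 0 := by decide
  have k5 : (2 : Fin 4) ≠ 0 := by decide
  have hs : ∀ F : GaussianInt → ℕ, ∑ s ∈ ({0, a} : Finset GaussianInt), F s = F 0 + F a := by
    intro F
    rw [Finset.sum_insert (by simp [ha.symm]), Finset.sum_singleton]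
  simp only [hs, Fin.sum_univ_four, k1, k3, k5, if_true, if_false, rot_zero, mul_zero, sub_zero,
    one_mul, Bool.toNat_false, add_zero, flip_sub hf]
  cases f w <;> rfl

theorem tiles_three_translation {a b : GaussianInt} (ha : a ≠ 0) (hb : b ≠ 0) (hab : a ≠ b)
    {p q : ℤ} (h1 : (p * a.re + q * a.im) % 3 = 1) (h2 : (p * b.re + q * b.im) % 3 = 2) :
    RotTiles {0, a, b} := by
  refine ⟨fun k x => if k = 0 then decide ((p * x.re + q * x.im) % 3 = 0) else false, fun w => ?_⟩
  have k1 : (1 : Fin 4) ≠ 0 := by decide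
  have k3 : (3 : Fin 4) ≠ 0 := by decide
  have k5 : (2 : Fin 4) ≠ 0 := by decide
  simp only [sum_three ha.symm hb.symm hab, Fin.sum_univ_four, k1, k3, k5, if_true, if_false,
    rot_zero, mul_zero, Zsqrtd.re_zero, Zsqrtd.im_zero,
    one_mul, Bool.toNat_false, add_zero, Zsqrtd.re_sub, Zsqrtd.im_sub, sub_zero]
  have e1 : p * (w.re - a.re) + q * (w.im - a.im) = (p * w.re + q * w.im) - (p * a.re + q * a.im) := by
    ring
  have e2 : p * (w.re - b.re) + q * (w.im - b.im) = (p * w.re + q * w.im) - (p * b.re + q * b.im) := by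
    ring
  simp only [e1, e2]
  set u := p * w.re + q * w.im
  set v := p * a.re + q * a.im
  set x := p * b.re + q * b.im
  have : u % 3 = 0 ∨ u % 3 = 1 ∨ u % 3 = 2 := by omega
  rcases this with h | h | h
  · have g1 : ¬ (u - v) % 3 = 0 := by omega
    have g2 : ¬ (u - x) % 3 = 0 := by omega
    simp only [g1, g2, h, decide_true, decide_false]
    rfl
  · have g1 : (u - v) % 3 = 0 := by omega
    have g2 : ¬ (u - x) % 3 = 0 := by omega
    have g3 : ¬ u % 3 = 0 := by omega
    simp only [g1, g2, g3, decide_true, decide_false]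
    rfl
  · have g1 : ¬ (u - v) % 3 = 0 := by omega
    have g2 : (u - x) % 3 = 0 := by omega
    have g3 : ¬ u % 3 = 0 := by omega
    simp only [g1, g2, g3, decide_true, decide_false]
    rfl

theorem tiles_three_reflection {M c : GaussianInt} (hM : M ≠ 0) (hc : c ≠ 0) (hMc : M ≠ c)
    {p q : ℤ} (h1 : (p * M.re + q * M.im) % 3 = 0) (h2 : (p * c.re + q * c.im) % 3 ≠ 0) :
    RotTiles {0, M, c} := by
  obtain ⟨f, hf⟩ := exists_flip hM
  let T : GaussianInt → Bool := fun x => decide ((p * x.re + q * x.im) % 3 = 0) && f x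
  refine ⟨fun k x => if k = 0 then T x else if k = 2 then T (x - (2 * c + M)) else false,
    fun w => ?_⟩
  have k1 : (1 : Fin 4) ≠ 0 := by decide
  have k2 : (1 : Fin 4) ≠ 2 := by decide
  have k3 : (3 : Fin 4) ≠ 0 := by decide
  have k4 : (3 : Fin 4) ≠ 2 := by decide
  have k5 : (2 : Fin 4) ≠ 0 := by decide
  simp only [sum_three hM.symm hc.symm hMc, Fin.sum_univ_four, k1, k2, k3, k4, k5, if_true,
    if_false, rot_zero, rot_two, mul_zero, sub_zero,
    one_mul, Bool.toNat_false, add_zero, neg_mul, sub_neg_eq_add]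
  have a1 : w - (2 * c + M) = w - c - c - M := by ring
  have a2 : w + M - (2 * c + M) = w - c - c := by ring
  have a3 : w + c - (2 * c + M) = w - c - M := by ring
  rw [a1, a2, a3]
  have hT : ∀ x, T (x - M) = (decide ((p * x.re + q * x.im) % 3 = 0) && !f x) := by
    intro x
    simp only [T, flip_sub hf, Zsqrtd.re_sub, Zsqrtd.im_sub]
    congr 1
    rw [decide_eq_decide]
    have e1 : p * (x.re - M.re) + q * (x.im - M.im) = (p * x.re + q * x.im)
      - (p * M.re + q * M.im) := by ring
    rw [e1]; omega
  rw [hT, hT, hT]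
  simp only [T, Zsqrtd.re_sub, Zsqrtd.im_sub]
  have e1 : p * (w.re - c.re) + q * (w.im - c.im) = (p * w.re + q * w.im) - (p * c.re + q * c.im) := by
    ring
  have e2 : p * (w.re - c.re - c.re) + q * (w.im - c.im - c.im)
      = (p * w.re + q * w.im) - 2 * (p * c.re + q * c.im) := by
    ring
  simp only [e1, e2]
  set u := p * w.re + q * w.im
  set v := p * c.re + q * c.im
  have hv : v % 3 = 1 ∨ v % 3 = 2 := by omega
  have : u % 3 = 0 ∨ u % 3 = 1 ∨ u % 3 = 2 := by omega
  rcases hv with h3 | h3 <;> rcases this with h | h | h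
  · have g1 : ¬ (u - v) % 3 = 0 := by omega
    have g2 : ¬ (u - 2 * v) % 3 = 0 := by omega
    simp only [g1, g2, h, decide_true, decide_false]
    cases f w <;> rfl
  · have g1 : (u - v) % 3 = 0 := by omega
    have g2 : ¬ (u - 2 * v) % 3 = 0 := by omega
    simp only [g1, g2, h, decide_true, decide_false]
    cases f (w - c) <;> rfl
  · have g1 : ¬ (u - v) % 3 = 0 := by omega
    have g2 : (u - 2 * v) % 3 = 0 := by omega
    simp only [g1, g2, h, decide_true, decide_false]
    cases f (w - c - c) <;> rfl
  · have g1 : ¬ (u - v) % 3 = 0 := by omega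
    have g2 : ¬ (u - 2 * v) % 3 = 0 := by omega
    simp only [g1, g2, h, decide_true, decide_false]
    cases f w <;> rfl
  · have g1 : ¬ (u - v) % 3 = 0 := by omega
    have g2 : (u - 2 * v) % 3 = 0 := by omega
    simp only [g1, g2, h, decide_true, decide_false]
    cases f (w - c - c) <;> rfl
  · have g1 : (u - v) % 3 = 0 := by omega
    have g2 : ¬ (u - 2 * v) % 3 = 0 := by omega
    simp only [g1, g2, h, decide_true, decide_false]
    cases f (w - c) <;> rfl

theorem zmod3_cases : ∀ a1 a2 b1 b2 : ZMod 3,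
    (a1 = 0 ∧ a2 = 0 ∧ b1 = 0 ∧ b2 = 0) ∨
    (∃ p q : ZMod 3, p * a1 + q * a2 = 1 ∧ p * b1 + q * b2 = 2) ∨
    (∃ p q : ZMod 3, p * a1 + q * a2 = 0 ∧ p * b1 + q * b2 ≠ 0) ∨
    (∃ p q : ZMod 3, p * a1 + q * a2 ≠ 0 ∧ p * b1 + q * b2 = 0) ∨
    (∃ p q : ZMod 3, p * a1 + q * a2 = p * b1 + q * b2 ∧ p * b1 + q * b2 ≠ 0) := by
  decide

theorem zmod3_mod {x : ℤ} {k : ℤ} : ((x : ℤ) : ZMod 3) = (k : ZMod 3) ↔ x % 3 = k % 3 := by
  rw [ZMod.intCast_eq_intCast_iff]
  rfl

theorem three_aux : ∀ (N : ℕ) (a b : GaussianInt),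
    a.re.natAbs + a.im.natAbs + b.re.natAbs + b.im.natAbs = N →
    a ≠ 0 → b ≠ 0 → a ≠ b → RotTiles {0, a, b} := by
  intro N
  induction N using Nat.strong_induction_on with
  | _ N ih =>
    intro a b hN ha hb hab
    have hne : a.re ≠ 0 ∨ a.im ≠ 0 := by
      by_contra hcon
      push Not at hcon
      exact ha (Zsqrtd.ext hcon.1 hcon.2)
    have lift : ∀ p : ZMod 3, ∃ p' : ℤ, (p' : ZMod 3) = p := fun p => ⟨p.val, by
      rw [Int.cast_natCast, ZMod.natCast_zmod_val]⟩
    rcases zmod3_cases (a.re : ZMod 3) (a.im : ZMod 3) (b.re : ZMod 3) (b.im : ZMod 3) with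
      h | ⟨p, q, h1, h2⟩ | ⟨p, q, h1, h2⟩ | ⟨p, q, h1, h2⟩ | ⟨p, q, h1, h2⟩
    · -- divisible by three
      obtain ⟨h1, h2, h3, h4⟩ := h
      have e1 : a.re % 3 = 0 := by have := (zmod3_mod (k := 0)).mp (by simpa using h1); omega
      have e2 : a.im % 3 = 0 := by have := (zmod3_mod (k := 0)).mp (by simpa using h2); omega
      have e3 : b.re % 3 = 0 := by have := (zmod3_mod (k := 0)).mp (by simpa using h3); omega
      have e4 : b.im % 3 = 0 := by have := (zmod3_mod (k := 0)).mp (by simpa using h4); omega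
      have h3' : (3 : GaussianInt) ≠ 0 := by
        intro h
        have := congrArg Zsqrtd.re h
        simp at this
      have ha' : a = 3 * (⟨a.re / 3, a.im / 3⟩ : GaussianInt) := by
        ext
        · simp [Zsqrtd.re_mul]; omega
        · simp [Zsqrtd.im_mul]; omega
      have hb' : b = 3 * (⟨b.re / 3, b.im / 3⟩ : GaussianInt) := by
        ext
        · simp [Zsqrtd.re_mul]; omega
        · simp [Zsqrtd.im_mul]; omega
      have key := (ih _ (by
        simp only
        omega) (⟨a.re / 3, a.im / 3⟩ : GaussianInt) ⟨b.re / 3, b.im / 3⟩ rfl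
        (by intro h; rw [h, mul_zero] at ha'; exact ha ha')
        (by intro h; rw [h, mul_zero] at hb'; exact hb hb')
        (by intro h; rw [h, ← hb'] at ha'; exact hab ha')).scale h3'
      simp only [Finset.image_insert, Finset.image_singleton, mul_zero] at key
      rwa [← ha', ← hb'] at key
    · obtain ⟨p', rfl⟩ := lift p
      obtain ⟨q', rfl⟩ := lift q
      have e1 : (p' * a.re + q' * a.im) % 3 = 1 := by
        have := (zmod3_mod (x := p' * a.re + q' * a.im) (k := 1)).mp (by push_cast; exact h1)
        omega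
      have e2 : (p' * b.re + q' * b.im) % 3 = 2 := by
        have := (zmod3_mod (x := p' * b.re + q' * b.im) (k := 2)).mp (by push_cast; exact h2)
        omega
      exact tiles_three_translation ha hb hab e1 e2
    · obtain ⟨p', rfl⟩ := lift p
      obtain ⟨q', rfl⟩ := lift q
      have e1 : (p' * a.re + q' * a.im) % 3 = 0 := by
        have := (zmod3_mod (x := p' * a.re + q' * a.im) (k := 0)).mp (by push_cast; exact h1)
        omega
      have e2 : (p' * b.re + q' * b.im) % 3 ≠ 0 := by
        intro hcon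
        apply h2
        have := (zmod3_mod (x := p' * b.re + q' * b.im) (k := 0)).mpr (by omega)
        push_cast at this
        exact this
      exact tiles_three_reflection ha hb hab e1 e2
    · obtain ⟨p', rfl⟩ := lift p
      obtain ⟨q', rfl⟩ := lift q
      have e1 : (p' * b.re + q' * b.im) % 3 = 0 := by
        have := (zmod3_mod (x := p' * b.re + q' * b.im) (k := 0)).mp (by push_cast; exact h2)
        omega
      have e2 : (p' * a.re + q' * a.im) % 3 ≠ 0 := by
        intro hcon
        apply h1
        have := (zmod3_mod (x := p' * a.re + q' * a.im) (k := 0)).mpr (by omega)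
        push_cast at this
        exact this
      have := tiles_three_reflection hb ha hab.symm e1 e2
      have he : ({0, b, a} : Finset GaussianInt) = {0, a, b} := by
        ext x; simp only [mem_insert, mem_singleton]; tauto
      rwa [he] at this
    · obtain ⟨p', rfl⟩ := lift p
      obtain ⟨q', rfl⟩ := lift q
      -- translate by `a`
      have e0 : (p' * a.re + q' * a.im) % 3 = (p' * b.re + q' * b.im) % 3 := by
        have := (zmod3_mod (x := p' * a.re + q' * a.im) (k := p' * b.re + q' * b.im)).mp
          (by push_cast; exact h1)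
        omega
      have e3 : (p' * b.re + q' * b.im) % 3 ≠ 0 := by
        intro hcon
        apply h2
        have := (zmod3_mod (x := p' * b.re + q' * b.im) (k := 0)).mpr (by omega)
        push_cast at this
        exact this
      have e1 : (p' * (b - a).re + q' * (b - a).im) % 3 = 0 := by
        rw [Zsqrtd.re_sub, Zsqrtd.im_sub,
          show p' * (b.re - a.re) + q' * (b.im - a.im)
            = (p' * b.re + q' * b.im) - (p' * a.re + q' * a.im) by ring]
        omega
      have e2 : (p' * (-a).re + q' * (-a).im) % 3 ≠ 0 := by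
        rw [Zsqrtd.re_neg, Zsqrtd.im_neg,
          show p' * (-a.re) + q' * (-a.im) = -(p' * a.re + q' * a.im) by ring]
        omega
      have := (tiles_three_reflection (M := b - a) (c := -a) (sub_ne_zero.mpr hab.symm)
        (neg_ne_zero.mpr ha) (by
          intro h
          apply hb
          have : b = b - a + a := by ring
          rw [this, h]; ring) e1 e2).translate a
      have he : Finset.image (fun s => a + s) ({0, b - a, -a} : Finset GaussianInt)
          = {0, a, b} := by
        simp only [Finset.image_insert, Finset.image_singleton, add_zero]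
        rw [show a + (b - a) = b by ring, show a + -a = 0 by ring]
        ext x; simp only [mem_insert, mem_singleton]; tauto
      rwa [he] at this

end Pool.Agent.Lib.MP_dae7ec_co
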