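import Mathlib

set_option autoImplicit false

/-!
Two-adic orders of finitely many integers.
-/

namespace Pool.Agent.Lib.MP_dae7ec_co

/-- the exponent of two -/
def val (d : ℤ) : ℕ := padicValInt 2 d

theorem val_odd {d : ℤ} (h : d % 2 = 1) : val d = 0 := by
  unfold val
  apply padicValInt.eq_zero_of_not_dvd
  omega

theorem val_two_mul {d : ℤ} (h : d ≠ 0) : val (2 * d) = val d + 1 := by
  unfold val
  have hf : Fact (Nat.Prime 2) := ⟨Nat.prime_two⟩
  rw [padicValInt.mul two_ne_zero h, add_comm]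
  congr 1
  exact padicValInt_self

theorem val_neg (d : ℤ) : val (-d) = val d := by
  unfold val padicValInt
  rw [Int.natAbs_neg]

theorem val_spec {d : ℤ} (h : d ≠ 0) : ∃ n : ℤ, d = 2 ^ val d * (2 * n + 1) := by
  obtain ⟨k, m, hm, hk⟩ := Nat.exists_eq_two_pow_mul_odd (Int.natAbs_ne_zero.mpr h)
  have key : ∀ (k : ℕ) (m : ℤ), m % 2 = 1 → m ≠ 0 → val (2 ^ k * m) = k := by
    intro k
    induction k with
    | zero => intro m h1 _; rw [pow_zero, one_mul]; exact val_odd h1
    | succ k ih =>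
      intro m h1 h2
      rw [pow_succ', mul_assoc, val_two_mul (mul_ne_zero (by positivity) h2), ih m h1 h2]
  have hm' : (m : ℤ) % 2 = 1 := by
    obtain ⟨r, hr⟩ := hm
    omega
  rcases Int.natAbs_eq d with h1 | h1
  · have e : d = 2 ^ k * (m : ℤ) := by rw [h1, hk]; push_cast; ring
    have h2 : val d = k := by rw [e]; exact key k m hm' (by omega)
    refine ⟨(m : ℤ) / 2, ?_⟩
    rw [h2]
    have : 2 * ((m : ℤ) / 2) + 1 = m := by omega
    rw [this]; exact e
  · have e : d = 2 ^ k * (-(m : ℤ)) := by rw [h1, hk]; push_cast; ring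
    have h2 : val d = k := by rw [e]; exact key k _ (by omega) (by omega)
    refine ⟨(-(m : ℤ)) / 2, ?_⟩
    rw [h2]
    have : 2 * ((-(m : ℤ)) / 2) + 1 = -m := by omega
    rw [this]; exact e

/-- the first `N` binary digits in reversed order -/
def rev : ℕ → ℤ → ℕ
  | 0, _ => 0
  | N + 1, x => 2 ^ N * (x % 2).toNat + rev N (x / 2)

theorem rev_lt (N : ℕ) : ∀ x, rev N x < 2 ^ N := by
  induction N with
  | zero => intro x; simp [rev]
  | succ N ih =>
    intro x
    have h1 := ih (x / 2)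
    have h2 : (x % 2).toNat ≤ 1 := by omega
    have h3 : 2 ^ N * (x % 2).toNat ≤ 2 ^ N * 1 := Nat.mul_le_mul_left _ h2
    unfold rev
    rw [pow_succ]
    omega

theorem rev_cmp {N : ℕ} {x y : ℤ} (h : rev (N + 1) x < rev (N + 1) y) :
    (x % 2 = 0 ∧ y % 2 = 1) ∨ (x % 2 = y % 2 ∧ rev N (x / 2) < rev N (y / 2)) := by
  have h1 := rev_lt N (x / 2)
  have h2 := rev_lt N (y / 2)
  unfold rev at h
  rcases Int.emod_two_eq_zero_or_one x with hx | hx <;>
    rcases Int.emod_two_eq_zero_or_one y with hy | hy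
  · right
    rw [hx, hy] at h
    refine ⟨by rw [hx, hy], ?_⟩
    omega
  · exact Or.inl ⟨hx, hy⟩
  · exfalso
    rw [hx, hy] at h
    simp at h
    omega
  · right
    rw [hx, hy] at h
    refine ⟨by rw [hx, hy], ?_⟩
    omega

theorem val_half {x y : ℤ} (h : x % 2 = y % 2) (hne : x ≠ y) :
    x / 2 ≠ y / 2 ∧ val (x - y) = val (x / 2 - y / 2) + 1 := by
  have h1 : x / 2 ≠ y / 2 := by omega
  refine ⟨h1, ?_⟩
  rw [← val_two_mul (sub_ne_zero.mpr h1)]
  congr 1
  omega

theorem rev_triple (N : ℕ) : ∀ x y z : ℤ, rev N x < rev N y → rev N y < rev N z →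
    val (x - y) ≠ val (y - z) ∧ val (x - z) = min (val (x - y)) (val (y - z)) := by
  induction N with
  | zero => intro x y z h; simp [rev] at h
  | succ N ih =>
    intro x y z hxy hyz
    have nxy : x ≠ y := by rintro rfl; exact lt_irrefl _ hxy
    have nyz : y ≠ z := by rintro rfl; exact lt_irrefl _ hyz
    have nxz : x ≠ z := by rintro rfl; exact lt_irrefl _ (hxy.trans hyz)
    rcases rev_cmp hxy with ⟨h1, h2⟩ | ⟨h1, h2⟩ <;> rcases rev_cmp hyz with ⟨h3, h4⟩ | ⟨h3, h4⟩
    · omega
    · -- x even, y z odd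
      have e1 : val (x - y) = 0 := val_odd (by omega)
      have e2 : val (x - z) = 0 := val_odd (by omega)
      obtain ⟨-, e3⟩ := val_half h3 nyz
      rw [e1, e2, e3]
      exact ⟨by omega, by omega⟩
    · -- x y even, z odd
      have e1 : val (y - z) = 0 := val_odd (by omega)
      have e2 : val (x - z) = 0 := val_odd (by omega)
      obtain ⟨-, e3⟩ := val_half h1 nxy
      rw [e1, e2, e3]
      exact ⟨by omega, by omega⟩
    · obtain ⟨-, e1⟩ := val_half h1 nxy
      obtain ⟨-, e2⟩ := val_half h3 nyz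
      obtain ⟨-, e3⟩ := val_half (h1.trans h3) nxz
      obtain ⟨k1, k2⟩ := ih _ _ _ h2 h4
      rw [e1, e2, e3, k2]
      exact ⟨by omega, by omega⟩

theorem rev_inj (N : ℕ) : ∀ x y : ℤ, rev N x = rev N y → (2 : ℤ) ^ N ∣ x - y := by
  induction N with
  | zero => intro x y _; simp
  | succ N ih =>
    intro x y h
    have h1 := rev_lt N (x / 2)
    have h2 := rev_lt N (y / 2)
    unfold rev at h
    have key : x % 2 = y % 2 ∧ rev N (x / 2) = rev N (y / 2) := by
      rcases Int.emod_two_eq_zero_or_one x with hx | hx <;>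
        rcases Int.emod_two_eq_zero_or_one y with hy | hy <;> rw [hx, hy] at h <;> simp at h <;>
        exact ⟨by omega, by omega⟩
    obtain ⟨m, hm⟩ := ih _ _ key.2
    refine ⟨m, ?_⟩
    rw [pow_succ']
    have h3 : x - y = 2 * (x / 2 - y / 2) := by omega
    rw [h3, hm]; ring

/-- Five different integers can be ordered so that the exponents of two of the differences are
governed by those of consecutive integers. -/
theorem exists_order (t : Fin 5 → ℤ) (ht : Function.Injective t) :
    ∃ σ : Equiv.Perm (Fin 5), ∀ i j k : Fin 5, i < j → j < k →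
      val (t (σ i) - t (σ j)) ≠ val (t (σ j) - t (σ k)) ∧
      val (t (σ i) - t (σ k)) = min (val (t (σ i) - t (σ j))) (val (t (σ j) - t (σ k))) := by
  -- a large `N`
  obtain ⟨N, hN⟩ : ∃ N : ℕ, ∀ i j, |t i - t j| < 2 ^ N := by
    refine ⟨(∑ i, ∑ j, |t i - t j|).toNat, fun i j => ?_⟩
    have h0 : ∀ i j, 0 ≤ |t i - t j| := fun i j => abs_nonneg _
    have h1 : |t i - t j| ≤ ∑ i, ∑ j, |t i - t j| :=
      (Finset.single_le_sum (f := fun j => |t i - t j|) (fun j _ => h0 i j)
        (Finset.mem_univ j)).trans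
        (Finset.single_le_sum (f := fun i => ∑ j, |t i - t j|)
          (fun i _ => Finset.sum_nonneg fun j _ => h0 i j) (Finset.mem_univ i))
    have h2 : (0 : ℤ) ≤ ∑ i, ∑ j, |t i - t j| := (h0 i j).trans h1
    have h3 : ((∑ i, ∑ j, |t i - t j|).toNat : ℤ) = ∑ i, ∑ j, |t i - t j| := Int.toNat_of_nonneg h2
    have h4 : ((∑ i, ∑ j, |t i - t j|).toNat) < 2 ^ ((∑ i, ∑ j, |t i - t j|).toNat) :=
      Nat.lt_two_pow_self
    calc |t i - t j| ≤ ((∑ i, ∑ j, |t i - t j|).toNat : ℤ) := by rw [h3]; exact h1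
      _ < 2 ^ ((∑ i, ∑ j, |t i - t j|).toNat) := by exact_mod_cast h4
  have hinj : Function.Injective fun i => rev N (t i) := by
    intro i j h
    have h1 := rev_inj N _ _ h
    by_contra hij
    have h2 : t i - t j ≠ 0 := sub_ne_zero.mpr (fun h => hij (ht h))
    have h3 := Int.le_of_dvd (abs_pos.mpr h2) ((dvd_abs _ _).mpr h1)
    exact absurd (hN i j) (not_lt.mpr h3)
  refine ⟨Tuple.sort fun i => rev N (t i), fun i j k hij hjk => ?_⟩
  have hmono := Tuple.monotone_sort fun i => rev N (t i)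
  have hstrict : StrictMono ((fun i => rev N (t i)) ∘ Tuple.sort fun i => rev N (t i)) :=
    hmono.strictMono_of_injective (hinj.comp (Equiv.injective _))
  exact rev_triple N _ _ _ (hstrict hij) (hstrict hjk)

/-- ranks of four natural numbers -/
theorem exists_ranks (y : Fin 4 → ℕ) : ∃ (Y : ℕ → ℕ) (lev : Fin 4 → Fin 4), StrictMono Y ∧
    (∀ p, y p = Y (lev p)) ∧ ∀ p, ∀ l : Fin 4, l < lev p → ∃ q, lev q = l := by
  classical
  set s : Finset ℕ := Finset.univ.image y with hs
  have hcard : s.card ≤ 4 := by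
    have := Finset.card_image_le (s := (Finset.univ : Finset (Fin 4))) (f := y)
    simpa using this
  set r := s.card with hr
  let em := s.orderEmbOfFin hr.symm
  have hmem : ∀ p, ∃ l : Fin r, em l = y p := by
    intro p
    have h1 : y p ∈ s := Finset.mem_image_of_mem _ (Finset.mem_univ p)
    have h2 : y p ∈ Set.range em := by rw [Finset.range_orderEmbOfFin]; exact h1
    exact h2
  choose lv hlv using hmem
  refine ⟨fun l => if h : l < r then em ⟨l, h⟩ else s.sup id + 1 + l,
    fun p => ⟨lv p, lt_of_lt_of_le (lv p).2 hcard⟩, ?_, ?_, ?_⟩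
  · intro a b hab
    by_cases hb : b < r
    · have ha : a < r := hab.trans hb
      simp only [ha, hb, dif_pos]
      exact em.strictMono hab
    · by_cases ha : a < r
      · simp only [ha, hb, dif_pos, dif_neg, not_false_iff]
        have h1 : em ⟨a, ha⟩ ∈ s := Finset.orderEmbOfFin_mem s hr.symm _
        have h2 : em ⟨a, ha⟩ ≤ s.sup id := Finset.le_sup (f := id) h1
        omega
      · simp only [ha, hb, dif_neg, not_false_iff]
        omega
  · intro p
    show y p = if h : (lv p : ℕ) < r then em ⟨lv p, h⟩ else _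
    rw [dif_pos (lv p).2]
    exact (hlv p).symm
  · intro p l hl
    have hl' : (l : ℕ) < r := lt_of_lt_of_le (show (l : ℕ) < lv p from hl) (lv p).2.le
    have h1 : em ⟨l, hl'⟩ ∈ s := Finset.orderEmbOfFin_mem s hr.symm _
    obtain ⟨q, -, hq⟩ := Finset.mem_image.mp h1
    refine ⟨q, ?_⟩
    have h2 : em (lv q) = em ⟨l, hl'⟩ := by rw [hlv q, hq]
    have h3 := em.injective h2
    apply Fin.ext
    show (lv q : ℕ) = l
    rw [h3]

end Pool.Agent.Lib.MP_dae7ec_co
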